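import Mathlib

/-! Means of periodic functions of an integer variable. -/

set_option autoImplicit false

open Finset

namespace Pool.Agent.D0H53.EB

/-- mean over the window `t, t+1, …, t+N-1` -/
noncomputable def av {E : Type*} [AddCommGroup E] [Module ℝ E] (N : ℕ) (t : ℤ) (g : ℤ → E) : E :=
  (N : ℝ)⁻¹ • ∑ i ∈ range N, g (t + i)

/-- `g` has the period `M` -/
def Per {E : Type*} (M : ℕ) (g : ℤ → E) : Prop := ∀ z : ℤ, g (z + M) = g z

section
variable {E : Type*}

lemma Per.mul {M : ℕ} {g : ℤ → E} (h : Per M g) (k : ℕ) : Per (M * k) g := by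
  induction k with
  | zero => intro z; simp
  | succ k ih =>
    intro z
    have : z + ((M * (k + 1) : ℕ) : ℤ) = (z + ((M * k : ℕ) : ℤ)) + M := by push_cast; ring
    rw [this, h, ih]

lemma Per.dvd {M Q : ℕ} {g : ℤ → E} (h : Per M g) (hd : M ∣ Q) : Per Q g := by
  obtain ⟨k, rfl⟩ := hd
  exact h.mul k

lemma Per.int {M : ℕ} {g : ℤ → E} (h : Per M g) (z k : ℤ) : g (z + M * k) = g z := by
  obtain ⟨n, rfl | rfl⟩ := k.eq_nat_or_neg
  · have := h.mul n z
    push_cast at this
    exact this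
  · have := h.mul n (z + M * -(n : ℤ))
    push_cast at this
    rw [← this]
    congr 1; ring

lemma Per.congr {M : ℕ} {g : ℤ → E} (h : Per M g) {a b : ℤ} (hab : (a : ZMod M) = (b : ZMod M)) : g a = g b := by
  have h1 : (M : ℤ) ∣ a - b := by
    rw [← ZMod.intCast_zmod_eq_zero_iff_dvd]
    push_cast
    rw [hab, sub_self]
  obtain ⟨k, hk⟩ := h1
  have : a = b + M * k := by linarith
  rw [this, h.int]

/-- the function on the residues -/
lemma Per.eq_cast {M : ℕ} [NeZero M] {g : ℤ → E} (h : Per M g) (a : ℤ) : g a = (fun z : ZMod M => g (z.val : ℤ)) (a : ZMod M) := by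
  apply h.congr
  rw [Int.cast_natCast, ZMod.natCast_zmod_val]

end

section
variable {E : Type*} [AddCommGroup E] [Module ℝ E]

lemma sum_window {M : ℕ} [NeZero M] (G : ZMod M → E) (t : ℤ) :
    ∑ i ∈ range M, G ((t + i : ℤ) : ZMod M) = ∑ z : ZMod M, G z := by
  symm
  apply Finset.sum_bij' (fun (z : ZMod M) _ => (z - (t : ZMod M)).val) (fun (i : ℕ) _ => ((t + i : ℤ) : ZMod M))
  · intro z _
    rw [mem_range]
    exact ZMod.val_lt _
  · intro i _; exact mem_univ _
  · intro z _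
    push_cast
    rw [ZMod.natCast_zmod_val]
    ring
  · intro i hi
    rw [mem_range] at hi
    push_cast
    rw [add_sub_cancel_left, ZMod.val_natCast_of_lt hi]
  · intro z _
    push_cast
    rw [ZMod.natCast_zmod_val]
    congr 1; ring

lemma Per.sum_window {M : ℕ} (hM : 0 < M) {g : ℤ → E} (h : Per M g) (t : ℤ) :
    ∑ i ∈ range M, g (t + i) = ∑ i ∈ range M, g i := by
  haveI : NeZero M := ⟨hM.ne'⟩
  have e : ∀ s : ℤ, ∑ i ∈ range M, g (s + i) = ∑ z : ZMod M, g (z.val : ℤ) := by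
    intro s
    rw [← Pool.Agent.D0H53.EB.sum_window (fun z : ZMod M => g (z.val : ℤ)) s]
    exact sum_congr rfl fun i _ => h.eq_cast _
  have e0 := e 0
  simp only [zero_add] at e0
  rw [e t, e0]

/-- mean over a full period does not depend on the window -/
lemma Per.av_eq {M : ℕ} (hM : 0 < M) {g : ℤ → E} (h : Per M g) (t : ℤ) : av M t g = av M 0 g := by
  unfold av
  rw [h.sum_window hM t]
  simp

lemma Per.sum_mul {M : ℕ} (hM : 0 < M) {g : ℤ → E} (h : Per M g) (t : ℤ) (k : ℕ) :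
    ∑ i ∈ range (M * k), g (t + i) = k • ∑ i ∈ range M, g i := by
  induction k with
  | zero => simp
  | succ k ih =>
    rw [show M * (k + 1) = M * k + M by ring, sum_range_add, ih, succ_nsmul]
    congr 1
    have : ∀ i ∈ range M, g (t + ((M * k + i : ℕ) : ℤ)) = g ((t + ((M * k : ℕ) : ℤ)) + i) := by
      intro i _; congr 1; push_cast; ring
    rw [sum_congr rfl this, h.sum_window hM]

lemma Per.av_dvd {M Q : ℕ} (hQ : 0 < Q) {g : ℤ → E} (h : Per M g) (hd : M ∣ Q) (t : ℤ) : av Q t g = av M 0 g := by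
  obtain ⟨k, rfl⟩ := hd
  have hM : 0 < M := Nat.pos_of_mul_pos_right hQ |> fun _ => Nat.pos_of_ne_zero (by rintro rfl; simp at hQ)
  have hk : 0 < k := Nat.pos_of_ne_zero (by rintro rfl; simp at hQ)
  unfold av
  rw [h.sum_mul hM t k]
  have e0 : ∑ i ∈ range M, g (0 + i) = ∑ i ∈ range M, g i := by simp
  rw [e0, ← Nat.cast_smul_eq_nsmul ℝ, smul_smul]
  congr 1
  push_cast
  have : (M : ℝ) ≠ 0 := by exact_mod_cast hM.ne'
  have : (k : ℝ) ≠ 0 := by exact_mod_cast hk.ne'
  field_simp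

end

lemma norm_sum_window {E : Type*} [NormedAddCommGroup E] {g : ℤ → E} {B : ℝ} (hB : ∀ z, ‖g z‖ ≤ B) (t : ℤ) (s : Finset ℕ) :
    ‖∑ i ∈ s, g (t + i)‖ ≤ s.card * B := by
  refine (norm_sum_le _ _).trans ?_
  rw [← nsmul_eq_mul, ← sum_const]
  exact sum_le_sum fun i _ => hB _

/-- **window means of periodic functions** -/
lemma av_close {E : Type*} [NormedAddCommGroup E] [NormedSpace ℝ E] {M N : ℕ} (hM : 0 < M) (hN : 0 < N) {g : ℤ → E} (h : Per M g)
    {B : ℝ} (hB : ∀ z, ‖g z‖ ≤ B) (t : ℤ) : ‖av N t g - av M 0 g‖ ≤ 2 * M * B / N := by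
  have hB0 : 0 ≤ B := (norm_nonneg _).trans (hB 0)
  have hN' : (0:ℝ) < N := by exact_mod_cast hN
  have hM' : (0:ℝ) < M := by exact_mod_cast hM
  obtain ⟨k, r, hr, hk⟩ : ∃ k r : ℕ, r < M ∧ N = M * k + r := ⟨N / M, N % M, Nat.mod_lt _ hM, (Nat.div_add_mod _ _).symm⟩
  have e0 : ∑ i ∈ range M, g (0 + i) = ∑ i ∈ range M, g i := by simp
  have e1 : ∑ i ∈ range N, g (t + i) = k • ∑ i ∈ range M, g i + ∑ i ∈ range r, g ((t + ((M * k : ℕ) : ℤ)) + i) := by
    rw [hk, sum_range_add, h.sum_mul hM]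
    congr 1
    refine sum_congr rfl fun i _ => ?_
    congr 1; push_cast; ring
  have e2 : av N t g - av M 0 g = (N:ℝ)⁻¹ • ∑ i ∈ range r, g ((t + ((M * k : ℕ) : ℤ)) + i) -
      ((r:ℝ) / (M * N)) • ∑ i ∈ range M, g i := by
    unfold av
    rw [e1, e0, smul_add, ← Nat.cast_smul_eq_nsmul ℝ, smul_smul]
    have e3 : (M:ℝ)⁻¹ = (N:ℝ)⁻¹ * k + (r:ℝ) / (M * N) := by
      have : (N:ℝ) = M * k + r := by exact_mod_cast hk
      field_simp
      linarith
    rw [e3, add_smul]
    abel
  have h1 := norm_sum_window hB (t + ((M * k : ℕ) : ℤ)) (range r)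
  have h2 := norm_sum_window hB 0 (range M)
  rw [card_range] at h1 h2
  rw [e0] at h2
  rw [e2]
  refine (norm_sub_le _ _).trans ?_
  rw [norm_smul, norm_smul, Real.norm_of_nonneg (by positivity), Real.norm_of_nonneg (by positivity)]
  have hr' : (r:ℝ) ≤ M := by exact_mod_cast hr.le
  calc (N:ℝ)⁻¹ * ‖∑ i ∈ range r, g ((t + ((M * k : ℕ) : ℤ)) + i)‖ + (r:ℝ) / (M * N) * ‖∑ i ∈ range M, g i‖
      ≤ (N:ℝ)⁻¹ * (r * B) + (r:ℝ) / (M * N) * (M * B) := by gcongr
    _ = 2 * r * B / N := by field_simp; ring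
    _ ≤ 2 * M * B / N := by gcongr

/-- two coprime periods -/
lemma sum_coprime {m n : ℕ} (hm : 0 < m) (hn : 0 < n) (hmn : Nat.Coprime m n) {F G : ℤ → ℂ} (hF : Per m F) (hG : Per n G) :
    ∑ i ∈ range (m * n), F i * G i = (∑ i ∈ range m, F i) * ∑ i ∈ range n, G i := by
  haveI : NeZero m := ⟨hm.ne'⟩
  haveI : NeZero n := ⟨hn.ne'⟩
  have key : ∀ k : ℕ, ∑ i ∈ range (m * k), F i * G i = ∑ j ∈ range k, ∑ a ∈ range m, F a * G (a + m * j) := by
    intro k
    induction k with
    | zero => simp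
    | succ k ih =>
      rw [show m * (k + 1) = m * k + m by ring, sum_range_add, ih, sum_range_succ]
      congr 1
      refine sum_congr rfl fun a _ => ?_
      have e1 : F ((m * k + a : ℕ) : ℤ) = F a := by
        have := hF.mul k a
        rw [← this]
        congr 1; push_cast; ring
      rw [e1]
      congr 2
      push_cast; ring
  rw [key, sum_comm, sum_mul]
  refine sum_congr rfl fun a _ => ?_
  rw [← mul_sum]
  congr 1
  have e1 : ∀ j ∈ range n, G (a + m * j) = (fun z : ZMod n => (fun w : ZMod n => G (w.val : ℤ)) ((a : ZMod n) + m * z)) ((0 + j : ℤ) : ZMod n) := by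
    intro j _
    rw [hG.eq_cast]
    simp
  rw [sum_congr rfl e1, sum_window (fun z : ZMod n => (fun w : ZMod n => G (w.val : ℤ)) ((a : ZMod n) + m * z)) 0]
  have e2 : ∑ i ∈ range n, G i = ∑ z : ZMod n, G (z.val : ℤ) := by
    rw [← sum_window (fun z : ZMod n => G (z.val : ℤ)) 0]
    refine sum_congr rfl fun i _ => ?_
    rw [hG.eq_cast]
    simp
  rw [e2]
  have hu : IsUnit ((m : ZMod n)) := (ZMod.isUnit_iff_coprime m n).2 hmn
  apply Fintype.sum_bijective (fun z : ZMod n => (a : ZMod n) + m * z)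
  · constructor
    · intro x y hxy
      simp only [add_right_inj] at hxy
      exact hu.mul_left_cancel hxy
    · intro y
      refine ⟨hu.unit⁻¹ * (y - a), ?_⟩
      simp only
      rw [← mul_assoc]
      have : (m : ZMod n) * ((hu.unit⁻¹ : (ZMod n)ˣ) : ZMod n) = 1 := by
        have := hu.unit.mul_inv
        rw [IsUnit.unit_spec] at this
        exact this
      rw [this]; ring
  · intro z; rfl

/-- **independence of the residues modulo different primes** -/
lemma av_prod (P : Finset ℕ) (hP : ∀ p ∈ P, p.Prime) (h : ℕ → ℤ → ℂ) (hh : ∀ p ∈ P, Per p (h p)) :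
    Per (∏ p ∈ P, p) (fun t => ∏ p ∈ P, h p t) ∧
    av (∏ p ∈ P, p) 0 (fun t => ∏ p ∈ P, h p t) = ∏ p ∈ P, av p 0 (h p) := by
  classical
  induction P using Finset.induction_on with
  | empty =>
    refine ⟨fun z => by simp, ?_⟩
    unfold av
    simp
  | insert q P hq ih =>
    obtain ⟨h1, h2⟩ := ih (fun p hp => hP p (mem_insert_of_mem hp)) (fun p hp => hh p (mem_insert_of_mem hp))
    have hqp : q.Prime := hP q (mem_insert_self _ _)
    have hper : Per q (h q) := hh q (mem_insert_self _ _)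
    have hQ : 0 < ∏ p ∈ P, p := Finset.prod_pos fun p hp => (hP p (mem_insert_of_mem hp)).pos
    have hcop : Nat.Coprime q (∏ p ∈ P, p) := by
      apply Nat.Coprime.prod_right
      intro p hp
      apply (Nat.coprime_primes hqp (hP p (mem_insert_of_mem hp))).2
      rintro rfl
      exact hq hp
    simp only [prod_insert hq]
    refine ⟨?_, ?_⟩
    · intro z
      have a1 := hper.dvd (Dvd.intro _ rfl : q ∣ q * ∏ p ∈ P, p) z
      have a2 := h1.dvd (Dvd.intro_left _ rfl : (∏ p ∈ P, p) ∣ q * ∏ p ∈ P, p) z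
      simp only at a1 a2 ⊢
      rw [a1, a2]
    · rw [← h2]
      unfold av
      simp only [zero_add]
      rw [sum_coprime hqp.pos hQ hcop hper h1]
      simp only [Complex.real_smul]
      push_cast
      rw [mul_inv]
      ring

end Pool.Agent.D0H53.EB
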