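import Mathlib
import Pool.Agent.D0H53.EB.E1

/-! Moments over a window and over a full period. -/

set_option autoImplicit false

open Finset

namespace Pool.Agent.D0H53.EB

section
variable {E : Type*} [AddCommGroup E] [Module ℝ E]

lemma av_sum {ι : Type*} (s : Finset ι) (F : ι → ℤ → E) (N : ℕ) (t : ℤ) :
    av N t (fun z => ∑ i ∈ s, F i z) = ∑ i ∈ s, av N t (F i) := by
  unfold av
  rw [sum_comm, smul_sum]

lemma av_add (f g : ℤ → E) (N : ℕ) (t : ℤ) : av N t (fun z => f z + g z) = av N t f + av N t g := by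
  unfold av
  rw [sum_add_distrib, smul_add]

lemma av_sub (f g : ℤ → E) (N : ℕ) (t : ℤ) : av N t (fun z => f z - g z) = av N t f - av N t g := by
  unfold av
  rw [sum_sub_distrib, smul_sub]

lemma av_const {N : ℕ} (hN : 0 < N) (t : ℤ) (c : E) : av N t (fun _ => c) = c := by
  unfold av
  rw [sum_const, card_range, ← Nat.cast_smul_eq_nsmul ℝ, smul_smul]
  have : (N:ℝ) ≠ 0 := by exact_mod_cast hN.ne'
  rw [inv_mul_cancel₀ this, one_smul]
end

lemma av_mono {N : ℕ} {t : ℤ} {f g : ℤ → ℝ} (h : ∀ z, f z ≤ g z) : av N t f ≤ av N t g := by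
  unfold av
  simp only [smul_eq_mul]
  exact mul_le_mul_of_nonneg_left (sum_le_sum fun i _ => h _) (by positivity)

lemma av_nonneg {N : ℕ} {t : ℤ} {f : ℤ → ℝ} (h : ∀ z, 0 ≤ f z) : 0 ≤ av N t f := by
  unfold av
  simp only [smul_eq_mul]
  exact mul_nonneg (by positivity) (sum_nonneg fun i _ => h _)

lemma norm_av_le {E : Type*} [NormedAddCommGroup E] [NormedSpace ℝ E] (N : ℕ) (t : ℤ) (f : ℤ → E) :
    ‖av N t f‖ ≤ av N t (fun z => ‖f z‖) := by
  unfold av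
  rw [norm_smul, Real.norm_of_nonneg (by positivity), smul_eq_mul]
  exact mul_le_mul_of_nonneg_left (norm_sum_le _ _) (by positivity)

lemma av_mul_left {N : ℕ} {t : ℤ} (c : ℝ) (f : ℤ → ℝ) : av N t (fun z => c * f z) = c * av N t f := by
  unfold av
  simp only [smul_eq_mul]
  rw [← mul_sum]
  ring

lemma av_ofReal {N : ℕ} {t : ℤ} (f : ℤ → ℝ) : av N t (fun z => (f z : ℂ)) = ((av N t f : ℝ) : ℂ) := by
  unfold av
  rw [Complex.real_smul, smul_eq_mul]
  push_cast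
  rfl

/-- **powers of sums of functions with small prime periods** -/
lemma pow_transfer {P : Finset ℕ} (hP : ∀ p ∈ P, p.Prime) {x : ℕ} (hx1 : 1 ≤ x) (hx : ∀ p ∈ P, p ≤ x) {g : ℕ → ℤ → ℝ}
    (hg : ∀ p ∈ P, Per p (g p)) {c : ℕ → ℝ} (hc : ∀ p ∈ P, ∀ z, |g p z| ≤ c p) {N : ℕ} (hN : 0 < N) (t : ℤ) (k : ℕ) :
    |av N t (fun z => (∑ p ∈ P, g p z) ^ k) - av (∏ p ∈ P, p) 0 (fun z => (∑ p ∈ P, g p z) ^ k)| ≤
      2 * (x:ℝ) ^ k * (∑ p ∈ P, c p) ^ k / N := by
  classical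
  have hQ : 0 < ∏ p ∈ P, p := Finset.prod_pos fun p hp => (hP p hp).pos
  have hc0 : ∀ p ∈ P, 0 ≤ c p := fun p hp => (abs_nonneg _).trans (hc p hp 0)
  have e1 : (fun z => (∑ p ∈ P, g p z) ^ k) = fun z => ∑ f ∈ Fintype.piFinset (fun _ : Fin k => P), ∏ i, g (f i) z := by
    funext z
    exact Finset.sum_pow' _ _ _
  rw [e1, av_sum, av_sum, ← sum_sub_distrib]
  refine (abs_sum_le_sum_abs _ _).trans ?_
  have hN' : (0:ℝ) < N := by exact_mod_cast hN
  have key : ∀ f ∈ Fintype.piFinset (fun _ : Fin k => P), |av N t (fun z => ∏ i, g (f i) z) - av (∏ p ∈ P, p) 0 (fun z => ∏ i, g (f i) z)| ≤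
      2 * (x:ℝ) ^ k / N * ∏ i, c (f i) := by
    intro f hf
    rw [Fintype.mem_piFinset] at hf
    obtain ⟨T, hT⟩ : ∃ T, T = Finset.univ.image f := ⟨_, rfl⟩
    have hTP : ∀ p ∈ T, p ∈ P := by
      intro p hp
      rw [hT, mem_image] at hp
      obtain ⟨i, -, rfl⟩ := hp
      exact hf i
    have hM : 0 < ∏ p ∈ T, p := Finset.prod_pos fun p hp => (hP p (hTP p hp)).pos
    have hMx : ∏ p ∈ T, p ≤ x ^ k := by
      calc ∏ p ∈ T, p ≤ x ^ T.card := Finset.prod_le_pow_card _ _ _ fun p hp => hx p (hTP p hp)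
        _ ≤ x ^ k := by
          apply Nat.pow_le_pow_right hx1
          rw [hT]
          exact card_image_le.trans (by simp)
    have hper : Per (∏ p ∈ T, p) (fun z => ∏ i, g (f i) z) := by
      intro z
      refine prod_congr rfl fun i _ => ?_
      have : f i ∈ T := by rw [hT]; exact mem_image_of_mem _ (mem_univ _)
      exact (hg (f i) (hf i)).dvd (dvd_prod_of_mem (fun p => p) this) z
    have hdvd : ∏ p ∈ T, p ∣ ∏ p ∈ P, p := prod_dvd_prod_of_subset _ _ _ hTP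
    have hB : ∀ z, ‖∏ i, g (f i) z‖ ≤ ∏ i, c (f i) := by
      intro z
      rw [Real.norm_eq_abs, abs_prod]
      exact prod_le_prod (fun _ _ => abs_nonneg _) fun i _ => hc _ (hf i) z
    rw [hper.av_dvd hQ hdvd 0, ← Real.norm_eq_abs]
    refine (av_close hM hN hper hB t).trans ?_
    have h0 : 0 ≤ ∏ i, c (f i) := prod_nonneg fun i _ => hc0 _ (hf i)
    have h1 : ((∏ p ∈ T, p : ℕ) : ℝ) ≤ (x:ℝ) ^ k := by exact_mod_cast hMx
    calc 2 * ((∏ p ∈ T, p : ℕ) : ℝ) * (∏ i, c (f i)) / N ≤ 2 * (x:ℝ) ^ k * (∏ i, c (f i)) / N := by gcongr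
      _ = _ := by ring
  refine (sum_le_sum key).trans (le_of_eq ?_)
  rw [← mul_sum, Finset.sum_pow' P c k]
  ring

end Pool.Agent.D0H53.EB
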