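import Mathlib
import Pool.Agent.D0H53.EB.E2

/-! Characteristic functions: the model. -/

set_option autoImplicit false

open Finset

namespace Pool.Agent.D0H53.EB

/-- `e^y ≤ y + e^{y²}` -/
lemma exp_le_add_exp_sq (y : ℝ) : Real.exp y ≤ y + Real.exp (y ^ 2) := by
  have h1 : 1 + y ^ 2 ≤ Real.exp (y ^ 2) := by linarith [Real.add_one_le_exp (y ^ 2)]
  by_cases hy : |y| ≤ 1
  · have := Real.abs_exp_sub_one_sub_id_le hy
    rw [abs_le] at this
    linarith [this.2]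
  · rw [not_le] at hy
    rcases le_or_gt 0 y with h0 | h0
    · rw [abs_of_nonneg h0] at hy
      have : Real.exp y ≤ Real.exp (y ^ 2) := Real.exp_le_exp.2 (by nlinarith)
      linarith
    · rw [abs_of_neg h0] at hy
      have h2 : Real.exp y ≤ 1 := Real.exp_le_one_iff.2 h0.le
      nlinarith

/-- moment generating function of a bounded centred function -/
lemma av_exp_le {M : ℕ} (hM : 0 < M) {f : ℤ → ℝ} {c : ℝ} (hf : ∀ z, |f z| ≤ c) (h0 : av M 0 f = 0) :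
    av M 0 (fun z => Real.exp (f z)) ≤ Real.exp (c ^ 2) := by
  have h1 : av M 0 (fun z => Real.exp (f z)) ≤ av M 0 (fun z => f z + Real.exp (c ^ 2)) := by
    apply av_mono
    intro z
    refine (exp_le_add_exp_sq _).trans ?_
    have : f z ^ 2 ≤ c ^ 2 := sq_le_sq' (by linarith [(abs_le.1 (hf z)).1]) ((abs_le.1 (hf z)).2)
    linarith [Real.exp_le_exp.2 this]
  rw [av_add, h0, av_const hM, zero_add] at h1
  exact h1

/-- even powers against exponentials -/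
lemma pow_le_exp {K : ℕ} (hK : Even K) {lam : ℝ} (hl : 0 < lam) (T : ℝ) :
    T ^ K / (Nat.factorial K : ℝ) ≤ (lam ^ K)⁻¹ * (Real.exp (lam * T) + Real.exp (-(lam * T))) := by
  have h1 : (lam * T) ^ K / (Nat.factorial K : ℝ) ≤ Real.exp |lam * T| := by
    have := Real.pow_div_factorial_le_exp |lam * T| (abs_nonneg _) K
    rwa [hK.pow_abs] at this
  have h2 : Real.exp |lam * T| ≤ Real.exp (lam * T) + Real.exp (-(lam * T)) := by
    rcases abs_cases (lam * T) with ⟨h, -⟩ | ⟨h, -⟩ <;> rw [h]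
    · linarith [Real.exp_pos (-(lam * T))]
    · linarith [Real.exp_pos (lam * T)]
  have h3 : (lam * T) ^ K / (Nat.factorial K : ℝ) = lam ^ K * (T ^ K / (Nat.factorial K : ℝ)) := by
    rw [mul_pow]; ring
  rw [h3] at h1
  rw [inv_mul_eq_div, le_div_iff₀ (by positivity)]
  linarith

section model
variable {P : Finset ℕ} {Y : ℕ → ℤ → ℝ} {c : ℕ → ℝ}

/-- even moments in the model -/
lemma model_moment (hP : ∀ p ∈ P, p.Prime) (hY : ∀ p ∈ P, Per p (Y p)) (hc : ∀ p ∈ P, ∀ z, |Y p z| ≤ c p)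
    (h0 : ∀ p ∈ P, av p 0 (Y p) = 0) {B : ℝ} (hB : ∑ p ∈ P, c p ^ 2 ≤ B) {K : ℕ} (hK : Even K) :
    av (∏ p ∈ P, p) 0 (fun z => (∑ p ∈ P, Y p z) ^ K / (Nat.factorial K : ℝ)) ≤ 2 * Real.exp (4 * B) / 2 ^ K := by
  have key : ∀ s : ℝ, |s| = 2 → av (∏ p ∈ P, p) 0 (fun z => Real.exp (s * ∑ p ∈ P, Y p z)) ≤ Real.exp (4 * B) := by
    intro s hs
    have e1 : (((av (∏ p ∈ P, p) 0 (fun z => Real.exp (s * ∑ p ∈ P, Y p z)) : ℝ) : ℝ) : ℂ) =
        ((∏ p ∈ P, av p 0 (fun z => Real.exp (s * Y p z)) : ℝ) : ℂ) := by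
      rw [← av_ofReal]
      push_cast
      have := (av_prod P hP (fun p z => Complex.exp ((s * Y p z : ℝ) : ℂ)) (fun p hp z => by
        simp only; rw [hY p hp])).2
      rw [show (fun z => Complex.exp ((s : ℂ) * ∑ p ∈ P, (Y p z : ℂ))) = fun t => ∏ p ∈ P, Complex.exp ((s * Y p t : ℝ) : ℂ) from by
        funext z
        rw [← Complex.exp_sum]
        congr 1
        push_cast
        rw [mul_sum]]
      rw [this]
      refine prod_congr rfl fun p _ => ?_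
      rw [← av_ofReal]
      congr 1
      funext z
      push_cast
      rfl
    have e2 : av (∏ p ∈ P, p) 0 (fun z => Real.exp (s * ∑ p ∈ P, Y p z)) = ∏ p ∈ P, av p 0 (fun z => Real.exp (s * Y p z)) := by
      exact_mod_cast e1
    rw [e2]
    calc ∏ p ∈ P, av p 0 (fun z => Real.exp (s * Y p z)) ≤ ∏ p ∈ P, Real.exp ((2 * c p) ^ 2) := by
          apply prod_le_prod
          · intro p _; exact av_nonneg fun z => (Real.exp_pos _).le
          · intro p hp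
            apply av_exp_le (hP p hp).pos
            · intro z
              rw [abs_mul, hs]
              linarith [hc p hp z]
            · rw [av_mul_left, h0 p hp, mul_zero]
      _ = Real.exp (4 * ∑ p ∈ P, c p ^ 2) := by
          rw [← Real.exp_sum]
          congr 1
          rw [mul_sum]
          exact sum_congr rfl fun p _ => by ring
      _ ≤ Real.exp (4 * B) := Real.exp_le_exp.2 (by linarith)
  have h1 : av (∏ p ∈ P, p) 0 (fun z => (∑ p ∈ P, Y p z) ^ K / (Nat.factorial K : ℝ)) ≤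
      av (∏ p ∈ P, p) 0 (fun z => ((2:ℝ) ^ K)⁻¹ * (Real.exp (2 * ∑ p ∈ P, Y p z) + Real.exp (-2 * ∑ p ∈ P, Y p z))) := by
    apply av_mono
    intro z
    have := pow_le_exp hK (show (0:ℝ) < 2 by norm_num) (∑ p ∈ P, Y p z)
    rwa [← neg_mul] at this
  refine h1.trans ?_
  rw [av_mul_left, av_add]
  have a1 := key 2 (by norm_num)
  have a2 := key (-2) (by norm_num)
  rw [inv_mul_eq_div]
  gcongr
  linarith

/-- the local characteristic function -/
lemma local_char {M : ℕ} (hM : 0 < M) {f : ℤ → ℝ} {c v : ℝ} (hc1 : c ≤ 1) (hf : ∀ z, |f z| ≤ c) (h0 : av M 0 f = 0)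
    (hv : av M 0 (fun z => f z ^ 2) = v) :
    ‖av M 0 (fun z => Complex.exp (Complex.I * (f z : ℂ))) - Complex.exp (-(v / 2 : ℝ))‖ ≤ 2 * c ^ 3 := by
  have hc0 : 0 ≤ c := (abs_nonneg _).trans (hf 0)
  have hv0 : 0 ≤ v := by rw [← hv]; exact av_nonneg fun z => sq_nonneg _
  have hvc : v ≤ c ^ 2 := by
    rw [← hv]
    calc av M 0 (fun z => f z ^ 2) ≤ av M 0 (fun _ => c ^ 2) := av_mono fun z =>
          sq_le_sq' (by linarith [(abs_le.1 (hf z)).1]) ((abs_le.1 (hf z)).2)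
      _ = c ^ 2 := av_const hM _ _
  have h1 : ∀ y : ℝ, |y| ≤ 1 → ‖Complex.exp (Complex.I * (y:ℂ)) - (1 + Complex.I * y - (y:ℂ) ^ 2 / 2)‖ ≤ |y| ^ 3 := by
    intro y hy
    have hn : ‖Complex.I * (y:ℂ)‖ = |y| := by
      rw [norm_mul, Complex.norm_I, one_mul, Complex.norm_real, Real.norm_eq_abs]
    have := Complex.exp_bound (x := Complex.I * (y:ℂ)) (by rw [hn]; exact hy) (n := 3) (by norm_num)
    rw [hn] at this
    have e : ∑ m ∈ range 3, (Complex.I * (y:ℂ)) ^ m / (m.factorial : ℂ) = 1 + Complex.I * y - (y:ℂ) ^ 2 / 2 := by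
      rw [sum_range_succ, sum_range_succ, sum_range_succ, sum_range_zero, mul_pow Complex.I _ 2, Complex.I_sq]
      norm_num [Nat.factorial]
      ring
    rw [e] at this
    refine this.trans ?_
    have h3 : (0:ℝ) ≤ |y| ^ 3 := by positivity
    norm_num [Nat.factorial]
    nlinarith
  have e1 : av M 0 (fun z : ℤ => (1 + Complex.I * (f z : ℂ) - (f z : ℂ) ^ 2 / 2)) = ((1 - v / 2 : ℝ) : ℂ) := by
    have e2 : (fun z : ℤ => (1 + Complex.I * (f z : ℂ) - (f z : ℂ) ^ 2 / 2)) = fun z : ℤ => (((1:ℝ) : ℂ) + Complex.I • ((f z : ℝ) : ℂ)) - (((1/2) * f z ^ 2 : ℝ) : ℂ) := by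
      funext z
      push_cast
      rw [smul_eq_mul]
      ring
    have e3 : av M 0 (fun z => Complex.I • ((f z : ℝ) : ℂ)) = 0 := by
      have : av M 0 (fun z => Complex.I • ((f z : ℝ) : ℂ)) = Complex.I * av M 0 (fun z => ((f z : ℝ) : ℂ)) := by
        unfold av
        simp only [smul_eq_mul, Complex.real_smul]
        rw [← mul_sum]
        ring
      rw [this, av_ofReal, h0]
      simp
    have e4 : av M 0 (fun _ : ℤ => ((1:ℝ) : ℂ)) = 1 := by
      rw [av_const hM]; simp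
    rw [e2, av_sub (fun z => ((1:ℝ) : ℂ) + Complex.I • ((f z : ℝ) : ℂ)), av_add (fun _ => ((1:ℝ):ℂ)), e3, e4, av_ofReal, av_mul_left, hv]
    push_cast
    ring
  have h2 : ‖av M 0 (fun z => Complex.exp (Complex.I * (f z : ℂ))) - ((1 - v / 2 : ℝ) : ℂ)‖ ≤ c ^ 3 := by
    rw [← e1, ← av_sub]
    refine (norm_av_le _ _ _).trans ?_
    calc av M 0 (fun z => ‖Complex.exp (Complex.I * (f z : ℂ)) - (1 + Complex.I * (f z : ℂ) - (f z : ℂ) ^ 2 / 2)‖)
        ≤ av M 0 (fun _ => c ^ 3) := av_mono fun z => (h1 _ ((hf z).trans hc1)).trans (pow_le_pow_left₀ (abs_nonneg _) (hf z) 3)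
      _ = c ^ 3 := av_const hM _ _
  have h3 : ‖((1 - v / 2 : ℝ) : ℂ) - Complex.exp (-(v / 2 : ℝ))‖ ≤ c ^ 3 := by
    have e5 : ((1 - v / 2 : ℝ) : ℂ) - Complex.exp (-(v / 2 : ℝ)) = ((-(Real.exp (-(v/2)) - 1 - (-(v/2))) : ℝ) : ℂ) := by
      push_cast
      ring
    rw [e5, Complex.norm_real, Real.norm_eq_abs, abs_neg]
    have hv1 : |-(v/2)| ≤ 1 := by
      rw [abs_neg, abs_of_nonneg (by linarith)]
      nlinarith
    refine (Real.abs_exp_sub_one_sub_id_le hv1).trans ?_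
    have : v ^ 2 ≤ c ^ 3 := by
      calc v ^ 2 ≤ (c ^ 2) ^ 2 := pow_le_pow_left₀ hv0 hvc 2
        _ = c ^ 3 * c := by ring
        _ ≤ c ^ 3 * 1 := by gcongr
        _ = c ^ 3 := mul_one _
    nlinarith [sq_nonneg v]
  calc ‖av M 0 (fun z => Complex.exp (Complex.I * (f z : ℂ))) - Complex.exp (-(v / 2 : ℝ))‖ =
      ‖(av M 0 (fun z => Complex.exp (Complex.I * (f z : ℂ))) - ((1 - v / 2 : ℝ) : ℂ)) + (((1 - v / 2 : ℝ) : ℂ) - Complex.exp (-(v / 2 : ℝ)))‖ := by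
        congr 1; ring
    _ ≤ c ^ 3 + c ^ 3 := (norm_add_le _ _).trans (add_le_add h2 h3)
    _ = 2 * c ^ 3 := by ring

/-- products of numbers in the unit disc -/
lemma prod_close (P : Finset ℕ) (a b : ℕ → ℂ) (ha : ∀ p ∈ P, ‖a p‖ ≤ 1) (hb : ∀ p ∈ P, ‖b p‖ ≤ 1) :
    ‖∏ p ∈ P, a p - ∏ p ∈ P, b p‖ ≤ ∑ p ∈ P, ‖a p - b p‖ := by
  classical
  induction P using Finset.induction_on with
  | empty => simp
  | insert q P hq ih =>
    have ih' := ih (fun p hp => ha p (mem_insert_of_mem hp)) (fun p hp => hb p (mem_insert_of_mem hp))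
    rw [prod_insert hq, prod_insert hq, sum_insert hq]
    have h1 : ‖∏ p ∈ P, b p‖ ≤ 1 := by
      rw [norm_prod]
      exact prod_le_one (fun _ _ => norm_nonneg _) fun p hp => hb p (mem_insert_of_mem hp)
    have e : a q * ∏ p ∈ P, a p - b q * ∏ p ∈ P, b p = a q * (∏ p ∈ P, a p - ∏ p ∈ P, b p) + (a q - b q) * ∏ p ∈ P, b p := by ring
    rw [e]
    refine (norm_add_le _ _).trans ?_
    rw [norm_mul, norm_mul]
    have h2 := ha q (mem_insert_self _ _)
    calc ‖a q‖ * ‖∏ p ∈ P, a p - ∏ p ∈ P, b p‖ + ‖a q - b q‖ * ‖∏ p ∈ P, b p‖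
        ≤ 1 * (∑ p ∈ P, ‖a p - b p‖) + ‖a q - b q‖ * 1 := by gcongr
      _ = _ := by ring

/-- **the characteristic function in the model** -/
lemma model_char (hP : ∀ p ∈ P, p.Prime) (hY : ∀ p ∈ P, Per p (Y p)) (hc1 : ∀ p ∈ P, c p ≤ 1) (hc : ∀ p ∈ P, ∀ z, |Y p z| ≤ c p)
    (h0 : ∀ p ∈ P, av p 0 (Y p) = 0) :
    ‖av (∏ p ∈ P, p) 0 (fun z => Complex.exp (Complex.I * ((∑ p ∈ P, Y p z : ℝ) : ℂ))) -
      Complex.exp (-((∑ p ∈ P, av p 0 (fun z => Y p z ^ 2)) / 2 : ℝ))‖ ≤ 2 * ∑ p ∈ P, c p ^ 3 := by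
  have e1 : (fun z => Complex.exp (Complex.I * ((∑ p ∈ P, Y p z : ℝ) : ℂ))) = fun z => ∏ p ∈ P, Complex.exp (Complex.I * (Y p z : ℂ)) := by
    funext z
    rw [← Complex.exp_sum]
    congr 1
    push_cast
    rw [mul_sum]
  rw [e1, (av_prod P hP (fun p z => Complex.exp (Complex.I * (Y p z : ℂ))) (fun p hp z => by simp only; rw [hY p hp])).2]
  have e2 : Complex.exp (-((∑ p ∈ P, av p 0 (fun z => Y p z ^ 2)) / 2 : ℝ)) = ∏ p ∈ P, Complex.exp (-((av p 0 (fun z => Y p z ^ 2)) / 2 : ℝ)) := by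
    rw [← Complex.exp_sum]
    congr 1
    push_cast
    rw [sum_div, sum_neg_distrib]
  rw [e2]
  refine (prod_close P _ _ ?_ ?_).trans ?_
  · intro p hp
    refine (norm_av_le _ _ _).trans ?_
    have : (fun z => ‖Complex.exp (Complex.I * (Y p z : ℂ))‖) = fun _ => (1:ℝ) := by
      funext z
      rw [mul_comm, Complex.norm_exp_ofReal_mul_I]
    rw [this, av_const (hP p hp).pos]
  · intro p hp
    have h1 : 0 ≤ av p 0 (fun z => Y p z ^ 2) := av_nonneg fun z => sq_nonneg _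
    rw [show (-((av p 0 (fun z => Y p z ^ 2)) / 2 : ℝ) : ℂ) = ((-((av p 0 (fun z => Y p z ^ 2)) / 2) : ℝ) : ℂ) by push_cast; ring,
      ← Complex.ofReal_exp, Complex.norm_real, Real.norm_eq_abs, abs_of_pos (Real.exp_pos _)]
    exact Real.exp_le_one_iff.2 (by linarith)
  · rw [mul_sum]
    exact sum_le_sum fun p hp => local_char (hP p hp).pos (hc1 p hp) (hc p hp) (h0 p hp) rfl

end model

end Pool.Agent.D0H53.EB
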