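import Mathlib
import Pool.Agent.D0H53.EB.E3
import Pool.Agent.D0H53.CL.C1

/-! The characteristic function in a window. -/

set_option autoImplicit false

open Finset

namespace Pool.Agent.D0H53.EB

open Pool.Agent.D0H53.CL (tr tr_le)

/-- the sum of the transfer errors -/
lemma window_char {P : Finset ℕ} {Y : ℕ → ℤ → ℝ} {c : ℕ → ℝ} (hP : ∀ p ∈ P, p.Prime) {x : ℕ} (hx1 : 1 ≤ x) (hx : ∀ p ∈ P, p ≤ x)
    (hY : ∀ p ∈ P, Per p (Y p)) (hc1 : ∀ p ∈ P, c p ≤ 1) (hc : ∀ p ∈ P, ∀ z, |Y p z| ≤ c p)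
    (h0 : ∀ p ∈ P, av p 0 (Y p) = 0) {B : ℝ} (hB : ∑ p ∈ P, c p ^ 2 ≤ B) {K : ℕ} (hK : Even K) {N : ℕ} (hN : 0 < N) (t : ℤ) :
    ‖av N t (fun z => Complex.exp (Complex.I * ((∑ p ∈ P, Y p z : ℝ) : ℂ))) -
      Complex.exp (-((∑ p ∈ P, av p 0 (fun z => Y p z ^ 2)) / 2 : ℝ))‖ ≤
      2 * ∑ p ∈ P, c p ^ 3 + 4 * Real.exp (4 * B) / 2 ^ K + (K + 1) * (2 * (x:ℝ) ^ K * ((x:ℝ) + 1) ^ K / N) := by
  have hx1' : (1:ℝ) ≤ x := by exact_mod_cast hx1
  have hN' : (0:ℝ) < N := by exact_mod_cast hN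
  obtain ⟨Q, hQd⟩ : ∃ Q, Q = ∏ p ∈ P, p := ⟨_, rfl⟩
  have hQ : 0 < Q := by rw [hQd]; exact Finset.prod_pos fun p hp => (hP p hp).pos
  obtain ⟨T, hT⟩ : ∃ T : ℤ → ℝ, T = fun z => ∑ p ∈ P, Y p z := ⟨_, rfl⟩
  obtain ⟨D, hD⟩ : ∃ D : ℝ, D = 2 * (x:ℝ) ^ K * ((x:ℝ) + 1) ^ K / N := ⟨_, rfl⟩
  have hD0 : 0 ≤ D := by rw [hD]; positivity
  have hcsum0 : 0 ≤ ∑ p ∈ P, c p := sum_nonneg fun p hp => (abs_nonneg _).trans (hc p hp 0)
  have hcsum : ∑ p ∈ P, c p ≤ x := by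
    calc ∑ p ∈ P, c p ≤ ∑ _p ∈ P, (1:ℝ) := sum_le_sum fun p hp => hc1 p hp
      _ = P.card := by simp
      _ ≤ x := by
        have : P.card ≤ x := by
          have h1 : P ⊆ Finset.Icc 1 x := by
            intro p hp
            rw [mem_Icc]
            exact ⟨(hP p hp).one_le, hx p hp⟩
          have := card_le_card h1
          simpa using this
        exact_mod_cast this
  -- moments
  have hmom : ∀ r, r ≤ K → |av N t (fun z => T z ^ r) - av Q 0 (fun z => T z ^ r)| ≤ D := by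
    intro r hr
    have := pow_transfer hP hx1 hx hY hc hN t r
    rw [← hQd] at this
    rw [hT]
    refine this.trans ?_
    rw [hD]
    have h1 : (x:ℝ) ^ r ≤ (x:ℝ) ^ K := pow_le_pow_right₀ hx1' hr
    have h2 : (∑ p ∈ P, c p) ^ r ≤ ((x:ℝ) + 1) ^ K := by
      calc (∑ p ∈ P, c p) ^ r ≤ ((x:ℝ) + 1) ^ r := pow_le_pow_left₀ hcsum0 (by linarith) r
        _ ≤ _ := pow_le_pow_right₀ (by linarith) hr
    gcongr
  have hfac : ∀ r : ℕ, (1:ℝ) ≤ (r.factorial : ℝ) := fun r => by exact_mod_cast Nat.one_le_iff_ne_zero.mpr (Nat.factorial_ne_zero r)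
  have hQK : av Q 0 (fun z => T z ^ K / (Nat.factorial K : ℝ)) ≤ 2 * Real.exp (4 * B) / 2 ^ K := by
    rw [hQd, hT]
    exact model_moment hP hY hc h0 hB hK
  have edivK : ∀ (M : ℕ) (s : ℤ), av M s (fun z => T z ^ K / (Nat.factorial K : ℝ)) = av M s (fun z => T z ^ K) / (Nat.factorial K : ℝ) := by
    intro M s
    have : (fun z => T z ^ K / (Nat.factorial K : ℝ)) = fun z => ((Nat.factorial K : ℝ))⁻¹ * T z ^ K := by
      funext z; rw [div_eq_inv_mul]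
    rw [this, av_mul_left, div_eq_inv_mul]
  have hNK : av N t (fun z => T z ^ K / (Nat.factorial K : ℝ)) ≤ 2 * Real.exp (4 * B) / 2 ^ K + D := by
    rw [edivK]
    rw [edivK] at hQK
    have h1 := (abs_le.1 (hmom K le_rfl)).2
    have h2 : (0:ℝ) < (K.factorial : ℝ) := by linarith [hfac K]
    calc av N t (fun z => T z ^ K) / (K.factorial : ℝ) ≤ (av Q 0 (fun z => T z ^ K) + D) / (K.factorial : ℝ) := by gcongr; linarith
      _ = av Q 0 (fun z => T z ^ K) / (K.factorial : ℝ) + D / (K.factorial : ℝ) := by ring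
      _ ≤ _ := add_le_add hQK (div_le_self hD0 (hfac K))
  -- Taylor polynomials
  obtain ⟨F, hF⟩ : ∃ F : ℤ → ℂ, F = fun z => Complex.exp (Complex.I * ((T z : ℝ) : ℂ)) := ⟨_, rfl⟩
  obtain ⟨G, hG⟩ : ∃ G : ℤ → ℂ, G = fun z => ∑ r ∈ range K, (Complex.I ^ r / (r.factorial : ℂ)) * ((T z ^ r : ℝ) : ℂ) := ⟨_, rfl⟩
  have hFG : ∀ z, ‖F z - G z‖ ≤ T z ^ K / (Nat.factorial K : ℝ) := by
    intro z
    have := tr_le K (T z)
    rw [hK.pow_abs] at this
    refine le_trans (le_of_eq ?_) this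
    congr 1
    rw [hF, hG]
    unfold tr
    simp only
    rw [mul_comm]
    congr 1
    refine sum_congr rfl fun r _ => ?_
    push_cast
    rw [mul_pow]; ring
  have d1 : ‖av N t F - av N t G‖ ≤ 2 * Real.exp (4 * B) / 2 ^ K + D := by
    rw [← av_sub]
    exact (norm_av_le _ _ _).trans ((av_mono hFG).trans hNK)
  have d3 : ‖av Q 0 F - av Q 0 G‖ ≤ 2 * Real.exp (4 * B) / 2 ^ K := by
    rw [← av_sub]
    exact (norm_av_le _ _ _).trans ((av_mono hFG).trans hQK)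
  have eG : ∀ (M : ℕ) (s : ℤ), av M s G = ∑ r ∈ range K, (Complex.I ^ r / (r.factorial : ℂ)) * ((av M s (fun z => T z ^ r) : ℝ) : ℂ) := by
    intro M s
    rw [hG, av_sum]
    refine sum_congr rfl fun r _ => ?_
    rw [← av_ofReal]
    unfold av
    simp only [Complex.real_smul]
    rw [← mul_sum]
    ring
  have d2 : ‖av N t G - av Q 0 G‖ ≤ K * D := by
    rw [eG, eG, ← sum_sub_distrib]
    refine (norm_sum_le _ _).trans ?_
    calc ∑ r ∈ range K, ‖(Complex.I ^ r / (r.factorial : ℂ)) * ((av N t (fun z => T z ^ r) : ℝ) : ℂ) -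
          (Complex.I ^ r / (r.factorial : ℂ)) * ((av Q 0 (fun z => T z ^ r) : ℝ) : ℂ)‖ ≤ ∑ _r ∈ range K, D := by
          refine sum_le_sum fun r hr => ?_
          rw [mem_range] at hr
          rw [← mul_sub, norm_mul, norm_div, norm_pow, Complex.norm_I, one_pow, Complex.norm_natCast, ← Complex.ofReal_sub,
            Complex.norm_real, Real.norm_eq_abs]
          have h2 : (0:ℝ) < (r.factorial : ℝ) := by linarith [hfac r]
          calc 1 / (r.factorial : ℝ) * |av N t (fun z => T z ^ r) - av Q 0 (fun z => T z ^ r)| ≤ 1 * D := by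
                apply mul_le_mul _ (hmom r hr.le) (abs_nonneg _) zero_le_one
                rw [div_le_one h2]; exact hfac r
            _ = D := one_mul _
      _ = K * D := by simp
  have d4 := model_char hP hY hc1 hc h0
  rw [← hQd] at d4
  have e0 : (fun z => Complex.exp (Complex.I * ((∑ p ∈ P, Y p z : ℝ) : ℂ))) = F := by rw [hF, hT]
  rw [e0] at d4 ⊢
  calc ‖av N t F - Complex.exp (-((∑ p ∈ P, av p 0 (fun z => Y p z ^ 2)) / 2 : ℝ))‖
      = ‖((av N t F - av N t G) + (av N t G - av Q 0 G) + (av Q 0 G - av Q 0 F)) +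
          (av Q 0 F - Complex.exp (-((∑ p ∈ P, av p 0 (fun z => Y p z ^ 2)) / 2 : ℝ)))‖ := by congr 1; ring
    _ ≤ (‖av N t F - av N t G‖ + ‖av N t G - av Q 0 G‖ + ‖av Q 0 G - av Q 0 F‖) +
          ‖av Q 0 F - Complex.exp (-((∑ p ∈ P, av p 0 (fun z => Y p z ^ 2)) / 2 : ℝ))‖ :=
        (norm_add_le _ _).trans (add_le_add norm_add₃_le le_rfl)
    _ ≤ ((2 * Real.exp (4 * B) / 2 ^ K + D) + K * D + 2 * Real.exp (4 * B) / 2 ^ K) + 2 * ∑ p ∈ P, c p ^ 3 := by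
        rw [norm_sub_rev (av Q 0 G)]
        gcongr
    _ = _ := by rw [hD]; ring

end Pool.Agent.D0H53.EB
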