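import Mathlib
import Pool.Agent.D0H53.EB.E4
import Pool.Agent.H305R2.MertensM

/-! The characteristic function of the normalised increments over blocks of primes. -/

set_option autoImplicit false

open Finset Filter Topology

namespace Pool.Agent.D0H53.EB

/-- the primes in `(a, b]` -/
def blk (a b : ℕ) : Finset ℕ := (Ioc a b).filter Nat.Prime

lemma mem_blk {a b p : ℕ} : p ∈ blk a b ↔ (a < p ∧ p ≤ b) ∧ p.Prime := by
  unfold blk
  rw [mem_filter, mem_Ioc]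

/-- `log log` -/
noncomputable def LL (n : ℕ) : ℝ := Real.log (Real.log n)

lemma LL_mono {a b : ℕ} (ha : 3 ≤ a) (hab : a ≤ b) : LL a ≤ LL b := by
  unfold LL
  have h1 : (1:ℝ) < a := by exact_mod_cast (by omega : 1 < a)
  have h2 : (a:ℝ) ≤ b := by exact_mod_cast hab
  exact Real.log_le_log (Real.log_pos h1) (Real.log_le_log (by linarith) h2)

lemma lt_of_LL {a b : ℕ} (hb : 3 ≤ b) (h : LL a < LL b ∨ 0 < LL b - LL a) : a < b := by
  by_contra hcon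
  rw [not_lt] at hcon
  have := LL_mono hb hcon
  rcases h with h | h <;> linarith

/-- a family of local functions `X p`, each depending on the residue modulo `p` only, with means and variances on average
`ρ / p` and `1 / p` -/
structure Fam (C ρ : ℝ) (X : ℕ → ℤ → ℝ) : Prop where
  per : ∀ p, p.Prime → Per p (X p)
  bd : ∀ p, p.Prime → ∀ z, |X p z| ≤ C / √p
  mean : ∀ a b, 3 ≤ a → a ≤ b → |∑ p ∈ blk a b, av p 0 (X p) - ρ * (LL b - LL a)| ≤ C
  var : ∀ a b, 3 ≤ a → a ≤ b → |∑ p ∈ blk a b, (av p 0 (fun z => X p z ^ 2) - (av p 0 (X p)) ^ 2) - (LL b - LL a)| ≤ C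

/-- Mertens over blocks -/
lemma mertens_blk : ∃ C : ℝ, 0 ≤ C ∧ ∀ a b : ℕ, 3 ≤ a → a ≤ b → |∑ p ∈ blk a b, (1:ℝ) / p - (LL b - LL a)| ≤ C := by
  obtain ⟨M, hM⟩ := Pool.Agent.H305R2.mertens_inv_tendsto
  have h1 : Bornology.IsBounded (Set.range (fun N : ℕ => ∑ p ∈ (Finset.Icc 1 N).filter Nat.Prime, (1 : ℝ) / p - Real.log (Real.log N))) :=
    Metric.isBounded_range_of_tendsto _ hM
  rw [isBounded_iff_forall_norm_le] at h1
  obtain ⟨D, hD⟩ := h1
  have hD' : ∀ N : ℕ, |∑ p ∈ (Finset.Icc 1 N).filter Nat.Prime, (1 : ℝ) / p - LL N| ≤ D := fun N => hD _ ⟨N, rfl⟩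
  have hD0 : 0 ≤ D := (abs_nonneg _).trans (hD' 0)
  refine ⟨2 * D, by positivity, fun a b _ hab => ?_⟩
  have e : ∑ p ∈ (Finset.Icc 1 b).filter Nat.Prime, (1 : ℝ) / p = ∑ p ∈ (Finset.Icc 1 a).filter Nat.Prime, (1 : ℝ) / p + ∑ p ∈ blk a b, (1:ℝ) / p := by
    rw [← sum_union]
    · congr 1
      ext p
      rw [mem_union, mem_blk, mem_filter, mem_filter, mem_Icc, mem_Icc]
      constructor
      · rintro ⟨⟨h1, h2⟩, h3⟩
        rcases le_or_gt p a with h4 | h4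
        · exact Or.inl ⟨⟨h1, h4⟩, h3⟩
        · exact Or.inr ⟨⟨h4, h2⟩, h3⟩
      · rintro (⟨⟨h1, h2⟩, h3⟩ | ⟨⟨h1, h2⟩, h3⟩)
        · exact ⟨⟨h1, h2.trans hab⟩, h3⟩
        · exact ⟨⟨h3.one_le, h2⟩, h3⟩
    · rw [disjoint_left]
      intro p hp hp'
      rw [mem_blk] at hp'
      rw [mem_filter, mem_Icc] at hp
      omega
  have h1 := hD' a
  have h2 := hD' b
  rw [e] at h2
  rw [abs_le] at h1 h2 ⊢
  constructor <;> linarith [h1.1, h1.2, h2.1, h2.2]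

lemma sum_rpow_blk : ∃ Z : ℝ, 0 ≤ Z ∧ ∀ P : Finset ℕ, ∑ p ∈ P, (1 / √(p:ℝ)) ^ 3 ≤ Z := by
  have hs : Summable (fun n : ℕ => (1 / √(n:ℝ)) ^ 3) := by
    have h := Real.summable_one_div_nat_rpow.2 (show (1:ℝ) < 3/2 by norm_num)
    refine h.congr fun n => ?_
    rw [Real.sqrt_eq_rpow, one_div, one_div, inv_pow, ← Real.rpow_natCast ((n:ℝ) ^ (1/2:ℝ)) 3, ← Real.rpow_mul (Nat.cast_nonneg n)]
    norm_num
  exact ⟨_, tsum_nonneg fun n => by positivity, fun P => hs.sum_le_tsum P fun n _ => by positivity⟩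

/-- thresholds -/
def Thr (k : ℕ) (y : Fin (k + 1) → ℕ) (A : ℝ) : Prop :=
  3 ≤ y 0 ∧ ∀ i : Fin k, A ≤ LL (y i.succ) - LL (y i.castSucc)

lemma Thr.mono {k : ℕ} {y : Fin (k + 1) → ℕ} {A B : ℝ} (h : Thr k y A) (hAB : B ≤ A) : Thr k y B :=
  ⟨h.1, fun i => hAB.trans (h.2 i)⟩

lemma Thr.monotone {k : ℕ} {y : Fin (k + 1) → ℕ} {A : ℝ} (h : Thr k y A) (hA : 0 < A) : Monotone y ∧ ∀ i, 3 ≤ y i := by
  have h1 : ∀ i : Fin (k + 1), 3 ≤ y i := by
    intro i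
    induction i using Fin.induction with
    | zero => exact h.1
    | succ i ih =>
      by_contra hcon
      have h2 := h.2 i
      have h3 : LL (y i.succ) ≤ 0 := by
        unfold LL
        have h4 : y i.succ ≤ 2 := by omega
        have h5 : Real.log (y i.succ) ≤ 1 := by
          rcases Nat.eq_zero_or_pos (y i.succ) with h6 | h6
          · rw [h6]; simp
          · have h7 : ((y i.succ : ℕ):ℝ) ≤ 2 := by exact_mod_cast h4
            have h8 : (0:ℝ) < (y i.succ : ℕ) := by exact_mod_cast h6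
            have := Real.log_le_log h8 h7
            have := Real.log_two_lt_d9
            linarith
        exact Real.log_nonpos (Real.log_natCast_nonneg _) h5
      have h4 : 0 ≤ LL (y i.castSucc) := by
        unfold LL
        have h5 : (3:ℝ) ≤ (y i.castSucc : ℕ) := by exact_mod_cast ih
        have h6 : (1:ℝ) ≤ Real.log (y i.castSucc : ℕ) := by
          rw [Real.le_log_iff_exp_le (by linarith)]
          have := Real.exp_one_lt_d9
          linarith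
        exact Real.log_nonneg h6
      linarith
  refine ⟨?_, h1⟩
  rw [Fin.monotone_iff_le_succ]
  intro i
  exact (lt_of_LL (h1 _) (Or.inr (by linarith [h.2 i]))).le

/-- the normalised increment -/
noncomputable def inc (ρ : ℝ) (X : ℕ → ℤ → ℝ) (a b : ℕ) (z : ℤ) : ℝ :=
  (∑ p ∈ blk a b, X p z - ρ * (LL b - LL a)) / √(LL b - LL a)

/-- **characteristic functions of the normalised increments** -/
theorem engine (C ρ : ℝ) (k : ℕ) (s : Fin k → ℝ) {η : ℝ} (hη : 0 < η) : ∃ δ : ℝ, 0 < δ ∧ δ ≤ 1 ∧ ∃ N₀ : ℕ, ∀ N : ℕ, N₀ ≤ N →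
    ∀ X : ℕ → ℤ → ℝ, Fam C ρ X → ∀ t : ℤ, ∀ y : Fin (k + 1) → ℕ, Thr k y (1 / δ) → (y (Fin.last k) : ℝ) ≤ (N:ℝ) ^ δ →
    ‖av N t (fun z => Complex.exp (Complex.I * ((∑ i, s i * inc ρ X (y i.castSucc) (y i.succ) z : ℝ) : ℂ))) -
      Complex.exp (-((∑ i, s i ^ 2) / 2 : ℝ))‖ ≤ η := by
  obtain ⟨C0, hC0, hMer⟩ := mertens_blk
  obtain ⟨Z, hZ0, hZ⟩ := sum_rpow_blk
  -- constants
  obtain ⟨S, hS⟩ : ∃ S : ℝ, S = ∑ i, |s i| + 1 := ⟨_, rfl⟩
  have hS1 : 1 ≤ S := by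
    rw [hS]; have : 0 ≤ ∑ i, |s i| := sum_nonneg fun _ _ => abs_nonneg _
    linarith
  have hsS : ∀ i, |s i| ≤ S := by
    intro i
    rw [hS]
    have := single_le_sum (f := fun i => |s i|) (fun i _ => abs_nonneg _) (mem_univ i)
    linarith
  obtain ⟨C1, hC1⟩ : ∃ C1 : ℝ, C1 = |C| + 1 := ⟨_, rfl⟩
  have hC1p : 1 ≤ C1 := by rw [hC1]; linarith [abs_nonneg C]
  have hCC1 : C ≤ C1 := by rw [hC1]; linarith [le_abs_self C]
  obtain ⟨S2, hS2⟩ : ∃ S2 : ℝ, S2 = ∑ i, s i ^ 2 := ⟨_, rfl⟩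
  have hS20 : 0 ≤ S2 := by rw [hS2]; exact sum_nonneg fun _ _ => sq_nonneg _
  obtain ⟨B, hB⟩ : ∃ B : ℝ, B = 8 * C1 ^ 2 * S2 := ⟨_, rfl⟩
  -- choice of K
  obtain ⟨K, hKe, hK⟩ : ∃ K : ℕ, Even K ∧ 4 * Real.exp (4 * B) / 2 ^ K ≤ η / 5 := by
    have h1 : Tendsto (fun m : ℕ => 4 * Real.exp (4 * B) * ((1/4:ℝ)) ^ m) atTop (𝓝 (4 * Real.exp (4 * B) * 0)) :=
      (tendsto_pow_atTop_nhds_zero_of_lt_one (by norm_num) (by norm_num)).const_mul _
    rw [mul_zero] at h1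
    obtain ⟨m, hm⟩ := (h1.eventually_le_const (show (0:ℝ) < η / 5 by positivity)).exists
    refine ⟨2 * m, even_two_mul m, ?_⟩
    calc 4 * Real.exp (4 * B) / 2 ^ (2 * m) = 4 * Real.exp (4 * B) * ((1/4:ℝ)) ^ m := by
          rw [pow_mul, one_div, inv_pow]; norm_num [div_eq_mul_inv]
      _ ≤ η / 5 := hm
  -- choice of the lower bound for the blocks
  obtain ⟨W, hW1, hWC, hW2, hW3, hW4⟩ : ∃ W : ℝ, 1 ≤ W ∧ C0 ≤ W ∧ 2 * C1 * S ≤ √W ∧ 2 * (8 * C1 ^ 3 * S ^ 3 * Z) / √W ≤ η / 5 ∧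
      (S * C1 / √W ≤ η / 5 ∧ S2 * C1 / W ≤ η / 5) := by
    obtain ⟨W, hW⟩ : ∃ W : ℝ, W = (1 + C0 + 2 * C1 * S + 5 * (2 * (8 * C1 ^ 3 * S ^ 3 * Z)) / η + 5 * (S * C1) / η + 5 * (S2 * C1) / η) ^ 2 := ⟨_, rfl⟩
    obtain ⟨R, hR⟩ : ∃ R : ℝ, R = 1 + C0 + 2 * C1 * S + 5 * (2 * (8 * C1 ^ 3 * S ^ 3 * Z)) / η + 5 * (S * C1) / η + 5 * (S2 * C1) / η := ⟨_, rfl⟩
    rw [← hR] at hW
    have a1 : 0 ≤ 2 * C1 * S := by positivity
    have a2 : 0 ≤ 5 * (2 * (8 * C1 ^ 3 * S ^ 3 * Z)) / η := by positivity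
    have a3 : 0 ≤ 5 * (S * C1) / η := by positivity
    have a4 : 0 ≤ 5 * (S2 * C1) / η := by positivity
    have hR1 : 1 ≤ R := by rw [hR]; linarith
    have hsW : √W = R := by rw [hW]; exact Real.sqrt_sq (by linarith)
    have hRW : R ≤ W := by rw [hW]; nlinarith
    refine ⟨W, by linarith, by linarith, by rw [hsW]; linarith, ?_, ?_, ?_⟩
    · rw [hsW, div_le_iff₀ (by linarith)]
      have : 5 * (2 * (8 * C1 ^ 3 * S ^ 3 * Z)) / η ≤ R := by linarith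
      rw [div_le_iff₀ hη] at this
      linarith
    · rw [hsW, div_le_iff₀ (by linarith)]
      have : 5 * (S * C1) / η ≤ R := by linarith
      rw [div_le_iff₀ hη] at this
      linarith
    · rw [div_le_iff₀ (by linarith)]
      have : 5 * (S2 * C1) / η ≤ W := by linarith
      rw [div_le_iff₀ hη] at this
      linarith
  have hW0 : 0 < W := by linarith
  have hsW0 : 0 < √W := Real.sqrt_pos.2 hW0
  -- choice of delta
  obtain ⟨δ, hδ⟩ : ∃ δ : ℝ, δ = min (1 / W) (1 / (4 * K + 4)) := ⟨_, rfl⟩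
  have hδ0 : 0 < δ := by rw [hδ]; positivity
  have hδW : W ≤ 1 / δ := by
    rw [le_div_iff₀ hδ0]
    have : δ ≤ 1 / W := by rw [hδ]; exact min_le_left _ _
    rw [le_div_iff₀ hW0] at this
    linarith
  have hδK : δ * (4 * K + 4) ≤ 1 := by
    have : δ ≤ 1 / (4 * K + 4) := by rw [hδ]; exact min_le_right _ _
    rwa [le_div_iff₀ (by positivity)] at this
  have hδ1 : δ ≤ 1 := by
    have : (0:ℝ) ≤ K := Nat.cast_nonneg _
    nlinarith
  -- choice of N0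
  have hlim : Tendsto (fun N : ℕ => ((K:ℝ) + 1) * (2 * 2 ^ K) * ((N:ℝ) ^ (-(1/2):ℝ))) atTop (𝓝 0) := by
    have h1 : Tendsto (fun N : ℕ => (N:ℝ) ^ (-(1/2):ℝ)) atTop (𝓝 0) :=
      (tendsto_rpow_neg_atTop (by norm_num)).comp tendsto_natCast_atTop_atTop
    have := h1.const_mul (((K:ℝ) + 1) * (2 * 2 ^ K))
    rwa [mul_zero] at this
  obtain ⟨N1, hN1⟩ := eventually_atTop.1 (hlim.eventually_le_const (show (0:ℝ) < η / 5 by positivity))
  refine ⟨δ, hδ0, hδ1, max N1 1, fun N hN X hX t y hy hyN => ?_⟩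
  have hN1' : N1 ≤ N := (le_max_left _ _).trans hN
  have hNpos : 1 ≤ N := (le_max_right _ _).trans hN
  have hNr : (1:ℝ) ≤ N := by exact_mod_cast hNpos
  have hyW := hy.mono hδW
  obtain ⟨hmono, hy3⟩ := hyW.monotone hW0
  -- the lengths
  obtain ⟨H, hH⟩ : ∃ H : Fin k → ℝ, H = fun i => LL (y i.succ) - LL (y i.castSucc) := ⟨_, rfl⟩
  have hHW : ∀ i, W ≤ H i := by intro i; rw [hH]; exact hyW.2 i
  have hH0 : ∀ i, 0 < H i := fun i => lt_of_lt_of_le hW0 (hHW i)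
  have hle : ∀ i : Fin k, y i.castSucc ≤ y i.succ := fun i => hmono (Fin.castSucc_lt_succ (i := i)).le
  obtain ⟨b, hb⟩ : ∃ b : Fin k → Finset ℕ, b = fun i => blk (y i.castSucc) (y i.succ) := ⟨_, rfl⟩
  have hbp : ∀ i, ∀ p ∈ b i, p.Prime := by
    intro i p hp
    rw [hb] at hp
    exact (mem_blk.1 hp).2
  have hdis : ∀ i j, ∀ p, p ∈ b i → p ∈ b j → i = j := by
    intro i j p hi hj
    rw [hb] at hi hj
    have h1 := (mem_blk.1 hi).1
    have h2 := (mem_blk.1 hj).1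
    rcases lt_trichotomy i j with h | h | h
    · have : y i.succ ≤ y j.castSucc := hmono (Fin.succ_le_castSucc_iff.2 h)
      omega
    · exact h
    · have : y j.succ ≤ y i.castSucc := hmono (Fin.succ_le_castSucc_iff.2 h)
      omega
  obtain ⟨v, hv⟩ : ∃ v : Fin k → ℝ, v = fun i => s i / √(H i) := ⟨_, rfl⟩
  obtain ⟨w, hw⟩ : ∃ w : ℕ → ℝ, w = fun p => ∑ i, if p ∈ b i then v i else 0 := ⟨_, rfl⟩
  have hwb : ∀ i, ∀ p ∈ b i, w p = v i := by
    intro i p hp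
    rw [hw]
    simp only
    rw [sum_eq_single i]
    · rw [if_pos hp]
    · intro j _ hj
      rw [if_neg]
      intro hpj
      exact hj (hdis j i p hpj hp)
    · intro h; exact absurd (mem_univ i) h
  obtain ⟨P, hP⟩ : ∃ P : Finset ℕ, P = univ.biUnion b := ⟨_, rfl⟩
  have hPmem : ∀ p ∈ P, ∃ i, p ∈ b i := by
    intro p hp
    rw [hP, mem_biUnion] at hp
    obtain ⟨i, -, hi⟩ := hp
    exact ⟨i, hi⟩
  have hPsum : ∀ g : ℕ → ℝ, ∑ p ∈ P, g p = ∑ i, ∑ p ∈ b i, g p := by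
    intro g
    rw [hP, sum_biUnion]
    intro i _ j _ hij
    rw [Function.onFun, disjoint_left]
    intro p hi hj
    exact hij (hdis i j p hi hj)
  obtain ⟨m, hm⟩ : ∃ m : ℕ → ℝ, m = fun p => av p 0 (X p) := ⟨_, rfl⟩
  obtain ⟨Y, hYd⟩ : ∃ Y : ℕ → ℤ → ℝ, Y = fun p z => w p * (X p z - m p) := ⟨_, rfl⟩
  obtain ⟨c, hc⟩ : ∃ c : ℕ → ℝ, c = fun p => |w p| * (2 * C1 / √p) := ⟨_, rfl⟩
  have hPp : ∀ p ∈ P, p.Prime := by
    intro p hp
    obtain ⟨i, hi⟩ := hPmem p hp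
    exact hbp i p hi
  have hmb : ∀ p ∈ P, |m p| ≤ C1 / √p := by
    intro p hp
    rw [hm, ← Real.norm_eq_abs]
    refine (norm_av_le _ _ _).trans ?_
    have : av p 0 (fun z => ‖X p z‖) ≤ av p 0 (fun _ => C1 / √p) := av_mono fun z => by
      rw [Real.norm_eq_abs]
      refine (hX.bd p (hPp p hp) z).trans ?_
      gcongr
    rwa [av_const (hPp p hp).pos] at this
  have hYc : ∀ p ∈ P, ∀ z, |Y p z| ≤ c p := by
    intro p hp z
    rw [hYd, hc]
    simp only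
    rw [abs_mul]
    apply mul_le_mul_of_nonneg_left _ (abs_nonneg _)
    have h1 := hX.bd p (hPp p hp) z
    have h2 := hmb p hp
    have h3 : C / √(p:ℝ) ≤ C1 / √p := by gcongr
    calc |X p z - m p| ≤ |X p z| + |m p| := abs_sub _ _
      _ ≤ C1 / √p + C1 / √p := by linarith
      _ = 2 * C1 / √p := by ring
  have hYper : ∀ p ∈ P, Per p (Y p) := by
    intro p hp z
    rw [hYd]
    simp only
    rw [hX.per p (hPp p hp) z]
  have hY0 : ∀ p ∈ P, av p 0 (Y p) = 0 := by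
    intro p hp
    rw [hYd]
    have : (fun z => w p * (X p z - m p)) = fun z => w p * (fun z => X p z - m p) z := rfl
    simp only
    rw [av_mul_left, av_sub, av_const (hPp p hp).pos, hm]
    simp
  have hwv : ∀ p ∈ P, |w p| ≤ S / √W := by
    intro p hp
    obtain ⟨i, hi⟩ := hPmem p hp
    rw [hwb i p hi, hv]
    simp only
    rw [abs_div, abs_of_nonneg (Real.sqrt_nonneg _)]
    have h1 : √W ≤ √(H i) := Real.sqrt_le_sqrt (hHW i)
    have h2 := hsS i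
    gcongr
  have hc1 : ∀ p ∈ P, c p ≤ 1 := by
    intro p hp
    rw [hc]
    simp only
    have h1 := hwv p hp
    have hp1 : (1:ℝ) ≤ √p := Real.one_le_sqrt.2 (by exact_mod_cast (hPp p hp).one_le)
    calc |w p| * (2 * C1 / √p) ≤ (S / √W) * (2 * C1 / 1) := by gcongr
      _ = (2 * C1 * S) / √W := by ring
      _ ≤ 1 := by rw [div_le_one hsW0]; exact hW2
  have hc2 : ∑ p ∈ P, c p ^ 2 ≤ B := by
    have h1 : ∀ i, ∑ p ∈ b i, c p ^ 2 ≤ 8 * C1 ^ 2 * s i ^ 2 := by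
      intro i
      have h2 : ∑ p ∈ b i, c p ^ 2 = v i ^ 2 * (4 * C1 ^ 2) * ∑ p ∈ b i, (1:ℝ) / p := by
        rw [mul_sum]
        refine sum_congr rfl fun p hp => ?_
        rw [hc]
        simp only
        rw [hwb i p hp, mul_pow, sq_abs, div_pow, Real.sq_sqrt (Nat.cast_nonneg p)]
        ring
      have h3 : ∑ p ∈ b i, (1:ℝ) / p ≤ 2 * H i := by
        have := (abs_le.1 (hMer (y i.castSucc) (y i.succ) (hy3 _) (hle i))).2
        have h4 := hHW i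
        rw [hb, hH] at *
        simp only at *
        linarith
      rw [h2]
      calc v i ^ 2 * (4 * C1 ^ 2) * ∑ p ∈ b i, (1:ℝ) / p ≤ v i ^ 2 * (4 * C1 ^ 2) * (2 * H i) := by gcongr
        _ = 8 * C1 ^ 2 * s i ^ 2 := by
          rw [hv]
          simp only
          rw [div_pow, Real.sq_sqrt (hH0 i).le]
          have := (hH0 i).ne'
          field_simp
          ring
    rw [hPsum, hB, hS2, mul_sum]
    exact sum_le_sum fun i _ => h1 i
  have hc3 : ∑ p ∈ P, c p ^ 3 ≤ 8 * C1 ^ 3 * S ^ 3 * Z / √W := by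
    have h1 : ∀ p ∈ P, c p ^ 3 ≤ (S / √W) ^ 3 * (8 * C1 ^ 3) * (1 / √(p:ℝ)) ^ 3 := by
      intro p hp
      rw [hc]
      simp only
      have h2 := hwv p hp
      calc (|w p| * (2 * C1 / √p)) ^ 3 ≤ ((S / √W) * (2 * C1 / √p)) ^ 3 := by gcongr
        _ = _ := by ring
    refine (sum_le_sum h1).trans ?_
    rw [← mul_sum]
    have hsW1 : 1 ≤ √W := Real.one_le_sqrt.2 hW1
    calc (S / √W) ^ 3 * (8 * C1 ^ 3) * ∑ p ∈ P, (1 / √(p:ℝ)) ^ 3 ≤ (S / √W) ^ 3 * (8 * C1 ^ 3) * Z := by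
          gcongr; exact hZ P
      _ = 8 * C1 ^ 3 * S ^ 3 * Z / (√W) ^ 3 := by rw [div_pow]; ring
      _ ≤ 8 * C1 ^ 3 * S ^ 3 * Z / (√W) ^ 1 := by
          apply div_le_div_of_nonneg_left (by positivity) (by positivity)
          exact pow_le_pow_right₀ hsW1 (by norm_num)
      _ = _ := by rw [pow_one]
  -- the sum
  obtain ⟨x, hx⟩ : ∃ x : ℕ, x = y (Fin.last k) := ⟨_, rfl⟩
  have hx3 : 3 ≤ x := by rw [hx]; exact hy3 _
  have hPx : ∀ p ∈ P, p ≤ x := by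
    intro p hp
    obtain ⟨i, hi⟩ := hPmem p hp
    rw [hb] at hi
    have h1 := (mem_blk.1 hi).1.2
    rw [hx]
    exact h1.trans (hmono (Fin.le_last _))
  have key := window_char hPp (by omega : 1 ≤ x) hPx hYper hc1 hYc hY0 hc2 hKe (by omega : 0 < N) t
  -- the error from the window
  have herr : ((K:ℝ) + 1) * (2 * (x:ℝ) ^ K * ((x:ℝ) + 1) ^ K / N) ≤ η / 5 := by
    refine le_trans ?_ (hN1 N hN1')
    have hx1 : (1:ℝ) ≤ x := by exact_mod_cast (by omega : 1 ≤ x)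
    have hxN : (x:ℝ) ≤ (N:ℝ) ^ δ := by rw [hx]; exact hyN
    have h1 : (x:ℝ) ^ K * ((x:ℝ) + 1) ^ K ≤ 2 ^ K * (N:ℝ) ^ (1/2:ℝ) := by
      calc (x:ℝ) ^ K * ((x:ℝ) + 1) ^ K ≤ (x:ℝ) ^ K * (2 * (x:ℝ)) ^ K := by gcongr; linarith
        _ = 2 ^ K * (x:ℝ) ^ (2 * K) := by rw [mul_pow, two_mul K, pow_add]; ring
        _ ≤ 2 ^ K * ((N:ℝ) ^ δ) ^ (2 * K) := by gcongr
        _ = 2 ^ K * (N:ℝ) ^ (δ * (2 * K)) := by
            rw [← Real.rpow_natCast ((N:ℝ) ^ δ) (2 * K), ← Real.rpow_mul (by linarith)]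
            push_cast
            rfl
        _ ≤ 2 ^ K * (N:ℝ) ^ (1/2:ℝ) :=
            mul_le_mul_of_nonneg_left (Real.rpow_le_rpow_of_exponent_le hNr (by linarith)) (by positivity)
    have h2 : (N:ℝ) ^ (1/2:ℝ) / N = (N:ℝ) ^ (-(1/2):ℝ) := by
      rw [div_eq_mul_inv, ← Real.rpow_neg_one, ← Real.rpow_add (by linarith)]
      norm_num
    calc ((K:ℝ) + 1) * (2 * (x:ℝ) ^ K * ((x:ℝ) + 1) ^ K / N) = ((K:ℝ) + 1) * 2 * ((x:ℝ) ^ K * ((x:ℝ) + 1) ^ K) / N := by ring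
      _ ≤ ((K:ℝ) + 1) * 2 * (2 ^ K * (N:ℝ) ^ (1/2:ℝ)) / N := by gcongr
      _ = ((K:ℝ) + 1) * (2 * 2 ^ K) * ((N:ℝ) ^ (1/2:ℝ) / N) := by ring
      _ = _ := by rw [h2]
  -- the variance
  have hvar : |∑ p ∈ P, av p 0 (fun z => Y p z ^ 2) - S2| ≤ S2 * C1 / W := by
    have h1 : ∀ p ∈ P, av p 0 (fun z => Y p z ^ 2) = w p ^ 2 * (av p 0 (fun z => X p z ^ 2) - (av p 0 (X p)) ^ 2) := by
      intro p hp
      have e1 : (fun z => Y p z ^ 2) = fun z => w p ^ 2 * ((X p z ^ 2 - (2 * m p) * X p z) + m p ^ 2) := by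
        funext z; rw [hYd]; simp only; ring
      rw [e1, av_mul_left, av_add, av_sub, av_mul_left, av_const (hPp p hp).pos, hm]
      simp only
      ring
    rw [sum_congr rfl h1, hPsum, hS2, ← sum_sub_distrib]
    refine (abs_sum_le_sum_abs _ _).trans ?_
    rw [mul_div_assoc, sum_mul]
    refine sum_le_sum fun i _ => ?_
    have h2 : ∑ p ∈ b i, w p ^ 2 * (av p 0 (fun z => X p z ^ 2) - (av p 0 (X p)) ^ 2) =
        v i ^ 2 * ∑ p ∈ b i, (av p 0 (fun z => X p z ^ 2) - (av p 0 (X p)) ^ 2) := by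
      rw [mul_sum]
      exact sum_congr rfl fun p hp => by rw [hwb i p hp]
    have h3 : s i ^ 2 = v i ^ 2 * H i := by
      rw [hv]
      simp only
      rw [div_pow, Real.sq_sqrt (hH0 i).le]
      have := (hH0 i).ne'
      field_simp
    have h4 : |∑ p ∈ b i, (av p 0 (fun z => X p z ^ 2) - (av p 0 (X p)) ^ 2) - H i| ≤ C1 := by
      have := hX.var (y i.castSucc) (y i.succ) (hy3 _) (hle i)
      rw [hb, hH]
      exact this.trans hCC1
    rw [h2]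
    nth_rewrite 1 [h3]
    rw [← mul_sub, abs_mul, abs_of_nonneg (sq_nonneg (v i))]
    have h5 : v i ^ 2 ≤ s i ^ 2 / W := by
      rw [h3, le_div_iff₀ hW0]
      exact mul_le_mul_of_nonneg_left (hHW i) (sq_nonneg _)
    calc v i ^ 2 * |∑ p ∈ b i, (av p 0 (fun z => X p z ^ 2) - (av p 0 (X p)) ^ 2) - H i| ≤ (s i ^ 2 / W) * C1 := by gcongr
      _ = _ := by ring
  -- the centre
  obtain ⟨D, hD⟩ : ∃ D : ℝ, D = ∑ i, v i * (∑ p ∈ b i, m p - ρ * H i) := ⟨_, rfl⟩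
  have hDb : |D| ≤ S * C1 / √W := by
    rw [hD]
    refine (abs_sum_le_sum_abs _ _).trans ?_
    have h1 : ∀ i, |v i * (∑ p ∈ b i, m p - ρ * H i)| ≤ |s i| * (C1 / √W) := by
      intro i
      have h4 : |∑ p ∈ b i, m p - ρ * H i| ≤ C1 := by
        have := hX.mean (y i.castSucc) (y i.succ) (hy3 _) (hle i)
        rw [hb, hH, hm]
        exact this.trans hCC1
      rw [abs_mul, hv]
      simp only
      rw [abs_div, abs_of_nonneg (Real.sqrt_nonneg _)]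
      have h2 : √W ≤ √(H i) := Real.sqrt_le_sqrt (hHW i)
      calc |s i| / √(H i) * |∑ p ∈ b i, m p - ρ * H i| ≤ |s i| / √W * C1 := by gcongr
        _ = _ := by ring
    refine (sum_le_sum fun i _ => h1 i).trans ?_
    rw [← sum_mul]
    have : ∑ i, |s i| ≤ S := by rw [hS]; linarith
    calc (∑ i, |s i|) * (C1 / √W) ≤ S * (C1 / √W) := by gcongr
      _ = _ := by ring
  have hlin : ∀ z, ∑ i, s i * inc ρ X (y i.castSucc) (y i.succ) z = ∑ p ∈ P, Y p z + D := by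
    intro z
    rw [hPsum, hD, ← sum_add_distrib]
    refine sum_congr rfl fun i _ => ?_
    have h1 : ∑ p ∈ b i, Y p z = v i * ∑ p ∈ b i, (X p z - m p) := by
      rw [mul_sum]
      refine sum_congr rfl fun p hp => ?_
      rw [hYd]
      simp only
      rw [hwb i p hp]
    rw [h1, sum_sub_distrib]
    unfold inc
    rw [hv, hH, hb]
    simp only
    ring
  have hDexp : ‖Complex.exp (Complex.I * (D:ℂ)) - 1‖ ≤ η / 5 := by
    refine (Real.norm_exp_I_mul_ofReal_sub_one_le).trans ?_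
    rw [Real.norm_eq_abs]
    exact hDb.trans hW4.1
  have hvexp : ‖Complex.exp (-((∑ p ∈ P, av p 0 (fun z => Y p z ^ 2)) / 2 : ℝ)) - Complex.exp (-(S2 / 2 : ℝ))‖ ≤ η / 5 := by
    obtain ⟨V, hV⟩ : ∃ V : ℝ, V = ∑ p ∈ P, av p 0 (fun z => Y p z ^ 2) := ⟨_, rfl⟩
    rw [← hV] at hvar ⊢
    have hV0 : 0 ≤ V := by rw [hV]; exact sum_nonneg fun p _ => av_nonneg fun z => sq_nonneg _
    have e1 : Complex.exp (-(V / 2 : ℝ)) - Complex.exp (-(S2 / 2 : ℝ)) = ((Real.exp (-(V/2)) - Real.exp (-(S2/2)) : ℝ) : ℂ) := by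
      push_cast; rfl
    rw [e1, Complex.norm_real, Real.norm_eq_abs]
    have h1 : |Real.exp (-(V/2)) - Real.exp (-(S2/2))| ≤ |V - S2| := by
      have gen : ∀ a b : ℝ, 0 ≤ a → a ≤ b → |Real.exp (-(a/2)) - Real.exp (-(b/2))| ≤ |a - b| := by
        intro a b ha hab
        have h2 : Real.exp (-(b/2)) ≤ Real.exp (-(a/2)) := Real.exp_le_exp.2 (by linarith)
        rw [abs_of_nonneg (by linarith), abs_of_nonpos (by linarith)]
        have h3 : Real.exp (-(b/2)) = Real.exp (-(a/2)) * Real.exp (-((b-a)/2)) := by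
          rw [← Real.exp_add]; congr 1; ring
        have h4 := Real.add_one_le_exp (-((b-a)/2))
        have h5 : Real.exp (-(a/2)) ≤ 1 := Real.exp_le_one_iff.2 (by linarith)
        rw [h3]
        have h6 := Real.exp_pos (-(a/2))
        nlinarith
      rcases le_total V S2 with h | h
      · exact gen V S2 hV0 h
      · rw [abs_sub_comm, abs_sub_comm V]
        exact gen S2 V hS20 h
    exact h1.trans (hvar.trans hW4.2)
  -- assembly
  have e1 : av N t (fun z => Complex.exp (Complex.I * ((∑ i, s i * inc ρ X (y i.castSucc) (y i.succ) z : ℝ) : ℂ))) =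
      Complex.exp (Complex.I * (D:ℂ)) * av N t (fun z => Complex.exp (Complex.I * ((∑ p ∈ P, Y p z : ℝ) : ℂ))) := by
    unfold av
    simp only [Complex.real_smul]
    rw [mul_left_comm]
    congr 1
    rw [mul_sum]
    refine sum_congr rfl fun j _ => ?_
    rw [hlin, ← Complex.exp_add]
    congr 1
    push_cast
    ring
  rw [e1]
  obtain ⟨A, hA⟩ : ∃ A : ℂ, A = av N t (fun z => Complex.exp (Complex.I * ((∑ p ∈ P, Y p z : ℝ) : ℂ))) := ⟨_, rfl⟩
  rw [← hA] at key ⊢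
  have hA1 : ‖A‖ ≤ 1 := by
    rw [hA]
    refine (norm_av_le _ _ _).trans ?_
    have : (fun z => ‖Complex.exp (Complex.I * ((∑ p ∈ P, Y p z : ℝ) : ℂ))‖) = fun _ => (1:ℝ) := by
      funext z
      rw [mul_comm, Complex.norm_exp_ofReal_mul_I]
    rw [this, av_const (by omega : 0 < N)]
  rw [← hS2]
  calc ‖Complex.exp (Complex.I * (D:ℂ)) * A - Complex.exp (-(S2 / 2 : ℝ))‖
      = ‖(Complex.exp (Complex.I * (D:ℂ)) - 1) * A + (A - Complex.exp (-((∑ p ∈ P, av p 0 (fun z => Y p z ^ 2)) / 2 : ℝ))) +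
          (Complex.exp (-((∑ p ∈ P, av p 0 (fun z => Y p z ^ 2)) / 2 : ℝ)) - Complex.exp (-(S2 / 2 : ℝ)))‖ := by
        congr 1; ring
    _ ≤ ‖(Complex.exp (Complex.I * (D:ℂ)) - 1) * A‖ + ‖A - Complex.exp (-((∑ p ∈ P, av p 0 (fun z => Y p z ^ 2)) / 2 : ℝ))‖ +
          ‖Complex.exp (-((∑ p ∈ P, av p 0 (fun z => Y p z ^ 2)) / 2 : ℝ)) - Complex.exp (-(S2 / 2 : ℝ))‖ := norm_add₃_le
    _ ≤ η / 5 + (η / 5 + η / 5 + η / 5) + η / 5 := by
        refine add_le_add (add_le_add ?_ ?_) hvexp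
        · rw [norm_mul]
          calc ‖Complex.exp (Complex.I * (D:ℂ)) - 1‖ * ‖A‖ ≤ (η / 5) * 1 := by gcongr
            _ = η / 5 := mul_one _
        · refine key.trans ?_
          refine add_le_add (add_le_add ?_ hK) herr
          calc 2 * ∑ p ∈ P, c p ^ 3 ≤ 2 * (8 * C1 ^ 3 * S ^ 3 * Z / √W) := by gcongr
            _ = 2 * (8 * C1 ^ 3 * S ^ 3 * Z) / √W := by ring
            _ ≤ η / 5 := hW3
    _ = η := by ring

end Pool.Agent.D0H53.EB
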