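import Mathlib
import Pool.Agent.D0H53.EB.E5
import Pool.Agent.D0H53.CL.C13

/-! The limit law of the normalised increments. -/

set_option autoImplicit false

open Finset Filter Topology MeasureTheory ProbabilityTheory
open scoped RealInnerProductSpace

namespace Pool.Agent.D0H53.EB

open Pool.Agent.D0H53.CL (emp emp_prob emp_integral levy_unif)

/-- the standard Gaussian measure on `ℝ^k` -/
noncomputable def gau (k : ℕ) : Measure (Fin k → ℝ) := Measure.pi (fun _ : Fin k => gaussianReal 0 1)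

instance (k : ℕ) : IsProbabilityMeasure (gau k) := by unfold gau; infer_instance

/-- the map to Euclidean space -/
noncomputable def Ph (k : ℕ) (p : Fin k → ℝ) : EuclideanSpace ℝ (Fin k) := WithLp.toLp 2 p

lemma Ph_cont (k : ℕ) : Continuous (Ph k) := by unfold Ph; fun_prop

/-- the Gaussian measure on Euclidean space -/
noncomputable def gauE (k : ℕ) : Measure (EuclideanSpace ℝ (Fin k)) := (gau k).map (Ph k)

instance (k : ℕ) : IsProbabilityMeasure (gauE k) := Measure.isProbabilityMeasure_map (Ph_cont k).measurable.aemeasurable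

lemma gauE_char (k : ℕ) (t : EuclideanSpace ℝ (Fin k)) : charFun (gauE k) t = Complex.exp (-((∑ i, t i ^ 2) / 2 : ℝ)) := by
  rw [charFun_apply]
  unfold gauE
  rw [integral_map (Ph_cont k).measurable.aemeasurable (by
    apply Continuous.aestronglyMeasurable
    fun_prop)]
  have h1 : ∀ p : Fin k → ℝ, Complex.exp ((⟪Ph k p, t⟫ : ℝ) * Complex.I) = ∏ i : Fin k, Complex.exp (t i * p i * Complex.I) := by
    intro p
    have h2 : (⟪Ph k p, t⟫ : ℝ) = ∑ i : Fin k, t i * p i := by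
      rw [PiLp.inner_apply]
      simp [Ph]
    rw [h2, ← Complex.exp_sum]
    congr 1
    push_cast
    rw [Finset.sum_mul]
  simp_rw [h1]
  unfold gau
  rw [integral_fintype_prod_eq_prod (fun (i : Fin k) (x : ℝ) => Complex.exp (t i * x * Complex.I))]
  have h3 : ∀ i : Fin k, ∫ x : ℝ, Complex.exp (t i * x * Complex.I) ∂(gaussianReal 0 1) = Complex.exp (-((t i ^ 2) / 2 : ℝ)) := by
    intro i
    rw [← charFun_apply_real, charFun_gaussianReal]
    congr 1
    push_cast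
    simp
  rw [Finset.prod_congr rfl (fun i _ => h3 i), ← Complex.exp_sum]
  congr 1
  push_cast
  rw [Finset.sum_div, Finset.sum_neg_distrib]

/-- the vector of the normalised increments -/
noncomputable def vec (ρ : ℝ) (X : ℕ → ℤ → ℝ) {k : ℕ} (y : Fin (k + 1) → ℕ) (z : ℤ) : Fin k → ℝ :=
  fun i => inc ρ X (y i.castSucc) (y i.succ) z

/-- **the limit law** -/
theorem law (C ρ : ℝ) (k : ℕ) (f : (Fin k → ℝ) → ℝ) (hf : Continuous f) (hB : ∃ B, ∀ x, |f x| ≤ B) {η : ℝ} (hη : 0 < η) :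
    ∃ δ : ℝ, 0 < δ ∧ δ ≤ 1 ∧ ∃ N₀ : ℕ, ∀ N : ℕ, N₀ ≤ N →
    ∀ X : ℕ → ℤ → ℝ, Fam C ρ X → ∀ t : ℤ, ∀ y : Fin (k + 1) → ℕ, Thr k y (1 / δ) → (y (Fin.last k) : ℝ) ≤ (N:ℝ) ^ δ →
    |av N t (fun z => f (vec ρ X y z)) - ∫ x, f x ∂(gau k)| ≤ η := by
  classical
  let ι := ℕ × (ℕ → ℤ → ℝ) × ℤ × (Fin (k + 1) → ℕ)
  let A : ℕ → Set ι := fun j => {a | j + 1 ≤ a.1 ∧ Fam C ρ a.2.1 ∧ Thr k a.2.2.2 ((j:ℝ) + 1) ∧
    (a.2.2.2 (Fin.last k) : ℝ) ≤ (a.1:ℝ) ^ (1 / ((j:ℝ) + 1))}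
  have hA : Antitone A := by
    intro i j hij a ha
    obtain ⟨h1, h2, h3, h4⟩ := ha
    have hij' : (i:ℝ) ≤ j := by exact_mod_cast hij
    have hN : (1:ℝ) ≤ a.1 := by
      have : 1 ≤ a.1 := by omega
      exact_mod_cast this
    refine ⟨by omega, h2, h3.mono (by linarith), h4.trans ?_⟩
    apply Real.rpow_le_rpow_of_exponent_le hN
    apply one_div_le_one_div_of_le <;> linarith [(Nat.cast_nonneg i : (0:ℝ) ≤ i)]
  let Yv : ι → ℕ → EuclideanSpace ℝ (Fin k) := fun a n => Ph k (vec ρ a.2.1 a.2.2.2 (a.2.2.1 + n))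
  have hne : ∀ a : ι, 0 < a.1 → (range a.1).Nonempty := fun a h => ⟨0, mem_range.2 h⟩
  obtain ⟨μ₀, hμ₀⟩ : ∃ μ₀ : ProbabilityMeasure (EuclideanSpace ℝ (Fin k)), (μ₀ : Measure (EuclideanSpace ℝ (Fin k))) = gauE k :=
    ⟨⟨gauE k, inferInstance⟩, rfl⟩
  have hex : ∀ a : ι, ∃ μ : ProbabilityMeasure (EuclideanSpace ℝ (Fin k)), 0 < a.1 →
      (μ : Measure (EuclideanSpace ℝ (Fin k))) = emp (Yv a) (range a.1) := by
    intro a
    rcases Nat.eq_zero_or_pos a.1 with h | h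
    · exact ⟨μ₀, fun h' => by omega⟩
    · exact ⟨⟨emp (Yv a) (range a.1), emp_prob _ (hne a h)⟩, fun _ => rfl⟩
  choose m hm using hex
  have hchar : ∀ t : EuclideanSpace ℝ (Fin k), ∀ η : ℝ, 0 < η → ∃ j, ∀ a ∈ A j,
      ‖charFun (m a : Measure (EuclideanSpace ℝ (Fin k))) t - charFun (μ₀ : Measure (EuclideanSpace ℝ (Fin k))) t‖ ≤ η := by
    intro t η hη
    obtain ⟨δ, hδ, -, N₀, h⟩ := engine C ρ k (fun i => t i) hη
    obtain ⟨j1, hj1⟩ := exists_nat_ge (1 / δ)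
    refine ⟨max j1 N₀, fun a ha => ?_⟩
    obtain ⟨h1, h2, h3, h4⟩ := ha
    obtain ⟨j, hj⟩ : ∃ j, j = max j1 N₀ := ⟨_, rfl⟩
    rw [← hj] at h1 h3 h4
    have hjj : j1 ≤ j := by rw [hj]; exact le_max_left _ _
    have hjN : N₀ ≤ j := by rw [hj]; exact le_max_right _ _
    have hjr : 1 / δ ≤ (j:ℝ) + 1 := by
      have : (j1:ℝ) ≤ j := by exact_mod_cast hjj
      linarith
    have hN1 : 1 ≤ a.1 := by omega
    have hN : (1:ℝ) ≤ a.1 := by exact_mod_cast hN1
    have hj0 : (0:ℝ) < (j:ℝ) + 1 := by positivity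
    have key := h a.1 (by omega) a.2.1 h2 a.2.2.1 a.2.2.2 (h3.mono hjr) (h4.trans (by
      apply Real.rpow_le_rpow_of_exponent_le hN
      rw [div_le_iff₀ hj0]
      rw [div_le_iff₀ hδ] at hjr
      linarith))
    rw [hm a (by omega)]
    have e1 : charFun (emp (Yv a) (range a.1)) t =
        av a.1 a.2.2.1 (fun z => Complex.exp (Complex.I * ((∑ i, t i * inc ρ a.2.1 (a.2.2.2 i.castSucc) (a.2.2.2 i.succ) z : ℝ) : ℂ))) := by
      rw [charFun_apply, emp_integral, card_range]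
      unfold av
      congr 1
      refine sum_congr rfl fun n _ => ?_
      have h2 : (⟪Yv a n, t⟫ : ℝ) = ∑ i : Fin k, t i * inc ρ a.2.1 (a.2.2.2 i.castSucc) (a.2.2.2 i.succ) (a.2.2.1 + n) := by
        rw [PiLp.inner_apply]
        simp [Yv, Ph, vec]
      rw [h2, mul_comm]
    rw [e1, hμ₀, gauE_char]
    exact key
  obtain ⟨j, hj⟩ := levy_unif hA m μ₀ hchar (f := fun x => f (fun i => x i)) (by
    apply hf.comp
    fun_prop) (by
    obtain ⟨B, hB⟩ := hB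
    exact ⟨B, fun x => hB _⟩) hη
  have hj0 : (0:ℝ) < (j:ℝ) + 1 := by positivity
  refine ⟨1 / ((j:ℝ) + 1), by positivity, ?_, j + 1, fun N hN X hX t y hy hyN => ?_⟩
  · rw [div_le_one hj0]
    linarith [(Nat.cast_nonneg j : (0:ℝ) ≤ j)]
  have hy' : Thr k y ((j:ℝ) + 1) := by
    rw [one_div_one_div] at hy
    exact hy
  have h1 := hj (N, X, t, y) ⟨hN, hX, hy', hyN⟩
  rw [hm (N, X, t, y) (by show 0 < N; omega), emp_integral, card_range, hμ₀] at h1
  have e2 : ∫ x, f (fun i => x i) ∂(gauE k) = ∫ x, f x ∂(gau k) := by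
    unfold gauE
    rw [integral_map (Ph_cont k).measurable.aemeasurable (by
      apply Continuous.aestronglyMeasurable
      apply hf.comp
      fun_prop)]
    rfl
  rw [e2] at h1
  exact h1

end Pool.Agent.D0H53.EB
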