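import Mathlib
import Pool.Agent.D0H53.EB.E6
import Pool.Agent.Helper112.LS

/-! Second moments over a window by the dual large sieve. -/

set_option autoImplicit false

open Finset

namespace Pool.Agent.D0H53.EB

open Pool.Agent.Helper112 (ee ls_ee_zero ls_ee_add ls_ee_int ls_norm_ee ls_conj_ee ls_ee_nat_mul ls_ee_eq_one lsSep ls_dual)

/-- orthogonality -/
lemma orth (q : ℕ) (hq : 0 < q) (m : ℤ) :
    ∑ a ∈ range q, ee ((a : ℝ) * ((m : ℝ) / q)) = if (q : ℤ) ∣ m then (q : ℂ) else 0 := by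
  have hqR : (q : ℝ) ≠ 0 := by positivity
  split_ifs with h
  · obtain ⟨k, rfl⟩ := h
    have : ∀ a ∈ range q, ee ((a : ℝ) * (((q * k : ℤ) : ℝ) / q)) = 1 := by
      intro a _
      have e : (a : ℝ) * (((q * k : ℤ) : ℝ) / q) = ((a * k : ℤ) : ℝ) := by
        push_cast
        field_simp
      rw [e, ls_ee_int]
    rw [Finset.sum_congr rfl this]
    simp
  · have h1 : ∀ a ∈ range q, ee ((a : ℝ) * ((m : ℝ) / q)) = ee ((m : ℝ) / q) ^ a :=
      fun a _ => ls_ee_nat_mul a _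
    rw [Finset.sum_congr rfl h1]
    have h2 : ee ((m : ℝ) / q) ≠ 1 := by
      intro h3
      obtain ⟨n, hn⟩ := ls_ee_eq_one h3
      apply h
      refine ⟨n, ?_⟩
      have : (m : ℝ) = ((q * n : ℤ) : ℝ) := by
        push_cast
        rw [div_eq_iff hqR] at hn
        linarith
      exact_mod_cast this
    have h3 := geom_sum_mul (ee ((m : ℝ) / q)) q
    have h4 : ee ((m : ℝ) / q) ^ q = 1 := by
      rw [← ls_ee_nat_mul]
      have : (q : ℝ) * ((m : ℝ) / q) = m := by field_simp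
      rw [this, ls_ee_int]
    rw [h4, sub_self] at h3
    exact (mul_eq_zero.mp h3).resolve_right (sub_ne_zero.mpr h2)

lemma sep_of_frac (K D : ℕ) (hD : 0 < D) (hDK : D ≤ K) (m : ℤ)
    (h : ¬ (D : ℤ) ∣ m) : lsSep K ((m : ℝ) / D) := by
  have hDR : (0 : ℝ) < D := by exact_mod_cast hD
  have hKR : (0 : ℝ) < K := lt_of_lt_of_le hDR (by exact_mod_cast hDK)
  have hinv : 1 / (K : ℝ) ≤ 1 / (D : ℝ) :=
    one_div_le_one_div_of_le hDR (by exact_mod_cast hDK)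
  have e : Int.fract ((m : ℝ) / D) = ((m % (D : ℤ) : ℤ) : ℝ) / (D : ℝ) :=
    Int.fract_div_intCast_eq_div_intCast_mod
  have h0 : m % (D : ℤ) ≠ 0 := fun h' => h (Int.dvd_of_emod_eq_zero h')
  have h1 : 0 ≤ m % (D : ℤ) := Int.emod_nonneg _ (by omega)
  have h2 : m % (D : ℤ) < D := Int.emod_lt_of_pos _ (by omega)
  have h3 : 1 ≤ m % (D : ℤ) := by omega
  have h4 : m % (D : ℤ) ≤ D - 1 := by omega
  unfold lsSep
  rw [e]
  constructor
  · refine le_trans hinv ?_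
    rw [div_le_div_iff_of_pos_right hDR]
    exact_mod_cast h3
  · have h5 : ((m % (D : ℤ) : ℤ) : ℝ) ≤ (D : ℝ) - 1 := by exact_mod_cast h4
    have h6 : ((m % (D : ℤ) : ℤ) : ℝ) / (D : ℝ) ≤ ((D : ℝ) - 1) / D := by
      rw [div_le_div_iff_of_pos_right hDR]
      exact h5
    have h7 : ((D : ℝ) - 1) / D = 1 - 1 / (D : ℝ) := by
      rw [sub_div, div_self hDR.ne']
    linarith

/-- Fourier coefficient of a periodic function -/
noncomputable def fo (p : ℕ) (Y : ℤ → ℝ) (a : ℕ) : ℂ := (p : ℂ)⁻¹ * ∑ j ∈ range p, (Y j : ℂ) * ee (-((a : ℝ) * ((j : ℝ) / p)))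

lemma fo_zero (p : ℕ) (Y : ℤ → ℝ) : fo p Y 0 = ((av p 0 Y : ℝ) : ℂ) := by
  unfold fo av
  rw [smul_eq_mul]
  push_cast
  congr 1
  refine sum_congr rfl fun j _ => ?_
  rw [zero_mul, neg_zero, ls_ee_zero, mul_one, zero_add]

lemma fo_inv {p : ℕ} (hp : 0 < p) {Y : ℤ → ℝ} (hY : Per p Y) (z : ℤ) :
    (Y z : ℂ) = ∑ a ∈ range p, fo p Y a * ee ((z : ℝ) * ((a : ℝ) / p)) := by
  have hpR : (p : ℝ) ≠ 0 := by positivity
  have hpC : (p : ℂ) ≠ 0 := by exact_mod_cast hp.ne'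
  have h1 : ∀ a ∈ range p, fo p Y a * ee ((z : ℝ) * ((a : ℝ) / p)) =
      ∑ j ∈ range p, (p : ℂ)⁻¹ * ((Y j : ℂ) * ee ((a : ℝ) * (((z - j : ℤ) : ℝ) / p))) := by
    intro a _
    unfold fo
    rw [mul_assoc, sum_mul, mul_sum]
    refine sum_congr rfl fun j _ => ?_
    rw [mul_assoc, ← ls_ee_add]
    congr 3
    push_cast
    field_simp
    ring
  rw [sum_congr rfl h1, sum_comm]
  have h2 : ∀ j ∈ range p, ∑ a ∈ range p, (p : ℂ)⁻¹ * ((Y j : ℂ) * ee ((a : ℝ) * (((z - j : ℤ) : ℝ) / p))) =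
      if (p : ℤ) ∣ z - j then (Y j : ℂ) else 0 := by
    intro j _
    rw [← mul_sum, ← mul_sum, orth p hp]
    split_ifs
    · field_simp
    · simp
  rw [sum_congr rfl h2]
  obtain ⟨j0, hj0⟩ : ∃ j0 : ℕ, j0 = (z % p).toNat := ⟨_, rfl⟩
  have hnn : 0 ≤ z % (p : ℤ) := Int.emod_nonneg _ (by exact_mod_cast hp.ne')
  have hj0' : (j0 : ℤ) = z % p := by rw [hj0]; exact Int.toNat_of_nonneg hnn
  have hlt : z % (p : ℤ) < p := Int.emod_lt_of_pos _ (by exact_mod_cast hp)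
  have hdvd : (p : ℤ) ∣ z - j0 := by
    rw [hj0']
    refine ⟨z / p, ?_⟩
    have := Int.emod_add_mul_ediv z p
    linarith
  rw [sum_eq_single j0]
  · rw [if_pos hdvd]
    congr 1
    obtain ⟨k, hk⟩ := hdvd
    have : z = (j0 : ℤ) + p * k := by linarith
    rw [this, hY.int]
  · intro j hj hne
    rw [if_neg]
    intro hd
    apply hne
    rw [mem_range] at hj
    have h3 : (p : ℤ) ∣ (j : ℤ) - j0 := by
      have := dvd_sub hdvd hd
      have e : z - (j0 : ℤ) - (z - j) = (j : ℤ) - j0 := by ring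
      rwa [e] at this
    have h4 : ((j : ℤ) - j0) = 0 := by
      apply Int.eq_zero_of_abs_lt_dvd h3
      rw [abs_lt]
      constructor <;> omega
    omega
  · intro h
    exfalso
    apply h
    rw [mem_range]
    omega

lemma fo_parseval {p : ℕ} (hp : 0 < p) (Y : ℤ → ℝ) : ∑ a ∈ range p, ‖fo p Y a‖ ^ 2 = (p : ℝ)⁻¹ * ∑ j ∈ range p, Y j ^ 2 := by
  have hpR : (p : ℝ) ≠ 0 := by positivity
  have hpC : (p : ℂ) ≠ 0 := by exact_mod_cast hp.ne'
  have h0 : ∀ a ∈ range p, ((‖fo p Y a‖ ^ 2 : ℝ) : ℂ) =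
      ∑ j ∈ range p, ∑ k ∈ range p, (p : ℂ)⁻¹ * (p : ℂ)⁻¹ * ((Y j : ℂ) * Y k) * ee ((a : ℝ) * (((k - j : ℤ) : ℝ) / p)) := by
    intro a _
    rw [← Complex.normSq_eq_norm_sq, ← Complex.mul_conj]
    unfold fo
    rw [map_mul, map_inv₀, map_sum, Complex.conj_natCast]
    have e : (p : ℂ)⁻¹ * (∑ j ∈ range p, (Y j : ℂ) * ee (-((a : ℝ) * ((j : ℝ) / p)))) *
        ((p : ℂ)⁻¹ * ∑ x ∈ range p, (starRingEnd ℂ) ((Y x : ℂ) * ee (-((a : ℝ) * ((x : ℝ) / p))))) =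
        (p : ℂ)⁻¹ * (p : ℂ)⁻¹ * ((∑ j ∈ range p, (Y j : ℂ) * ee (-((a : ℝ) * ((j : ℝ) / p)))) *
          ∑ x ∈ range p, (starRingEnd ℂ) ((Y x : ℂ) * ee (-((a : ℝ) * ((x : ℝ) / p))))) := by ring
    rw [e, sum_mul_sum, mul_sum]
    refine sum_congr rfl fun j _ => ?_
    rw [mul_sum]
    refine sum_congr rfl fun k _ => ?_
    rw [map_mul, Complex.conj_ofReal, ls_conj_ee, neg_neg]
    have e2 : ee ((a : ℝ) * (((k - j : ℤ) : ℝ) / p)) = ee (-((a : ℝ) * ((j : ℝ) / p))) * ee ((a : ℝ) * ((k : ℝ) / p)) := by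
      rw [← ls_ee_add]
      congr 1
      push_cast
      ring
    rw [e2]
    ring
  have key : ((∑ a ∈ range p, ‖fo p Y a‖ ^ 2 : ℝ) : ℂ) = (((p : ℝ)⁻¹ * ∑ j ∈ range p, Y j ^ 2 : ℝ) : ℂ) := by
    rw [Complex.ofReal_sum, sum_congr rfl h0, sum_comm, Complex.ofReal_mul, Complex.ofReal_inv, Complex.ofReal_natCast, Complex.ofReal_sum, mul_sum]
    refine sum_congr rfl fun j hj => ?_
    rw [sum_comm]
    rw [sum_eq_single j]
    · rw [← mul_sum, orth p hp, if_pos (by simp)]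
      push_cast
      field_simp
    · intro k hk hne
      rw [← mul_sum, orth p hp, if_neg, mul_zero]
      intro hd
      apply hne
      rw [mem_range] at hj hk
      have h4 : ((k : ℤ) - j) = 0 := by
        apply Int.eq_zero_of_abs_lt_dvd hd
        rw [abs_lt]
        constructor <;> omega
      omega
    · intro h; exact absurd hj h
  exact_mod_cast key

/-- **second moment over a window**, primes up to the square root of the length -/
theorem window_sq {P : Finset ℕ} (hP : ∀ p ∈ P, p.Prime) {x N : ℕ} (hx : ∀ p ∈ P, p ≤ x) (hN : 0 < N) (hxN : x ^ 2 ≤ N) {Y : ℕ → ℤ → ℝ}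
    (hY : ∀ p ∈ P, Per p (Y p)) (h0 : ∀ p ∈ P, av p 0 (Y p) = 0) (t : ℤ) :
    av N t (fun z => (∑ p ∈ P, Y p z) ^ 2) ≤ 12 * ∑ p ∈ P, av p 0 (fun z => Y p z ^ 2) := by
  classical
  rcases P.eq_empty_or_nonempty with hPe | ⟨p₀, hp₀⟩
  · subst hPe
    simp only [sum_empty, ne_eq, OfNat.ofNat_ne_zero, not_false_eq_true, zero_pow, mul_zero]
    rw [av_const hN]
  have hx1 : 1 ≤ x := (hP p₀ hp₀).one_le.trans (hx p₀ hp₀)
  obtain ⟨R, hR⟩ : ∃ R : Finset (Σ _ : ℕ, ℕ), R = P.sigma (fun p => Ioo 0 p) := ⟨_, rfl⟩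
  obtain ⟨ξ, hξ⟩ : ∃ ξ : (Σ _ : ℕ, ℕ) → ℝ, ξ = fun r => (r.2 : ℝ) / r.1 := ⟨_, rfl⟩
  obtain ⟨c, hc⟩ : ∃ c : (Σ _ : ℕ, ℕ) → ℂ, c = fun r => fo r.1 (Y r.1) r.2 * ee (((t - 1 : ℤ) : ℝ) * ((r.2 : ℝ) / r.1)) := ⟨_, rfl⟩
  have hsep : ∀ r ∈ R, ∀ s ∈ R, r ≠ s → lsSep (x ^ 2) (ξ s - ξ r) := by
    rintro ⟨p, a⟩ hr ⟨q, b⟩ hs hne
    rw [hR, mem_sigma, mem_Ioo] at hr hs
    simp only at hr hs
    obtain ⟨hpP, ha0, hap⟩ := hr
    obtain ⟨hqP, hb0, hbq⟩ := hs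
    have hpp := hP p hpP
    have hqp := hP q hqP
    have hp0 : (p : ℝ) ≠ 0 := by exact_mod_cast hpp.ne_zero
    have hq0 : (q : ℝ) ≠ 0 := by exact_mod_cast hqp.ne_zero
    have e : ξ ⟨q, b⟩ - ξ ⟨p, a⟩ = (((b : ℤ) * p - a * q : ℤ) : ℝ) / ((p * q : ℕ) : ℝ) := by
      rw [hξ]
      push_cast
      field_simp
    rw [e]
    apply sep_of_frac _ _ (Nat.mul_pos hpp.pos hqp.pos) (by
      rw [sq]; exact Nat.mul_le_mul (hx p hpP) (hx q hqP))
    intro hd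
    have hpqd : (p : ℤ) ∣ (b : ℤ) * p - a * q := dvd_trans ⟨q, by push_cast; ring⟩ hd
    have h1 : (p : ℤ) ∣ (a : ℤ) * q := by
      have := dvd_sub (Dvd.intro_left (b : ℤ) rfl : (p : ℤ) ∣ (b : ℤ) * p) hpqd
      have e2 : (b : ℤ) * p - ((b : ℤ) * p - a * q) = a * q := by ring
      rwa [e2] at this
    have h2 : p ∣ a * q := by exact_mod_cast h1
    rcases (Nat.Prime.dvd_mul hpp).1 h2 with h3 | h3
    · exact absurd (Nat.le_of_dvd ha0 h3) (by omega)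
    · have hpq : p = q := (Nat.prime_dvd_prime_iff_eq hpp hqp).1 h3
      subst hpq
      obtain ⟨k, hk⟩ := hd
      push_cast at hk
      have hpz : (p : ℤ) ≠ 0 := by exact_mod_cast hpp.ne_zero
      have h4 : (b : ℤ) - a = p * k := by
        have : (p : ℤ) * ((b : ℤ) - a) = p * (p * k) := by linarith
        exact mul_left_cancel₀ hpz this
      have h5 : (b : ℤ) - a = 0 := by
        apply Int.eq_zero_of_abs_lt_dvd (⟨k, h4⟩ : (p : ℤ) ∣ (b : ℤ) - a)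
        rw [abs_lt]
        constructor <;> omega
      apply hne
      have : a = b := by omega
      rw [this]
  have hmain := ls_dual R ξ (x ^ 2) N (Nat.one_le_pow _ _ hx1) hsep c
  -- the left side
  have hY' : ∀ p ∈ P, ∀ z : ℤ, (Y p z : ℂ) = ∑ a ∈ Ioo 0 p, fo p (Y p) a * ee ((z : ℝ) * ((a : ℝ) / p)) := by
    intro p hp z
    have hp0 := (hP p hp).pos
    rw [fo_inv hp0 (hY p hp) z]
    have e : range p = insert 0 (Ioo 0 p) := by
      ext a; rw [mem_insert, mem_range, mem_Ioo]; omega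
    rw [e, sum_insert (by simp), fo_zero, h0 p hp]
    simp
  have hleft : ∑ n ∈ Icc 1 N, ‖∑ r ∈ R, c r * ee (n * ξ r)‖ ^ 2 = ∑ i ∈ range N, (∑ p ∈ P, Y p (t + i)) ^ 2 := by
    have e1 : Icc 1 N = (range N).image (fun i => i + 1) := by
      ext n
      rw [mem_Icc, mem_image]
      constructor
      · intro h; exact ⟨n - 1, mem_range.2 (by omega), by omega⟩
      · rintro ⟨i, hi, rfl⟩
        rw [mem_range] at hi; omega
    rw [e1, sum_image (fun a _ b _ h => by simpa using h)]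
    refine sum_congr rfl fun i _ => ?_
    have e2 : ∑ r ∈ R, c r * ee (((i + 1 : ℕ) : ℝ) * ξ r) = ((∑ p ∈ P, Y p (t + i) : ℝ) : ℂ) := by
      rw [hR, sum_sigma]
      push_cast
      refine sum_congr rfl fun p hp => ?_
      rw [hY' p hp]
      refine sum_congr rfl fun a _ => ?_
      rw [hc, hξ]
      simp only
      rw [mul_assoc, ← ls_ee_add]
      congr 2
      push_cast
      ring
    rw [e2, Complex.norm_real, Real.norm_eq_abs, sq_abs]
  have hright : ∑ r ∈ R, ‖c r‖ ^ 2 ≤ ∑ p ∈ P, av p 0 (fun z => Y p z ^ 2) := by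
    rw [hR, sum_sigma]
    refine sum_le_sum fun p hp => ?_
    have hp0 := (hP p hp).pos
    have e1 : ∀ a, ‖c ⟨p, a⟩‖ ^ 2 = ‖fo p (Y p) a‖ ^ 2 := by
      intro a
      rw [hc]
      simp only
      rw [norm_mul, ls_norm_ee, mul_one]
    rw [sum_congr rfl fun a _ => e1 a]
    calc ∑ a ∈ Ioo 0 p, ‖fo p (Y p) a‖ ^ 2 ≤ ∑ a ∈ range p, ‖fo p (Y p) a‖ ^ 2 := by
          apply sum_le_sum_of_subset_of_nonneg
          · intro a ha
            rw [mem_Ioo] at ha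
            rw [mem_range]; omega
          · intro a _ _; positivity
      _ = av p 0 (fun z => Y p z ^ 2) := by
          rw [fo_parseval hp0]
          unfold av
          rw [smul_eq_mul]
          congr 1
          refine sum_congr rfl fun j _ => ?_
          rw [zero_add]
  rw [hleft] at hmain
  have hN' : (0:ℝ) < N := by exact_mod_cast hN
  have hxN' : ((x ^ 2 : ℕ) : ℝ) ≤ N := by exact_mod_cast hxN
  unfold av
  rw [smul_eq_mul, inv_mul_le_iff₀ hN']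
  refine hmain.trans ?_
  have h3 : 0 ≤ ∑ r ∈ R, ‖c r‖ ^ 2 := sum_nonneg fun r _ => by positivity
  calc 6 * ((N : ℝ) + ((x ^ 2 : ℕ) : ℝ)) * ∑ r ∈ R, ‖c r‖ ^ 2 ≤ 6 * ((N : ℝ) + N) * ∑ p ∈ P, av p 0 (fun z => Y p z ^ 2) := by gcongr
    _ = N * (12 * ∑ p ∈ P, av p 0 (fun z => Y p z ^ 2)) := by ring

end Pool.Agent.D0H53.EB
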