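import Mathlib
import Pool.Agent.D0H53.EB.F1

/-! Second moments of blocks over a window, and the limit law for all thresholds up to the square root of the length. -/

set_option autoImplicit false

open Finset Filter Topology MeasureTheory ProbabilityTheory
open scoped RealInnerProductSpace

namespace Pool.Agent.D0H53.EB

lemma Fam.nonneg {C ρ : ℝ} {X : ℕ → ℤ → ℝ} (h : Fam C ρ X) : 0 ≤ C := by
  have h1 := h.bd 2 Nat.prime_two 0
  have h2 : 0 ≤ C / √((2:ℕ):ℝ) := (abs_nonneg _).trans h1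
  have h3 : 0 < √((2:ℕ):ℝ) := Real.sqrt_pos.2 (by norm_num)
  by_contra hcon
  push Not at hcon
  have := div_neg_of_neg_of_pos hcon h3
  linarith

/-- second moment of a block over a window -/
theorem block_moment (C : ℝ) : ∃ K : ℝ, 1 ≤ K ∧ ∀ (ρ : ℝ) (X : ℕ → ℤ → ℝ), Fam C ρ X → ∀ a b N : ℕ, 3 ≤ a → a ≤ b → b ^ 2 ≤ N → ∀ t : ℤ,
    av N t (fun z => (∑ p ∈ blk a b, X p z - ρ * (LL b - LL a)) ^ 2) ≤ K * (LL b - LL a + 1) := by
  obtain ⟨C0, hC0, hMer⟩ := mertens_blk
  refine ⟨2 * (12 * (4 * C ^ 2 * (C0 + 1) + 1)) + 2 * C ^ 2 + 1, by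
    have h1 : 0 ≤ 12 * (4 * C ^ 2 * (C0 + 1) + 1) := by positivity
    have h2 : 0 ≤ C ^ 2 := sq_nonneg C
    linarith, ?_⟩
  intro ρ X hX a b N ha hab hbN t
  have hC := hX.nonneg
  have hb1 : 1 ≤ b := by omega
  have hN : 0 < N := lt_of_lt_of_le (by positivity) hbN
  have hH : 0 ≤ LL b - LL a := sub_nonneg.2 (LL_mono ha hab)
  obtain ⟨H, hHd⟩ : ∃ H, H = LL b - LL a := ⟨_, rfl⟩
  rw [← hHd] at hH ⊢
  obtain ⟨Y, hY⟩ : ∃ Y : ℕ → ℤ → ℝ, Y = fun p z => X p z - av p 0 (X p) := ⟨_, rfl⟩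
  have hPp : ∀ p ∈ blk a b, p.Prime := fun p hp => (mem_blk.1 hp).2
  have hm : ∀ p ∈ blk a b, |av p 0 (X p)| ≤ C / √p := by
    intro p hp
    have hpp := hPp p hp
    have h1 : ‖av p 0 (X p)‖ ≤ C / √p := by
      refine (norm_av_le p 0 _).trans ?_
      calc av p 0 (fun z => ‖X p z‖) ≤ av p 0 (fun _ => C / √(p:ℝ)) := by
            apply av_mono
            intro z
            exact hX.bd p hpp z
        _ = C / √p := av_const hpp.pos 0 _
    rwa [Real.norm_eq_abs] at h1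
  have hYb : ∀ p ∈ blk a b, ∀ z, |Y p z| ≤ 2 * C / √p := by
    intro p hp z
    rw [hY]
    refine (abs_sub _ _).trans ?_
    have h1 := hX.bd p (hPp p hp) z
    have h2 := hm p hp
    calc |X p z| + |av p 0 (X p)| ≤ C / √p + C / √p := add_le_add h1 h2
      _ = 2 * C / √p := by ring
  have hYp : ∀ p ∈ blk a b, Per p (Y p) := by
    intro p hp z
    rw [hY]
    simp only
    rw [hX.per p (hPp p hp)]
  have hY0 : ∀ p ∈ blk a b, av p 0 (Y p) = 0 := by
    intro p hp
    rw [hY]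
    have := av_sub (X p) (fun _ => av p 0 (X p)) p 0
    rw [av_const (hPp p hp).pos] at this
    rw [this, sub_self]
  -- the variance
  obtain ⟨V, hV⟩ : ∃ V, V = 4 * C ^ 2 * (H + C0) + 1 := ⟨_, rfl⟩
  have hV0 : 0 < V := by rw [hV]; positivity
  have hsq : ∀ p : ℕ, √(p:ℝ) ^ 2 = p := fun p => Real.sq_sqrt (Nat.cast_nonneg p)
  have hVs : ∑ p ∈ blk a b, (2 * C / √p) ^ 2 ≤ V := by
    have h1 := hMer a b ha hab
    rw [← hHd] at h1
    have h2 : ∑ p ∈ blk a b, (2 * C / √(p:ℝ)) ^ 2 = 4 * C ^ 2 * ∑ p ∈ blk a b, (1:ℝ) / p := by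
      rw [mul_sum]
      refine sum_congr rfl fun p _ => ?_
      rw [div_pow, hsq]; ring
    rw [h2, hV]
    rw [abs_le] at h1
    have h3 : ∑ p ∈ blk a b, (1:ℝ) / p ≤ H + C0 := by linarith [h1.2]
    have := mul_le_mul_of_nonneg_left h3 (by positivity : 0 ≤ 4 * C ^ 2)
    linarith
  have hYN : av N t (fun z => (∑ p ∈ blk a b, Y p z) ^ 2) ≤ 12 * V := by
    refine (window_sq hPp (x := b) (fun p hp => (mem_blk.1 hp).1.2) hN hbN hYp hY0 t).trans ?_
    have h1 : ∑ p ∈ blk a b, av p 0 (fun z => Y p z ^ 2) ≤ ∑ p ∈ blk a b, (2 * C / √(p:ℝ)) ^ 2 := by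
      refine sum_le_sum fun p hp => ?_
      calc av p 0 (fun z => Y p z ^ 2) ≤ av p 0 (fun _ => (2 * C / √(p:ℝ)) ^ 2) := by
            apply av_mono
            intro z
            rw [← sq_abs]
            exact pow_le_pow_left₀ (abs_nonneg _) (hYb p hp z) 2
        _ = _ := av_const (hPp p hp).pos 0 _
    linarith
  -- the centre
  obtain ⟨e, he⟩ : ∃ e, e = ∑ p ∈ blk a b, av p 0 (X p) - ρ * H := ⟨_, rfl⟩
  have heC : |e| ≤ C := by
    rw [he, hHd]
    exact hX.mean a b ha hab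
  have hpt : ∀ z, (∑ p ∈ blk a b, X p z - ρ * H) ^ 2 ≤ 2 * (∑ p ∈ blk a b, Y p z) ^ 2 + 2 * C ^ 2 := by
    intro z
    have e1 : ∑ p ∈ blk a b, X p z - ρ * H = ∑ p ∈ blk a b, Y p z + e := by
      rw [he, hY]
      simp only
      rw [sum_sub_distrib]; ring
    rw [e1]
    have h1 : e ^ 2 ≤ C ^ 2 := by rw [← sq_abs]; exact pow_le_pow_left₀ (abs_nonneg _) heC 2
    have h2 := sq_nonneg (∑ p ∈ blk a b, Y p z - e)
    have h3 : (∑ p ∈ blk a b, Y p z + e) ^ 2 = 2 * (∑ p ∈ blk a b, Y p z) ^ 2 + 2 * e ^ 2 - (∑ p ∈ blk a b, Y p z - e) ^ 2 := by ring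
    linarith
  calc av N t (fun z => (∑ p ∈ blk a b, X p z - ρ * H) ^ 2) ≤ av N t (fun z => 2 * (∑ p ∈ blk a b, Y p z) ^ 2 + 2 * C ^ 2) := av_mono hpt
    _ = 2 * av N t (fun z => (∑ p ∈ blk a b, Y p z) ^ 2) + 2 * C ^ 2 := by
      rw [av_add, av_mul_left, av_const hN]
    _ ≤ 2 * (12 * V) + 2 * C ^ 2 := by gcongr
    _ ≤ (2 * (12 * (4 * C ^ 2 * (C0 + 1) + 1)) + 2 * C ^ 2 + 1) * (H + 1) := by
      have hVb : V ≤ (4 * C ^ 2 * (C0 + 1) + 1) * (H + 1) := by
        rw [hV]
        have h1 : 0 ≤ C ^ 2 * (C0 * H) := by positivity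
        have h2 : 0 ≤ C ^ 2 := sq_nonneg C
        have h3 : (4 * C ^ 2 * (C0 + 1) + 1) * (H + 1) = 4 * C ^ 2 * (H + C0) + 1 + (4 * (C ^ 2 * (C0 * H)) + 4 * C ^ 2 + H) := by ring
        linarith
      have h2 : 2 * (12 * V) ≤ 2 * (12 * ((4 * C ^ 2 * (C0 + 1) + 1) * (H + 1))) := by gcongr
      have h3 : 2 * C ^ 2 ≤ 2 * C ^ 2 * (H + 1) := by
        have h4 := mul_nonneg (sq_nonneg C) hH
        linarith
      calc 2 * (12 * V) + 2 * C ^ 2 ≤ 2 * (12 * ((4 * C ^ 2 * (C0 + 1) + 1) * (H + 1))) + 2 * C ^ 2 * (H + 1) := add_le_add h2 h3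
        _ ≤ 2 * (12 * ((4 * C ^ 2 * (C0 + 1) + 1) * (H + 1))) + 2 * C ^ 2 * (H + 1) + (H + 1) := by linarith
        _ = _ := by ring

/-- **characteristic functions of the normalised increments**, thresholds up to the square root of the length -/
theorem engine3 (C ρ : ℝ) (k : ℕ) (s : Fin k → ℝ) {η : ℝ} (hη : 0 < η) : ∃ δ : ℝ, 0 < δ ∧ δ ≤ 1 ∧ ∃ N₀ : ℕ, ∀ N : ℕ, N₀ ≤ N →
    ∀ X : ℕ → ℤ → ℝ, Fam C ρ X → ∀ t : ℤ, ∀ y : Fin (k + 1) → ℕ, Thr k y (1 / δ) → y (Fin.last k) ^ 2 ≤ N →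
    ‖av N t (fun z => Complex.exp (Complex.I * ((∑ i, s i * inc ρ X (y i.castSucc) (y i.succ) z : ℝ) : ℂ))) -
      Complex.exp (-((∑ i, s i ^ 2) / 2 : ℝ))‖ ≤ η := by
  obtain ⟨K, hK1, hblock⟩ := block_moment C
  obtain ⟨δ₀, hδ₀, hδ₀1, N₁, heng⟩ := engine C ρ k s (η := η / 2) (by positivity)
  obtain ⟨G, hG⟩ : ∃ G : ℝ, G = Real.log (2 / δ₀) := ⟨_, rfl⟩
  have hG0 : 0 ≤ G := by
    rw [hG]; apply Real.log_nonneg
    rw [le_div_iff₀ hδ₀]; linarith
  obtain ⟨A, hA⟩ : ∃ A : ℝ, A = ∑ i, |s i| + 1 := ⟨_, rfl⟩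
  have hA0 : 0 < A := by
    rw [hA]
    have : 0 ≤ ∑ i, |s i| := sum_nonneg fun i _ => abs_nonneg _
    linarith
  obtain ⟨ε, hε⟩ : ∃ ε : ℝ, ε = η / (2 * A) := ⟨_, rfl⟩
  have hε0 : 0 < ε := by rw [hε]; positivity
  obtain ⟨W, hW⟩ : ∃ W : ℝ, W = 4 * K * G ^ 2 + 2 * K * (G + 1) + 1 := ⟨_, rfl⟩
  have hW0 : 0 < W := by rw [hW]; positivity
  obtain ⟨D, hD⟩ : ∃ D : ℝ, D = G + 1 / δ₀ + W / ε ^ 2 + 1 := ⟨_, rfl⟩
  have hD1 : 1 ≤ D := by
    rw [hD]
    have : 0 < 1 / δ₀ := by positivity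
    have : 0 < W / ε ^ 2 := by positivity
    linarith
  -- `N` large: the integer part of `N ^ δ₀` is at least `N ^ (δ₀ / 2)` and at least `3`
  have hlim : Tendsto (fun N : ℕ => (N:ℝ) ^ (δ₀ / 2)) atTop atTop :=
    (tendsto_rpow_atTop (by positivity)).comp tendsto_natCast_atTop_atTop
  obtain ⟨N₂, hN₂⟩ := (hlim.eventually_ge_atTop 4).exists_forall_of_atTop
  refine ⟨1 / D, by positivity, by rw [div_le_one (by linarith)]; exact hD1, max N₁ (max N₂ 27), fun N hN X hX t y hy hyN => ?_⟩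
  rw [one_div_one_div] at hy
  have hN1 : N₁ ≤ N := (le_max_left _ _).trans hN
  have hN2 : N₂ ≤ N := ((le_max_left _ _).trans (le_max_right _ _)).trans hN
  have hN27 : 27 ≤ N := ((le_max_right _ _).trans (le_max_right _ _)).trans hN
  have hNr : (27:ℝ) ≤ N := by exact_mod_cast hN27
  have hN0 : 0 < N := by omega
  obtain ⟨u, hu⟩ : ∃ u : ℝ, u = (N:ℝ) ^ (δ₀ / 2) := ⟨_, rfl⟩
  have hu4 : 4 ≤ u := by rw [hu]; exact hN₂ N hN2
  have huu : u * u = (N:ℝ) ^ δ₀ := by
    rw [hu, ← Real.rpow_add (by linarith)]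
    congr 1; ring
  obtain ⟨Z, hZ⟩ : ∃ Z : ℕ, Z = ⌊(N:ℝ) ^ δ₀⌋₊ := ⟨_, rfl⟩
  have hZle : (Z:ℝ) ≤ (N:ℝ) ^ δ₀ := by rw [hZ]; exact Nat.floor_le (by positivity)
  have hZge : u ≤ Z := by
    have h1 : (N:ℝ) ^ δ₀ < Z + 1 := by rw [hZ]; exact Nat.lt_floor_add_one _
    rw [← huu] at h1
    have h2 : 4 * u ≤ u * u := mul_le_mul_of_nonneg_right hu4 (by linarith)
    linarith
  have hZ3 : 3 ≤ Z := by
    have : (4:ℝ) ≤ Z := hu4.trans hZge
    have : 4 ≤ Z := by exact_mod_cast this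
    omega
  have hm := hy.monotone (by linarith)
  have hlast3 : (3:ℕ) ≤ y (Fin.last k) := hm.2 _
  -- comparison of the iterated logarithms
  have hgap : LL (y (Fin.last k)) - LL Z ≤ G := by
    have hlogN : 0 < Real.log N := Real.log_pos (by linarith)
    have h1 : LL Z ≥ Real.log (Real.log N) + Real.log (δ₀ / 2) := by
      unfold LL
      rw [← Real.log_mul hlogN.ne' (by positivity)]
      apply Real.log_le_log (by positivity)
      calc Real.log N * (δ₀ / 2) = Real.log u := by rw [hu, Real.log_rpow (by linarith)]; ring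
        _ ≤ Real.log Z := Real.log_le_log (by linarith) hZge
    have h2 : LL (y (Fin.last k)) ≤ Real.log (Real.log N) := by
      unfold LL
      have h3 : (3:ℝ) ≤ y (Fin.last k) := by exact_mod_cast hlast3
      have h4 : ((y (Fin.last k) : ℕ) : ℝ) ≤ N := by
        have : y (Fin.last k) ≤ y (Fin.last k) ^ 2 := Nat.le_self_pow (by norm_num) _
        exact_mod_cast this.trans hyN
      apply Real.log_le_log (Real.log_pos (by linarith))
      exact Real.log_le_log (by linarith) h4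
    have h5 : G = -Real.log (δ₀ / 2) := by
      rw [hG, ← Real.log_inv]
      congr 1
      field_simp
    linarith
  obtain ⟨y', hy'⟩ : ∃ y' : Fin (k + 1) → ℕ, y' = fun i => min (y i) Z := ⟨_, rfl⟩
  have hLLmono : ∀ i : Fin (k + 1), LL (y i) ≤ LL (y (Fin.last k)) := fun i => LL_mono (hm.2 i) (hm.1 (Fin.le_last i))
  have hcast : ∀ i : Fin k, LL (y i.castSucc) + (1 / δ₀ + W / ε ^ 2 + 1) ≤ LL Z := by
    intro i
    have h1 := hy.2 i
    have h2 := hLLmono i.succ
    rw [hD] at h1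
    linarith
  have hd0 : 0 < 1 / δ₀ := by positivity
  have hWe : 0 < W / ε ^ 2 := by positivity
  have hcZ : ∀ i : Fin k, y i.castSucc ≤ Z := by
    intro i
    by_contra hcon
    push Not at hcon
    have := LL_mono hZ3 hcon.le
    have := hcast i
    linarith
  have hy'c : ∀ i : Fin k, y' i.castSucc = y i.castSucc := by
    intro i; rw [hy']; exact min_eq_left (hcZ i)
  have hThr' : Thr k y' (1 / δ₀) := by
    constructor
    · rw [hy']; exact le_min hy.1 hZ3
    · intro i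
      rw [hy'c i]
      rcases le_total (y i.succ) Z with h | h
      · have e : y' i.succ = y i.succ := by rw [hy']; exact min_eq_left h
        rw [e]
        have := hy.2 i
        rw [hD] at this
        linarith
      · have e : y' i.succ = Z := by rw [hy']; exact min_eq_right h
        rw [e]
        have := hcast i
        linarith
  have hy'N : (y' (Fin.last k) : ℝ) ≤ (N:ℝ) ^ δ₀ := by
    refine le_trans ?_ hZle
    have : y' (Fin.last k) ≤ Z := by rw [hy']; exact min_le_right _ _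
    exact_mod_cast this
  have hE := heng N hN1 X hX t y' hThr' hy'N
  -- the increments are close
  have hcube : ∀ b : ℕ, b ≤ y (Fin.last k) → b ^ 2 ≤ N := fun b hb => (Nat.pow_le_pow_left hb 2).trans hyN
  have hclose : ∀ i : Fin k, av N t (fun z => |inc ρ X (y i.castSucc) (y i.succ) z - inc ρ X (y' i.castSucc) (y' i.succ) z|) ≤ ε := by
    intro i
    rw [hy'c i]
    rcases le_total (y i.succ) Z with h | h
    · have e : y' i.succ = y i.succ := by rw [hy']; exact min_eq_left h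
      rw [e]
      simp only [sub_self, abs_zero]
      rw [av_const hN0]
      exact hε0.le
    · have e : y' i.succ = Z := by rw [hy']; exact min_eq_right h
      rw [e]
      obtain ⟨a, ha⟩ : ∃ a, a = y i.castSucc := ⟨_, rfl⟩
      obtain ⟨b, hb⟩ : ∃ b, b = y i.succ := ⟨_, rfl⟩
      rw [← ha, ← hb]
      rw [← hb] at h
      have ha3 : 3 ≤ a := by rw [ha]; exact hm.2 _
      have haZ : a ≤ Z := by rw [ha]; exact hcZ i
      have hbl : b ≤ y (Fin.last k) := by rw [hb]; exact hm.1 (Fin.le_last _)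
      have hbN := hcube b hbl
      have hZN := hcube Z (h.trans hbl)
      obtain ⟨H, hH⟩ : ∃ H, H = LL b - LL a := ⟨_, rfl⟩
      obtain ⟨H', hH'⟩ : ∃ H', H' = LL Z - LL a := ⟨_, rfl⟩
      have hca := hcast i
      rw [← ha] at hca
      have hH'1 : W / ε ^ 2 + 1 ≤ H' := by rw [hH']; linarith
      have hHH' : H' ≤ H := by
        rw [hH, hH']
        have := LL_mono hZ3 h
        linarith
      have hbG : LL b - LL Z ≤ G := by
        have : LL b ≤ LL (y (Fin.last k)) := by rw [hb]; exact hLLmono _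
        linarith
      have hHG : H - H' ≤ G := by rw [hH, hH']; linarith
      have hH'0 : 0 < H' := by linarith
      have hH0 : 0 < H := by linarith
      obtain ⟨s1, hs1⟩ : ∃ s1, s1 = √H := ⟨_, rfl⟩
      obtain ⟨s2, hs2⟩ : ∃ s2, s2 = √H' := ⟨_, rfl⟩
      have s10 : 0 < s1 := by rw [hs1]; exact Real.sqrt_pos.2 hH0
      have s20 : 0 < s2 := by rw [hs2]; exact Real.sqrt_pos.2 hH'0
      have s1s : s1 ^ 2 = H := by rw [hs1]; exact Real.sq_sqrt hH0.le
      have s2s : s2 ^ 2 = H' := by rw [hs2]; exact Real.sq_sqrt hH'0.le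
      have s21 : s2 ≤ s1 := by rw [hs1, hs2]; exact Real.sqrt_le_sqrt hHH'
      have hblk : ∀ z, ∑ p ∈ blk a b, X p z = ∑ p ∈ blk a Z, X p z + ∑ p ∈ blk Z b, X p z := by
        intro z
        rw [← sum_union]
        · congr 1
          ext p
          simp only [mem_union, mem_blk]
          constructor
          · rintro ⟨⟨h1, h2⟩, h3⟩
            rcases le_or_gt p Z with h4 | h4
            · exact Or.inl ⟨⟨h1, h4⟩, h3⟩
            · exact Or.inr ⟨⟨h4, h2⟩, h3⟩
          · rintro (⟨⟨h1, h2⟩, h3⟩ | ⟨⟨h1, h2⟩, h3⟩)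
            · exact ⟨⟨h1, h2.trans h⟩, h3⟩
            · exact ⟨⟨lt_of_le_of_lt haZ h1, h2⟩, h3⟩
        · rw [disjoint_left]
          intro p hp hp'
          rw [mem_blk] at hp hp'
          omega
      obtain ⟨A1, hA1⟩ : ∃ A1 : ℤ → ℝ, A1 = fun z => ∑ p ∈ blk a Z, X p z - ρ * (LL Z - LL a) := ⟨_, rfl⟩
      obtain ⟨R1, hR1⟩ : ∃ R1 : ℤ → ℝ, R1 = fun z => ∑ p ∈ blk Z b, X p z - ρ * (LL b - LL Z) := ⟨_, rfl⟩
      have mA := hblock ρ X hX a Z N ha3 haZ hZN t
      have mR := hblock ρ X hX Z b N hZ3 h hbN t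
      have mA' : av N t (fun z => A1 z ^ 2) ≤ K * (H' + 1) := by rw [hA1, hH']; exact mA
      have mR' : av N t (fun z => R1 z ^ 2) ≤ K * (G + 1) := by
        rw [hR1]
        refine mR.trans ?_
        gcongr
      have hdiff : ∀ z, inc ρ X a b z - inc ρ X a Z z = R1 z / s1 - A1 z * ((s1 - s2) / (s1 * s2)) := by
        intro z
        unfold inc
        rw [← hH, ← hH', ← hs1, ← hs2, hblk z, hR1, hA1]
        simp only
        rw [hH, hH']
        field_simp
        ring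
      have hs12 : (s1 - s2) / (s1 * s2) ≤ G / (H' * s1) := by
        rw [div_le_div_iff₀ (by positivity) (by positivity)]
        have h1 : (s1 - s2) * (s1 + s2) = H - H' := by rw [← s1s, ← s2s]; ring
        have h2 : (s1 - s2) * s2 ≤ G := by
          have h3 : 0 ≤ (s1 - s2) * s1 := mul_nonneg (sub_nonneg.2 s21) s10.le
          linarith
        rw [← s2s]
        calc (s1 - s2) * (s2 ^ 2 * s1) = ((s1 - s2) * s2) * (s1 * s2) := by ring
          _ ≤ G * (s1 * s2) := by gcongr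
      have hs12' : 0 ≤ (s1 - s2) / (s1 * s2) := div_nonneg (sub_nonneg.2 s21) (by positivity)
      have hc2 : ((s1 - s2) / (s1 * s2)) ^ 2 ≤ G ^ 2 / (H' ^ 2 * H) := by
        calc ((s1 - s2) / (s1 * s2)) ^ 2 ≤ (G / (H' * s1)) ^ 2 := pow_le_pow_left₀ hs12' hs12 2
          _ = G ^ 2 / (H' ^ 2 * H) := by rw [div_pow, mul_pow, s1s]
      have hsqm : av N t (fun z => (inc ρ X a b z - inc ρ X a Z z) ^ 2) ≤ W / H := by
        calc av N t (fun z => (inc ρ X a b z - inc ρ X a Z z) ^ 2) ≤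
            av N t (fun z => (2 / H) * R1 z ^ 2 + (2 * (G ^ 2 / (H' ^ 2 * H))) * A1 z ^ 2) := by
              apply av_mono
              intro z
              rw [hdiff z]
              have h1 : (R1 z / s1 - A1 z * ((s1 - s2) / (s1 * s2))) ^ 2 ≤ 2 * (R1 z / s1) ^ 2 + 2 * (A1 z * ((s1 - s2) / (s1 * s2))) ^ 2 := by
                generalize R1 z / s1 = v1
                generalize A1 z * ((s1 - s2) / (s1 * s2)) = v2
                have h7 := sq_nonneg (v1 + v2)
                linarith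
              have h2 : 2 * (R1 z / s1) ^ 2 = (2 / H) * R1 z ^ 2 := by rw [div_pow, s1s]; ring
              have h3 : 2 * (A1 z * ((s1 - s2) / (s1 * s2))) ^ 2 ≤ (2 * (G ^ 2 / (H' ^ 2 * H))) * A1 z ^ 2 := by
                rw [mul_pow]
                have := mul_le_mul_of_nonneg_left hc2 (sq_nonneg (A1 z))
                linarith
              linarith
          _ = (2 / H) * av N t (fun z => R1 z ^ 2) + (2 * (G ^ 2 / (H' ^ 2 * H))) * av N t (fun z => A1 z ^ 2) := by
              rw [av_add, av_mul_left, av_mul_left]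
          _ ≤ (2 / H) * (K * (G + 1)) + (2 * (G ^ 2 / (H' ^ 2 * H))) * (K * (H' + 1)) := by gcongr
          _ ≤ W / H := by
              have h1 : (2 * (G ^ 2 / (H' ^ 2 * H))) * (K * (H' + 1)) ≤ (4 * K * G ^ 2) / H := by
                have h2 : (H' + 1) ≤ 2 * H' ^ 2 := by
                  have h7 : 1 ≤ H' := by linarith
                  have h8 : 1 * H' ≤ H' * H' := mul_le_mul_of_nonneg_right h7 hH'0.le
                  have h9 : H' ^ 2 = H' * H' := sq H'
                  linarith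
                have h3 : 2 * (G ^ 2 / (H' ^ 2 * H)) * (K * (H' + 1)) = (2 * K * G ^ 2 / H) * ((H' + 1) / H' ^ 2) := by
                  field_simp
                rw [h3]
                have h4 : (H' + 1) / H' ^ 2 ≤ 2 := by rw [div_le_iff₀ (by positivity)]; exact h2
                calc (2 * K * G ^ 2 / H) * ((H' + 1) / H' ^ 2) ≤ (2 * K * G ^ 2 / H) * 2 := by gcongr
                  _ = (4 * K * G ^ 2) / H := by ring
              have h5 : (2 / H) * (K * (G + 1)) = (2 * K * (G + 1)) / H := by ring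
              rw [h5]
              have h6 : W / H = (2 * K * (G + 1)) / H + (4 * K * G ^ 2) / H + 1 / H := by rw [hW]; ring
              have h7 : 0 ≤ 1 / H := by positivity
              linarith
      have hfin : av N t (fun z => |inc ρ X a b z - inc ρ X a Z z|) ≤ ε / 2 + 1 / (2 * ε) * (W / H) := by
        calc av N t (fun z => |inc ρ X a b z - inc ρ X a Z z|) ≤
            av N t (fun z => ε / 2 + 1 / (2 * ε) * (inc ρ X a b z - inc ρ X a Z z) ^ 2) := by
              apply av_mono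
              intro z
              rw [← sq_abs (inc ρ X a b z - inc ρ X a Z z)]
              obtain ⟨v, hv⟩ : ∃ v, v = |inc ρ X a b z - inc ρ X a Z z| := ⟨_, rfl⟩
              rw [← hv]
              have h1 : ε / 2 + 1 / (2 * ε) * v ^ 2 - v = (v - ε) ^ 2 / (2 * ε) := by field_simp; ring
              have h2 : 0 ≤ (v - ε) ^ 2 / (2 * ε) := by positivity
              linarith
          _ = ε / 2 + 1 / (2 * ε) * av N t (fun z => (inc ρ X a b z - inc ρ X a Z z) ^ 2) := by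
              rw [av_add, av_mul_left, av_const hN0]
          _ ≤ _ := by gcongr
      refine hfin.trans ?_
      have h8 : W / H ≤ ε ^ 2 := by
        rw [div_le_iff₀ hH0]
        have h9 : W / ε ^ 2 ≤ H := by linarith
        rw [div_le_iff₀ (by positivity)] at h9
        linarith
      calc ε / 2 + 1 / (2 * ε) * (W / H) ≤ ε / 2 + 1 / (2 * ε) * ε ^ 2 := by gcongr
        _ = ε := by field_simp; ring
  -- conclusion
  have hdist : ‖av N t (fun z => Complex.exp (Complex.I * ((∑ i, s i * inc ρ X (y i.castSucc) (y i.succ) z : ℝ) : ℂ))) -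
      av N t (fun z => Complex.exp (Complex.I * ((∑ i, s i * inc ρ X (y' i.castSucc) (y' i.succ) z : ℝ) : ℂ)))‖ ≤ η / 2 := by
    rw [← av_sub]
    refine (norm_av_le N t _).trans ?_
    calc av N t (fun z => ‖Complex.exp (Complex.I * ((∑ i, s i * inc ρ X (y i.castSucc) (y i.succ) z : ℝ) : ℂ)) -
          Complex.exp (Complex.I * ((∑ i, s i * inc ρ X (y' i.castSucc) (y' i.succ) z : ℝ) : ℂ))‖)
        ≤ av N t (fun z => ∑ i, |s i| * |inc ρ X (y i.castSucc) (y i.succ) z - inc ρ X (y' i.castSucc) (y' i.succ) z|) := by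
          apply av_mono
          intro z
          obtain ⟨v, hv⟩ : ∃ v : ℝ, v = ∑ i, s i * inc ρ X (y i.castSucc) (y i.succ) z := ⟨_, rfl⟩
          obtain ⟨v', hv'⟩ : ∃ v' : ℝ, v' = ∑ i, s i * inc ρ X (y' i.castSucc) (y' i.succ) z := ⟨_, rfl⟩
          rw [← hv, ← hv']
          have e1 : Complex.exp (Complex.I * (v : ℂ)) - Complex.exp (Complex.I * (v' : ℂ)) =
              Complex.exp (Complex.I * (v' : ℂ)) * (Complex.exp (Complex.I * ((v - v' : ℝ) : ℂ)) - 1) := by
            rw [mul_sub, mul_one, ← Complex.exp_add]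
            congr 2
            push_cast; ring
          rw [e1, norm_mul, Complex.norm_exp_I_mul_ofReal, one_mul]
          refine (Real.norm_exp_I_mul_ofReal_sub_one_le).trans ?_
          rw [Real.norm_eq_abs, hv, hv', ← sum_sub_distrib]
          refine (abs_sum_le_sum_abs _ _).trans (sum_le_sum fun i _ => ?_)
          rw [← mul_sub, abs_mul]
      _ = ∑ i, |s i| * av N t (fun z => |inc ρ X (y i.castSucc) (y i.succ) z - inc ρ X (y' i.castSucc) (y' i.succ) z|) := by
          rw [av_sum]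
          refine sum_congr rfl fun i _ => ?_
          rw [av_mul_left]
      _ ≤ ∑ i, |s i| * ε := sum_le_sum fun i _ => mul_le_mul_of_nonneg_left (hclose i) (abs_nonneg _)
      _ = (∑ i, |s i|) * ε := by rw [sum_mul]
      _ ≤ A * ε := by
          apply mul_le_mul_of_nonneg_right _ hε0.le
          rw [hA]; linarith
      _ = η / 2 := by rw [hε]; field_simp
  calc ‖av N t (fun z => Complex.exp (Complex.I * ((∑ i, s i * inc ρ X (y i.castSucc) (y i.succ) z : ℝ) : ℂ))) -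
      Complex.exp (-((∑ i, s i ^ 2) / 2 : ℝ))‖ ≤ η / 2 + η / 2 := by
        refine (norm_sub_le_norm_sub_add_norm_sub _ (av N t (fun z => Complex.exp (Complex.I * ((∑ i, s i * inc ρ X (y' i.castSucc) (y' i.succ) z : ℝ) : ℂ)))) _).trans ?_
        exact add_le_add hdist hE
    _ = η := by ring

end Pool.Agent.D0H53.EB
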