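import Mathlib
import Pool.Agent.H341R2.WeilSharp

/-! Character sums of pencils over a finite field of odd order. -/

set_option autoImplicit false

open Finset Polynomial

namespace Pool.Agent.D0H53.EB

section
variable {F : Type*} [Field F] [Fintype F] [DecidableEq F]

/-- the quadratic character, with real values -/
noncomputable def ch (a : F) : ℝ := ((quadraticChar F a : ℤ) : ℝ)

lemma ch_mul (a b : F) : ch (a * b) = ch a * ch b := by
  unfold ch; rw [map_mul]; push_cast; rfl

@[simp] lemma ch_zero : ch (0 : F) = 0 := by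
  unfold ch; simp

@[simp] lemma ch_one : ch (1 : F) = 1 := by
  unfold ch; simp

lemma ch_sq {a : F} (ha : a ≠ 0) : ch a ^ 2 = 1 := by
  unfold ch
  have := quadraticChar_sq_one ha
  exact_mod_cast this

lemma ch_of_sq {a : F} (ha : a ≠ 0) : ch (a ^ 2) = 1 := by
  rw [sq, ch_mul, ← sq, ch_sq ha]

lemma ch_mul_self {a : F} (ha : a ≠ 0) : ch a * ch a = 1 := by rw [← sq, ch_sq ha]

lemma abs_ch_le (a : F) : |ch a| ≤ 1 := by
  by_cases ha : a = 0
  · rw [ha, ch_zero]; simp
  · have := ch_sq ha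
    rw [← sq_abs] at this
    nlinarith [abs_nonneg (ch a)]

lemma ch_sq_le (a : F) : ch a ^ 2 ≤ 1 := by
  rw [← sq_abs]; nlinarith [abs_nonneg (ch a), abs_ch_le a]

lemma ch_inv (a : F) : ch a⁻¹ = ch a := by
  by_cases ha : a = 0
  · rw [ha, inv_zero]
  · have h1 : ch (a * a⁻¹) = 1 := by rw [mul_inv_cancel₀ ha, ch_one]
    rw [ch_mul] at h1
    have h2 := ch_mul_self ha
    have h3 : ch a ≠ 0 := by intro h; rw [h] at h2; simp at h2
    have : ch a * ch a⁻¹ = ch a * ch a := by rw [h1, h2]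
    exact mul_left_cancel₀ h3 this

lemma ch_div (a b : F) : ch (a / b) = ch a * ch b := by
  rw [div_eq_mul_inv, ch_mul, ch_inv]

/-- `ch (a / b²) = ch a` -/
lemma ch_div_sq (a : F) {b : F} (hb : b ≠ 0) : ch (a / b ^ 2) = ch a := by
  rw [ch_div, ch_of_sq hb, mul_one]

lemma ch_eq_of_mul_sq {a b c : F} (hc : c ≠ 0) (h : a * c ^ 2 = b) : ch a = ch b := by
  rw [← h, ch_mul, ch_of_sq hc, mul_one]

lemma sum_ch (hF : ringChar F ≠ 2) : ∑ a : F, ch a = 0 := by
  unfold ch
  have := quadraticChar_sum_zero (F := F) hF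
  exact_mod_cast this

lemma sum_ch_add (hF : ringChar F ≠ 2) (b : F) : ∑ t : F, ch (t + b) = 0 := by
  rw [← sum_ch (F := F) hF]
  exact Fintype.sum_equiv (Equiv.addRight b) _ _ fun x => rfl

/-- linear forms -/
lemma sum_ch_lin (hF : ringChar F ≠ 2) {a : F} (ha : a ≠ 0) (b : F) : ∑ t : F, ch (a * t + b) = 0 := by
  have h1 : ∀ t : F, ch (a * t + b) = ch a * ch (t + b / a) := by
    intro t
    rw [← ch_mul]
    congr 1
    field_simp
  rw [sum_congr rfl fun t _ => h1 t, ← mul_sum, sum_ch_add hF, mul_zero]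

lemma card_sum_ch_sq : ∑ t : F, ch t ^ 2 = (Fintype.card F : ℝ) - 1 := by
  have h1 : ∀ t : F, ch t ^ 2 = 1 - if t = 0 then (1:ℝ) else 0 := by
    intro t
    by_cases ht : t = 0
    · rw [ht]; simp
    · rw [ch_sq ht, if_neg ht]; ring
  rw [sum_congr rfl fun t _ => h1 t, sum_sub_distrib]
  simp

/-- correlations -/
lemma corr (hF : ringChar F ≠ 2) (a b : F) : ∑ t : F, ch (t + a) * ch (t + b) =
    (if a = b then (Fintype.card F : ℝ) else 0) - 1 := by
  by_cases hab : a = b
  · rw [if_pos hab, hab]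
    have : ∑ t : F, ch (t + b) * ch (t + b) = ∑ t : F, ch t ^ 2 := by
      rw [← Fintype.sum_equiv (Equiv.addRight b) (fun t => ch (t + b) ^ 2) (fun t => ch t ^ 2) fun x => rfl]
      exact sum_congr rfl fun t _ => by rw [sq]
    rw [this, card_sum_ch_sq]
  · rw [if_neg hab, zero_sub]
    -- shift to `s = t + a`, `d = b - a`
    obtain ⟨d, hd⟩ : ∃ d, d = b - a := ⟨_, rfl⟩
    have hd0 : d ≠ 0 := by rw [hd]; exact sub_ne_zero.2 (Ne.symm hab)
    have e1 : ∑ t : F, ch (t + a) * ch (t + b) = ∑ s : F, ch s * ch (s + d) := by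
      apply Fintype.sum_equiv (Equiv.addRight a)
      intro x
      simp only [Equiv.coe_addRight]
      congr 2
      rw [hd]; ring
    have e2 : ∀ s : F, ch s * ch (s + d) = (if s = 0 then 0 else ch (1 + d * s⁻¹)) := by
      intro s
      by_cases hs : s = 0
      · rw [hs]; simp
      · rw [if_neg hs]
        have : s + d = s * (1 + d * s⁻¹) := by field_simp
        rw [this, ch_mul, ← mul_assoc, ch_mul_self hs, one_mul]
    have e3 : ∀ s : F, (if s = 0 then (0:ℝ) else ch (1 + d * s⁻¹)) = ch (1 + d * s⁻¹) - if s = 0 then 1 else 0 := by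
      intro s
      by_cases hs : s = 0
      · rw [hs]; simp
      · rw [if_neg hs, if_neg hs, sub_zero]
    rw [e1, sum_congr rfl fun s _ => (e2 s).trans (e3 s), sum_sub_distrib]
    have e4 : ∑ s : F, ch (1 + d * s⁻¹) = ∑ w : F, ch (d * w + 1) := by
      apply Fintype.sum_equiv (Equiv.inv F)
      intro x
      simp only [Equiv.inv_apply]
      rw [add_comm]
    rw [e4, sum_ch_lin hF hd0]
    simp

/-- number of square roots -/
lemma card_sqrt (hF : ringChar F ≠ 2) (a : F) : ((univ.filter fun x : F => x ^ 2 = a).card : ℝ) = 1 + ch a := by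
  have h := quadraticChar_card_sqrts hF a
  have e : {x : F | x ^ 2 = a}.toFinset = univ.filter fun x : F => x ^ 2 = a := by
    ext x; simp
  rw [e] at h
  unfold ch
  have h' : (((univ.filter fun x : F => x ^ 2 = a).card : ℤ) : ℝ) = ((quadraticChar F a + 1 : ℤ) : ℝ) := by rw [h]
  push_cast at h'
  linarith

/-- sums over pairs of symmetric functions -/
lemma sum_symm (hF : ringChar F ≠ 2) (Φ : F → F → ℝ) :
    ∑ x : F, ∑ y : F, Φ (x + y) (x * y) = ∑ s : F, ∑ q : F, Φ s q * (1 + ch (s ^ 2 - 4 * q)) := by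
  have h2 : (2 : F) ≠ 0 := Ring.two_ne_zero hF
  have e1 : ∑ x : F, ∑ y : F, Φ (x + y) (x * y) = ∑ s : F, ∑ x : F, Φ s (x * (s - x)) := by
    rw [sum_comm (s := univ) (t := univ) (f := fun s x => Φ s (x * (s - x)))]
    refine sum_congr rfl fun x _ => ?_
    apply Fintype.sum_equiv (Equiv.addLeft x)
    intro y
    simp only [Equiv.coe_addLeft]
    congr 1; ring
  rw [e1]
  refine sum_congr rfl fun s _ => ?_
  have e2 : ∀ x : F, Φ s (x * (s - x)) = ∑ q : F, if x * (s - x) = q then Φ s q else 0 := by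
    intro x; simp
  rw [sum_congr rfl fun x _ => e2 x, sum_comm]
  refine sum_congr rfl fun q _ => ?_
  rw [← sum_filter, sum_const, nsmul_eq_mul, mul_comm]
  congr 1
  rw [← card_sqrt hF]
  congr 1
  apply card_bij' (fun (x : F) _ => 2 * x - s) (fun (w : F) _ => (w + s) / 2)
  · intro x hx
    rw [mem_filter] at hx ⊢
    refine ⟨mem_univ _, ?_⟩
    rw [← hx.2]; ring
  · intro w hw
    rw [mem_filter] at hw ⊢
    refine ⟨mem_univ _, ?_⟩
    have h4 : (4:F) ≠ 0 := by
      have : (4:F) = 2 * 2 := by norm_num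
      rw [this]; exact mul_ne_zero h2 h2
    have : 4 * ((w + s) / 2 * (s - (w + s) / 2)) = 4 * q := by
      have e3 : 4 * ((w + s) / 2 * (s - (w + s) / 2)) = (w + s) * (2 * s - (w + s)) := by field_simp; ring
      rw [e3]
      linear_combination (-1 : F) * hw.2
    exact mul_left_cancel₀ h4 this
  · intro x _
    field_simp
    ring
  · intro w _
    field_simp
    ring

/-- the character sum of the member `t` of the pencil -/
noncomputable def Sg (f g : F → F) (t : F) : ℝ := ∑ x : F, ch (f x + t * g x)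

/-- first moment -/
lemma sum_Sg (hF : ringChar F ≠ 2) (f g : F → F) :
    ∑ t : F, Sg f g t = (Fintype.card F : ℝ) * ∑ x ∈ univ.filter (fun x => g x = 0), ch (f x) := by
  unfold Sg
  rw [sum_comm, mul_sum, sum_filter]
  refine sum_congr rfl fun x _ => ?_
  by_cases hx : g x = 0
  · rw [if_pos hx]
    simp [hx]
  · rw [if_neg hx]
    have : ∀ t : F, ch (f x + t * g x) = ch (g x * t + f x) := by intro t; congr 1; ring
    rw [sum_congr rfl fun t _ => this t, sum_ch_lin hF hx]

/-- the double sum -/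
noncomputable def Wg (f g : F → F) : ℝ := ∑ x : F, ∑ y : F, if f x * g y = f y * g x then ch (g x) * ch (g y) else 0

/-- second moment -/
lemma sum_Sg_sq (hF : ringChar F ≠ 2) (f g : F → F) :
    ∑ t : F, Sg f g t ^ 2 = (Fintype.card F : ℝ) * (∑ x ∈ univ.filter (fun x => g x = 0), ch (f x)) ^ 2 +
      (Fintype.card F : ℝ) * Wg f g - (∑ x : F, ch (g x)) ^ 2 := by
  obtain ⟨c, hc⟩ : ∃ c : ℝ, c = ∑ x ∈ univ.filter (fun x => g x = 0), ch (f x) := ⟨_, rfl⟩
  obtain ⟨S', hS'⟩ : ∃ S' : F → ℝ, S' = fun t => ∑ x : F, ch (g x) * ch (t + f x / g x) := ⟨_, rfl⟩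
  have h1 : ∀ t, Sg f g t = c + S' t := by
    intro t
    rw [hc, hS', sum_filter]
    simp only
    rw [← sum_add_distrib]
    unfold Sg
    refine sum_congr rfl fun x _ => ?_
    by_cases hx : g x = 0
    · rw [if_pos hx, hx]; simp
    · rw [if_neg hx, zero_add, ← ch_mul]
      congr 1
      field_simp
      ring
  have h2 : ∑ t : F, S' t = 0 := by
    rw [hS']
    simp only
    rw [sum_comm]
    refine sum_eq_zero fun x _ => ?_
    rw [← mul_sum, sum_ch_add hF, mul_zero]
  have h3 : ∑ t : F, S' t ^ 2 = (Fintype.card F : ℝ) * Wg f g - (∑ x : F, ch (g x)) ^ 2 := by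
    have e1 : ∀ t, S' t ^ 2 = ∑ x : F, ∑ y : F, ch (g x) * ch (g y) * (ch (t + f x / g x) * ch (t + f y / g y)) := by
      intro t
      rw [hS', sq, sum_mul_sum]
      refine sum_congr rfl fun x _ => sum_congr rfl fun y _ => ?_
      ring
    rw [sum_congr rfl fun t _ => e1 t, sum_comm]
    have e2 : ∀ x : F, ∑ t : F, ∑ y : F, ch (g x) * ch (g y) * (ch (t + f x / g x) * ch (t + f y / g y)) =
        ∑ y : F, ch (g x) * ch (g y) * ((if f x / g x = f y / g y then (Fintype.card F : ℝ) else 0) - 1) := by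
      intro x
      rw [sum_comm]
      refine sum_congr rfl fun y _ => ?_
      rw [← mul_sum, corr hF]
    rw [sum_congr rfl fun x _ => e2 x]
    unfold Wg
    rw [sq, sum_mul_sum, mul_sum, ← sum_sub_distrib]
    refine sum_congr rfl fun x _ => ?_
    rw [mul_sum, ← sum_sub_distrib]
    refine sum_congr rfl fun y _ => ?_
    by_cases hx : g x = 0
    · simp [hx]
    by_cases hy : g y = 0
    · simp [hy]
    have : (f x / g x = f y / g y) ↔ (f x * g y = f y * g x) := div_eq_div_iff hx hy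
    by_cases h : f x * g y = f y * g x
    · rw [if_pos h, if_pos (this.2 h)]; ring
    · rw [if_neg h, if_neg (fun h' => h (this.1 h'))]; ring
  have e : ∀ t, Sg f g t ^ 2 = c ^ 2 + 2 * c * S' t + S' t ^ 2 := by intro t; rw [h1]; ring
  rw [sum_congr rfl fun t _ => e t, sum_add_distrib, sum_add_distrib, ← mul_sum, h2, h3, ← hc, sum_const, card_univ, nsmul_eq_mul]
  ring

/-- Weil's bound, in the form used here -/
lemma weil (hF : ringChar F ≠ 2) (P : F[X]) {d : ℕ} (hd : P.natDegree ≤ d) (hd1 : 1 ≤ P.natDegree)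
    (h : ∀ (c : F) (h : F[X]), P ≠ C c * h ^ 2) : |∑ x : F, ch (P.eval x)| ≤ ((d : ℝ) - 1) * √(Fintype.card F) := by
  have := Pool.Agent.H341R2.Sharp.weil_sharp hF P hd1 h
  unfold ch
  refine this.trans ?_
  have : (P.natDegree : ℝ) ≤ d := by exact_mod_cast hd
  gcongr

/-- odd degree -/
lemma weil_odd (hF : ringChar F ≠ 2) (P : F[X]) (hd : Odd P.natDegree) :
    |∑ x : F, ch (P.eval x)| ≤ ((P.natDegree : ℝ) - 1) * √(Fintype.card F) := by
  refine weil hF P le_rfl hd.pos ?_
  intro c h hP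
  have hc : c ≠ 0 := by
    rintro rfl
    rw [C_0, zero_mul] at hP
    rw [hP] at hd
    simp at hd
  rw [hP, natDegree_C_mul hc, natDegree_pow] at hd
  exact (Nat.not_odd_iff_even.2 (even_two_mul _)) hd

end

end Pool.Agent.D0H53.EB
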