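import Mathlib
import Pool.Agent.D0H53.EB.L1

/-! Second moments of the character sums of pencils of cubics. -/

set_option autoImplicit false

open Finset Polynomial

namespace Pool.Agent.D0H53.EB

section
variable {F : Type*} [Field F] [Fintype F] [DecidableEq F]

/-- a polynomial with a simple root is not a constant times a square -/
lemma nonsq_of_simple {P : F[X]} {a : F} (h0 : P.eval a = 0) (h1 : (derivative P).eval a ≠ 0) (c : F) (h : F[X]) : P ≠ C c * h ^ 2 := by
  intro hP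
  have hc : c ≠ 0 := by
    rintro rfl
    rw [hP] at h1
    simp at h1
  have h2 : h.eval a = 0 := by
    rw [hP, eval_mul, eval_C, eval_pow] at h0
    rcases mul_eq_zero.1 h0 with h3 | h3
    · exact absurd h3 hc
    · exact pow_eq_zero_iff (two_ne_zero) |>.1 h3
  apply h1
  rw [hP]
  simp [derivative_mul, derivative_pow, h2]

/-- the off-diagonal part -/
lemma Wg_split (hF : ringChar F ≠ 2) {f g : F → F} {Q G : F → F → F} (hQ : ∀ x y, f x * g y - f y * g x = (x - y) * Q (x + y) (x * y))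
    (hG : ∀ x y, g x * g y = G (x + y) (x * y)) :
    Wg f g = ∑ x : F, ch (g x) ^ 2 + ∑ s : F, ∑ q : F, (if Q s q = 0 then ch (G s q) else 0) * (1 + ch (s ^ 2 - 4 * q)) -
      ∑ x : F, if Q (x + x) (x * x) = 0 then ch (g x) ^ 2 else 0 := by
  rw [← sum_symm hF (fun s q => if Q s q = 0 then ch (G s q) else 0)]
  unfold Wg
  rw [← sum_add_distrib, ← sum_sub_distrib]
  refine sum_congr rfl fun x _ => ?_
  have h1 : ∀ y : F, (if f x * g y = f y * g x then ch (g x) * ch (g y) else 0) =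
      (if Q (x + y) (x * y) = 0 then ch (G (x + y) (x * y)) else 0) +
        (if y = x then ch (g x) ^ 2 - (if Q (x + x) (x * x) = 0 then ch (g x) ^ 2 else 0) else 0) := by
    intro y
    have hGy : ch (G (x + y) (x * y)) = ch (g x) * ch (g y) := by rw [← hG, ch_mul]
    by_cases hy : y = x
    · subst hy
      rw [if_pos rfl, if_pos rfl, hGy]
      by_cases hq : Q (y + y) (y * y) = 0
      · simp only [if_pos hq]; ring
      · simp only [if_neg hq]; ring
    · rw [if_neg hy, add_zero, hGy]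
      have : f x * g y = f y * g x ↔ Q (x + y) (x * y) = 0 := by
        rw [← sub_eq_zero, hQ, mul_eq_zero, or_iff_right (sub_ne_zero.2 (Ne.symm hy))]
      by_cases hq : Q (x + y) (x * y) = 0
      · rw [if_pos (this.2 hq), if_pos hq]
      · rw [if_neg (fun h => hq (this.1 h)), if_neg hq]
  rw [sum_congr rfl fun y _ => h1 y, sum_add_distrib]
  simp only [sum_ite_eq', mem_univ, if_true]
  ring

lemma diag_bound {g : F → F} {R : F → F} {P : F[X]} {n : ℕ} (hP : P ≠ 0) (hn : P.natDegree ≤ n) (hR : ∀ x, R x = 0 → P.eval x = 0) :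
    0 ≤ ∑ x : F, (if R x = 0 then ch (g x) ^ 2 else 0) ∧ ∑ x : F, (if R x = 0 then ch (g x) ^ 2 else 0) ≤ n := by
  refine ⟨sum_nonneg fun x _ => by split_ifs <;> positivity, ?_⟩
  calc ∑ x : F, (if R x = 0 then ch (g x) ^ 2 else 0) ≤ ∑ x : F, (if x ∈ P.roots.toFinset then (1:ℝ) else 0) := by
        refine sum_le_sum fun x _ => ?_
        by_cases hx : R x = 0
        · rw [if_pos hx, if_pos]
          · exact ch_sq_le _
          · rw [Multiset.mem_toFinset, mem_roots hP]
            exact hR x hx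
        · rw [if_neg hx]; split_ifs <;> norm_num
    _ = (P.roots.toFinset.card : ℝ) := by
      rw [sum_boole, filter_mem_eq_inter, univ_inter]
    _ ≤ n := by
      have : P.roots.toFinset.card ≤ n := (Multiset.toFinset_card_le _).trans ((card_roots' P).trans hn)
      exact_mod_cast this

lemma sq_card : √(Fintype.card F : ℝ) * √(Fintype.card F : ℝ) = Fintype.card F := Real.mul_self_sqrt (Nat.cast_nonneg _)

lemma one_le_sqrt_card : 1 ≤ √(Fintype.card F : ℝ) := by
  apply Real.one_le_sqrt.2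
  exact_mod_cast Fintype.card_pos

/-- constant `g` -/
lemma moment0 (hF : ringChar F ≠ 2) (h3 : (3 : F) ≠ 0) {v f2 f1 f0 : F} (hv : v ≠ 0) (hd : f2 ^ 2 - 3 * f1 ≠ 0) :
    |∑ t : F, Sg (fun x => x ^ 3 + f2 * x ^ 2 + f1 * x + f0) (fun _ => v) t ^ 2 - (Fintype.card F : ℝ) ^ 2| ≤
      5 * ((Fintype.card F : ℝ) * √(Fintype.card F)) := by
  have h2 : (2 : F) ≠ 0 := Ring.two_ne_zero hF
  rw [sum_Sg_sq hF, Wg_split hF (Q := fun s q => v * (s ^ 2 - q + f2 * s + f1)) (G := fun _ _ => v ^ 2) (by intro x y; ring) (by intro x y; ring)]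
  obtain ⟨p, hp⟩ : ∃ p : ℝ, p = (Fintype.card F : ℝ) := ⟨_, rfl⟩
  have hp0 : 0 ≤ p := by rw [hp]; positivity
  have hsp : √p * √p = p := by rw [hp]; exact sq_card
  have hsp1 : 1 ≤ √p := by rw [hp]; exact one_le_sqrt_card
  have e1 : (univ.filter fun _ : F => v = 0) = ∅ := by
    ext x; simp [hv]
  have e2 : ∑ _x : F, ch v ^ 2 = p := by rw [ch_sq hv]; simp [hp]
  have e3 : (∑ _x : F, ch v) ^ 2 = p ^ 2 := by
    rw [sum_const, card_univ, nsmul_eq_mul, mul_pow, ch_sq hv, hp]; ring
  obtain ⟨P, hP⟩ : ∃ P : F[X], P = C (-3) * X ^ 2 + C (-4 * f2) * X + C (-4 * f1) := ⟨_, rfl⟩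
  have hPe : ∀ s, P.eval s = s ^ 2 - 4 * (s ^ 2 + f2 * s + f1) := by
    intro s; rw [hP]; simp; ring
  have hPd : P.natDegree = 2 := by
    rw [hP]
    exact natDegree_quadratic (neg_ne_zero.2 h3)
  have hPn : ∀ (c : F) (h : F[X]), P ≠ C c * h ^ 2 := by
    intro c h hh
    have hc : c ≠ 0 := by
      rintro rfl
      rw [hh] at hPd; simp at hPd
    have hd1 : h.natDegree = 1 := by
      rw [hh, natDegree_C_mul hc, natDegree_pow] at hPd
      omega
    obtain ⟨a, ha⟩ : ∃ a, h.eval a = 0 := by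
      have : h.degree = 1 := by
        rw [degree_eq_natDegree (by rintro rfl; simp at hd1), hd1]
        rfl
      exact exists_root_of_degree_eq_one this
    have h4 : P.eval a = 0 := by rw [hh]; simp [ha]
    have h5 : (derivative P).eval a = 0 := by rw [hh]; simp [derivative_mul, derivative_pow, ha]
    rw [hPe] at h4
    have h6 : (derivative P).eval a = -(2 * (3 * a + 2 * f2)) := by
      rw [hP]; simp; ring
    rw [h6, neg_eq_zero, mul_eq_zero, or_iff_right h2] at h5
    apply hd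
    have h7 : 4 * (f2 ^ 2 - 3 * f1) = 0 := by linear_combination (3:F) * h4 + (3 * a + 2 * f2) * h5
    have h8 : (4:F) ≠ 0 := by
      have : (4:F) = 2 * 2 := by norm_num
      rw [this]; exact mul_ne_zero h2 h2
    exact (mul_eq_zero.1 h7).resolve_left h8
  have e4 : ∑ s : F, ∑ q : F, (if v * (s ^ 2 - q + f2 * s + f1) = 0 then ch (v ^ 2) else 0) * (1 + ch (s ^ 2 - 4 * q)) =
      p + ∑ s : F, ch (P.eval s) := by
    have h5 : ∀ s : F, ∑ q : F, (if v * (s ^ 2 - q + f2 * s + f1) = 0 then ch (v ^ 2) else 0) * (1 + ch (s ^ 2 - 4 * q)) =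
        1 + ch (P.eval s) := by
      intro s
      rw [sum_eq_single (s ^ 2 + f2 * s + f1)]
      · rw [if_pos (by ring), ch_of_sq hv, hPe, one_mul]
      · intro q _ hq
        rw [if_neg, zero_mul]
        rw [mul_eq_zero, or_iff_right hv]
        intro h; apply hq; linear_combination -h
      · intro h; exact absurd (mem_univ _) h
    rw [sum_congr rfl fun s _ => h5 s, sum_add_distrib]
    simp [hp]
  have hW := weil hF P (d := 2) (by rw [hPd]) (by rw [hPd]; norm_num) hPn
  rw [← hp] at hW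
  obtain ⟨w, hw⟩ : ∃ w : ℝ, w = ∑ s : F, ch (P.eval s) := ⟨_, rfl⟩
  rw [← hw] at hW e4
  obtain ⟨P2, hP2⟩ : ∃ P2 : F[X], P2 = C 3 * X ^ 2 + C (2 * f2) * X + C f1 := ⟨_, rfl⟩
  have hP2d : P2.natDegree = 2 := by rw [hP2]; exact natDegree_quadratic h3
  have hD := diag_bound (g := fun _ : F => v) (R := fun x => v * ((x + x) ^ 2 - x * x + f2 * (x + x) + f1)) (P := P2) (n := 2)
    (by intro h; rw [h] at hP2d; simp at hP2d) hP2d.le (by
      intro x hx
      rw [mul_eq_zero, or_iff_right hv] at hx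
      rw [hP2]; simp
      linear_combination hx)
  obtain ⟨D, hDd⟩ : ∃ D : ℝ, D = ∑ x : F, (if v * ((x + x) ^ 2 - x * x + f2 * (x + x) + f1) = 0 then ch v ^ 2 else 0) := ⟨_, rfl⟩
  rw [← hDd] at hD
  rw [e1, sum_empty, e2, e3, e4, ← hDd, ← hp]
  have e5 : p * 0 ^ 2 + p * (p + (p + w) - D) - p ^ 2 - p ^ 2 = p * (w - D) := by ring
  rw [e5, abs_mul, abs_of_nonneg hp0]
  norm_num at hW hD
  have h9 : |w - D| ≤ 5 * √p := by
    rw [abs_le] at hW ⊢
    constructor <;> linarith [hW.1, hW.2, hD.1, hD.2]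
  calc p * |w - D| ≤ p * (5 * √p) := by gcongr
    _ = _ := by ring

end

end Pool.Agent.D0H53.EB
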