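import Mathlib
import Pool.Agent.D0H53.EB.L2

/-! Second moments of the character sums of pencils of cubics, `g` of degree one or two. -/

set_option autoImplicit false

open Finset Polynomial

namespace Pool.Agent.D0H53.EB

section
variable {F : Type*} [Field F] [Fintype F] [DecidableEq F]

lemma four_ne (hF : ringChar F ≠ 2) : (4 : F) ≠ 0 := by
  have h2 : (2 : F) ≠ 0 := Ring.two_ne_zero hF
  have : (4:F) = 2 * 2 := by norm_num
  rw [this]; exact mul_ne_zero h2 h2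

lemma sum_ch_sq_eq (g : F → F) : ∑ x : F, ch (g x) ^ 2 = (Fintype.card F : ℝ) - (univ.filter fun x => g x = 0).card := by
  have h1 : ∀ x : F, ch (g x) ^ 2 = 1 - if g x = 0 then (1:ℝ) else 0 := by
    intro x
    by_cases hx : g x = 0
    · rw [hx]; simp
    · rw [ch_sq hx, if_neg hx]; ring
  rw [sum_congr rfl fun x _ => h1 x, sum_sub_distrib, sum_boole]
  simp

/-- `g` of degree one -/
lemma moment1 (hF : ringChar F ≠ 2) {u f2 f1 f0 : F} (hu : u ≠ 0) (hf0 : f0 ≠ 0) :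
    |∑ t : F, Sg (fun x => x ^ 3 + f2 * x ^ 2 + f1 * x + f0) (fun x => u * x) t ^ 2 - (Fintype.card F : ℝ) ^ 2| ≤
      6 * ((Fintype.card F : ℝ) * √(Fintype.card F)) := by
  have h2 : (2 : F) ≠ 0 := Ring.two_ne_zero hF
  have h4 : (4 : F) ≠ 0 := four_ne hF
  rw [sum_Sg_sq hF, Wg_split hF (Q := fun s q => u * (q * s + f2 * q - f0)) (G := fun _ q => u ^ 2 * q) (by intro x y; ring) (by intro x y; ring)]
  obtain ⟨p, hp⟩ : ∃ p : ℝ, p = (Fintype.card F : ℝ) := ⟨_, rfl⟩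
  have hp0 : 0 ≤ p := by rw [hp]; positivity
  have hsp : √p * √p = p := by rw [hp]; exact sq_card
  have hsp1 : 1 ≤ √p := by rw [hp]; exact one_le_sqrt_card
  have e1 : (univ.filter fun x : F => u * x = 0) = {0} := by
    ext x; simp [hu]
  have e2 : ∑ x : F, ch (u * x) ^ 2 = p - 1 := by
    rw [sum_ch_sq_eq (fun x => u * x)]
    rw [e1, ← hp]; simp
  have e3 : ∑ x : F, ch (u * x) = 0 := by
    have := sum_ch_lin hF hu (0:F)
    simpa using this
  obtain ⟨P, hP⟩ : ∃ P : F[X], P = C (-4) * X ^ 4 + C (f2 ^ 2) * X ^ 3 + C (-2 * f0 * f2) * X ^ 2 + C (f0 ^ 2) * X := ⟨_, rfl⟩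
  have hPe : ∀ q, P.eval q = q * ((f0 - f2 * q) ^ 2 - 4 * q ^ 3) := by
    intro q; rw [hP]; simp; ring
  have hPd : P.natDegree = 4 := by
    rw [hP]
    compute_degree!
  have hPn : ∀ (c : F) (h : F[X]), P ≠ C c * h ^ 2 := by
    apply nonsq_of_simple (a := 0)
    · rw [hPe]; ring
    · rw [hP]
      simp [hf0]
  have e4 : ∑ s : F, ∑ q : F, (if u * (q * s + f2 * q - f0) = 0 then ch (u ^ 2 * q) else 0) * (1 + ch (s ^ 2 - 4 * q)) =
      ∑ q : F, ch (P.eval q) := by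
    have h5 : ∀ q : F, ∑ s : F, (if u * (q * s + f2 * q - f0) = 0 then ch (u ^ 2 * q) else 0) * (1 + ch (s ^ 2 - 4 * q)) =
        ch q + ch (P.eval q) := by
      intro q
      by_cases hq : q = 0
      · rw [hq]
        have : ∀ s : F, (if u * (0 * s + f2 * 0 - f0) = 0 then ch (u ^ 2 * 0) else 0) * (1 + ch (s ^ 2 - 4 * 0)) = 0 := by
          intro s; simp
        rw [sum_congr rfl fun s _ => this s, hPe]
        simp
      · rw [sum_eq_single (f0 / q - f2)]
        · rw [if_pos (by field_simp; ring), ch_mul, ch_of_sq hu, one_mul, mul_add, mul_one, ← ch_mul]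
          congr 1
          apply ch_eq_of_mul_sq hq
          rw [hPe]
          field_simp
        · intro s _ hs
          rw [if_neg, zero_mul]
          rw [mul_eq_zero, or_iff_right hu]
          intro h; apply hs
          field_simp
          linear_combination h
        · intro h; exact absurd (mem_univ _) h
    rw [sum_comm, sum_congr rfl fun q _ => h5 q, sum_add_distrib, sum_ch hF, zero_add]
  have hW := weil hF P (d := 4) (by rw [hPd]) (by rw [hPd]; norm_num) hPn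
  rw [← hp] at hW
  obtain ⟨w, hw⟩ : ∃ w : ℝ, w = ∑ s : F, ch (P.eval s) := ⟨_, rfl⟩
  rw [← hw] at hW e4
  obtain ⟨P2, hP2⟩ : ∃ P2 : F[X], P2 = C 2 * X ^ 3 + C f2 * X ^ 2 + C 0 * X + C (-f0) := ⟨_, rfl⟩
  have hP2d : P2.natDegree = 3 := by rw [hP2]; exact natDegree_cubic h2
  have hD := diag_bound (g := fun x : F => u * x) (R := fun x => u * (x * x * (x + x) + f2 * (x * x) - f0)) (P := P2) (n := 3)
    (by intro h; rw [h] at hP2d; simp at hP2d) hP2d.le (by
      intro x hx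
      rw [mul_eq_zero, or_iff_right hu] at hx
      rw [hP2]; simp
      linear_combination hx)
  obtain ⟨D, hDd⟩ : ∃ D : ℝ, D = ∑ x : F, (if u * (x * x * (x + x) + f2 * (x * x) - f0) = 0 then ch (u * x) ^ 2 else 0) := ⟨_, rfl⟩
  rw [← hDd] at hD
  have e0 : (∑ x ∈ ({0} : Finset F), ch (x ^ 3 + f2 * x ^ 2 + f1 * x + f0)) ^ 2 = 1 := by
    rw [sum_singleton]
    have : (0:F) ^ 3 + f2 * 0 ^ 2 + f1 * 0 + f0 = f0 := by ring
    rw [this, ch_sq hf0]
  rw [e1, e0, e2, e3, e4, ← hDd, ← hp]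
  have e5 : p * 1 + p * (p - 1 + w - D) - 0 ^ 2 - p ^ 2 = p * (w - D) := by ring
  rw [e5, abs_mul, abs_of_nonneg hp0]
  norm_num at hW hD
  have h9 : |w - D| ≤ 6 * √p := by
    rw [abs_le] at hW ⊢
    constructor <;> linarith [hW.1, hW.2, hD.1, hD.2]
  calc p * |w - D| ≤ p * (6 * √p) := by gcongr
    _ = _ := by ring

/-- `g` with a double root -/
lemma moment2b (hF : ringChar F ≠ 2) {u f2 f1 f0 : F} (hu : u ≠ 0) (hf0 : f0 ≠ 0) :
    |∑ t : F, Sg (fun x => x ^ 3 + f2 * x ^ 2 + f1 * x + f0) (fun x => u * (x * x)) t ^ 2 - (Fintype.card F : ℝ) ^ 2| ≤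
      9 * ((Fintype.card F : ℝ) * √(Fintype.card F)) := by
  have h2 : (2 : F) ≠ 0 := Ring.two_ne_zero hF
  have h4 : (4 : F) ≠ 0 := four_ne hF
  rw [sum_Sg_sq hF, Wg_split hF (Q := fun s q => u * (q ^ 2 - f1 * q - f0 * s)) (G := fun _ q => u ^ 2 * q ^ 2) (by intro x y; ring) (by intro x y; ring)]
  obtain ⟨p, hp⟩ : ∃ p : ℝ, p = (Fintype.card F : ℝ) := ⟨_, rfl⟩
  have hp0 : 0 ≤ p := by rw [hp]; positivity
  have hp1 : 1 ≤ p := by rw [hp]; exact_mod_cast Fintype.card_pos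
  have hsp : √p * √p = p := by rw [hp]; exact sq_card
  have hsp1 : 1 ≤ √p := by rw [hp]; exact one_le_sqrt_card
  have e1 : (univ.filter fun x : F => u * (x * x) = 0) = {0} := by
    ext x; simp [hu]
  have e2 : ∑ x : F, ch (u * (x * x)) ^ 2 = p - 1 := by
    rw [sum_ch_sq_eq (fun x => u * (x * x))]
    rw [e1, ← hp]; simp
  have e3 : (∑ x : F, ch (u * (x * x))) ^ 2 = (p - 1) ^ 2 := by
    have h5 : ∀ x : F, ch (u * (x * x)) = ch u * ch x ^ 2 := by
      intro x; rw [ch_mul, ch_mul, sq]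
    rw [sum_congr rfl fun x _ => h5 x, ← mul_sum, card_sum_ch_sq, mul_pow, ch_sq hu, one_mul, hp]
  obtain ⟨P, hP⟩ : ∃ P : F[X], P = C 1 * X ^ 4 + C (-2 * f1) * X ^ 3 + C (f1 ^ 2) * X ^ 2 + C (-4 * f0 ^ 2) * X := ⟨_, rfl⟩
  have hPe : ∀ q, P.eval q = (q ^ 2 - f1 * q) ^ 2 - 4 * f0 ^ 2 * q := by
    intro q; rw [hP]; simp; ring
  have hPd : P.natDegree = 4 := by
    rw [hP]
    compute_degree!
  have hPn : ∀ (c : F) (h : F[X]), P ≠ C c * h ^ 2 := by
    apply nonsq_of_simple (a := 0)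
    · rw [hPe]; ring
    · rw [hP]
      simp [hf0, h4]
  have e4 : ∑ s : F, ∑ q : F, (if u * (q ^ 2 - f1 * q - f0 * s) = 0 then ch (u ^ 2 * q ^ 2) else 0) * (1 + ch (s ^ 2 - 4 * q)) =
      p - 1 + ∑ q : F, ch (P.eval q) := by
    have h5 : ∀ q : F, ∑ s : F, (if u * (q ^ 2 - f1 * q - f0 * s) = 0 then ch (u ^ 2 * q ^ 2) else 0) * (1 + ch (s ^ 2 - 4 * q)) =
        ch q ^ 2 + ch (P.eval q) := by
      intro q
      by_cases hq : q = 0
      · rw [hq]
        have : ∀ s : F, (if u * ((0:F) ^ 2 - f1 * 0 - f0 * s) = 0 then ch (u ^ 2 * (0:F) ^ 2) else 0) * (1 + ch (s ^ 2 - 4 * 0)) = 0 := by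
          intro s; simp
        rw [sum_congr rfl fun s _ => this s, hPe]
        simp
      · rw [sum_eq_single ((q ^ 2 - f1 * q) / f0)]
        · rw [if_pos (by field_simp; ring), ch_mul, ch_of_sq hu, one_mul, ch_of_sq hq, ch_sq hq, one_mul]
          congr 1
          apply ch_eq_of_mul_sq hf0
          rw [hPe]
          field_simp
        · intro s _ hs
          rw [if_neg, zero_mul]
          rw [mul_eq_zero, or_iff_right hu]
          intro h; apply hs
          field_simp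
          linear_combination -h
        · intro h; exact absurd (mem_univ _) h
    rw [sum_comm, sum_congr rfl fun q _ => h5 q, sum_add_distrib, card_sum_ch_sq, hp]
  have hW := weil hF P (d := 4) (by rw [hPd]) (by rw [hPd]; norm_num) hPn
  rw [← hp] at hW
  obtain ⟨w, hw⟩ : ∃ w : ℝ, w = ∑ s : F, ch (P.eval s) := ⟨_, rfl⟩
  rw [← hw] at hW e4
  obtain ⟨P2, hP2⟩ : ∃ P2 : F[X], P2 = C 1 * X ^ 4 + C (-f1) * X ^ 2 + C (-2 * f0) * X := ⟨_, rfl⟩
  have hP2d : P2.natDegree = 4 := by rw [hP2]; compute_degree!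
  have hD := diag_bound (g := fun x : F => u * (x * x)) (R := fun x => u * ((x * x) ^ 2 - f1 * (x * x) - f0 * (x + x))) (P := P2) (n := 4)
    (by intro h; rw [h] at hP2d; simp at hP2d) hP2d.le (by
      intro x hx
      rw [mul_eq_zero, or_iff_right hu] at hx
      rw [hP2]; simp
      linear_combination hx)
  obtain ⟨D, hDd⟩ : ∃ D : ℝ, D = ∑ x : F, (if u * ((x * x) ^ 2 - f1 * (x * x) - f0 * (x + x)) = 0 then ch (u * (x * x)) ^ 2 else 0) := ⟨_, rfl⟩
  rw [← hDd] at hD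
  have e0 : (∑ x ∈ ({0} : Finset F), ch (x ^ 3 + f2 * x ^ 2 + f1 * x + f0)) ^ 2 = 1 := by
    rw [sum_singleton]
    have : (0:F) ^ 3 + f2 * 0 ^ 2 + f1 * 0 + f0 = f0 := by ring
    rw [this, ch_sq hf0]
  rw [e1, e0, e2, e3, e4, ← hDd, ← hp]
  have e5 : p * 1 + p * (p - 1 + (p - 1 + w) - D) - (p - 1) ^ 2 - p ^ 2 = p * (w - D) + (p - 1) := by ring
  rw [e5]
  norm_num at hW hD
  have h9 : |w - D| ≤ 7 * √p := by
    rw [abs_le] at hW ⊢
    constructor <;> linarith [hW.1, hW.2, hD.1, hD.2]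
  calc |p * (w - D) + (p - 1)| ≤ |p * (w - D)| + |p - 1| := abs_add_le _ _
    _ ≤ p * (7 * √p) + p * √p := by
      rw [abs_mul, abs_of_nonneg hp0, abs_of_nonneg (by linarith : 0 ≤ p - 1)]
      have h10 : p - 1 ≤ p * √p := by nlinarith
      gcongr
    _ ≤ _ := by nlinarith [mul_nonneg hp0 (Real.sqrt_nonneg p)]

/-- `g` with two different roots -/
lemma moment2a (hF : ringChar F ≠ 2) {u k f2 f1 f0 : F} (hu : u ≠ 0) (hk : k ≠ 0) (hf0 : f0 ≠ 0) (hfk : k ^ 3 + f2 * k ^ 2 + f1 * k + f0 ≠ 0) :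
    |∑ t : F, Sg (fun x => x ^ 3 + f2 * x ^ 2 + f1 * x + f0) (fun x => u * (x * (x - k))) t ^ 2 - (Fintype.card F : ℝ) ^ 2| ≤
      17 * ((Fintype.card F : ℝ) * √(Fintype.card F)) := by
  have h2 : (2 : F) ≠ 0 := Ring.two_ne_zero hF
  have h4 : (4 : F) ≠ 0 := four_ne hF
  obtain ⟨b, hb⟩ : ∃ b, b = f1 + k * f2 := ⟨_, rfl⟩
  obtain ⟨fk, hfkd⟩ : ∃ fk, fk = k ^ 3 + f2 * k ^ 2 + f1 * k + f0 := ⟨_, rfl⟩
  rw [← hfkd] at hfk
  rw [sum_Sg_sq hF, Wg_split hF (Q := fun s q => u * (q ^ 2 - k * q * s - b * q - f0 * (s - k))) (G := fun s q => u ^ 2 * (q * (q - k * s + k ^ 2)))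
    (by intro x y; rw [hb]; ring) (by intro x y; ring)]
  obtain ⟨p, hp⟩ : ∃ p : ℝ, p = (Fintype.card F : ℝ) := ⟨_, rfl⟩
  have hp0 : 0 ≤ p := by rw [hp]; positivity
  have hp1 : 1 ≤ p := by rw [hp]; exact_mod_cast Fintype.card_pos
  have hsp : √p * √p = p := by rw [hp]; exact sq_card
  have hsp1 : 1 ≤ √p := by rw [hp]; exact one_le_sqrt_card
  have e1 : (univ.filter fun x : F => u * (x * (x - k)) = 0) = {0, k} := by
    ext x; simp [hu, sub_eq_zero]
  have e2 : ∑ x : F, ch (u * (x * (x - k))) ^ 2 = p - 2 := by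
    rw [sum_ch_sq_eq (fun x => u * (x * (x - k)))]
    rw [e1, ← hp, card_pair (Ne.symm hk)]; norm_num
  -- the sum of the characters of `g`
  obtain ⟨P3, hP3⟩ : ∃ P3 : F[X], P3 = C u * X ^ 2 + C (-u * k) * X + C 0 := ⟨_, rfl⟩
  have hP3d : P3.natDegree = 2 := by rw [hP3]; exact natDegree_quadratic hu
  have hP3e : ∀ x, P3.eval x = u * (x * (x - k)) := by intro x; rw [hP3]; simp; ring
  have hP3n : ∀ (c : F) (h : F[X]), P3 ≠ C c * h ^ 2 := by
    apply nonsq_of_simple (a := 0)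
    · rw [hP3e]; ring
    · rw [hP3]
      simp [hu, hk]
  have hG1 := weil hF P3 (d := 2) (by rw [hP3d]) (by rw [hP3d]; norm_num) hP3n
  rw [← hp, sum_congr rfl fun x _ => by rw [hP3e]] at hG1
  obtain ⟨G1, hG1d⟩ : ∃ G1 : ℝ, G1 = ∑ x : F, ch (u * (x * (x - k))) := ⟨_, rfl⟩
  rw [← hG1d] at hG1
  obtain ⟨P, hP⟩ : ∃ P : F[X], P = (C k * X + C f0) * ((X ^ 2 - C b * X + C (f0 * k)) ^ 2 - C 4 * X * (C k * X + C f0) ^ 2) := ⟨_, rfl⟩
  have hPe : ∀ q, P.eval q = (k * q + f0) * ((q ^ 2 - b * q + f0 * k) ^ 2 - 4 * q * (k * q + f0) ^ 2) := by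
    intro q; rw [hP]; simp
  have hPd : P.natDegree = 5 := by
    have e6 : P = C k * X ^ 5 + C (f0 - 2 * b * k - 4 * k ^ 3) * X ^ 4 + C (-2 * b * f0 + k * (b ^ 2 + 2 * f0 * k) - 12 * k ^ 2 * f0) * X ^ 3 +
        C (f0 * (b ^ 2 + 2 * f0 * k) - 2 * b * f0 * k ^ 2 - 12 * k * f0 ^ 2) * X ^ 2 +
        C (-2 * b * f0 ^ 2 * k + f0 ^ 2 * k ^ 3 - 4 * f0 ^ 3) * X + C (f0 ^ 3 * k ^ 2) := by
      rw [hP]
      simp only [C_mul, C_add, C_sub, C_neg, C_pow, C_ofNat]
      ring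
    rw [e6]
    compute_degree!
  have e4 : ∑ s : F, ∑ q : F, (if u * (q ^ 2 - k * q * s - b * q - f0 * (s - k)) = 0 then ch (u ^ 2 * (q * (q - k * s + k ^ 2))) else 0) *
      (1 + ch (s ^ 2 - 4 * q)) = ch fk * (∑ q : F, ch (P.eval q) - 2 * ch f0) := by
    have h5 : ∀ q : F, ∑ s : F, (if u * (q ^ 2 - k * q * s - b * q - f0 * (s - k)) = 0 then ch (u ^ 2 * (q * (q - k * s + k ^ 2))) else 0) *
        (1 + ch (s ^ 2 - 4 * q)) = ch fk * (ch (k * q + f0) + ch (P.eval q)) - if q = 0 then ch fk * (2 * ch f0) else 0 := by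
      intro q
      by_cases hq : q = 0
      · rw [hq]
        have : ∀ s : F, (if u * ((0:F) ^ 2 - k * 0 * s - b * 0 - f0 * (s - k)) = 0 then ch (u ^ 2 * (0 * (0 - k * s + k ^ 2))) else 0) *
            (1 + ch (s ^ 2 - 4 * 0)) = 0 := by
          intro s; simp
        rw [sum_congr rfl fun s _ => this s, if_pos rfl, hPe]
        have e7 : (k * 0 + f0) * ((0 ^ 2 - b * 0 + f0 * k) ^ 2 - 4 * 0 * (k * 0 + f0) ^ 2) = f0 * (f0 * k) ^ 2 := by ring
        rw [e7, ch_mul, ch_of_sq (mul_ne_zero hf0 hk), mul_zero, zero_add]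
        simp
        ring
      · rw [if_neg hq, sub_zero]
        by_cases hkq : k * q + f0 = 0
        · -- no solution
          rw [hPe, hkq]
          have h6 : ∀ s : F, u * (q ^ 2 - k * q * s - b * q - f0 * (s - k)) ≠ 0 := by
            intro s
            apply mul_ne_zero hu
            intro h
            have h7 : f0 = -(k * q) := by linear_combination hkq
            have h8 : q * (q - b - k ^ 2) = 0 := by
              have : q ^ 2 - k * q * s - b * q - f0 * (s - k) = q * (q - b - k ^ 2) - (k * q + f0) * (s - k) + (k*q+f0) * 0 := by ring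
              rw [this, hkq] at h
              linear_combination h
            have h9 : q = b + k ^ 2 := by
              have := (mul_eq_zero.1 h8).resolve_left hq
              linear_combination this
            apply hfk
            rw [hfkd]
            have : k ^ 3 + f2 * k ^ 2 + f1 * k + f0 = k * (b + k ^ 2) + f0 := by rw [hb]; ring
            rw [this, ← h9, hkq]
          rw [sum_eq_zero]
          · simp
          · intro s _
            rw [if_neg (h6 s), zero_mul]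
        · obtain ⟨m, hm⟩ : ∃ m, m = k * q + f0 := ⟨_, rfl⟩
          rw [hPe, ← hm]
          rw [← hm] at hkq
          have key : q * m - k * (q ^ 2 - b * q + f0 * k) + k ^ 2 * m = fk * q := by rw [hm, hfkd, hb]; ring
          rw [sum_eq_single ((q ^ 2 - b * q + f0 * k) / m)]
          · have h6 : q * (q - k * ((q ^ 2 - b * q + f0 * k) / m) + k ^ 2) = fk * m * (q / m) ^ 2 := by
              have e8 : q * (q - k * ((q ^ 2 - b * q + f0 * k) / m) + k ^ 2) = q * (q * m - k * (q ^ 2 - b * q + f0 * k) + k ^ 2 * m) / m := by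
                field_simp
              rw [e8, key]
              field_simp
            have h7 : q / m ≠ 0 := div_ne_zero hq hkq
            have h9 : u * (q ^ 2 - k * q * ((q ^ 2 - b * q + f0 * k) / m) - b * q - f0 * ((q ^ 2 - b * q + f0 * k) / m - k)) = 0 := by
              have e9 : u * (q ^ 2 - k * q * ((q ^ 2 - b * q + f0 * k) / m) - b * q - f0 * ((q ^ 2 - b * q + f0 * k) / m - k)) =
                  u * ((q ^ 2 - b * q + f0 * k) - (k * q + f0) * ((q ^ 2 - b * q + f0 * k) / m)) := by ring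
              rw [e9, ← hm, mul_div_cancel₀ _ hkq, sub_self, mul_zero]
            have h8 : ch (m * (((q ^ 2 - b * q + f0 * k) / m) ^ 2 - 4 * q)) = ch (m * ((q ^ 2 - b * q + f0 * k) ^ 2 - 4 * q * m ^ 2)) := by
              apply ch_eq_of_mul_sq hkq
              field_simp
            rw [if_pos h9, ch_mul (u ^ 2), ch_of_sq hu, one_mul, h6, ch_mul (fk * m), ch_mul fk, ch_of_sq h7, mul_one, ← h8, ch_mul m]
            ring
          · intro s _ hs
            rw [if_neg, zero_mul]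
            rw [mul_eq_zero, or_iff_right hu]
            intro h; apply hs
            rw [eq_div_iff hkq, hm]
            linear_combination -h
          · intro h; exact absurd (mem_univ _) h
    rw [sum_comm, sum_congr rfl fun q _ => h5 q, sum_sub_distrib, ← mul_sum, sum_add_distrib, sum_ch_lin hF hk, zero_add]
    simp only [sum_ite_eq', mem_univ, if_true]
    ring
  have hW := weil_odd hF P (by rw [hPd]; decide)
  rw [← hp, hPd] at hW
  obtain ⟨w, hw⟩ : ∃ w : ℝ, w = ∑ s : F, ch (P.eval s) := ⟨_, rfl⟩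
  rw [← hw] at hW e4
  obtain ⟨P2, hP2⟩ : ∃ P2 : F[X], P2 = C 1 * X ^ 4 + C (-2 * k) * X ^ 3 + C (-b) * X ^ 2 + C (-2 * f0) * X + C (f0 * k) := ⟨_, rfl⟩
  have hP2d : P2.natDegree = 4 := by rw [hP2]; compute_degree!
  have hD := diag_bound (g := fun x : F => u * (x * (x - k))) (R := fun x => u * ((x * x) ^ 2 - k * (x * x) * (x + x) - b * (x * x) - f0 * ((x + x) - k))) (P := P2) (n := 4)
    (by intro h; rw [h] at hP2d; simp at hP2d) hP2d.le (by
      intro x hx
      rw [mul_eq_zero, or_iff_right hu] at hx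
      rw [hP2]; simp
      linear_combination hx)
  obtain ⟨D, hDd⟩ : ∃ D : ℝ, D = ∑ x : F, (if u * ((x * x) ^ 2 - k * (x * x) * (x + x) - b * (x * x) - f0 * ((x + x) - k)) = 0 then ch (u * (x * (x - k))) ^ 2 else 0) := ⟨_, rfl⟩
  rw [← hDd] at hD
  obtain ⟨c, hc⟩ : ∃ c : ℝ, c = ∑ x ∈ ({0, k} : Finset F), ch (x ^ 3 + f2 * x ^ 2 + f1 * x + f0) := ⟨_, rfl⟩
  have hc2 : |c| ≤ 2 := by
    rw [hc]
    refine (abs_sum_le_sum_abs _ _).trans ?_
    calc ∑ x ∈ ({0, k} : Finset F), |ch (x ^ 3 + f2 * x ^ 2 + f1 * x + f0)| ≤ ∑ _x ∈ ({0, k} : Finset F), (1:ℝ) := sum_le_sum fun x _ => abs_ch_le _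
      _ = 2 := by rw [sum_const, card_pair (Ne.symm hk)]; norm_num
  rw [e1, ← hc, e2, ← hG1d, e4, ← hDd, ← hp]
  have e5 : p * c ^ 2 + p * (p - 2 + ch fk * (w - 2 * ch f0) - D) - G1 ^ 2 - p ^ 2 =
      p * (c ^ 2 - 2 + ch fk * (w - 2 * ch f0) - D) - G1 ^ 2 := by ring
  rw [e5]
  norm_num at hW hD hG1
  have h10 : |ch fk * (w - 2 * ch f0)| ≤ 4 * √p + 2 := by
    rw [abs_mul]
    have h11 := abs_ch_le fk
    have h12 : |w - 2 * ch f0| ≤ 4 * √p + 2 := by
      have h13 := abs_ch_le f0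
      rw [abs_le] at hW h13 ⊢
      constructor <;> linarith [hW.1, hW.2, h13.1, h13.2]
    calc |ch fk| * |w - 2 * ch f0| ≤ 1 * (4 * √p + 2) := by gcongr
      _ = _ := one_mul _
  have h14 : G1 ^ 2 ≤ p := by
    rw [← sq_abs, ← hsp, ← sq]
    exact pow_le_pow_left₀ (abs_nonneg _) hG1 2
  have h15 : c ^ 2 ≤ 4 := by
    rw [← sq_abs]; nlinarith [abs_nonneg c]
  have h16 : |c ^ 2 - 2 + ch fk * (w - 2 * ch f0) - D| ≤ 4 * √p + 12 := by
    rw [abs_le] at h10 ⊢
    constructor <;> linarith [h10.1, h10.2, hD.1, hD.2, sq_nonneg c]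
  calc |p * (c ^ 2 - 2 + ch fk * (w - 2 * ch f0) - D) - G1 ^ 2| ≤ |p * (c ^ 2 - 2 + ch fk * (w - 2 * ch f0) - D)| + |G1 ^ 2| := abs_sub _ _
    _ ≤ p * (4 * √p + 12) + p := by
      rw [abs_mul, abs_of_nonneg hp0, abs_of_nonneg (sq_nonneg G1)]
      gcongr
    _ ≤ _ := by nlinarith [mul_nonneg hp0 (Real.sqrt_nonneg p)]

end

end Pool.Agent.D0H53.EB
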