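import Mathlib
import Pool.Agent.D0H53.EB.L3

/-! Second moments of the character sums of pencils of cubics with a common root. -/

set_option autoImplicit false

open Finset Polynomial

namespace Pool.Agent.D0H53.EB

section
variable {F : Type*} [Field F] [Fintype F] [DecidableEq F]

/-- `g` of degree one, common root -/
lemma moment1c (hF : ringChar F ≠ 2) {u f2 f1 : F} (hu : u ≠ 0) (hf2 : f2 ≠ 0) :
    |∑ t : F, Sg (fun x => x ^ 3 + f2 * x ^ 2 + f1 * x) (fun x => u * x) t ^ 2 - (Fintype.card F : ℝ) ^ 2| ≤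
      6 * ((Fintype.card F : ℝ) * √(Fintype.card F)) := by
  have h2 : (2 : F) ≠ 0 := Ring.two_ne_zero hF
  have h4 : (4 : F) ≠ 0 := four_ne hF
  rw [sum_Sg_sq hF, Wg_split hF (Q := fun s q => u * (q * (s + f2))) (G := fun _ q => u ^ 2 * q) (by intro x y; ring) (by intro x y; ring)]
  obtain ⟨p, hp⟩ : ∃ p : ℝ, p = (Fintype.card F : ℝ) := ⟨_, rfl⟩
  have hp0 : 0 ≤ p := by rw [hp]; positivity
  have hsp1 : 1 ≤ √p := by rw [hp]; exact one_le_sqrt_card
  have e1 : (univ.filter fun x : F => u * x = 0) = {0} := by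
    ext x; simp [hu]
  have e2 : ∑ x : F, ch (u * x) ^ 2 = p - 1 := by
    rw [sum_ch_sq_eq (fun x => u * x)]
    rw [e1, ← hp]; simp
  have e3 : ∑ x : F, ch (u * x) = 0 := by
    have := sum_ch_lin hF hu (0:F)
    simpa using this
  obtain ⟨P, hP⟩ : ∃ P : F[X], P = C (-4) * X ^ 2 + C (f2 ^ 2) * X + C 0 := ⟨_, rfl⟩
  have hPe : ∀ q, P.eval q = q * (f2 ^ 2 - 4 * q) := by
    intro q; rw [hP]; simp; ring
  have hPd : P.natDegree = 2 := by
    rw [hP]
    exact natDegree_quadratic (neg_ne_zero.2 h4)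
  have hPn : ∀ (c : F) (h : F[X]), P ≠ C c * h ^ 2 := by
    apply nonsq_of_simple (a := 0)
    · rw [hPe]; ring
    · rw [hP]
      simp [hf2]
  have e4 : ∑ s : F, ∑ q : F, (if u * (q * (s + f2)) = 0 then ch (u ^ 2 * q) else 0) * (1 + ch (s ^ 2 - 4 * q)) =
      ∑ q : F, ch (P.eval q) := by
    have h5 : ∀ q : F, ∑ s : F, (if u * (q * (s + f2)) = 0 then ch (u ^ 2 * q) else 0) * (1 + ch (s ^ 2 - 4 * q)) =
        ch q + ch (P.eval q) := by
      intro q
      by_cases hq : q = 0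
      · rw [hq]
        have : ∀ s : F, (if u * (0 * (s + f2)) = 0 then ch (u ^ 2 * 0) else 0) * (1 + ch (s ^ 2 - 4 * 0)) = 0 := by
          intro s; simp
        rw [sum_congr rfl fun s _ => this s, hPe]
        simp
      · rw [sum_eq_single (-f2)]
        · have e6 : u * (q * (-f2 + f2)) = 0 := by ring
          have e7 : q * (f2 ^ 2 - 4 * q) = q * ((-f2) ^ 2 - 4 * q) := by ring
          rw [if_pos e6, ch_mul, ch_of_sq hu, one_mul, mul_add, mul_one, ← ch_mul, hPe, e7]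
        · intro s _ hs
          rw [if_neg, zero_mul]
          rw [mul_eq_zero, or_iff_right hu, mul_eq_zero, or_iff_right hq]
          intro h; apply hs
          linear_combination h
        · intro h; exact absurd (mem_univ _) h
    rw [sum_comm, sum_congr rfl fun q _ => h5 q, sum_add_distrib, sum_ch hF, zero_add]
  have hW := weil hF P (d := 2) (by rw [hPd]) (by rw [hPd]; norm_num) hPn
  rw [← hp] at hW
  obtain ⟨w, hw⟩ : ∃ w : ℝ, w = ∑ s : F, ch (P.eval s) := ⟨_, rfl⟩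
  rw [← hw] at hW e4
  obtain ⟨P2, hP2⟩ : ∃ P2 : F[X], P2 = C 2 * X ^ 3 + C f2 * X ^ 2 + C 0 * X + C 0 := ⟨_, rfl⟩
  have hP2d : P2.natDegree = 3 := by rw [hP2]; exact natDegree_cubic h2
  have hD := diag_bound (g := fun x : F => u * x) (R := fun x => u * (x * x * (x + x + f2))) (P := P2) (n := 3)
    (by intro h; rw [h] at hP2d; simp at hP2d) hP2d.le (by
      intro x hx
      rw [mul_eq_zero, or_iff_right hu] at hx
      rw [hP2]; simp
      linear_combination hx)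
  obtain ⟨D, hDd⟩ : ∃ D : ℝ, D = ∑ x : F, (if u * (x * x * (x + x + f2)) = 0 then ch (u * x) ^ 2 else 0) := ⟨_, rfl⟩
  rw [← hDd] at hD
  have e0 : (∑ x ∈ ({0} : Finset F), ch (x ^ 3 + f2 * x ^ 2 + f1 * x)) ^ 2 = 0 := by
    rw [sum_singleton]
    have : (0:F) ^ 3 + f2 * 0 ^ 2 + f1 * 0 = 0 := by ring
    rw [this]; simp
  rw [e1, e0, e2, e3, e4, ← hDd, ← hp]
  have e5 : p * 0 + p * (p - 1 + w - D) - 0 ^ 2 - p ^ 2 = p * (w - D - 1) := by ring
  rw [e5, abs_mul, abs_of_nonneg hp0]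
  norm_num at hW hD
  have h9 : |w - D - 1| ≤ 6 * √p := by
    rw [abs_le] at hW ⊢
    constructor <;> linarith [hW.1, hW.2, hD.1, hD.2]
  calc p * |w - D - 1| ≤ p * (6 * √p) := by gcongr
    _ = _ := by ring

lemma sum_ch_sq_sub (hF : ringChar F ≠ 2) {c : F} (hc : c ≠ 0) : |∑ s : F, ch (s ^ 2 - c)| ≤ √(Fintype.card F : ℝ) := by
  have h2 : (2 : F) ≠ 0 := Ring.two_ne_zero hF
  obtain ⟨P, hP⟩ : ∃ P : F[X], P = C 1 * X ^ 2 + C 0 * X + C (-c) := ⟨_, rfl⟩
  have hPe : ∀ q, P.eval q = q ^ 2 - c := by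
    intro q; rw [hP]; simp; ring
  have hPd : P.natDegree = 2 := by
    rw [hP]
    exact natDegree_quadratic one_ne_zero
  have hPn : ∀ (a : F) (h : F[X]), P ≠ C a * h ^ 2 := by
    intro a h hh
    have ha : a ≠ 0 := by
      rintro rfl
      rw [hh] at hPd; simp at hPd
    have hd1 : h.natDegree = 1 := by
      rw [hh, natDegree_C_mul ha, natDegree_pow] at hPd
      omega
    obtain ⟨r, hr⟩ : ∃ r, h.eval r = 0 := by
      have : h.degree = 1 := by
        rw [degree_eq_natDegree (by rintro rfl; simp at hd1), hd1]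
        rfl
      exact exists_root_of_degree_eq_one this
    have h4 : P.eval r = 0 := by rw [hh]; simp [hr]
    have h5 : (derivative P).eval r = 0 := by rw [hh]; simp [derivative_mul, derivative_pow, hr]
    rw [hPe] at h4
    have h6 : (derivative P).eval r = 2 * r := by
      rw [hP]; simp
      left; norm_num
    rw [h6, mul_eq_zero, or_iff_right h2] at h5
    rw [h5] at h4
    apply hc
    linear_combination -h4
  have hW := weil hF P (d := 2) (by rw [hPd]) (by rw [hPd]; norm_num) hPn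
  rw [sum_congr rfl fun x _ => by rw [hPe]] at hW
  refine hW.trans (le_of_eq ?_)
  norm_num

/-- `g` with a double root, common root -/
lemma moment2bc (hF : ringChar F ≠ 2) {u f2 f1 : F} (hu : u ≠ 0) (hf1 : f1 ≠ 0) :
    |∑ t : F, Sg (fun x => x ^ 3 + f2 * x ^ 2 + f1 * x) (fun x => u * (x * x)) t ^ 2 - (Fintype.card F : ℝ) ^ 2| ≤
      9 * ((Fintype.card F : ℝ) * √(Fintype.card F)) := by
  have h2 : (2 : F) ≠ 0 := Ring.two_ne_zero hF
  have h4 : (4 : F) ≠ 0 := four_ne hF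
  rw [sum_Sg_sq hF, Wg_split hF (Q := fun _ q => u * (q * (q - f1))) (G := fun _ q => u ^ 2 * q ^ 2) (by intro x y; ring) (by intro x y; ring)]
  obtain ⟨p, hp⟩ : ∃ p : ℝ, p = (Fintype.card F : ℝ) := ⟨_, rfl⟩
  have hp0 : 0 ≤ p := by rw [hp]; positivity
  have hp1 : 1 ≤ p := by rw [hp]; exact_mod_cast Fintype.card_pos
  have hsp1 : 1 ≤ √p := by rw [hp]; exact one_le_sqrt_card
  have e1 : (univ.filter fun x : F => u * (x * x) = 0) = {0} := by
    ext x; simp [hu]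
  have e2 : ∑ x : F, ch (u * (x * x)) ^ 2 = p - 1 := by
    rw [sum_ch_sq_eq (fun x => u * (x * x))]
    rw [e1, ← hp]; simp
  have e3 : (∑ x : F, ch (u * (x * x))) ^ 2 = (p - 1) ^ 2 := by
    have h5 : ∀ x : F, ch (u * (x * x)) = ch u * ch x ^ 2 := by
      intro x; rw [ch_mul, ch_mul, sq]
    rw [sum_congr rfl fun x _ => h5 x, ← mul_sum, card_sum_ch_sq, mul_pow, ch_sq hu, one_mul, hp]
  obtain ⟨w, hw⟩ : ∃ w : ℝ, w = ∑ s : F, ch (s ^ 2 - 4 * f1) := ⟨_, rfl⟩
  have hW := sum_ch_sq_sub hF (mul_ne_zero h4 hf1)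
  rw [← hw, ← hp] at hW
  have e4 : ∑ s : F, ∑ q : F, (if u * (q * (q - f1)) = 0 then ch (u ^ 2 * q ^ 2) else 0) * (1 + ch (s ^ 2 - 4 * q)) = p + w := by
    have h5 : ∀ s : F, ∑ q : F, (if u * (q * (q - f1)) = 0 then ch (u ^ 2 * q ^ 2) else 0) * (1 + ch (s ^ 2 - 4 * q)) =
        1 + ch (s ^ 2 - 4 * f1) := by
      intro s
      rw [sum_eq_single f1]
      · have e6 : u * (f1 * (f1 - f1)) = 0 := by ring
        rw [if_pos e6, ch_mul, ch_of_sq hu, one_mul, ch_of_sq hf1, one_mul]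
      · intro q _ hq
        by_cases hq0 : q = 0
        · rw [hq0]; simp
        · rw [if_neg, zero_mul]
          rw [mul_eq_zero, or_iff_right hu, mul_eq_zero, or_iff_right hq0]
          intro h; apply hq
          linear_combination h
      · intro h; exact absurd (mem_univ _) h
    rw [sum_congr rfl fun s _ => h5 s, sum_add_distrib, ← hw]
    simp [hp]
  obtain ⟨P2, hP2⟩ : ∃ P2 : F[X], P2 = C 1 * X ^ 4 + C (-f1) * X ^ 2 := ⟨_, rfl⟩
  have hP2d : P2.natDegree = 4 := by rw [hP2]; compute_degree!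
  have hD := diag_bound (g := fun x : F => u * (x * x)) (R := fun x => u * (x * x * (x * x - f1))) (P := P2) (n := 4)
    (by intro h; rw [h] at hP2d; simp at hP2d) hP2d.le (by
      intro x hx
      rw [mul_eq_zero, or_iff_right hu] at hx
      rw [hP2]; simp
      linear_combination hx)
  obtain ⟨D, hDd⟩ : ∃ D : ℝ, D = ∑ x : F, (if u * (x * x * (x * x - f1)) = 0 then ch (u * (x * x)) ^ 2 else 0) := ⟨_, rfl⟩
  rw [← hDd] at hD
  have e0 : (∑ x ∈ ({0} : Finset F), ch (x ^ 3 + f2 * x ^ 2 + f1 * x)) ^ 2 = 0 := by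
    rw [sum_singleton]
    have : (0:F) ^ 3 + f2 * 0 ^ 2 + f1 * 0 = 0 := by ring
    rw [this]; simp
  rw [e1, e0, e2, e3, e4, ← hDd, ← hp]
  have e5 : p * 0 + p * (p - 1 + (p + w) - D) - (p - 1) ^ 2 - p ^ 2 = p * (w - D + 1) - 1 := by ring
  rw [e5]
  norm_num at hD
  have h9 : |w - D + 1| ≤ 6 * √p := by
    rw [abs_le] at hW ⊢
    constructor <;> linarith [hW.1, hW.2, hD.1, hD.2]
  have hps : 1 ≤ p * √p := by nlinarith
  calc |p * (w - D + 1) - 1| ≤ |p * (w - D + 1)| + |1| := abs_sub _ _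
    _ ≤ p * (6 * √p) + p * √p := by
      rw [abs_mul, abs_of_nonneg hp0, abs_one]
      gcongr
    _ ≤ _ := by nlinarith [mul_nonneg hp0 (Real.sqrt_nonneg p)]

/-- `g` with two different roots, one of them a common root -/
lemma moment2ac (hF : ringChar F ≠ 2) {u k f2 f1 : F} (hu : u ≠ 0) (hk : k ≠ 0) :
    |∑ t : F, Sg (fun x => x ^ 3 + f2 * x ^ 2 + f1 * x) (fun x => u * (x * (x - k))) t ^ 2 - (Fintype.card F : ℝ) ^ 2| ≤
      17 * ((Fintype.card F : ℝ) * √(Fintype.card F)) := by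
  have h2 : (2 : F) ≠ 0 := Ring.two_ne_zero hF
  have h4 : (4 : F) ≠ 0 := four_ne hF
  obtain ⟨b, hb⟩ : ∃ b, b = f1 + k * f2 := ⟨_, rfl⟩
  rw [sum_Sg_sq hF, Wg_split hF (Q := fun s q => u * (q * (q - k * s - b))) (G := fun s q => u ^ 2 * (q * (q - k * s + k ^ 2)))
    (by intro x y; rw [hb]; ring) (by intro x y; ring)]
  obtain ⟨p, hp⟩ : ∃ p : ℝ, p = (Fintype.card F : ℝ) := ⟨_, rfl⟩
  have hp0 : 0 ≤ p := by rw [hp]; positivity
  have hp1 : 1 ≤ p := by rw [hp]; exact_mod_cast Fintype.card_pos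
  have hsp : √p * √p = p := by rw [hp]; exact sq_card
  have hsp1 : 1 ≤ √p := by rw [hp]; exact one_le_sqrt_card
  have e1 : (univ.filter fun x : F => u * (x * (x - k)) = 0) = {0, k} := by
    ext x; simp [hu, sub_eq_zero]
  have e2 : ∑ x : F, ch (u * (x * (x - k))) ^ 2 = p - 2 := by
    rw [sum_ch_sq_eq (fun x => u * (x * (x - k)))]
    rw [e1, ← hp, card_pair (Ne.symm hk)]; norm_num
  -- the sum of the characters of `g`
  obtain ⟨P3, hP3⟩ : ∃ P3 : F[X], P3 = C u * X ^ 2 + C (-u * k) * X + C 0 := ⟨_, rfl⟩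
  have hP3d : P3.natDegree = 2 := by rw [hP3]; exact natDegree_quadratic hu
  have hP3e : ∀ x, P3.eval x = u * (x * (x - k)) := by intro x; rw [hP3]; simp; ring
  have hP3n : ∀ (c : F) (h : F[X]), P3 ≠ C c * h ^ 2 := by
    apply nonsq_of_simple (a := 0)
    · rw [hP3e]; ring
    · rw [hP3]
      simp [hu, hk]
  have hG1 := weil hF P3 (d := 2) (by rw [hP3d]) (by rw [hP3d]; norm_num) hP3n
  rw [← hp, sum_congr rfl fun x _ => by rw [hP3e]] at hG1
  obtain ⟨G1, hG1d⟩ : ∃ G1 : ℝ, G1 = ∑ x : F, ch (u * (x * (x - k))) := ⟨_, rfl⟩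
  rw [← hG1d] at hG1
  obtain ⟨P, hP⟩ : ∃ P : F[X], P = C 1 * X ^ 3 + C (-2 * b - 4 * k ^ 2) * X ^ 2 + C (b ^ 2) * X + C 0 := ⟨_, rfl⟩
  have hPe : ∀ q, P.eval q = q * ((q - b) ^ 2 - 4 * k ^ 2 * q) := by
    intro q; rw [hP]; simp; ring
  have hPd : P.natDegree = 3 := by rw [hP]; exact natDegree_cubic one_ne_zero
  have e4 : ∑ s : F, ∑ q : F, (if u * (q * (q - k * s - b)) = 0 then ch (u ^ 2 * (q * (q - k * s + k ^ 2))) else 0) *
      (1 + ch (s ^ 2 - 4 * q)) = ch (b + k ^ 2) * ∑ q : F, ch (P.eval q) := by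
    have h5 : ∀ q : F, ∑ s : F, (if u * (q * (q - k * s - b)) = 0 then ch (u ^ 2 * (q * (q - k * s + k ^ 2))) else 0) *
        (1 + ch (s ^ 2 - 4 * q)) = ch (b + k ^ 2) * (ch q + ch (P.eval q)) := by
      intro q
      by_cases hq : q = 0
      · rw [hq]
        have : ∀ s : F, (if u * (0 * (0 - k * s - b)) = 0 then ch (u ^ 2 * (0 * (0 - k * s + k ^ 2))) else 0) *
            (1 + ch (s ^ 2 - 4 * 0)) = 0 := by
          intro s; simp
        rw [sum_congr rfl fun s _ => this s, hPe]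
        simp
      · rw [sum_eq_single ((q - b) / k)]
        · have h9 : u * (q * (q - k * ((q - b) / k) - b)) = 0 := by
            rw [mul_div_cancel₀ _ hk]; ring
          have h6 : q * (q - k * ((q - b) / k) + k ^ 2) = (b + k ^ 2) * q := by
            rw [mul_div_cancel₀ _ hk]; ring
          have h8 : ch (q * (((q - b) / k) ^ 2 - 4 * q)) = ch (P.eval q) := by
            apply ch_eq_of_mul_sq hk
            rw [hPe]
            field_simp
          rw [if_pos h9, ch_mul (u ^ 2), ch_of_sq hu, one_mul, h6, ch_mul (b + k ^ 2), ← h8, ch_mul q]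
          ring
        · intro s _ hs
          rw [if_neg, zero_mul]
          rw [mul_eq_zero, or_iff_right hu, mul_eq_zero, or_iff_right hq]
          intro h; apply hs
          rw [eq_div_iff hk]
          linear_combination -h
        · intro h; exact absurd (mem_univ _) h
    rw [sum_comm, sum_congr rfl fun q _ => h5 q, ← mul_sum, sum_add_distrib, sum_ch hF, zero_add]
  have hW := weil_odd hF P (by rw [hPd]; decide)
  rw [← hp, hPd] at hW
  obtain ⟨w, hw⟩ : ∃ w : ℝ, w = ∑ s : F, ch (P.eval s) := ⟨_, rfl⟩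
  rw [← hw] at hW e4
  obtain ⟨P2, hP2⟩ : ∃ P2 : F[X], P2 = C 1 * X ^ 4 + C (-2 * k) * X ^ 3 + C (-b) * X ^ 2 := ⟨_, rfl⟩
  have hP2d : P2.natDegree = 4 := by rw [hP2]; compute_degree!
  have hD := diag_bound (g := fun x : F => u * (x * (x - k))) (R := fun x => u * (x * x * (x * x - k * (x + x) - b))) (P := P2) (n := 4)
    (by intro h; rw [h] at hP2d; simp at hP2d) hP2d.le (by
      intro x hx
      rw [mul_eq_zero, or_iff_right hu] at hx
      rw [hP2]; simp
      linear_combination hx)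
  obtain ⟨D, hDd⟩ : ∃ D : ℝ, D = ∑ x : F, (if u * (x * x * (x * x - k * (x + x) - b)) = 0 then ch (u * (x * (x - k))) ^ 2 else 0) := ⟨_, rfl⟩
  rw [← hDd] at hD
  obtain ⟨c, hc⟩ : ∃ c : ℝ, c = ∑ x ∈ ({0, k} : Finset F), ch (x ^ 3 + f2 * x ^ 2 + f1 * x) := ⟨_, rfl⟩
  have hc2 : |c| ≤ 2 := by
    rw [hc]
    refine (abs_sum_le_sum_abs _ _).trans ?_
    calc ∑ x ∈ ({0, k} : Finset F), |ch (x ^ 3 + f2 * x ^ 2 + f1 * x)| ≤ ∑ _x ∈ ({0, k} : Finset F), (1:ℝ) := sum_le_sum fun x _ => abs_ch_le _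
      _ = 2 := by rw [sum_const, card_pair (Ne.symm hk)]; norm_num
  rw [e1, ← hc, e2, ← hG1d, e4, ← hDd, ← hp]
  have e5 : p * c ^ 2 + p * (p - 2 + ch (b + k ^ 2) * w - D) - G1 ^ 2 - p ^ 2 =
      p * (c ^ 2 - 2 + ch (b + k ^ 2) * w - D) - G1 ^ 2 := by ring
  rw [e5]
  norm_num at hW hD hG1
  have h10 : |ch (b + k ^ 2) * w| ≤ 2 * √p := by
    rw [abs_mul]
    have h11 := abs_ch_le (b + k ^ 2)
    calc |ch (b + k ^ 2)| * |w| ≤ 1 * (2 * √p) := by gcongr
      _ = _ := one_mul _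
  have h14 : G1 ^ 2 ≤ p := by
    rw [← sq_abs, ← hsp, ← sq]
    exact pow_le_pow_left₀ (abs_nonneg _) hG1 2
  have h15 : c ^ 2 ≤ 4 := by
    rw [← sq_abs]; nlinarith [abs_nonneg c]
  have h16 : |c ^ 2 - 2 + ch (b + k ^ 2) * w - D| ≤ 4 * √p + 12 := by
    rw [abs_le] at h10 ⊢
    constructor <;> linarith [h10.1, h10.2, hD.1, hD.2, sq_nonneg c]
  calc |p * (c ^ 2 - 2 + ch (b + k ^ 2) * w - D) - G1 ^ 2| ≤ |p * (c ^ 2 - 2 + ch (b + k ^ 2) * w - D)| + |G1 ^ 2| := abs_sub _ _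
    _ ≤ p * (4 * √p + 12) + p := by
      rw [abs_mul, abs_of_nonneg hp0, abs_of_nonneg (sq_nonneg G1)]
      gcongr
    _ ≤ _ := by nlinarith [mul_nonneg hp0 (Real.sqrt_nonneg p)]

end

end Pool.Agent.D0H53.EB
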