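import Mathlib
import Pool.Agent.D0H53.EB.L3b

/-! Moments of the character sums of a pencil over a finite field. -/

set_option autoImplicit false

open Finset Polynomial

namespace Pool.Agent.D0H53.EB

section
variable {F : Type*} [Field F] [Fintype F] [DecidableEq F]

/-- the monic cubic -/
def cu (f2 f1 f0 x : F) : F := x ^ 3 + f2 * x ^ 2 + f1 * x + f0

/-- the polynomial of degree at most two -/
def qu (g2 g1 g0 x : F) : F := g2 * x ^ 2 + g1 * x + g0

/-- the discriminant of the monic cubic -/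
def dc {R : Type*} [CommRing R] (A B C : R) : R := A ^ 2 * B ^ 2 - 4 * B ^ 3 - 4 * A ^ 3 * C - 27 * C ^ 2 + 18 * A * B * C

/-- the properties of the pencil over `F` which are used: `c` is the sum of the characters -/
structure Loc (f2 f1 f0 g2 g1 g0 : F) (c : ℝ) : Prop where
  first : ∑ t : F, Sg (cu f2 f1 f0) (qu g2 g1 g0) t = (Fintype.card F : ℝ) * c
  second : |∑ t : F, Sg (cu f2 f1 f0) (qu g2 g1 g0) t ^ 2 - (Fintype.card F : ℝ) ^ 2| ≤ 17 * ((Fintype.card F : ℝ) * √(Fintype.card F))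
  size : ∀ t, |Sg (cu f2 f1 f0) (qu g2 g1 g0) t| ≤ 2 * √(Fintype.card F)
  sing : (univ.filter fun t : F => dc (f2 + t * g2) (f1 + t * g1) (f0 + t * g0) = 0).card ≤ 4

lemma Sg_shift (f g : F → F) (r t : F) : Sg (fun x => f (x + r)) (fun x => g (x + r)) t = Sg f g t := by
  unfold Sg
  exact Fintype.sum_equiv (Equiv.addRight r) _ _ fun x => rfl

lemma size_all (hF : ringChar F ≠ 2) (f2 f1 f0 g2 g1 g0 t : F) : |Sg (cu f2 f1 f0) (qu g2 g1 g0) t| ≤ 2 * √(Fintype.card F) := by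
  obtain ⟨P, hP⟩ : ∃ P : F[X], P = C 1 * X ^ 3 + C (f2 + t * g2) * X ^ 2 + C (f1 + t * g1) * X + C (f0 + t * g0) := ⟨_, rfl⟩
  have hd : P.natDegree = 3 := by rw [hP]; exact natDegree_cubic one_ne_zero
  have h := weil_odd hF P (by rw [hd]; decide)
  have e : ∀ x : F, P.eval x = cu f2 f1 f0 x + t * qu g2 g1 g0 x := by
    intro x; rw [hP]; unfold cu qu; simp; ring
  rw [sum_congr rfl fun x _ => by rw [e x], hd] at h
  unfold Sg
  refine h.trans (le_of_eq ?_)
  norm_num

lemma card_zero_le {P : F[X]} {n : ℕ} (hP : P ≠ 0) (hn : P.natDegree ≤ n) {D : F → F} (h : ∀ t, D t = 0 → P.eval t = 0) :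
    (univ.filter fun t : F => D t = 0).card ≤ n := by
  calc (univ.filter fun t : F => D t = 0).card ≤ P.roots.toFinset.card := by
        apply card_le_card
        intro t ht
        rw [mem_filter] at ht
        rw [Multiset.mem_toFinset, mem_roots hP]
        exact h t ht.2
    _ ≤ n := (Multiset.toFinset_card_le _).trans ((card_roots' P).trans hn)

lemma dc_shift (A B C r : F) : dc (A + 3 * r) (B + 2 * A * r + 3 * r ^ 2) (cu A B C r) = dc A B C := by
  unfold dc cu; ring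

omit [Fintype F] [DecidableEq F] in
lemma coeff_three (c4 c3 c2 c1 c0 : F) : (C c4 * X ^ 4 + C c3 * X ^ 3 + C c2 * X ^ 2 + C c1 * X + C c0 : F[X]).coeff 3 = c3 := by
  simp [coeff_X, coeff_C]

omit [Fintype F] [DecidableEq F] in
lemma coeff_four (c4 c3 c2 c1 c0 : F) : (C c4 * X ^ 4 + C c3 * X ^ 3 + C c2 * X ^ 2 + C c1 * X + C c0 : F[X]).coeff 4 = c4 := by
  simp [coeff_X, coeff_C]

/-- constant `g` -/
lemma loc0 (hF : ringChar F ≠ 2) (h3 : (3 : F) ≠ 0) {f2 f1 f0 g0 : F} (hg : g0 ≠ 0) (hd : f2 ^ 2 - 3 * f1 ≠ 0) :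
    Loc f2 f1 f0 0 0 g0 0 where
  first := by
    rw [sum_Sg hF]
    have : (univ.filter fun x : F => qu 0 0 g0 x = 0) = ∅ := by
      ext x; simp [qu, hg]
    rw [this]; simp
  second := by
    have h := moment0 (f0 := f0) hF h3 hg hd
    have e : (qu 0 0 g0 : F → F) = fun _ => g0 := by ext x; simp [qu]
    rw [e]
    refine h.trans ?_
    have : 0 ≤ (Fintype.card F : ℝ) * √(Fintype.card F) := by positivity
    linarith
  size := size_all hF _ _ _ _ _ _
  sing := by
    obtain ⟨P, hP⟩ : ∃ P : F[X], P = C (-27 * g0 ^ 2) * X ^ 2 + C (-4 * f2 ^ 3 * g0 - 54 * f0 * g0 + 18 * f2 * f1 * g0) * X + C (dc f2 f1 f0) := ⟨_, rfl⟩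
    have h27 : (-27 * g0 ^ 2 : F) ≠ 0 := by
      have : (-27 * g0 ^ 2 : F) = -(3 ^ 3 * g0 ^ 2) := by ring
      rw [this]
      exact neg_ne_zero.2 (mul_ne_zero (pow_ne_zero _ h3) (pow_ne_zero _ hg))
    have hd : P.natDegree = 2 := by rw [hP]; exact natDegree_quadratic h27
    apply card_zero_le (P := P) (by intro h; rw [h] at hd; simp at hd) (by rw [hd]; norm_num)
    intro t ht
    rw [← ht, hP]
    unfold dc
    simp
    ring

/-- linear `g` -/
lemma loc1 (hF : ringChar F ≠ 2) {f2 f1 f0 g1 g0 : F} (hg : g1 ≠ 0) (hf : cu f2 f1 f0 (-g0 / g1) ≠ 0 ∨ f2 + 3 * (-g0 / g1) ≠ 0) :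
    Loc f2 f1 f0 0 g1 g0 (ch (cu f2 f1 f0 (-g0 / g1))) where
  first := by
    rw [sum_Sg hF]
    have : (univ.filter fun x : F => qu 0 g1 g0 x = 0) = {-g0 / g1} := by
      ext x
      simp only [qu, mem_filter, mem_univ, true_and, mem_singleton, zero_mul, zero_add]
      rw [eq_div_iff hg]
      constructor
      · intro h; linear_combination h
      · intro h; linear_combination h
    rw [this, sum_singleton]
  second := by
    obtain ⟨r, hr⟩ : ∃ r, r = -g0 / g1 := ⟨_, rfl⟩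
    rw [← hr] at hf
    have hr1 : g1 * r = -g0 := by rw [hr]; field_simp
    have hps : 0 ≤ (Fintype.card F : ℝ) * √(Fintype.card F) := by positivity
    by_cases hf0 : cu f2 f1 f0 r = 0
    · have h := moment1c hF (u := g1) (f2 := f2 + 3 * r) (f1 := f1 + 2 * f2 * r + 3 * r ^ 2) hg (hf.resolve_left (fun h => h hf0))
      have e : ∀ t : F, Sg (fun x => x ^ 3 + (f2 + 3 * r) * x ^ 2 + (f1 + 2 * f2 * r + 3 * r ^ 2) * x) (fun x => g1 * x) t =
          Sg (cu f2 f1 f0) (qu 0 g1 g0) t := by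
        intro t
        rw [← Sg_shift (cu f2 f1 f0) (qu 0 g1 g0) r]
        congr 1
        · ext x
          unfold cu at hf0 ⊢
          linear_combination -hf0
        · ext x; unfold qu; linear_combination -hr1
      rw [sum_congr rfl fun t _ => by rw [e t]] at h
      exact h.trans (by linarith)
    · have h := moment1 hF (f2 := f2 + 3 * r) (f1 := f1 + 2 * f2 * r + 3 * r ^ 2) hg hf0
      have e : ∀ t : F, Sg (fun x => x ^ 3 + (f2 + 3 * r) * x ^ 2 + (f1 + 2 * f2 * r + 3 * r ^ 2) * x + cu f2 f1 f0 r) (fun x => g1 * x) t =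
          Sg (cu f2 f1 f0) (qu 0 g1 g0) t := by
        intro t
        rw [← Sg_shift (cu f2 f1 f0) (qu 0 g1 g0) r]
        congr 1
        · ext x; unfold cu; ring
        · ext x; unfold qu; linear_combination -hr1
      rw [sum_congr rfl fun t _ => by rw [e t]] at h
      exact h.trans (by linarith)
  size := size_all hF _ _ _ _ _ _
  sing := by
    obtain ⟨P, hP⟩ : ∃ P : F[X], P = C (-4 * g1 ^ 3) * X ^ 3 + C (f2 ^ 2 * g1 ^ 2 - 12 * f1 * g1 ^ 2 - 27 * g0 ^ 2 + 18 * f2 * g1 * g0) * X ^ 2 +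
        C (2 * f2 ^ 2 * f1 * g1 - 12 * f1 ^ 2 * g1 - 4 * f2 ^ 3 * g0 - 54 * f0 * g0 + 18 * f2 * (f1 * g0 + g1 * f0)) * X + C (dc f2 f1 f0) := ⟨_, rfl⟩
    have h4 : (-4 * g1 ^ 3 : F) ≠ 0 := mul_ne_zero (neg_ne_zero.2 (four_ne hF)) (pow_ne_zero _ hg)
    have hd : P.natDegree = 3 := by rw [hP]; exact natDegree_cubic h4
    apply card_zero_le (P := P) (by intro h; rw [h] at hd; simp at hd) (by rw [hd]; norm_num)
    intro t ht
    rw [← ht, hP]
    unfold dc
    simp
    ring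

omit [Fintype F] [DecidableEq F] in
lemma coeff_two (c4 c3 c2 c1 c0 : F) : (C c4 * X ^ 4 + C c3 * X ^ 3 + C c2 * X ^ 2 + C c1 * X + C c0 : F[X]).coeff 2 = c2 := by
  simp [coeff_X, coeff_C]

/-- second moment for two different roots, the first of them a common root -/
lemma second2c (hF : ringChar F ≠ 2) {f2 f1 f0 g2 g1 g0 r k : F} (hg : g2 ≠ 0) (h1 : g1 = - g2 * (2 * r + k)) (h0 : g0 = g2 * (r * (r + k)))
    (hk : k ≠ 0) (hf : cu f2 f1 f0 r = 0) :
    |∑ t : F, Sg (cu f2 f1 f0) (qu g2 g1 g0) t ^ 2 - (Fintype.card F : ℝ) ^ 2| ≤ 17 * ((Fintype.card F : ℝ) * √(Fintype.card F)) := by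
  have h := moment2ac hF (u := g2) (f2 := f2 + 3 * r) (f1 := f1 + 2 * f2 * r + 3 * r ^ 2) hg hk
  have e : ∀ t : F, Sg (fun x => x ^ 3 + (f2 + 3 * r) * x ^ 2 + (f1 + 2 * f2 * r + 3 * r ^ 2) * x) (fun x => g2 * (x * (x - k))) t =
      Sg (cu f2 f1 f0) (qu g2 g1 g0) t := by
    intro t
    rw [← Sg_shift (cu f2 f1 f0) (qu g2 g1 g0) r]
    congr 1
    · ext x
      unfold cu at hf ⊢
      linear_combination -hf
    · ext x; unfold qu; rw [h1, h0]; ring
  rw [sum_congr rfl fun t _ => by rw [e t]] at h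
  exact h

/-- quadratic `g`, with the roots `r` and `r + k` -/
lemma loc2 (hF : ringChar F ≠ 2) {f2 f1 f0 g2 g1 g0 r k : F} (hg : g2 ≠ 0) (h1 : g1 = - g2 * (2 * r + k)) (h0 : g0 = g2 * (r * (r + k)))
    (hf : k ≠ 0 ∨ cu f2 f1 f0 r ≠ 0 ∨ f1 + 2 * f2 * r + 3 * r ^ 2 ≠ 0) :
    Loc f2 f1 f0 g2 g1 g0 (if k = 0 then ch (cu f2 f1 f0 r) else ch (cu f2 f1 f0 r) + ch (cu f2 f1 f0 (r + k))) where
  first := by
    rw [sum_Sg hF]
    congr 1
    have hq : ∀ x, qu g2 g1 g0 x = g2 * ((x - r) * (x - (r + k))) := by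
      intro x; unfold qu; rw [h1, h0]; ring
    by_cases hk : k = 0
    · rw [if_pos hk]
      have : (univ.filter fun x : F => qu g2 g1 g0 x = 0) = {r} := by
        ext x
        simp only [mem_filter, mem_univ, true_and, mem_singleton]
        rw [hq, hk, add_zero, mul_eq_zero, or_iff_right hg, mul_self_eq_zero, sub_eq_zero]
      rw [this, sum_singleton]
    · rw [if_neg hk]
      have : (univ.filter fun x : F => qu g2 g1 g0 x = 0) = {r, r + k} := by
        ext x
        simp only [mem_filter, mem_univ, true_and, mem_singleton, mem_insert]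
        rw [hq, mul_eq_zero, or_iff_right hg, mul_eq_zero, sub_eq_zero, sub_eq_zero]
      rw [this, sum_pair]
      intro h
      apply hk
      linear_combination -h
  second := by
    have hps : 0 ≤ (Fintype.card F : ℝ) * √(Fintype.card F) := by positivity
    by_cases hk : k = 0
    · have hf' := hf.resolve_left (fun h => h hk)
      by_cases hf0 : cu f2 f1 f0 r = 0
      · have h := moment2bc hF (u := g2) (f2 := f2 + 3 * r) (f1 := f1 + 2 * f2 * r + 3 * r ^ 2) hg (hf'.resolve_left (fun h => h hf0))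
        have e : ∀ t : F, Sg (fun x => x ^ 3 + (f2 + 3 * r) * x ^ 2 + (f1 + 2 * f2 * r + 3 * r ^ 2) * x) (fun x => g2 * (x * x)) t =
            Sg (cu f2 f1 f0) (qu g2 g1 g0) t := by
          intro t
          rw [← Sg_shift (cu f2 f1 f0) (qu g2 g1 g0) r]
          congr 1
          · ext x
            unfold cu at hf0 ⊢
            linear_combination -hf0
          · ext x; unfold qu; rw [h1, h0, hk]; ring
        rw [sum_congr rfl fun t _ => by rw [e t]] at h
        exact h.trans (by linarith)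
      · have h := moment2b hF (f2 := f2 + 3 * r) (f1 := f1 + 2 * f2 * r + 3 * r ^ 2) hg hf0
        have e : ∀ t : F, Sg (fun x => x ^ 3 + (f2 + 3 * r) * x ^ 2 + (f1 + 2 * f2 * r + 3 * r ^ 2) * x + cu f2 f1 f0 r) (fun x => g2 * (x * x)) t =
            Sg (cu f2 f1 f0) (qu g2 g1 g0) t := by
          intro t
          rw [← Sg_shift (cu f2 f1 f0) (qu g2 g1 g0) r]
          congr 1
          · ext x; unfold cu; ring
          · ext x; unfold qu; rw [h1, h0, hk]; ring
        rw [sum_congr rfl fun t _ => by rw [e t]] at h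
        exact h.trans (by linarith)
    · by_cases hf0 : cu f2 f1 f0 r = 0
      · exact second2c hF hg h1 h0 hk hf0
      · by_cases hfk : cu f2 f1 f0 (r + k) = 0
        · apply second2c hF (r := r + k) (k := -k) hg (by rw [h1]; ring) (by rw [h0]; ring) (neg_ne_zero.2 hk) hfk
        · have h := moment2a hF (f2 := f2 + 3 * r) (f1 := f1 + 2 * f2 * r + 3 * r ^ 2) hg hk hf0 (by
            have : k ^ 3 + (f2 + 3 * r) * k ^ 2 + (f1 + 2 * f2 * r + 3 * r ^ 2) * k + cu f2 f1 f0 r = cu f2 f1 f0 (r + k) := by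
              unfold cu; ring
            rw [this]; exact hfk)
          have e : ∀ t : F, Sg (fun x => x ^ 3 + (f2 + 3 * r) * x ^ 2 + (f1 + 2 * f2 * r + 3 * r ^ 2) * x + cu f2 f1 f0 r) (fun x => g2 * (x * (x - k))) t =
              Sg (cu f2 f1 f0) (qu g2 g1 g0) t := by
            intro t
            rw [← Sg_shift (cu f2 f1 f0) (qu g2 g1 g0) r]
            congr 1
            · ext x; unfold cu; ring
            · ext x; unfold qu; rw [h1, h0]; ring
          rw [sum_congr rfl fun t _ => by rw [e t]] at h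
          exact h
  size := size_all hF _ _ _ _ _ _
  sing := by
    -- pass to the shifted pencil
    obtain ⟨e2, he2⟩ : ∃ e2, e2 = f2 + 3 * r := ⟨_, rfl⟩
    obtain ⟨e1, he1⟩ : ∃ e1, e1 = f1 + 2 * f2 * r + 3 * r ^ 2 := ⟨_, rfl⟩
    obtain ⟨e0, he0⟩ : ∃ e0, e0 = cu f2 f1 f0 r := ⟨_, rfl⟩
    have hsh : ∀ t, dc (f2 + t * g2) (f1 + t * g1) (f0 + t * g0) = dc (e2 + t * g2) (e1 - t * g2 * k) e0 := by
      intro t
      rw [← dc_shift _ _ _ r, he2, he1, he0]
      congr 1
      · ring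
      · rw [h1]; ring
      · unfold cu; rw [h1, h0]; ring
    obtain ⟨P, hP⟩ : ∃ P : F[X], P = C (g2 ^ 4 * k ^ 2) * X ^ 4 +
        C (2 * e2 * g2 ^ 3 * k ^ 2 - 2 * e1 * g2 ^ 3 * k + 4 * g2 ^ 3 * k ^ 3 - 4 * g2 ^ 3 * e0) * X ^ 3 +
        C (g2 ^ 2 * e1 ^ 2 - 4 * e2 * g2 ^ 2 * e1 * k + e2 ^ 2 * g2 ^ 2 * k ^ 2 - 12 * e1 * g2 ^ 2 * k ^ 2 - 12 * e2 * g2 ^ 2 * e0 - 18 * g2 ^ 2 * k * e0) * X ^ 2 +
        C (2 * e2 * g2 * e1 ^ 2 - 2 * e2 ^ 2 * e1 * g2 * k + 12 * e1 ^ 2 * g2 * k - 12 * e2 ^ 2 * g2 * e0 + 18 * (g2 * e1 - e2 * g2 * k) * e0) * X + C (dc e2 e1 e0) := ⟨_, rfl⟩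
    have hPe : ∀ t, P.eval t = dc (e2 + t * g2) (e1 - t * g2 * k) e0 := by
      intro t; rw [hP]; unfold dc; simp; ring
    have hPd : P.natDegree ≤ 4 := by rw [hP]; compute_degree
    have hP0 : P ≠ 0 := by
      by_cases hk : k = 0
      · have hf' := hf.resolve_left (fun h => h hk)
        by_cases hf0 : cu f2 f1 f0 r = 0
        · intro h
          have h3 : P.coeff 2 = g2 ^ 2 * e1 ^ 2 := by
            rw [hP, coeff_two, hk, he0, hf0]
            ring
          rw [h, coeff_zero] at h3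
          have hf1 := hf'.resolve_left (fun h => h hf0)
          rw [← he1] at hf1
          exact mul_ne_zero (pow_ne_zero 2 hg) (pow_ne_zero 2 hf1) h3.symm
        · intro h
          have h3 : P.coeff 3 = -4 * (g2 ^ 3 * e0) := by
            rw [hP, coeff_three, hk]
            ring
          rw [h, coeff_zero] at h3
          rw [← he0] at hf0
          exact mul_ne_zero (neg_ne_zero.2 (four_ne hF)) (mul_ne_zero (pow_ne_zero 3 hg) hf0) h3.symm
      · intro h
        have h3 : P.coeff 4 = g2 ^ 4 * k ^ 2 := by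
          rw [hP, coeff_four]
        rw [h, coeff_zero] at h3
        exact mul_ne_zero (pow_ne_zero 4 hg) (pow_ne_zero 2 hk) h3.symm
    apply card_zero_le hP0 hPd
    intro t ht
    rw [hPe, ← hsh, ht]

end

end Pool.Agent.D0H53.EB
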