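import Mathlib
import Pool.Agent.D0H53.EB.L4

/-! The logarithm of the local factor: mean and variance over the members of the pencil. -/

set_option autoImplicit false

open Finset Polynomial

namespace Pool.Agent.D0H53.EB

lemma log_two {u : ℝ} (hu : |u| ≤ 1 / 2) : |Real.log (1 + u) - u + u ^ 2 / 2| ≤ 2 * |u| ^ 3 := by
  have h := Real.abs_log_sub_add_sum_range_le (x := -u) (by rw [abs_neg]; linarith) 2
  rw [abs_neg] at h
  have e : ∑ i ∈ range 2, (-u) ^ (i + 1) / ((i:ℝ) + 1) + Real.log (1 - -u) = Real.log (1 + u) - u + u ^ 2 / 2 := by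
    rw [sum_range_succ, sum_range_one, sub_neg_eq_add]
    push_cast
    ring
  rw [e] at h
  refine h.trans ?_
  have h2 : 0 ≤ |u| ^ 3 := by positivity
  rw [div_le_iff₀ (by linarith)]
  have h3 : |u| ^ (2 + 1) = |u| ^ 3 := rfl
  rw [h3]
  nlinarith [mul_nonneg h2 (by linarith : 0 ≤ 1 / 2 - |u|)]

/-- abstract form -/
lemma log_stats {T : Type*} [Fintype T] [DecidableEq T] (S : T → ℝ) (bad : Finset T) {s c : ℝ} (hs : 6 ≤ s) (hT : (Fintype.card T : ℝ) = s ^ 2)
    (h1 : ∑ t, S t = s ^ 2 * c) (h2 : |∑ t, S t ^ 2 - (s ^ 2) ^ 2| ≤ 17 * (s ^ 2 * s)) (h3 : ∀ t, |S t| ≤ 2 * s) (h4 : bad.card ≤ 4)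
    (hc : |c| ≤ 2) {L : T → ℝ} (hL : ∀ t, L t = if t ∈ bad then 0 else Real.log (1 + (1 + S t) / s ^ 2)) :
    (∀ t, |L t| ≤ 6 / s) ∧ |∑ t, L t - (1 / 2 + c)| ≤ 81 / s ∧ |∑ t, L t ^ 2 - 1| ≤ 180 / s := by
  have hs0 : 0 < s := by linarith
  obtain ⟨u, hu⟩ : ∃ u : T → ℝ, u = fun t => (1 + S t) / s ^ 2 := ⟨_, rfl⟩
  have hub : ∀ t, |u t| ≤ 3 / s := by
    intro t
    rw [hu]
    simp only
    rw [abs_div, abs_of_pos (by positivity : 0 < s ^ 2), div_le_div_iff₀ (by positivity) hs0]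
    have h5 := h3 t
    have h6 : |1 + S t| ≤ 1 + 2 * s := by
      rw [abs_le] at h5 ⊢
      constructor <;> linarith [h5.1, h5.2]
    nlinarith [abs_nonneg (1 + S t)]
  have h3s : 3 / s ≤ 1 / 2 := by rw [div_le_div_iff₀ hs0 (by norm_num)]; linarith
  have hu2 : ∀ t, |u t| ≤ 1 / 2 := fun t => (hub t).trans h3s
  have hus : ∀ t, u t ^ 2 ≤ 9 / s ^ 2 := by
    intro t
    rw [← sq_abs]
    calc |u t| ^ 2 ≤ (3 / s) ^ 2 := pow_le_pow_left₀ (abs_nonneg _) (hub t) 2
      _ = 9 / s ^ 2 := by ring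
  have huc : ∀ t, |u t| ^ 3 ≤ 27 / s ^ 3 := by
    intro t
    calc |u t| ^ 3 ≤ (3 / s) ^ 3 := pow_le_pow_left₀ (abs_nonneg _) (hub t) 3
      _ = 27 / s ^ 3 := by ring
  have hg : ∀ t, t ∉ bad → |L t - u t + u t ^ 2 / 2| ≤ 2 * |u t| ^ 3 := by
    intro t ht
    rw [hL, if_neg ht]
    have := log_two (hu2 t)
    rw [hu] at this ⊢
    exact this
  have hg2 : ∀ t, t ∉ bad → |L t - u t| ≤ 3 / 2 * u t ^ 2 := by
    intro t ht
    have h5 := hg t ht
    have h6 : 2 * |u t| ^ 3 ≤ u t ^ 2 := by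
      rw [← sq_abs (u t)]
      nlinarith [sq_nonneg |u t|, hu2 t, abs_nonneg (u t)]
    rw [abs_le] at h5 ⊢
    constructor <;> nlinarith [sq_nonneg (u t), h5.1, h5.2]
  have hg3 : ∀ t, |L t| ≤ 2 * |u t| := by
    intro t
    by_cases ht : t ∈ bad
    · rw [hL, if_pos ht, abs_zero]; positivity
    · have h5 := hg2 t ht
      have h6 : 3 / 2 * u t ^ 2 ≤ |u t| := by
        rw [← sq_abs (u t)]
        nlinarith [hu2 t, abs_nonneg (u t)]
      calc |L t| = |(L t - u t) + u t| := by ring_nf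
        _ ≤ |L t - u t| + |u t| := abs_add_le _ _
        _ ≤ _ := by linarith
  have hsu : ∑ t, u t = 1 + c := by
    rw [hu]
    simp only
    rw [← sum_div, sum_add_distrib, h1, sum_const, card_univ, nsmul_eq_mul, hT]
    field_simp
  have hcard : (bad.card : ℝ) ≤ 4 := by exact_mod_cast h4
  have hsu2 : |∑ t, u t ^ 2 - 1| ≤ 22 / s := by
    have e : ∑ t, u t ^ 2 - 1 = (1 + 2 * c) / s ^ 2 + (∑ t, S t ^ 2 - (s ^ 2) ^ 2) / s ^ 4 := by
      rw [hu]
      simp only
      have e2 : ∀ t, ((1 + S t) / s ^ 2) ^ 2 = (1 + 2 * S t + S t ^ 2) / s ^ 4 := by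
        intro t; rw [div_pow]; ring
      rw [sum_congr rfl fun t _ => e2 t, ← sum_div, sum_add_distrib, sum_add_distrib, ← mul_sum, h1, sum_const, card_univ, nsmul_eq_mul, hT]
      field_simp
      ring
    rw [e]
    calc |(1 + 2 * c) / s ^ 2 + (∑ t, S t ^ 2 - (s ^ 2) ^ 2) / s ^ 4| ≤ |(1 + 2 * c) / s ^ 2| + |(∑ t, S t ^ 2 - (s ^ 2) ^ 2) / s ^ 4| := abs_add_le _ _
      _ ≤ 5 / s + 17 / s := by
        gcongr
        · rw [abs_div, abs_of_pos (by positivity : 0 < s ^ 2), div_le_div_iff₀ (by positivity) hs0]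
          have : |1 + 2 * c| ≤ 5 := by
            rw [abs_le] at hc ⊢
            constructor <;> linarith [hc.1, hc.2]
          nlinarith [abs_nonneg (1 + 2 * c)]
        · rw [abs_div, abs_of_pos (by positivity : 0 < s ^ 4), div_le_div_iff₀ (by positivity) hs0]
          calc |∑ t, S t ^ 2 - (s ^ 2) ^ 2| * s ≤ 17 * (s ^ 2 * s) * s := by gcongr
            _ = 17 * s ^ 4 := by ring
      _ = 22 / s := by ring
  refine ⟨fun t => (hg3 t).trans ?_, ?_, ?_⟩
  · have := hub t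
    calc 2 * |u t| ≤ 2 * (3 / s) := by gcongr
      _ = 6 / s := by ring
  · have e : ∑ t, L t - (1 / 2 + c) = ∑ t, (if t ∈ bad then -(u t - u t ^ 2 / 2) else L t - u t + u t ^ 2 / 2) - (∑ t, u t ^ 2 - 1) / 2 := by
      have e2 : ∀ t, (if t ∈ bad then -(u t - u t ^ 2 / 2) else L t - u t + u t ^ 2 / 2) = L t - u t + u t ^ 2 / 2 := by
        intro t
        by_cases ht : t ∈ bad
        · rw [if_pos ht, hL, if_pos ht]; ring
        · rw [if_neg ht]
      rw [sum_congr rfl fun t _ => e2 t, sum_add_distrib, sum_sub_distrib, hsu, ← sum_div]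
      ring
    have h5 : |∑ t, (if t ∈ bad then -(u t - u t ^ 2 / 2) else L t - u t + u t ^ 2 / 2)| ≤ 70 / s := by
      refine (abs_sum_le_sum_abs _ _).trans ?_
      calc ∑ t, |if t ∈ bad then -(u t - u t ^ 2 / 2) else L t - u t + u t ^ 2 / 2|
          ≤ ∑ t, ((if t ∈ bad then 4 / s else 0) + 54 / s ^ 3) := by
            refine sum_le_sum fun t _ => ?_
            by_cases ht : t ∈ bad
            · rw [if_pos ht, if_pos ht, abs_neg]
              have h6 := hub t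
              have h7 : u t ^ 2 / 2 ≤ |u t| / 4 := by
                rw [← sq_abs (u t)]
                nlinarith [hu2 t, abs_nonneg (u t)]
              have h8 : |u t - u t ^ 2 / 2| ≤ |u t| + |u t| / 4 := by
                calc |u t - u t ^ 2 / 2| ≤ |u t| + |u t ^ 2 / 2| := abs_sub _ _
                  _ ≤ _ := by rw [abs_of_nonneg (by positivity : 0 ≤ u t ^ 2 / 2)]; linarith
              have h9 : 0 ≤ 54 / s ^ 3 := by positivity
              have h10 : 4 / s = 4 / 3 * (3 / s) := by ring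
              have h11 : 0 ≤ 3 / s := by positivity
              rw [h10]
              linarith
            · rw [if_neg ht, if_neg ht, zero_add]
              refine (hg t ht).trans ?_
              calc 2 * |u t| ^ 3 ≤ 2 * (27 / s ^ 3) := by gcongr; exact huc t
                _ = 54 / s ^ 3 := by ring
        _ = (bad.card : ℝ) * (4 / s) + s ^ 2 * (54 / s ^ 3) := by
            rw [sum_add_distrib, sum_const, card_univ, nsmul_eq_mul, hT, sum_ite_mem, univ_inter, sum_const, nsmul_eq_mul]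
        _ ≤ 4 * (4 / s) + s ^ 2 * (54 / s ^ 3) := by gcongr
        _ = 70 / s := by field_simp; norm_num
    rw [e]
    calc |∑ t, (if t ∈ bad then -(u t - u t ^ 2 / 2) else L t - u t + u t ^ 2 / 2) - (∑ t, u t ^ 2 - 1) / 2|
        ≤ |∑ t, (if t ∈ bad then -(u t - u t ^ 2 / 2) else L t - u t + u t ^ 2 / 2)| + |(∑ t, u t ^ 2 - 1) / 2| := abs_sub _ _
      _ ≤ 70 / s + (22 / s) / 2 := by
        rw [abs_div, abs_two]
        gcongr
      _ = 81 / s := by ring
  · have e : ∑ t, L t ^ 2 - 1 = ∑ t, (L t ^ 2 - u t ^ 2) + (∑ t, u t ^ 2 - 1) := by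
      rw [sum_sub_distrib]; ring
    have h5 : |∑ t, (L t ^ 2 - u t ^ 2)| ≤ 158 / s := by
      refine (abs_sum_le_sum_abs _ _).trans ?_
      calc ∑ t, |L t ^ 2 - u t ^ 2| ≤ ∑ t, ((if t ∈ bad then 9 / s ^ 2 else 0) + 122 / s ^ 3) := by
            refine sum_le_sum fun t _ => ?_
            by_cases ht : t ∈ bad
            · rw [if_pos ht, hL, if_pos ht]
              have h9 : 0 ≤ 122 / s ^ 3 := by positivity
              have h10 : |(0:ℝ) ^ 2 - u t ^ 2| = u t ^ 2 := by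
                rw [show (0:ℝ) ^ 2 - u t ^ 2 = -(u t ^ 2) by ring, abs_neg, abs_of_nonneg (sq_nonneg _)]
              rw [h10]
              linarith [hus t]
            · rw [if_neg ht, zero_add]
              have h6 : L t ^ 2 - u t ^ 2 = (L t - u t) * (L t + u t) := by ring
              rw [h6, abs_mul]
              have h7 : |L t + u t| ≤ 3 * |u t| := by
                calc |L t + u t| ≤ |L t| + |u t| := abs_add_le _ _
                  _ ≤ _ := by linarith [hg3 t]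
              calc |L t - u t| * |L t + u t| ≤ (3 / 2 * u t ^ 2) * (3 * |u t|) := by
                    gcongr
                    exact hg2 t ht
                _ = 9 / 2 * |u t| ^ 3 := by rw [← sq_abs (u t)]; ring
                _ ≤ 9 / 2 * (27 / s ^ 3) := by gcongr; exact huc t
                _ ≤ 122 / s ^ 3 := by
                  rw [show (9:ℝ) / 2 * (27 / s ^ 3) = (243 / 2) / s ^ 3 by ring]
                  gcongr
                  norm_num
        _ = (bad.card : ℝ) * (9 / s ^ 2) + s ^ 2 * (122 / s ^ 3) := by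
            rw [sum_add_distrib, sum_const, card_univ, nsmul_eq_mul, hT, sum_ite_mem, univ_inter, sum_const, nsmul_eq_mul]
        _ ≤ 4 * (9 / s ^ 2) + s ^ 2 * (122 / s ^ 3) := by gcongr
        _ ≤ 158 / s := by
          have h6 : 4 * (9 / s ^ 2) ≤ 36 / s := by
            rw [show 4 * (9 / s ^ 2) = 36 / s ^ 2 by ring]
            apply div_le_div_of_nonneg_left (by norm_num) hs0
            nlinarith
          have h7 : s ^ 2 * (122 / s ^ 3) = 122 / s := by field_simp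
          rw [h7, show (158:ℝ) / s = 36 / s + 122 / s by ring]
          linarith
    rw [e]
    calc |∑ t, (L t ^ 2 - u t ^ 2) + (∑ t, u t ^ 2 - 1)| ≤ |∑ t, (L t ^ 2 - u t ^ 2)| + |∑ t, u t ^ 2 - 1| := abs_add_le _ _
      _ ≤ 158 / s + 22 / s := by gcongr
      _ = 180 / s := by ring

section
variable {F : Type*} [Field F] [Fintype F] [DecidableEq F]

/-- the logarithm of the local factor -/
noncomputable def lx (f2 f1 f0 g2 g1 g0 t : F) : ℝ :=
  if dc (f2 + t * g2) (f1 + t * g1) (f0 + t * g0) = 0 then 0 else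
    Real.log (1 + (1 + Sg (cu f2 f1 f0) (qu g2 g1 g0) t) / Fintype.card F)

theorem loc_log {f2 f1 f0 g2 g1 g0 : F} {c : ℝ} (h : Loc f2 f1 f0 g2 g1 g0 c) (hc : |c| ≤ 2) {s : ℝ} (hs : s = √(Fintype.card F)) (h6 : 6 ≤ s) :
    (∀ t, |lx f2 f1 f0 g2 g1 g0 t| ≤ 6 / s) ∧ |(∑ t, lx f2 f1 f0 g2 g1 g0 t) / s ^ 2 - (1 / 2 + c) / s ^ 2| ≤ 81 / s ^ 3 ∧
      |(∑ t, lx f2 f1 f0 g2 g1 g0 t ^ 2) / s ^ 2 - ((∑ t, lx f2 f1 f0 g2 g1 g0 t) / s ^ 2) ^ 2 - 1 / s ^ 2| ≤ 223 / s ^ 3 := by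
  have hs0 : 0 < s := by linarith
  have hT : (Fintype.card F : ℝ) = s ^ 2 := by rw [hs, Real.sq_sqrt (Nat.cast_nonneg _)]
  have h1 := h.first
  have h2 := h.second
  have h3 := h.size
  rw [← hs] at h2 h3
  rw [hT] at h1 h2
  obtain ⟨L, hL⟩ : ∃ L : F → ℝ, L = fun t => lx f2 f1 f0 g2 g1 g0 t := ⟨_, rfl⟩
  have hst := log_stats (fun t => Sg (cu f2 f1 f0) (qu g2 g1 g0) t) (univ.filter fun t : F => dc (f2 + t * g2) (f1 + t * g1) (f0 + t * g0) = 0)
    (L := L) h6 hT h1 h2 h3 h.sing hc (by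
      intro t
      rw [hL]
      unfold lx
      rw [hT]
      simp only [mem_filter, mem_univ, true_and])
  have hLe : ∀ t, lx f2 f1 f0 g2 g1 g0 t = L t := by intro t; rw [hL]
  simp_rw [hLe]
  obtain ⟨hb, hm, hv⟩ := hst
  refine ⟨hb, ?_, ?_⟩
  · rw [← sub_div, abs_div, abs_of_pos (by positivity : 0 < s ^ 2), div_le_div_iff₀ (by positivity) (by positivity)]
    calc |∑ t, L t - (1 / 2 + c)| * s ^ 3 ≤ 81 / s * s ^ 3 := by gcongr
      _ = 81 * s ^ 2 := by field_simp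
  · obtain ⟨m, hmd⟩ : ∃ m, m = ∑ t, L t := ⟨_, rfl⟩
    rw [← hmd] at hm ⊢
    have hm16 : |m| ≤ 16 := by
      have h5 : 81 / s ≤ 27 / 2 := by rw [div_le_div_iff₀ hs0 (by norm_num)]; linarith
      rw [abs_le] at hm hc ⊢
      constructor <;> linarith [hm.1, hm.2, hc.1, hc.2]
    have e : (∑ t, L t ^ 2) / s ^ 2 - (m / s ^ 2) ^ 2 - 1 / s ^ 2 = (∑ t, L t ^ 2 - 1) / s ^ 2 - m ^ 2 / s ^ 4 := by
      field_simp
      ring
    rw [e]
    calc |(∑ t, L t ^ 2 - 1) / s ^ 2 - m ^ 2 / s ^ 4| ≤ |(∑ t, L t ^ 2 - 1) / s ^ 2| + |m ^ 2 / s ^ 4| := abs_sub _ _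
      _ ≤ 180 / s ^ 3 + 43 / s ^ 3 := by
        gcongr
        · rw [abs_div, abs_of_pos (by positivity : 0 < s ^ 2), div_le_div_iff₀ (by positivity) (by positivity)]
          calc |∑ t, L t ^ 2 - 1| * s ^ 3 ≤ 180 / s * s ^ 3 := by gcongr
            _ = 180 * s ^ 2 := by field_simp
        · rw [abs_of_nonneg (by positivity), div_le_div_iff₀ (by positivity) (by positivity)]
          have h7 : m ^ 2 ≤ 256 := by rw [← sq_abs]; nlinarith [abs_nonneg m]
          have h8 : 0 < s ^ 3 := by positivity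
          have h9 : 256 ≤ 43 * s := by linarith
          calc m ^ 2 * s ^ 3 ≤ 256 * s ^ 3 := by gcongr
            _ ≤ (43 * s) * s ^ 3 := by gcongr
            _ = 43 * s ^ 4 := by ring
      _ = 223 / s ^ 3 := by ring

end

end Pool.Agent.D0H53.EB
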