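import Mathlib
import Pool.Agent.D0H53.EB.L5
import Pool.Agent.D0H53.EB.E5
import Pool.Agent.H474R2.GE.FA

/-! Sums of quadratic symbols over blocks of primes. -/

set_option autoImplicit false

open Finset Polynomial

namespace Pool.Agent.D0H53.EB

/-- the quadratic symbol of `m` at `p`, as a real number -/
noncomputable def kr (m : ℤ) (p : ℕ) : ℝ := ((jacobiSym m p : ℤ) : ℝ)

lemma kr_eq (m : ℤ) (p : ℕ) [Fact p.Prime] : kr m p = ch (m : ZMod p) := by
  unfold kr ch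
  rw [← jacobiSym.legendreSym.to_jacobiSym]
  rfl

lemma abs_kr_le (m : ℤ) (p : ℕ) : |kr m p| ≤ 1 := by
  unfold kr
  rcases jacobiSym.trichotomy m p with h | h | h <;> rw [h] <;> simp

lemma sum_blk_finite_le (P S : Finset ℕ) (e : ℕ → ℝ) (B : ℝ) (hB : 0 ≤ B) (h1 : ∀ p ∈ P, p ∉ S → e p = 0) (h2 : ∀ p ∈ P, |e p| ≤ B) :
    |∑ p ∈ P, e p| ≤ S.card * B := by
  refine (abs_sum_le_sum_abs _ _).trans ?_
  calc ∑ p ∈ P, |e p| ≤ ∑ p ∈ P, (if p ∈ S then B else 0) := by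
        refine sum_le_sum fun p hp => ?_
        by_cases hS : p ∈ S
        · rw [if_pos hS]; exact h2 p hp
        · rw [if_neg hS, h1 p hp hS, abs_zero]
    _ = ((P.filter (· ∈ S)).card : ℝ) * B := by
        rw [← sum_filter, sum_const, nsmul_eq_mul]
    _ ≤ S.card * B := by
        gcongr
        intro p hp
        exact (mem_filter.1 hp).2

/-- squares -/
lemma kr_square {m : ℤ} (hm : m ≠ 0) (hsq : IsSquare m) : ∃ C : ℝ, 0 ≤ C ∧ ∀ a b : ℕ, 3 ≤ a → a ≤ b →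
    |∑ p ∈ blk a b, kr m p / p - (LL b - LL a)| ≤ C := by
  obtain ⟨C, hC, h⟩ := mertens_blk
  obtain ⟨n, hn⟩ := hsq
  have hn0 : n ≠ 0 := by rintro rfl; simp at hn; exact hm hn
  refine ⟨m.natAbs.primeFactors.card * 1 + C, by positivity, fun a b ha hab => ?_⟩
  have e : ∑ p ∈ blk a b, kr m p / p - (LL b - LL a) = ∑ p ∈ blk a b, (kr m p - 1) / p + (∑ p ∈ blk a b, (1:ℝ) / p - (LL b - LL a)) := by
    simp_rw [sub_div]
    rw [sum_sub_distrib]; ring
  rw [e]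
  refine (abs_add_le _ _).trans (add_le_add ?_ (h a b ha hab))
  apply sum_blk_finite_le _ _ _ _ zero_le_one
  · intro p hp hpm
    rw [mem_blk] at hp
    have : Fact p.Prime := ⟨hp.2⟩
    have hpm' : ¬ (p:ℤ) ∣ m := by
      intro hd
      apply hpm
      rw [Nat.mem_primeFactors]
      exact ⟨hp.2, Int.natCast_dvd.1 hd, Int.natAbs_ne_zero.2 hm⟩
    have h2 : (n : ZMod p) ≠ 0 := by
      intro h2
      apply hpm'
      rw [ZMod.intCast_zmod_eq_zero_iff_dvd] at h2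
      rw [hn]
      exact h2.mul_right n
    rw [kr_eq, hn]
    push_cast
    rw [← sq, ch_of_sq h2]
    simp
  · intro p hp
    rw [mem_blk] at hp
    have : Fact p.Prime := ⟨hp.2⟩
    have hp1 : (2:ℝ) ≤ p := by exact_mod_cast hp.2.two_le
    rw [abs_div, abs_of_nonneg (by linarith : (0:ℝ) ≤ p), div_le_one (by linarith)]
    calc |kr m p - 1| ≤ |kr m p| + |1| := abs_sub _ _
      _ ≤ 1 + 1 := by
        rw [abs_one]
        linarith [abs_kr_le m p]
      _ ≤ p := by linarith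

lemma irr_of_not_square {m : ℤ} (h : ¬ IsSquare m) : Irreducible (X ^ 2 - C m : ℤ[X]) := by
  have hmon : (X ^ 2 - C m : ℤ[X]).Monic := monic_X_pow_sub_C m two_ne_zero
  have hd : (X ^ 2 - C m : ℤ[X]).natDegree = 2 := natDegree_X_pow_sub_C
  rw [hmon.irreducible_iff_roots_eq_zero_of_degree_le_three (by rw [hd]) (by rw [hd]; norm_num)]
  rw [Multiset.eq_zero_iff_forall_notMem]
  intro a ha
  rw [mem_roots hmon.ne_zero] at ha
  apply h
  refine ⟨a, ?_⟩
  have : a ^ 2 - m = 0 := by simpa using ha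
  linarith [sq a]

/-- non-squares -/
lemma kr_nonsquare {m : ℤ} (hsq : ¬ IsSquare m) : ∃ C : ℝ, 0 ≤ C ∧ ∀ a b : ℕ, 3 ≤ a → a ≤ b →
    |∑ p ∈ blk a b, kr m p / p| ≤ C := by
  obtain ⟨C, hC, h⟩ := mertens_blk
  obtain ⟨D, hD, hr⟩ := Pool.Agent.H474R2.GE.mertens_rho (X ^ 2 - Polynomial.C m) (irr_of_not_square hsq) (by
    rw [natDegree_X_pow_sub_C]; norm_num)
  refine ⟨2 * D + C, by positivity, fun a b ha hab => ?_⟩
  have hrho : ∀ p ∈ blk a b, (Pool.Agent.H474R2.PG.rho (X ^ 2 - Polynomial.C m) p : ℝ) = 1 + kr m p := by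
    intro p hp
    rw [mem_blk] at hp
    have : Fact p.Prime := ⟨hp.2⟩
    have hp2 : ringChar (ZMod p) ≠ 2 := by
      rw [ZMod.ringChar_zmod_n]; omega
    rw [kr_eq, ← card_sqrt hp2]
    norm_cast
    unfold Pool.Agent.H474R2.PG.rho
    apply card_bij' (fun (x : ℕ) _ => (x : ZMod p)) (fun (z : ZMod p) _ => z.val)
    · intro x hx
      rw [mem_filter] at hx ⊢
      refine ⟨mem_univ _, ?_⟩
      have h1 := hx.2
      rw [← ZMod.intCast_zmod_eq_zero_iff_dvd] at h1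
      simp at h1
      linear_combination h1
    · intro z hz
      rw [mem_filter] at hz ⊢
      refine ⟨mem_range.2 (ZMod.val_lt z), ?_⟩
      rw [← ZMod.intCast_zmod_eq_zero_iff_dvd]
      simp
      rw [hz.2, sub_self]
    · intro x hx
      rw [mem_filter, mem_range] at hx
      exact ZMod.val_cast_of_lt hx.1
    · intro z _
      exact ZMod.natCast_zmod_val z
  have hsplit : ∀ g : ℕ → ℝ, ∑ p ∈ (Finset.Icc 1 b).filter Nat.Prime, g p = ∑ p ∈ (Finset.Icc 1 a).filter Nat.Prime, g p + ∑ p ∈ blk a b, g p := by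
    intro g
    rw [← sum_union]
    · congr 1
      ext p
      rw [mem_union, mem_blk, mem_filter, mem_filter, mem_Icc, mem_Icc]
      constructor
      · rintro ⟨⟨h1, h2⟩, h3⟩
        rcases le_or_gt p a with h4 | h4
        · exact Or.inl ⟨⟨h1, h4⟩, h3⟩
        · exact Or.inr ⟨⟨h4, h2⟩, h3⟩
      · rintro (⟨⟨h1, h2⟩, h3⟩ | ⟨⟨h1, h2⟩, h3⟩)
        · exact ⟨⟨h1, h2.trans hab⟩, h3⟩
        · exact ⟨⟨h3.one_le, h2⟩, h3⟩
    · rw [disjoint_left]
      intro p hp hp'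
      rw [mem_blk] at hp'
      rw [mem_filter, mem_Icc] at hp
      omega
  have h1 := hr a (by exact_mod_cast ha)
  have h2 := hr b (by exact_mod_cast ha.trans hab)
  unfold Pool.Agent.H474R2.PG.Sg Pool.Agent.H474R2.PG.PR at h1 h2
  rw [Nat.floor_natCast] at h1 h2
  rw [hsplit] at h2
  have h3 := h a b ha hab
  have e : ∑ p ∈ blk a b, (Pool.Agent.H474R2.PG.rho (X ^ 2 - Polynomial.C m) p : ℝ) / p = ∑ p ∈ blk a b, (1:ℝ) / p + ∑ p ∈ blk a b, kr m p / p := by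
    rw [← sum_add_distrib]
    refine sum_congr rfl fun p hp => ?_
    rw [hrho p hp]; ring
  rw [e] at h2
  unfold LL at h3
  rw [abs_le] at h1 h2 h3 ⊢
  constructor <;> linarith [h1.1, h1.2, h2.1, h2.2, h3.1, h3.2]

/-- all cases -/
lemma kr_blk (m : ℤ) : ∃ C : ℝ, 0 ≤ C ∧ ∀ a b : ℕ, 3 ≤ a → a ≤ b →
    |∑ p ∈ blk a b, kr m p / p - (if m ≠ 0 ∧ IsSquare m then (1:ℝ) else 0) * (LL b - LL a)| ≤ C := by
  by_cases hm : m = 0
  · refine ⟨0, le_rfl, fun a b _ _ => ?_⟩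
    rw [if_neg (fun h => h.1 hm), zero_mul, sub_zero, sum_eq_zero, abs_zero]
    intro p hp
    rw [mem_blk] at hp
    have : Fact p.Prime := ⟨hp.2⟩
    rw [kr_eq, hm]
    simp
  by_cases hsq : IsSquare m
  · obtain ⟨C, hC, h⟩ := kr_square hm hsq
    refine ⟨C, hC, fun a b ha hab => ?_⟩
    rw [if_pos ⟨hm, hsq⟩, one_mul]
    exact h a b ha hab
  · obtain ⟨C, hC, h⟩ := kr_nonsquare hsq
    refine ⟨C, hC, fun a b ha hab => ?_⟩
    rw [if_neg (fun h => hsq h.2), zero_mul, sub_zero]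
    exact h a b ha hab

end Pool.Agent.D0H53.EB
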