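import Mathlib
import Pool.Agent.D0H53.EB.L6

/-! From the local statistics to the family. -/

set_option autoImplicit false

open Finset Polynomial

namespace Pool.Agent.D0H53.EB

/-- the family, from the local statistics, with a set `E` of exceptional primes -/
theorem fam_of : ∃ K₀ : ℝ, 0 ≤ K₀ ∧ ∀ (X : ℕ → ℤ → ℝ) (c : ℕ → ℝ) (E : Finset ℕ) (r D M C' : ℝ), 6 ≤ D → 0 ≤ C' →
    (∀ p, p.Prime → Per p (X p)) → (∀ p, |c p| ≤ 2) →
    (∀ p, p.Prime → ∀ z, |X p z| ≤ D / √p) →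
    (∀ p ∈ E, |av p 0 (X p)| ≤ D / p) →
    (∑ p ∈ E, (1:ℝ) / p ≤ M) →
    (∀ p, p.Prime → p ∉ E → |av p 0 (X p) - (1 / 2 + c p) / p| ≤ 81 / √p ^ 3) →
    (∀ p, p.Prime → p ∉ E → |av p 0 (fun z => X p z ^ 2) - (av p 0 (X p)) ^ 2 - 1 / p| ≤ 223 / √p ^ 3) →
    (∀ a b : ℕ, 3 ≤ a → a ≤ b → |∑ p ∈ blk a b, c p / p - r * (LL b - LL a)| ≤ C') →
    Fam (K₀ + C' + (3 + D ^ 2 + D) * (M + 1)) (r + 1 / 2) X := by
  obtain ⟨C0, hC0, hMer⟩ := mertens_blk
  obtain ⟨Z, hZ, hZs⟩ := sum_rpow_blk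
  refine ⟨223 * Z + C0, by positivity, ?_⟩
  intro X c E r D M C' hD hC' hper hc hbd hE hM hmean hvar hcs
  have hM0 : 0 ≤ M := (sum_nonneg fun p _ => by positivity).trans hM
  have hD0 : 0 < D := by linarith
  have hEb : ∀ P : Finset ℕ, ∀ e : ℕ → ℝ, ∀ B : ℝ, 0 ≤ B → (∀ p ∈ P, p ∈ E → |e p| ≤ B / p) → ∑ p ∈ P, (if p ∈ E then |e p| else 0) ≤ B * M := by
    intro P e B hB h
    calc ∑ p ∈ P, (if p ∈ E then |e p| else 0) ≤ ∑ p ∈ P, (if p ∈ E then B * (1 / (p:ℝ)) else 0) := by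
          refine sum_le_sum fun p hp => ?_
          by_cases hpE : p ∈ E
          · rw [if_pos hpE, if_pos hpE]
            refine (h p hp hpE).trans (le_of_eq ?_)
            ring
          · rw [if_neg hpE, if_neg hpE]
      _ = ∑ p ∈ P.filter (· ∈ E), B * (1 / (p:ℝ)) := by rw [sum_filter]
      _ ≤ ∑ p ∈ E, B * (1 / (p:ℝ)) := by
          apply sum_le_sum_of_subset_of_nonneg
          · intro p hp; exact (mem_filter.1 hp).2
          · intro p _ _; positivity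
      _ = B * ∑ p ∈ E, (1 / (p:ℝ)) := by rw [mul_sum]
      _ ≤ B * M := by gcongr
  have hsq : ∀ p : ℕ, (√(p:ℝ)) ^ 2 = p := fun p => Real.sq_sqrt (Nat.cast_nonneg p)
  have hvE : ∀ p, p.Prime → |av p 0 (fun z => X p z ^ 2) - (av p 0 (X p)) ^ 2| ≤ D ^ 2 / p := by
    intro p hp
    have hp0 : 0 < p := hp.pos
    have h1 : av p 0 (fun z => X p z ^ 2) ≤ D ^ 2 / p := by
      calc av p 0 (fun z => X p z ^ 2) ≤ av p 0 (fun _ => D ^ 2 / (p:ℝ)) := by
            apply av_mono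
            intro z
            rw [← sq_abs]
            calc |X p z| ^ 2 ≤ (D / √p) ^ 2 := pow_le_pow_left₀ (abs_nonneg _) (hbd p hp z) 2
              _ = D ^ 2 / p := by rw [div_pow, hsq]
        _ = _ := av_const hp0 0 _
    have h2 : (av p 0 (X p)) ^ 2 ≤ av p 0 (fun z => X p z ^ 2) := by
      unfold av
      rw [smul_eq_mul, smul_eq_mul, mul_pow]
      have h3 := sq_sum_le_card_mul_sum_sq (s := range p) (f := fun i => X p (0 + i))
      rw [card_range] at h3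
      have hpr : (0:ℝ) < p := by exact_mod_cast hp0
      calc ((p:ℝ)⁻¹) ^ 2 * (∑ i ∈ range p, X p (0 + i)) ^ 2 ≤ ((p:ℝ)⁻¹) ^ 2 * (p * ∑ i ∈ range p, X p (0 + i) ^ 2) := by gcongr
        _ = (p:ℝ)⁻¹ * ∑ i ∈ range p, X p (0 + i) ^ 2 := by field_simp
    have h4 : 0 ≤ (av p 0 (X p)) ^ 2 := sq_nonneg _
    rw [abs_le]
    constructor
    · have : 0 ≤ D ^ 2 / (p:ℝ) := by positivity
      linarith
    · linarith
  have hZb : ∀ P : Finset ℕ, ∀ e : ℕ → ℝ, ∀ B : ℝ, 0 ≤ B → (∀ p ∈ P, p ∉ E → |e p| ≤ B / √p ^ 3) → ∑ p ∈ P, (if p ∈ E then 0 else |e p|) ≤ B * Z := by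
    intro P e B hB h
    calc ∑ p ∈ P, (if p ∈ E then 0 else |e p|) ≤ ∑ p ∈ P, B * (1 / √(p:ℝ)) ^ 3 := by
          refine sum_le_sum fun p hp => ?_
          by_cases hpE : p ∈ E
          · rw [if_pos hpE]; positivity
          · rw [if_neg hpE]
            refine (h p hp hpE).trans (le_of_eq ?_)
            rw [div_pow, one_pow, mul_one_div]
      _ = B * ∑ p ∈ P, (1 / √(p:ℝ)) ^ 3 := by rw [mul_sum]
      _ ≤ B * Z := by gcongr; exact hZs P
  have hsplit : ∀ P : Finset ℕ, ∀ e : ℕ → ℝ, |∑ p ∈ P, e p| ≤ ∑ p ∈ P, (if p ∈ E then |e p| else 0) + ∑ p ∈ P, (if p ∈ E then 0 else |e p|) := by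
    intro P e
    rw [← sum_add_distrib]
    refine (abs_sum_le_sum_abs _ _).trans (sum_le_sum fun p _ => ?_)
    by_cases hpE : p ∈ E
    · rw [if_pos hpE, if_pos hpE, add_zero]
    · rw [if_neg hpE, if_neg hpE, zero_add]
  have hDM : D ≤ (3 + D ^ 2 + D) * (M + 1) := by nlinarith [sq_nonneg D, mul_nonneg hD0.le hM0, mul_nonneg (sq_nonneg D) hM0]
  constructor
  · exact hper
  · intro p hp z
    refine (hbd p hp z).trans ?_
    have : 0 ≤ √(p:ℝ) := Real.sqrt_nonneg _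
    gcongr
    have : 0 ≤ 223 * Z + C0 := by positivity
    linarith
  · intro a b ha hab
    have e : ∑ p ∈ blk a b, av p 0 (X p) - (r + 1 / 2) * (LL b - LL a) =
        ∑ p ∈ blk a b, (av p 0 (X p) - (1 / 2 + c p) / p) + (∑ p ∈ blk a b, c p / p - r * (LL b - LL a)) +
          1 / 2 * (∑ p ∈ blk a b, (1:ℝ) / p - (LL b - LL a)) := by
      rw [sum_sub_distrib]
      have : ∑ p ∈ blk a b, (1 / 2 + c p) / (p:ℝ) = 1 / 2 * ∑ p ∈ blk a b, (1:ℝ) / p + ∑ p ∈ blk a b, c p / p := by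
        rw [mul_sum, ← sum_add_distrib]
        refine sum_congr rfl fun p _ => ?_
        ring
      rw [this]; ring
    have h1 := hsplit (blk a b) (fun p => av p 0 (X p) - (1 / 2 + c p) / p)
    have h2 := hEb (blk a b) (fun p => av p 0 (X p) - (1 / 2 + c p) / p) (D + 5 / 2) (by positivity) (by
      intro p hp hpE
      have hp1 : (0:ℝ) < p := by
        have := (mem_blk.1 hp).2.pos
        exact_mod_cast this
      have h3 : |(1 / 2 + c p) / (p:ℝ)| ≤ (5 / 2) / p := by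
        rw [abs_div, abs_of_pos hp1]
        gcongr
        have := hc p
        rw [abs_le] at this ⊢
        constructor <;> linarith [this.1, this.2]
      calc |av p 0 (X p) - (1 / 2 + c p) / p| ≤ |av p 0 (X p)| + |(1 / 2 + c p) / (p:ℝ)| := abs_sub _ _
        _ ≤ D / p + (5 / 2) / p := add_le_add (hE p hpE) h3
        _ = (D + 5 / 2) / p := by ring)
    have h4 := hZb (blk a b) (fun p => av p 0 (X p) - (1 / 2 + c p) / p) 81 (by norm_num) (fun p hp hpE => hmean p (mem_blk.1 hp).2 hpE)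
    have h5 := hcs a b ha hab
    have h6 := hMer a b ha hab
    rw [e]
    have h7 : |1 / 2 * (∑ p ∈ blk a b, (1:ℝ) / p - (LL b - LL a))| ≤ C0 := by
      rw [abs_mul, abs_of_pos (by norm_num : (0:ℝ) < 1 / 2)]
      have := abs_nonneg (∑ p ∈ blk a b, (1:ℝ) / p - (LL b - LL a))
      linarith
    have h8 : (D + 5 / 2) * M ≤ (3 + D ^ 2 + D) * (M + 1) := by
      nlinarith [sq_nonneg D, mul_nonneg hD0.le hM0, mul_nonneg (sq_nonneg D) hM0]
    have h9 : |∑ p ∈ blk a b, (av p 0 (X p) - (1 / 2 + c p) / p) + (∑ p ∈ blk a b, c p / p - r * (LL b - LL a)) +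
          1 / 2 * (∑ p ∈ blk a b, (1:ℝ) / p - (LL b - LL a))| ≤
        |∑ p ∈ blk a b, (av p 0 (X p) - (1 / 2 + c p) / p)| + |∑ p ∈ blk a b, c p / p - r * (LL b - LL a)| +
          |1 / 2 * (∑ p ∈ blk a b, (1:ℝ) / p - (LL b - LL a))| := by
      refine (abs_add_le _ _).trans ?_
      gcongr
      exact abs_add_le _ _
    refine h9.trans ?_
    have h10 : 81 * Z ≤ 223 * Z := by linarith
    linarith
  · intro a b ha hab
    have e : ∑ p ∈ blk a b, (av p 0 (fun z => X p z ^ 2) - (av p 0 (X p)) ^ 2) - (LL b - LL a) =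
        ∑ p ∈ blk a b, (av p 0 (fun z => X p z ^ 2) - (av p 0 (X p)) ^ 2 - 1 / p) + (∑ p ∈ blk a b, (1:ℝ) / p - (LL b - LL a)) := by
      rw [sum_sub_distrib (f := fun p => av p 0 (fun z => X p z ^ 2) - (av p 0 (X p)) ^ 2) (g := fun p : ℕ => 1 / (p:ℝ))]
      ring
    have h1 := hsplit (blk a b) (fun p => av p 0 (fun z => X p z ^ 2) - (av p 0 (X p)) ^ 2 - 1 / p)
    have h2 := hEb (blk a b) (fun p => av p 0 (fun z => X p z ^ 2) - (av p 0 (X p)) ^ 2 - 1 / p) (D ^ 2 + 1) (by positivity) (by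
      intro p hp hpE
      have hp1 : (0:ℝ) < p := by
        have := (mem_blk.1 hp).2.pos
        exact_mod_cast this
      have h3 : |(1:ℝ) / p| = 1 / p := abs_of_nonneg (by positivity)
      calc |av p 0 (fun z => X p z ^ 2) - (av p 0 (X p)) ^ 2 - 1 / p| ≤ |av p 0 (fun z => X p z ^ 2) - (av p 0 (X p)) ^ 2| + |(1:ℝ) / p| := abs_sub _ _
        _ ≤ D ^ 2 / p + 1 / p := by rw [h3]; gcongr; exact hvE p (mem_blk.1 hp).2
        _ = (D ^ 2 + 1) / p := by ring)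
    have h4 := hZb (blk a b) (fun p => av p 0 (fun z => X p z ^ 2) - (av p 0 (X p)) ^ 2 - 1 / p) 223 (by norm_num)
      (fun p hp hpE => hvar p (mem_blk.1 hp).2 hpE)
    have h6 := hMer a b ha hab
    rw [e]
    have h8 : (D ^ 2 + 1) * M ≤ (3 + D ^ 2 + D) * (M + 1) := by
      nlinarith [sq_nonneg D, mul_nonneg hD0.le hM0, mul_nonneg (sq_nonneg D) hM0]
    refine (abs_add_le _ _).trans ?_
    linarith

/-- number of points of `y² = h(x)` modulo `p`, with the point at infinity -/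
def pts (h : ℤ[X]) (p : ℕ) : ℕ :=
  ((range p ×ˢ range p).filter (fun q : ℕ × ℕ => (p : ℤ) ∣ (q.2 : ℤ) ^ 2 - h.eval (q.1 : ℤ))).card + 1

/-- discriminant of the monic cubic -/
def dsc (h : ℤ[X]) : ℤ := h.coeff 2 ^ 2 * h.coeff 1 ^ 2 - 4 * h.coeff 1 ^ 3 - 4 * h.coeff 2 ^ 3 * h.coeff 0 - 27 * h.coeff 0 ^ 2 +
  18 * h.coeff 2 * h.coeff 1 * h.coeff 0

/-- logarithm of the local factor -/
noncomputable def XX (f g : ℤ[X]) (p : ℕ) (t : ℤ) : ℝ :=
  if (p:ℤ) ∣ 16 * dsc (f + C t * g) then 0 else Real.log ((pts (f + C t * g) p : ℝ) / p)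

lemma card_sqrt_range (p : ℕ) [Fact p.Prime] (hp2 : p ≠ 2) (m : ℤ) :
    (((range p).filter (fun y : ℕ => (p:ℤ) ∣ (y:ℤ) ^ 2 - m)).card : ℝ) = 1 + ch (m : ZMod p) := by
  have hF : ringChar (ZMod p) ≠ 2 := by rw [ZMod.ringChar_zmod_n]; exact hp2
  rw [← card_sqrt hF]
  norm_cast
  apply card_bij' (fun (x : ℕ) _ => (x : ZMod p)) (fun (z : ZMod p) _ => z.val)
  · intro x hx
    rw [mem_filter] at hx ⊢
    refine ⟨mem_univ _, ?_⟩
    have h1 := hx.2
    rw [← ZMod.intCast_zmod_eq_zero_iff_dvd] at h1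
    simp at h1
    linear_combination h1
  · intro z hz
    rw [mem_filter] at hz ⊢
    refine ⟨mem_range.2 (ZMod.val_lt z), ?_⟩
    rw [← ZMod.intCast_zmod_eq_zero_iff_dvd]
    simp
    rw [hz.2, sub_self]
  · intro x hx
    rw [mem_filter, mem_range] at hx
    exact ZMod.val_cast_of_lt hx.1
  · intro z _
    exact ZMod.natCast_zmod_val z

lemma pts_eq (p : ℕ) [Fact p.Prime] (hp2 : p ≠ 2) (h : ℤ[X]) (H : ZMod p → ZMod p) (hH : ∀ x : ℕ, ((h.eval (x:ℤ) : ℤ) : ZMod p) = H x) :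
    (pts h p : ℝ) = 1 + p + ∑ z : ZMod p, ch (H z) := by
  unfold pts
  have h1 : ((range p ×ˢ range p).filter (fun q : ℕ × ℕ => (p : ℤ) ∣ (q.2 : ℤ) ^ 2 - h.eval (q.1 : ℤ))).card =
      ∑ x ∈ range p, ((range p).filter (fun y : ℕ => (p:ℤ) ∣ (y:ℤ) ^ 2 - h.eval (x:ℤ))).card := by
    rw [card_filter, sum_product]
    refine sum_congr rfl fun x _ => ?_
    rw [card_filter]
  rw [h1]
  push_cast
  rw [sum_congr rfl fun (x : ℕ) _ => card_sqrt_range p hp2 (h.eval (x:ℤ)), sum_add_distrib, sum_const, card_range, nsmul_eq_mul, mul_one]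
  have h2 : ∑ x ∈ range p, ch ((h.eval (x:ℤ) : ℤ) : ZMod p) = ∑ z : ZMod p, ch (H z) := by
    rw [← sum_window (M := p) (fun z => ch (H z)) 0]
    refine sum_congr rfl fun x _ => ?_
    rw [hH x]
    simp
  rw [h2]; ring

section
variable {f g : ℤ[X]}

lemma coeff_member (t : ℤ) (i : ℕ) : (f + C t * g).coeff i = f.coeff i + t * g.coeff i := by
  rw [coeff_add, coeff_C_mul]

lemma eval_cubic (hf : f.Monic) (hf3 : f.natDegree = 3) (x : ℤ) : f.eval x = x ^ 3 + f.coeff 2 * x ^ 2 + f.coeff 1 * x + f.coeff 0 := by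
  rw [eval_eq_sum_range, hf3]
  have h3 : f.coeff 3 = 1 := by rw [← hf3]; exact hf
  simp only [sum_range_succ, sum_range_zero, h3]
  ring

lemma eval_quad (hg : g.natDegree ≤ 2) (x : ℤ) : g.eval x = g.coeff 2 * x ^ 2 + g.coeff 1 * x + g.coeff 0 := by
  rw [eval_eq_sum_range' (Nat.lt_succ_of_le hg)]
  simp only [sum_range_succ, sum_range_zero]
  ring

/-- the logarithm of the local factor, on the residue field -/
lemma XX_eq (hf : f.Monic) (hf3 : f.natDegree = 3) (hg : g.natDegree ≤ 2) (p : ℕ) [Fact p.Prime] (hp2 : p ≠ 2) (t : ℤ) :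
    XX f g p t = lx (f.coeff 2 : ZMod p) (f.coeff 1 : ZMod p) (f.coeff 0 : ZMod p) (g.coeff 2 : ZMod p) (g.coeff 1 : ZMod p)
      (g.coeff 0 : ZMod p) (t : ZMod p) := by
  have hp : p.Prime := Fact.out
  have hp0 : (p:ℝ) ≠ 0 := by exact_mod_cast hp.ne_zero
  have hcop : IsCoprime (p:ℤ) 16 := by
    have h2 : Nat.Coprime p 16 := by
      rw [show (16:ℕ) = 2 ^ 4 by norm_num]
      exact Nat.Coprime.pow_right 4 ((Nat.coprime_primes hp Nat.prime_two).2 hp2)
    exact_mod_cast Nat.isCoprime_iff_coprime.2 h2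
  have hd : (p:ℤ) ∣ 16 * dsc (f + C t * g) ↔ dc ((f.coeff 2 : ZMod p) + (t : ZMod p) * (g.coeff 2 : ZMod p)) ((f.coeff 1 : ZMod p) + (t : ZMod p) * (g.coeff 1 : ZMod p))
      ((f.coeff 0 : ZMod p) + (t : ZMod p) * (g.coeff 0 : ZMod p)) = 0 := by
    have h1 : (p:ℤ) ∣ 16 * dsc (f + C t * g) ↔ (p:ℤ) ∣ dsc (f + C t * g) := ⟨fun h => hcop.dvd_of_dvd_mul_left h, fun h => h.mul_left 16⟩
    rw [h1, ← ZMod.intCast_zmod_eq_zero_iff_dvd]
    unfold dsc dc
    simp only [coeff_member]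
    push_cast
    rfl
  unfold XX lx
  by_cases h0 : (p:ℤ) ∣ 16 * dsc (f + C t * g)
  · rw [if_pos h0, if_pos (hd.1 h0)]
  · rw [if_neg h0, if_neg (fun h => h0 (hd.2 h))]
    rw [pts_eq p hp2 (f + C t * g) (fun x => cu (f.coeff 2 : ZMod p) (f.coeff 1 : ZMod p) (f.coeff 0 : ZMod p) x +
      (t : ZMod p) * qu (g.coeff 2 : ZMod p) (g.coeff 1 : ZMod p) (g.coeff 0 : ZMod p) x) (by
        intro x
        rw [eval_add, eval_mul, eval_C, eval_cubic hf hf3, eval_quad hg]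
        unfold cu qu
        push_cast
        rfl)]
    congr 1
    rw [ZMod.card]
    unfold Sg
    field_simp
    ring

lemma XX_two (t : ℤ) : XX f g 2 t = 0 := by
  unfold XX
  rw [if_pos]
  exact (by norm_num : (2:ℤ) ∣ 16).mul_right _

lemma XX_per (hf : f.Monic) (hf3 : f.natDegree = 3) (hg : g.natDegree ≤ 2) (p : ℕ) (hp : p.Prime) : Per p (XX f g p) := by
  intro z
  by_cases hp2 : p = 2
  · subst hp2
    rw [XX_two, XX_two]
  · have : Fact p.Prime := ⟨hp⟩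
    rw [XX_eq hf hf3 hg p hp2, XX_eq hf hf3 hg p hp2]
    simp

lemma av_XX (hf : f.Monic) (hf3 : f.natDegree = 3) (hg : g.natDegree ≤ 2) (p : ℕ) [Fact p.Prime] (hp2 : p ≠ 2) (φ : ℝ → ℝ) :
    av p 0 (fun z => φ (XX f g p z)) = (∑ z : ZMod p, φ (lx (f.coeff 2 : ZMod p) (f.coeff 1 : ZMod p) (f.coeff 0 : ZMod p) (g.coeff 2 : ZMod p)
      (g.coeff 1 : ZMod p) (g.coeff 0 : ZMod p) z)) / p := by
  unfold av
  rw [← sum_window (M := p) (fun z => φ (lx (f.coeff 2 : ZMod p) (f.coeff 1 : ZMod p) (f.coeff 0 : ZMod p) (g.coeff 2 : ZMod p)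
      (g.coeff 1 : ZMod p) (g.coeff 0 : ZMod p) z)) 0, smul_eq_mul, inv_mul_eq_div]
  congr 1
  refine sum_congr rfl fun i _ => ?_
  show φ (XX f g p (0 + (i:ℤ))) = _
  rw [XX_eq hf hf3 hg p hp2]

/-- trivial bound -/
lemma XX_le (p : ℕ) (hp : p.Prime) (t : ℤ) : |XX f g p t| ≤ p := by
  unfold XX
  have hp1 : (1:ℝ) < p := by exact_mod_cast hp.one_lt
  split_ifs
  · rw [abs_zero]; linarith
  · have h1 : (1:ℝ) ≤ pts (f + C t * g) p := by
      unfold pts
      push_cast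
      have : (0:ℝ) ≤ ((range p ×ˢ range p).filter (fun q : ℕ × ℕ => (p : ℤ) ∣ (q.2 : ℤ) ^ 2 - (f + C t * g).eval (q.1 : ℤ))).card := Nat.cast_nonneg _
      linarith
    have h2 : (pts (f + C t * g) p : ℝ) ≤ p * p + 1 := by
      have : pts (f + C t * g) p ≤ p * p + 1 := by
        unfold pts
        gcongr
        refine (card_filter_le _ _).trans ?_
        rw [card_product, card_range]
      exact_mod_cast this
    have hp0 : (0:ℝ) < p := by linarith
    rw [abs_le]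
    constructor
    · have h3 : -Real.log p ≤ Real.log ((pts (f + C t * g) p : ℝ) / p) := by
        rw [← Real.log_inv]
        apply Real.log_le_log (by positivity)
        rw [inv_eq_one_div]
        gcongr
      have h4 : Real.log p ≤ p := (Real.log_le_sub_one_of_pos hp0).trans (by linarith)
      linarith
    · have h3 : Real.log ((pts (f + C t * g) p : ℝ) / p) ≤ (pts (f + C t * g) p : ℝ) / p - 1 := Real.log_le_sub_one_of_pos (by positivity)
      have h4 : (pts (f + C t * g) p : ℝ) / p ≤ p + 1 := by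
        rw [div_le_iff₀ hp0]
        nlinarith
      linarith

end

end Pool.Agent.D0H53.EB
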