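import Mathlib
import Pool.Agent.D0H53.EB.L7

/-! The family of a pencil. -/

set_option autoImplicit false

open Finset Polynomial

namespace Pool.Agent.D0H53.EB

lemma six_le_sqrt {p : ℕ} (h : 36 ≤ p) : 6 ≤ √(p:ℝ) := by
  apply Real.le_sqrt_of_sq_le
  have : (36:ℝ) ≤ p := by exact_mod_cast h
  linarith

/-- the statistics of a prime -/
lemma stats {f g : ℤ[X]} (hf : f.Monic) (hf3 : f.natDegree = 3) (hg : g.natDegree ≤ 2) (p : ℕ) (hp : p.Prime) (hp6 : 36 ≤ p) {c : ℝ}
    (hc : |c| ≤ 2)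
    (h : ∀ _ : Fact p.Prime, Loc (f.coeff 2 : ZMod p) (f.coeff 1 : ZMod p) (f.coeff 0 : ZMod p) (g.coeff 2 : ZMod p) (g.coeff 1 : ZMod p)
      (g.coeff 0 : ZMod p) c) :
    (∀ z, |XX f g p z| ≤ 6 / √p) ∧ |av p 0 (XX f g p) - (1 / 2 + c) / p| ≤ 81 / √p ^ 3 ∧
      |av p 0 (fun z => XX f g p z ^ 2) - (av p 0 (XX f g p)) ^ 2 - 1 / p| ≤ 223 / √p ^ 3 := by
  have hF : Fact p.Prime := ⟨hp⟩
  have hp2 : p ≠ 2 := by omega
  have hs : √(p:ℝ) = √(Fintype.card (ZMod p) : ℝ) := by rw [ZMod.card]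
  obtain ⟨h1, h2, h3⟩ := loc_log (h hF) hc hs (six_le_sqrt hp6)
  have hsq : √(p:ℝ) ^ 2 = p := Real.sq_sqrt (Nat.cast_nonneg p)
  rw [hsq] at h2 h3
  have e1 := av_XX hf hf3 hg p hp2 (fun x => x)
  have e2 := av_XX hf hf3 hg p hp2 (fun x => x ^ 2)
  have e1' : av p 0 (XX f g p) = _ := e1
  refine ⟨fun z => ?_, ?_, ?_⟩
  · rw [XX_eq hf hf3 hg p hp2]
    exact h1 _
  · rw [e1']; exact h2
  · rw [e1', e2]; exact h3

/-- the family of a pencil -/
theorem fam_pencil {f g : ℤ[X]} (hf : f.Monic) (hf3 : f.natDegree = 3) (hg : g.natDegree ≤ 2) {c : ℕ → ℝ} (hc : ∀ p, |c p| ≤ 2) (B : ℕ)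
    (h : ∀ p : ℕ, B < p → ∀ _ : Fact p.Prime, Loc (f.coeff 2 : ZMod p) (f.coeff 1 : ZMod p) (f.coeff 0 : ZMod p) (g.coeff 2 : ZMod p) (g.coeff 1 : ZMod p)
      (g.coeff 0 : ZMod p) (c p)) {r : ℝ} (hcs : ∃ C' : ℝ, 0 ≤ C' ∧ ∀ a b : ℕ, 3 ≤ a → a ≤ b → |∑ p ∈ blk a b, c p / p - r * (LL b - LL a)| ≤ C') :
    ∃ K, Fam K (r + 1 / 2) (XX f g) := by
  obtain ⟨K₀, hK₀, hfam⟩ := fam_of
  obtain ⟨C', hC', hcs⟩ := hcs
  obtain ⟨A, hA⟩ : ∃ A : ℕ, A = B + 36 := ⟨_, rfl⟩
  have hA0 : (36:ℝ) ≤ A := by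
    have : 36 ≤ A := by omega
    exact_mod_cast this
  refine ⟨_, hfam (XX f g) c ((range (A + 1)).filter Nat.Prime) r ((A:ℝ) ^ 2) (∑ p ∈ (range (A + 1)).filter Nat.Prime, (1:ℝ) / p) C' (by nlinarith) hC'
    (XX_per hf hf3 hg) hc ?_ ?_ le_rfl ?_ ?_ hcs⟩
  · intro p hp z
    have hp0 : (0:ℝ) < p := by exact_mod_cast hp.pos
    have hs0 : 0 < √(p:ℝ) := Real.sqrt_pos.2 hp0
    rcases le_or_gt p A with hpA | hpA
    · have h1 := XX_le (f := f) (g := g) p hp z
      refine h1.trans ?_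
      rw [le_div_iff₀ hs0]
      have h2 : √(p:ℝ) ≤ p := by
        rw [Real.sqrt_le_left hp0.le]
        have : (1:ℝ) ≤ p := by exact_mod_cast hp.one_le
        nlinarith
      have h3 : (p:ℝ) ≤ A := by exact_mod_cast hpA
      calc (p:ℝ) * √p ≤ p * p := by gcongr
        _ ≤ A * A := by gcongr
        _ = (A:ℝ) ^ 2 := by ring
    · have h1 := (stats hf hf3 hg p hp (by omega) (hc p) (h p (by omega))).1 z
      refine h1.trans ?_
      gcongr
      nlinarith
  · intro p hp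
    rw [mem_filter, mem_range] at hp
    have hp0 : (0:ℝ) < p := by exact_mod_cast hp.2.pos
    have h1 : ‖av p 0 (XX f g p)‖ ≤ p := by
      refine (norm_av_le p 0 _).trans ?_
      calc av p 0 (fun z => ‖XX f g p z‖) ≤ av p 0 (fun _ => (p:ℝ)) := by
            apply av_mono
            intro z
            exact XX_le p hp.2 z
        _ = p := av_const hp.2.pos 0 _
    rw [Real.norm_eq_abs] at h1
    refine h1.trans ?_
    rw [le_div_iff₀ hp0]
    have h3 : (p:ℝ) ≤ A := by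
      have : p ≤ A := by omega
      exact_mod_cast this
    calc (p:ℝ) * p ≤ A * A := by gcongr
      _ = (A:ℝ) ^ 2 := by ring
  · intro p hp hpE
    have hpA : A < p := by
      by_contra hh
      exact hpE (mem_filter.2 ⟨mem_range.2 (by omega), hp⟩)
    exact (stats hf hf3 hg p hp (by omega) (hc p) (h p (by omega))).2.1
  · intro p hp hpE
    have hpA : A < p := by
      by_contra hh
      exact hpE (mem_filter.2 ⟨mem_range.2 (by omega), hp⟩)
    exact (stats hf hf3 hg p hp (by omega) (hc p) (h p (by omega))).2.2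

/-- the homogeneous form of the values of the cubic -/
def hv {R : Type*} [CommRing R] (f2 f1 f0 n d : R) : R := d * (n ^ 3 + f2 * n ^ 2 * d + f1 * n * d ^ 2 + f0 * d ^ 3)

section
variable {F : Type*} [Field F]

lemma cu_hv {f2 f1 f0 n d : F} (hd : d ≠ 0) : cu f2 f1 f0 (n / d) * (d ^ 2) ^ 2 = hv f2 f1 f0 n d := by
  unfold cu hv
  field_simp

lemma cu_ne {f2 f1 f0 n d : F} (hd : d ≠ 0) (h : hv f2 f1 f0 n d ≠ 0) : cu f2 f1 f0 (n / d) ≠ 0 := by
  intro h1
  apply h
  rw [← cu_hv hd, h1, zero_mul]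

lemma ch_hv [Fintype F] [DecidableEq F] {f2 f1 f0 n d : F} (hd : d ≠ 0) : ch (cu f2 f1 f0 (n / d)) = ch (hv f2 f1 f0 n d) :=
  ch_eq_of_mul_sq (pow_ne_zero 2 hd) (cu_hv hd)

end

lemma hv_cast (p : ℕ) (f2 f1 f0 n d : ℤ) : ((hv f2 f1 f0 n d : ℤ) : ZMod p) = hv (f2 : ZMod p) (f1 : ZMod p) (f0 : ZMod p) (n : ZMod p) (d : ZMod p) := by
  unfold hv
  push_cast
  rfl

/-- primes larger than `|m|` do not divide `m ≠ 0` -/
lemma cast_ne {m : ℤ} (hm : m ≠ 0) {p : ℕ} (h : m.natAbs < p) : (m : ZMod p) ≠ 0 := by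
  intro h0
  rw [ZMod.intCast_zmod_eq_zero_iff_dvd] at h0
  have := Nat.le_of_dvd (Int.natAbs_pos.2 hm) (Int.natCast_dvd.1 h0)
  omega

lemma aeval_cubic {f : ℤ[X]} (hf : f.Monic) (hf3 : f.natDegree = 3) (x : ℚ) :
    aeval x f = cu (f.coeff 2 : ℚ) (f.coeff 1 : ℚ) (f.coeff 0 : ℚ) x := by
  rw [aeval_eq_sum_range, hf3]
  have h3 : f.coeff 3 = 1 := by rw [← hf3]; exact hf
  simp only [sum_range_succ, sum_range_zero, h3]
  unfold cu
  simp
  ring

lemma aeval_quad {g : ℤ[X]} (hg : g.natDegree ≤ 2) (x : ℚ) : aeval x g = qu (g.coeff 2 : ℚ) (g.coeff 1 : ℚ) (g.coeff 0 : ℚ) x := by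
  rw [aeval_eq_sum_range' (Nat.lt_succ_of_le hg)]
  simp only [sum_range_succ, sum_range_zero]
  unfold qu
  simp
  ring

lemma sq_iff {f2 f1 f0 n d : ℤ} (hd : d ≠ 0) : IsSquare (cu (f2:ℚ) f1 f0 (n / d)) ↔ IsSquare (hv f2 f1 f0 n d) := by
  have hd' : (d:ℚ) ≠ 0 := by exact_mod_cast hd
  have e := cu_hv (f2 := (f2:ℚ)) (f1 := f1) (f0 := f0) (n := n) hd'
  have e2 : ((hv f2 f1 f0 n d : ℤ) : ℚ) = hv (f2:ℚ) f1 f0 n d := by
    unfold hv; push_cast; rfl
  rw [← Rat.isSquare_intCast_iff, e2, ← e]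
  constructor
  · rintro ⟨x, hx⟩
    exact ⟨x * d ^ 2, by rw [hx]; ring⟩
  · rintro ⟨x, hx⟩
    refine ⟨x / d ^ 2, ?_⟩
    field_simp
    rw [← sq] at hx
    rw [← hx]
    ring

/-- the rank: number of rational roots `ρ` of `g` for which `f(ρ)` is a nonzero square -/
noncomputable def rk (f g : ℤ[X]) : ℕ := {ρ : ℚ | aeval ρ g = 0 ∧ aeval ρ f ≠ 0 ∧ IsSquare (aeval ρ f)}.ncard

/-- the covariant `c₄`, up to the factor `16` -/
def cc4 (h : ℤ[X]) : ℤ := h.coeff 2 ^ 2 - 3 * h.coeff 1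

lemma dc_double {f2 f1 f0 a b c ρ t : ℚ} (h1 : cu f2 f1 f0 ρ = 0) (h2 : f1 + 2 * f2 * ρ + 3 * ρ ^ 2 = 0) (hb : b = -2 * a * ρ)
    (hc : c = a * ρ ^ 2) : dc (f2 + t * a) (f1 + t * b) (f0 + t * c) = 0 := by
  have e1 : f1 = -2 * f2 * ρ - 3 * ρ ^ 2 := by linear_combination h2
  have e0 : f0 = 2 * ρ ^ 3 + f2 * ρ ^ 2 := by
    unfold cu at h1
    linear_combination h1 - ρ * h2
  rw [e1, e0, hb, hc]
  unfold dc
  ring

lemma sym_linear {f2 f1 f0 b c ρ s t : ℚ} (h1 : cu f2 f1 f0 ρ = 0) (h2 : f2 + 3 * ρ = 0) (hc : c = -b * ρ) :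
    ((f2 + s * 0) ^ 2 - 3 * (f1 + s * b)) ^ 3 * dc (f2 + t * 0) (f1 + t * b) (f0 + t * c) =
      ((f2 + t * 0) ^ 2 - 3 * (f1 + t * b)) ^ 3 * dc (f2 + s * 0) (f1 + s * b) (f0 + s * c) := by
  have e2 : f2 = -3 * ρ := by linear_combination h2
  have e0 : f0 = 2 * ρ ^ 3 - f1 * ρ := by
    unfold cu at h1
    rw [e2] at h1
    linear_combination h1
  rw [e2, e0, hc]
  unfold dc
  ring

/-- **the family of a pencil** with rational base points and nonconstant `j`-invariant -/
theorem fam_all {f g : ℤ[X]} (hf : f.Monic) (hf3 : f.natDegree = 3) (hg0 : g ≠ 0) (hg : g.natDegree ≤ 2)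
    (hr : g.natDegree = 2 → ∃ ρ : ℚ, aeval ρ g = 0)
    (hj : ∃ s t : ℤ, cc4 (f + C s * g) ^ 3 * dsc (f + C t * g) ≠ cc4 (f + C t * g) ^ 3 * dsc (f + C s * g)) :
    ∃ K, Fam K (rk f g + 1 / 2) (XX f g) := by
  obtain ⟨f2, h2⟩ : ∃ f2, f2 = f.coeff 2 := ⟨_, rfl⟩
  obtain ⟨f1, h1⟩ : ∃ f1, f1 = f.coeff 1 := ⟨_, rfl⟩
  obtain ⟨f0, h0⟩ : ∃ f0, f0 = f.coeff 0 := ⟨_, rfl⟩
  obtain ⟨s₀, t₀, hst⟩ := hj
  have hdsc : ∀ t : ℤ, ((dsc (f + C t * g) : ℤ) : ℚ) = dc ((f2 : ℚ) + t * g.coeff 2) (f1 + t * g.coeff 1) (f0 + t * g.coeff 0) := by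
    intro t
    unfold dsc dc
    simp only [coeff_member]
    rw [← h2, ← h1, ← h0]
    push_cast
    rfl
  have hcc4 : ∀ t : ℤ, ((cc4 (f + C t * g) : ℤ) : ℚ) = ((f2 : ℚ) + t * g.coeff 2) ^ 2 - 3 * (f1 + t * g.coeff 1) := by
    intro t
    unfold cc4
    simp only [coeff_member]
    rw [← h2, ← h1]
    push_cast
    rfl
  have hsqv : ∀ n d : ℤ, d ≠ 0 → ((aeval ((n:ℚ) / d) f ≠ 0 ∧ IsSquare (aeval ((n:ℚ) / d) f)) ↔
      (hv f2 f1 f0 n d ≠ 0 ∧ IsSquare (hv f2 f1 f0 n d))) := by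
    intro n d hd
    rw [aeval_cubic hf hf3, ← h2, ← h1, ← h0, sq_iff hd]
    apply and_congr_left
    intro _
    have hd' : (d:ℚ) ≠ 0 := by exact_mod_cast hd
    have e := cu_hv (f2 := (f2:ℚ)) (f1 := f1) (f0 := f0) (n := n) hd'
    have e2 : hv (f2:ℚ) f1 f0 n d = ((hv f2 f1 f0 n d : ℤ) : ℚ) := by
      unfold hv; push_cast; rfl
    rw [e2] at e
    constructor
    · intro h h'
      rw [h', Int.cast_zero] at e
      exact h ((mul_eq_zero.1 e).resolve_right (pow_ne_zero _ (pow_ne_zero _ hd')))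
    · intro h h'
      rw [h', zero_mul] at e
      exact h (by exact_mod_cast e.symm)
  have hvz : ∀ n d : ℤ, d ≠ 0 → hv f2 f1 f0 n d = 0 → cu (f2:ℚ) f1 f0 (n / d) = 0 := by
    intro n d hd h
    have hd' : (d:ℚ) ≠ 0 := by exact_mod_cast hd
    have e := cu_hv (f2 := (f2:ℚ)) (f1 := f1) (f0 := f0) (n := n) hd'
    have e2 : hv (f2:ℚ) f1 f0 n d = ((hv f2 f1 f0 n d : ℤ) : ℚ) := by
      unfold hv; push_cast; rfl
    rw [e2, h, Int.cast_zero] at e
    exact (mul_eq_zero.1 e).resolve_right (pow_ne_zero _ (pow_ne_zero _ hd'))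
  interval_cases hdg : g.natDegree
  · -- constant
    have hg2 : g.coeff 2 = 0 := coeff_eq_zero_of_natDegree_lt (by omega)
    have hg1 : g.coeff 1 = 0 := coeff_eq_zero_of_natDegree_lt (by omega)
    have hg00 : g.coeff 0 ≠ 0 := by
      rw [← hdg]
      exact leadingCoeff_ne_zero.2 hg0
    have hrk : rk f g = 0 := by
      unfold rk
      have : {ρ : ℚ | aeval ρ g = 0 ∧ aeval ρ f ≠ 0 ∧ IsSquare (aeval ρ f)} = ∅ := by
        ext ρ
        simp only [Set.mem_ofPred_eq, Set.mem_empty_iff_false, iff_false, not_and]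
        intro h
        rw [aeval_quad (by omega)] at h
        unfold qu at h
        rw [hg2, hg1] at h
        simp at h
        exact absurd h hg00
      rw [this, Set.ncard_empty]
    rw [hrk]
    have hd' : f2 ^ 2 - 3 * f1 ≠ 0 := by
      intro h
      apply hst
      have hz : ∀ t : ℤ, cc4 (f + C t * g) = 0 := by
        intro t
        unfold cc4
        rw [coeff_member, coeff_member, hg2, hg1, ← h2, ← h1, mul_zero, add_zero, add_zero, h]
      rw [hz, hz]; ring
    have := fam_pencil (g := g) hf hf3 (by omega) (c := fun _ => 0) (by intro p; simp) (3 + (g.coeff 0).natAbs + (f2 ^ 2 - 3 * f1).natAbs) (by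
      intro p hp hF
      have hp2 : ringChar (ZMod p) ≠ 2 := by rw [ZMod.ringChar_zmod_n]; omega
      rw [hg2, hg1, ← h2, ← h1]
      rw [Int.cast_zero]
      apply loc0 hp2
      · have := cast_ne (m := 3) (by norm_num) (p := p) (by
          have : (3:ℤ).natAbs = 3 := rfl
          omega)
        exact_mod_cast this
      · exact cast_ne hg00 (by omega)
      · have := cast_ne hd' (p := p) (by omega)
        push_cast at this
        exact this) (r := 0) ⟨0, le_rfl, by intro a b _ _; simp⟩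
    exact_mod_cast this
  · -- linear
    have hg2 : g.coeff 2 = 0 := coeff_eq_zero_of_natDegree_lt (by omega)
    have hg10 : g.coeff 1 ≠ 0 := by
      rw [← hdg]
      exact leadingCoeff_ne_zero.2 hg0
    obtain ⟨b, hb⟩ : ∃ b, b = g.coeff 1 := ⟨_, rfl⟩
    obtain ⟨c, hc⟩ : ∃ c, c = g.coeff 0 := ⟨_, rfl⟩
    rw [← hb] at hg10
    have hb' : (b:ℚ) ≠ 0 := by exact_mod_cast hg10
    obtain ⟨m, hm⟩ : ∃ m, m = hv f2 f1 f0 (-c) b := ⟨_, rfl⟩
    obtain ⟨w, hw⟩ : ∃ w, w = b * f2 - 3 * c := ⟨_, rfl⟩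
    have hmw : m ≠ 0 ∨ w ≠ 0 := by
      by_contra hcon
      push Not at hcon
      obtain ⟨hm0, hw0⟩ := hcon
      rw [hm] at hm0
      have e1 := hvz _ _ hg10 hm0
      apply hst
      have e2 : (f2:ℚ) + 3 * (((-c : ℤ) : ℚ) / b) = 0 := by
        have : ((b * f2 - 3 * c : ℤ) : ℚ) = 0 := by rw [← hw, hw0, Int.cast_zero]
        push_cast at this ⊢
        field_simp
        linear_combination this
      have e3 := sym_linear (s := s₀) (t := t₀) (b := b) (c := c) e1 e2 (by push_cast; field_simp)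
      have e4 : ((cc4 (f + C s₀ * g) ^ 3 * dsc (f + C t₀ * g) : ℤ) : ℚ) = ((cc4 (f + C t₀ * g) ^ 3 * dsc (f + C s₀ * g) : ℤ) : ℚ) := by
        push_cast
        rw [hcc4, hcc4, hdsc, hdsc, hg2, ← hb, ← hc, Int.cast_zero]
        exact e3
      exact_mod_cast e4
    have hrk : rk f g = if m ≠ 0 ∧ IsSquare m then 1 else 0 := by
      unfold rk
      have hset : {ρ : ℚ | aeval ρ g = 0 ∧ aeval ρ f ≠ 0 ∧ IsSquare (aeval ρ f)} = if m ≠ 0 ∧ IsSquare m then {((-c : ℤ) : ℚ) / b} else ∅ := by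
        ext ρ
        have hroot : aeval ρ g = 0 ↔ ρ = ((-c : ℤ) : ℚ) / b := by
          rw [aeval_quad (by omega), hg2, ← hb, ← hc]
          unfold qu
          push_cast
          rw [eq_div_iff hb']
          constructor
          · intro h; linear_combination h
          · intro h; linear_combination h
        simp only [Set.mem_ofPred_eq]
        rw [hroot]
        by_cases hms : m ≠ 0 ∧ IsSquare m
        · rw [if_pos hms, Set.mem_singleton_iff]
          constructor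
          · exact fun h => h.1
          · intro h
            refine ⟨h, ?_⟩
            rw [h, hsqv _ _ hg10, ← hm]
            exact hms
        · rw [if_neg hms]
          simp only [Set.mem_empty_iff_false, iff_false]
          rintro ⟨rfl, h⟩
          rw [hsqv _ _ hg10, ← hm] at h
          exact hms h
      rw [hset]
      split_ifs
      · rw [Set.ncard_singleton]
      · rw [Set.ncard_empty]
    obtain ⟨C', hC', hkr⟩ := kr_blk m
    rw [hrk]
    have := fam_pencil (g := g) hf hf3 (by omega) (c := fun p => kr m p) (by intro p; exact (abs_kr_le m p).trans (by norm_num)) (3 + b.natAbs + m.natAbs + w.natAbs) (by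
      intro p hp hF
      have hp2 : ringChar (ZMod p) ≠ 2 := by rw [ZMod.ringChar_zmod_n]; omega
      have hbp : (b : ZMod p) ≠ 0 := cast_ne hg10 (by omega)
      have hcond : cu (f2 : ZMod p) (f1 : ZMod p) (f0 : ZMod p) (-c / b) ≠ 0 ∨ (f2 : ZMod p) + 3 * (-c / b) ≠ 0 := by
        rcases hmw with h | h
        · left
          have := cast_ne h (p := p) (by omega)
          rw [hm, hv_cast] at this
          push_cast at this
          exact cu_ne hbp this
        · right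
          have := cast_ne h (p := p) (by omega)
          rw [hw] at this
          push_cast at this
          intro h'
          apply this
          have e5 : (f2 : ZMod p) + 3 * (-c / b) = (b * f2 - 3 * c) / b := by field_simp; ring
          rw [e5, div_eq_zero_iff, or_iff_left hbp] at h'
          exact h'
      rw [hg2, ← hb, ← hc, ← h2, ← h1, ← h0, kr_eq, hm, hv_cast]
      push_cast
      rw [← ch_hv hbp]
      exact loc1 hp2 hbp hcond) (r := if m ≠ 0 ∧ IsSquare m then (1:ℝ) else 0) ⟨C', hC', hkr⟩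
    push_cast
    exact this
  · -- quadratic
    have hg20 : g.coeff 2 ≠ 0 := by
      rw [← hdg]
      exact leadingCoeff_ne_zero.2 hg0
    obtain ⟨a, ha⟩ : ∃ a, a = g.coeff 2 := ⟨_, rfl⟩
    obtain ⟨b, hb⟩ : ∃ b, b = g.coeff 1 := ⟨_, rfl⟩
    obtain ⟨c, hc⟩ : ∃ c, c = g.coeff 0 := ⟨_, rfl⟩
    rw [← ha] at hg20
    have ha' : (a:ℚ) ≠ 0 := by exact_mod_cast hg20
    obtain ⟨ρ0, hρ0⟩ := hr rfl
    rw [aeval_quad (by omega), ← ha, ← hb, ← hc] at hρ0
    unfold qu at hρ0
    have hDsq : IsSquare (b ^ 2 - 4 * a * c) := by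
      rw [← Rat.isSquare_intCast_iff]
      refine ⟨2 * a * ρ0 + b, ?_⟩
      push_cast
      linear_combination -(4 * (a:ℚ)) * hρ0
    obtain ⟨D, hD⟩ := hDsq
    obtain ⟨d, hdd⟩ : ∃ d, d = 2 * a := ⟨_, rfl⟩
    have hd0 : d ≠ 0 := by rw [hdd]; exact mul_ne_zero two_ne_zero hg20
    have hd' : (d:ℚ) ≠ 0 := by exact_mod_cast hd0
    obtain ⟨n1, hn1⟩ : ∃ n1, n1 = -b + D := ⟨_, rfl⟩
    obtain ⟨n2, hn2⟩ : ∃ n2, n2 = -b - D := ⟨_, rfl⟩
    have hdQ : (d:ℚ) = 2 * a := by rw [hdd]; push_cast; ring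
    have hDQ : (b:ℚ) ^ 2 - 4 * a * c = D * D := by exact_mod_cast hD
    have hroot : ∀ ρ : ℚ, aeval ρ g = 0 ↔ ρ = (n1:ℚ) / d ∨ ρ = (n2:ℚ) / d := by
      intro ρ
      rw [aeval_quad (by omega), ← ha, ← hb, ← hc, eq_div_iff hd', eq_div_iff hd', hn1, hn2, hdQ]
      unfold qu
      push_cast
      rw [← sub_eq_zero (b := -(b:ℚ) + D), ← sub_eq_zero (b := -(b:ℚ) - D), ← mul_eq_zero]
      have e : (ρ * (2 * a) - (-(b:ℚ) + D)) * (ρ * (2 * a) - (-(b:ℚ) - D)) = 4 * a * (a * ρ ^ 2 + b * ρ + c) := by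
        linear_combination hDQ
      rw [e, mul_eq_zero, or_iff_right (mul_ne_zero four_ne_zero ha')]
    obtain ⟨m1, hm1⟩ : ∃ m, m = hv f2 f1 f0 n1 d := ⟨_, rfl⟩
    obtain ⟨m2, hm2⟩ : ∃ m, m = hv f2 f1 f0 n2 d := ⟨_, rfl⟩
    obtain ⟨w, hw⟩ : ∃ w, w = f1 * d ^ 2 + 2 * f2 * n1 * d + 3 * n1 ^ 2 := ⟨_, rfl⟩
    have hmw : n2 - n1 ≠ 0 ∨ m1 ≠ 0 ∨ w ≠ 0 := by
      by_contra hcon
      push Not at hcon
      obtain ⟨hn0, hm0, hw0⟩ := hcon
      rw [hm1] at hm0
      have e1 := hvz _ _ hd0 hm0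
      apply hst
      have e2 : (f1:ℚ) + 2 * f2 * ((n1:ℚ) / d) + 3 * ((n1:ℚ) / d) ^ 2 = 0 := by
        have : ((f1 * d ^ 2 + 2 * f2 * n1 * d + 3 * n1 ^ 2 : ℤ) : ℚ) = 0 := by rw [← hw, hw0, Int.cast_zero]
        push_cast at this
        field_simp
        linear_combination this
      have hD0 : D = 0 := by
        rw [hn1, hn2] at hn0
        linarith
      have hnb : (n1:ℚ) = -b := by rw [hn1, hD0]; push_cast; ring
      rw [hD0, Int.cast_zero, mul_zero] at hDQ
      have e3 : (b:ℚ) = -2 * a * ((n1:ℚ) / d) := by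
        rw [hnb, hdQ]
        field_simp
      have e4 : (c:ℚ) = a * ((n1:ℚ) / d) ^ 2 := by
        rw [hnb, hdQ]
        field_simp
        linear_combination -hDQ
      have hz : ∀ t : ℤ, dsc (f + C t * g) = 0 := by
        intro t
        have e5 := hdsc t
        rw [← ha, ← hb, ← hc, dc_double e1 e2 e3 e4] at e5
        exact_mod_cast e5
      rw [hz, hz]; ring
    obtain ⟨C1, hC1, hkr1⟩ := kr_blk m1
    obtain ⟨C2, hC2, hkr2⟩ := kr_blk m2
    have hloc : ∀ p : ℕ, 3 + a.natAbs + d.natAbs + m1.natAbs + w.natAbs + (n2 - n1).natAbs < p → ∀ _ : Fact p.Prime,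
        Loc (f2 : ZMod p) (f1 : ZMod p) (f0 : ZMod p) (a : ZMod p) (b : ZMod p) (c : ZMod p)
          (if n2 - n1 = 0 then kr m1 p else kr m1 p + kr m2 p) := by
      intro p hp hF
      have hp2 : ringChar (ZMod p) ≠ 2 := by rw [ZMod.ringChar_zmod_n]; omega
      have hap : (a : ZMod p) ≠ 0 := cast_ne hg20 (by omega)
      have hdp : (d : ZMod p) ≠ 0 := cast_ne hd0 (by omega)
      have h2p : (2 : ZMod p) ≠ 0 := Ring.two_ne_zero hp2
      have hdP : (d : ZMod p) = 2 * a := by rw [hdd]; push_cast; ring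
      have hDP : (b : ZMod p) ^ 2 - 4 * a * c = D * D := by exact_mod_cast congrArg (Int.cast : ℤ → ZMod p) hD
      have hn1P : (n1 : ZMod p) = -b + D := by rw [hn1]; push_cast; ring
      have hn2P : (n2 : ZMod p) = -b - D := by rw [hn2]; push_cast; ring
      obtain ⟨k, hk⟩ : ∃ k : ZMod p, k = ((n2 : ZMod p) - n1) / d := ⟨_, rfl⟩
      have hrk' : (n1 : ZMod p) / d + k = n2 / d := by rw [hk]; field_simp; ring
      have hkz : k = 0 ↔ n2 - n1 = 0 := by
        constructor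
        · intro h
          by_contra hne
          have := cast_ne hne (p := p) (by omega)
          push_cast at this
          rw [hk] at h
          exact (div_ne_zero this hdp) h
        · intro h
          have h' : ((n2 - n1 : ℤ) : ZMod p) = 0 := by rw [h, Int.cast_zero]
          push_cast at h'
          rw [hk, h', zero_div]
      have hcond : k ≠ 0 ∨ cu (f2 : ZMod p) (f1 : ZMod p) (f0 : ZMod p) (n1 / d) ≠ 0 ∨
          (f1 : ZMod p) + 2 * f2 * (n1 / d) + 3 * (n1 / d) ^ 2 ≠ 0 := by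
        rcases hmw with h | h | h
        · left
          intro h'
          exact h (hkz.1 h')
        · right; left
          have := cast_ne h (p := p) (by omega)
          rw [hm1, hv_cast] at this
          exact cu_ne hdp this
        · right; right
          have := cast_ne h (p := p) (by omega)
          rw [hw] at this
          push_cast at this
          intro h'
          apply this
          have e5 : (f1 : ZMod p) + 2 * f2 * (n1 / d) + 3 * (n1 / d) ^ 2 = (f1 * d ^ 2 + 2 * f2 * n1 * d + 3 * n1 ^ 2) / d ^ 2 := by field_simp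
          rw [e5, div_eq_zero_iff, or_iff_left (pow_ne_zero 2 hdp)] at h'
          exact h'
      have hl := loc2 hp2 (f2 := (f2 : ZMod p)) (f1 := (f1 : ZMod p)) (f0 := (f0 : ZMod p)) (g2 := (a : ZMod p)) (g1 := (b : ZMod p)) (g0 := (c : ZMod p))
        (r := (n1 : ZMod p) / d) (k := k) hap (by
          have e : (b : ZMod p) = -a * ((n1 : ZMod p) / d + ((n1 : ZMod p) / d + k)) := by
            rw [hrk', hn1P, hn2P, hdP]
            field_simp
            ring
          rw [e]; ring) (by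
          rw [hrk', hn1P, hn2P, hdP]
          have h4p : (4 : ZMod p) ≠ 0 := four_ne hp2
          field_simp
          linear_combination -hDP) hcond
      rw [hrk', ch_hv hdp, ch_hv hdp, ← hv_cast, ← hv_cast, ← hm1, ← hm2, ← kr_eq, ← kr_eq] at hl
      simp only [hkz] at hl
      exact hl
    by_cases hD0 : n2 - n1 = 0
    · -- double root
      have hn : n2 = n1 := by linarith
      have hrk : rk f g = if m1 ≠ 0 ∧ IsSquare m1 then 1 else 0 := by
        unfold rk
        have hset : {ρ : ℚ | aeval ρ g = 0 ∧ aeval ρ f ≠ 0 ∧ IsSquare (aeval ρ f)} = if m1 ≠ 0 ∧ IsSquare m1 then {(n1:ℚ) / d} else ∅ := by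
          ext ρ
          simp only [Set.mem_ofPred_eq]
          rw [hroot, hn, or_self]
          by_cases hms : m1 ≠ 0 ∧ IsSquare m1
          · rw [if_pos hms, Set.mem_singleton_iff]
            constructor
            · exact fun h => h.1
            · intro h
              refine ⟨h, ?_⟩
              rw [h, hsqv _ _ hd0, ← hm1]
              exact hms
          · rw [if_neg hms]
            simp only [Set.mem_empty_iff_false, iff_false]
            rintro ⟨rfl, h⟩
            rw [hsqv _ _ hd0, ← hm1] at h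
            exact hms h
        rw [hset]
        split_ifs
        · rw [Set.ncard_singleton]
        · rw [Set.ncard_empty]
      rw [hrk]
      have := fam_pencil (g := g) hf hf3 (by omega) (c := fun p => kr m1 p) (by intro p; exact (abs_kr_le m1 p).trans (by norm_num))
        (3 + a.natAbs + d.natAbs + m1.natAbs + w.natAbs + (n2 - n1).natAbs) (by
          intro p hp hF
          have := hloc p hp hF
          rw [if_pos hD0] at this
          rw [← ha, ← hb, ← hc, ← h2, ← h1, ← h0]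
          exact this) (r := if m1 ≠ 0 ∧ IsSquare m1 then (1:ℝ) else 0) ⟨C1, hC1, hkr1⟩
      push_cast
      exact this
    · -- two roots
      have hne : (n1:ℚ) / d ≠ (n2:ℚ) / d := by
        intro h
        rw [div_left_inj' hd'] at h
        have : n1 = n2 := by exact_mod_cast h
        exact hD0 (by rw [this, sub_self])
      have hrk : rk f g = (if m1 ≠ 0 ∧ IsSquare m1 then 1 else 0) + (if m2 ≠ 0 ∧ IsSquare m2 then 1 else 0) := by
        unfold rk
        have hset : {ρ : ℚ | aeval ρ g = 0 ∧ aeval ρ f ≠ 0 ∧ IsSquare (aeval ρ f)} =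
            (if m1 ≠ 0 ∧ IsSquare m1 then {(n1:ℚ) / d} else ∅) ∪ (if m2 ≠ 0 ∧ IsSquare m2 then {(n2:ℚ) / d} else ∅) := by
          ext ρ
          simp only [Set.mem_ofPred_eq, Set.mem_union]
          rw [hroot]
          have key : ∀ n m : ℤ, m = hv f2 f1 f0 n d → (ρ ∈ (if m ≠ 0 ∧ IsSquare m then {(n:ℚ) / d} else (∅ : Set ℚ)) ↔
              (ρ = (n:ℚ) / d ∧ aeval ρ f ≠ 0 ∧ IsSquare (aeval ρ f))) := by
            intro n m hm
            by_cases hms : m ≠ 0 ∧ IsSquare m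
            · rw [if_pos hms, Set.mem_singleton_iff]
              constructor
              · intro h
                refine ⟨h, ?_⟩
                rw [h, hsqv _ _ hd0, ← hm]
                exact hms
              · exact fun h => h.1
            · rw [if_neg hms]
              simp only [Set.mem_empty_iff_false, false_iff]
              rintro ⟨rfl, h⟩
              rw [hsqv _ _ hd0, ← hm] at h
              exact hms h
          rw [key n1 m1 hm1, key n2 m2 hm2]
          tauto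
        rw [hset]
        by_cases hms1 : m1 ≠ 0 ∧ IsSquare m1
        · by_cases hms2 : m2 ≠ 0 ∧ IsSquare m2
          · simp only [if_pos hms1, if_pos hms2]
            rw [Set.singleton_union, Set.ncard_pair hne]
          · simp only [if_pos hms1, if_neg hms2, Set.union_empty, Set.ncard_singleton]
        · by_cases hms2 : m2 ≠ 0 ∧ IsSquare m2
          · simp only [if_neg hms1, if_pos hms2, Set.empty_union, Set.ncard_singleton]
          · simp only [if_neg hms1, if_neg hms2, Set.empty_union, Set.ncard_empty]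
      rw [hrk]
      have := fam_pencil (g := g) hf hf3 (by omega) (c := fun p => kr m1 p + kr m2 p) (by
          intro p
          refine (abs_add_le _ _).trans ?_
          linarith [abs_kr_le m1 p, abs_kr_le m2 p])
        (3 + a.natAbs + d.natAbs + m1.natAbs + w.natAbs + (n2 - n1).natAbs) (by
          intro p hp hF
          have := hloc p hp hF
          rw [if_neg hD0] at this
          rw [← ha, ← hb, ← hc, ← h2, ← h1, ← h0]
          exact this) (r := (if m1 ≠ 0 ∧ IsSquare m1 then (1:ℝ) else 0) + (if m2 ≠ 0 ∧ IsSquare m2 then (1:ℝ) else 0)) ⟨C1 + C2, by positivity, by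
            intro x y hx hxy
            have e : ∑ p ∈ blk x y, (kr m1 p + kr m2 p) / p - ((if m1 ≠ 0 ∧ IsSquare m1 then (1:ℝ) else 0) + (if m2 ≠ 0 ∧ IsSquare m2 then (1:ℝ) else 0)) * (LL y - LL x) =
                (∑ p ∈ blk x y, kr m1 p / p - (if m1 ≠ 0 ∧ IsSquare m1 then (1:ℝ) else 0) * (LL y - LL x)) +
                (∑ p ∈ blk x y, kr m2 p / p - (if m2 ≠ 0 ∧ IsSquare m2 then (1:ℝ) else 0) * (LL y - LL x)) := by
              simp_rw [add_div]
              rw [sum_add_distrib]; ring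
            rw [e]
            exact (abs_add_le _ _).trans (add_le_add (hkr1 x y hx hxy) (hkr2 x y hx hxy))⟩
      push_cast
      exact this

end Pool.Agent.D0H53.EB
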