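import Mathlib
import Pool.Agent.D0H53.EB.L8
import Pool.Agent.D0H53.EB.E8

/-! The law of the products: definitions, and the consequences of the limit law. -/

set_option autoImplicit false

open Finset Polynomial MeasureTheory ProbabilityTheory

namespace Pool.Agent.D0H53.EB

/-- the product of Birch and Swinnerton-Dyer -/
noncomputable def bsd (h : ℤ[X]) (x : ℕ) : ℝ :=
  ∏ p ∈ (range (x + 1)).filter (fun p : ℕ => p.Prime ∧ ¬ (p : ℤ) ∣ 16 * dsc h), (pts h p : ℝ) / p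

/-- mean over the members of a finite family -/
noncomputable def ave (S : Multiset ℤ[X]) (φ : ℤ[X] → ℝ) : ℝ := (S.map φ).sum / S.card

/-- normalised increments of the logarithm of the product -/
noncomputable def incr (e : ℝ) (h : ℤ[X]) {k : ℕ} (y : Fin (k + 1) → ℕ) (i : Fin k) : ℝ :=
  (Real.log (bsd h (y i.succ)) - Real.log (bsd h (y i.castSucc)) - e * (LL (y i.succ) - LL (y i.castSucc))) /
    √(LL (y i.succ) - LL (y i.castSucc))

/-- limit law for the increments -/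
def LawA (e : ℝ) (𝓢 : ℕ → Set (Multiset ℤ[X])) : Prop :=
  ∀ (k : ℕ) (F : (Fin k → ℝ) → ℝ), Continuous F → (∃ B, ∀ v, |F v| ≤ B) → ∀ η : ℝ, 0 < η →
    ∃ δ : ℝ, 0 < δ ∧ ∃ N₀ : ℕ, ∀ N : ℕ, N₀ ≤ N → ∀ S ∈ 𝓢 N, ∀ y : Fin (k + 1) → ℕ, 3 ≤ y 0 →
      (∀ i : Fin k, 1 / δ ≤ LL (y i.succ) - LL (y i.castSucc)) → y (Fin.last k) ^ 2 ≤ N →
        |ave S (fun h => F (incr e h y)) - ∫ v, F v ∂(gau k)| ≤ η

/-- typical size -/
def LawB (e : ℝ) (𝓢 : ℕ → Set (Multiset ℤ[X])) : Prop :=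
  ∀ ε : ℝ, 0 < ε → ∀ η : ℝ, 0 < η →
    ∃ δ : ℝ, 0 < δ ∧ ∃ N₀ : ℕ, ∀ N : ℕ, N₀ ≤ N → ∀ S ∈ 𝓢 N, ∀ x : ℕ, 1 / δ ≤ (x:ℝ) → x ^ 2 ≤ N →
        ave S ({h | ¬ ((Real.log x) ^ (e - ε) ≤ bsd h x ∧ bsd h x ≤ (Real.log x) ^ (e + ε))}.indicator 1) ≤ η

/-- no power of the logarithm on long ranges -/
def LawC (𝓢 : ℕ → Set (Multiset ℤ[X])) : Prop :=
  ∀ K : ℝ, ∀ η : ℝ, 0 < η →
    ∃ δ : ℝ, 0 < δ ∧ ∃ N₀ : ℕ, ∀ N : ℕ, N₀ ≤ N → ∀ S ∈ 𝓢 N, ∀ y y' : ℕ, 3 ≤ y → 1 / δ ≤ LL y' - LL y → y' ^ 2 ≤ N →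
        ave S ({h | ∃ ρ α : ℝ, ∀ z : ℕ, y ≤ z → z ≤ y' → |Real.log (bsd h z) - ρ * LL z - α| ≤ K}.indicator 1) ≤ η

lemma ave_mono {S : Multiset ℤ[X]} {φ ψ : ℤ[X] → ℝ} (h : ∀ x, φ x ≤ ψ x) : ave S φ ≤ ave S ψ := by
  unfold ave
  apply div_le_div_of_nonneg_right _ (Nat.cast_nonneg _)
  exact Multiset.sum_map_le_sum_map _ _ fun x _ => h x

lemma pts_pos (h : ℤ[X]) (p : ℕ) : 0 < pts h p := by unfold pts; omega

lemma bsd_pos (h : ℤ[X]) (x : ℕ) : 0 < bsd h x := by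
  unfold bsd
  apply prod_pos
  intro p hp
  rw [mem_filter] at hp
  have := pts_pos h p
  have := hp.2.1.pos
  positivity

/-- the product at `3` -/
lemma bsd_three (h : ℤ[X]) : |Real.log (bsd h 3)| ≤ 4 := by
  have hset : (range (3 + 1)).filter (fun p : ℕ => p.Prime ∧ ¬ (p : ℤ) ∣ 16 * dsc h) ⊆ {3} := by
    intro p hp
    rw [mem_filter, mem_range] at hp
    rw [mem_singleton]
    obtain ⟨h1, h2, h3⟩ := hp
    have h4 := h2.two_le
    by_contra hne
    have : p = 2 := by omega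
    subst this
    exact h3 ((by norm_num : ((2:ℕ):ℤ) ∣ 16).mul_right _)
  have h1 : (pts h 3 : ℝ) ≤ 10 := by
    have : pts h 3 ≤ 10 := by
      unfold pts
      have := card_filter_le (range 3 ×ˢ range 3) (fun q : ℕ × ℕ => ((3:ℕ) : ℤ) ∣ (q.2 : ℤ) ^ 2 - h.eval (q.1 : ℤ))
      rw [card_product, card_range] at this
      omega
    exact_mod_cast this
  have h2 : (1:ℝ) ≤ pts h 3 := by exact_mod_cast pts_pos h 3
  rcases subset_singleton_iff.1 hset with h0 | h0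
  · unfold bsd
    rw [h0, prod_empty, Real.log_one, abs_zero]
    norm_num
  · unfold bsd
    rw [h0, prod_singleton]
    push_cast
    rw [abs_le]
    constructor
    · have h3 : -Real.log 3 ≤ Real.log ((pts h 3 : ℝ) / 3) := by
        rw [← Real.log_inv]
        apply Real.log_le_log (by norm_num)
        rw [inv_eq_one_div]
        gcongr
      have h4 : Real.log 3 ≤ 3 - 1 := Real.log_le_sub_one_of_pos (by norm_num)
      linarith
    · have h3 : Real.log ((pts h 3 : ℝ) / 3) ≤ (pts h 3 : ℝ) / 3 - 1 := Real.log_le_sub_one_of_pos (by positivity)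
      linarith

/-- the increments -/
lemma log_bsd_sub (f g : ℤ[X]) (t : ℤ) {a b : ℕ} (hab : a ≤ b) :
    Real.log (bsd (f + C t * g) b) - Real.log (bsd (f + C t * g) a) = ∑ p ∈ blk a b, XX f g p t := by
  have key : ∀ x : ℕ, Real.log (bsd (f + C t * g) x) = ∑ p ∈ (range (x + 1)).filter Nat.Prime, XX f g p t := by
    intro x
    unfold bsd
    rw [Real.log_prod]
    · unfold XX
      rw [← filter_filter, sum_filter]
      refine sum_congr rfl fun p _ => ?_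
      by_cases h : (p:ℤ) ∣ 16 * dsc (f + C t * g)
      · rw [if_neg (fun h' => h' h), if_pos h]
      · rw [if_pos h, if_neg h]
    · intro p hp
      rw [mem_filter] at hp
      have := pts_pos (f + C t * g) p
      have := hp.2.1.pos
      positivity
  rw [key, key, sub_eq_iff_eq_add, ← sum_union]
  · congr 1
    ext p
    simp only [mem_union, mem_blk, mem_filter, mem_range]
    constructor
    · rintro ⟨h1, h2⟩
      rcases lt_or_ge a p with h3 | h3
      · exact Or.inl ⟨⟨h3, by omega⟩, h2⟩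
      · exact Or.inr ⟨by omega, h2⟩
    · rintro (⟨⟨h1, h2⟩, h3⟩ | ⟨h1, h2⟩)
      · exact ⟨by omega, h3⟩
      · exact ⟨by omega, h2⟩
  · rw [disjoint_left]
    intro p hp hp'
    rw [mem_blk] at hp
    rw [mem_filter, mem_range] at hp'
    omega

/-! ### Gaussian facts -/

lemma gau_coord {k : ℕ} (i : Fin k) (G : ℝ → ℝ) (hG : AEStronglyMeasurable G (gaussianReal 0 1)) : ∫ v, G (v i) ∂(gau k) = ∫ x, G x ∂(gaussianReal 0 1) := by
  unfold gau
  have h := measurePreserving_eval (μ := fun _ : Fin k => gaussianReal 0 1) i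
  calc ∫ v, G (v i) ∂(Measure.pi fun _ : Fin k => gaussianReal 0 1) =
      ∫ x, G x ∂(Measure.map (Function.eval i) (Measure.pi fun _ : Fin k => gaussianReal 0 1)) := by
        rw [integral_map h.measurable.aemeasurable (by rw [h.map_eq]; exact hG)]
    _ = _ := by rw [h.map_eq]

lemma gauss_sq : ∫ x : ℝ, x ^ 2 ∂(gaussianReal 0 1) = 1 := by
  have h1 := variance_fun_id_gaussianReal (μ := 0) (v := 1)
  have h2 := integral_id_gaussianReal (μ := 0) (v := 1)
  rw [variance_of_integral_eq_zero aemeasurable_id' (by simpa using h2)] at h1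
  simpa using h1

end Pool.Agent.D0H53.EB
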