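import Mathlib
import Pool.Agent.D0H53.EB.L9

/-! The consequences of the limit law. -/

set_option autoImplicit false

open Finset Polynomial MeasureTheory ProbabilityTheory

namespace Pool.Agent.D0H53.EB

lemma one_le_log_three : 1 ≤ Real.log 3 := by
  rw [Real.le_log_iff_exp_le (by norm_num)]
  linarith [Real.exp_one_lt_d9]

lemma LL_three : 0 ≤ LL 3 ∧ LL 3 ≤ 1 := by
  unfold LL
  push_cast
  have h1 := one_le_log_three
  have h2 : Real.log 3 ≤ 3 - 1 := Real.log_le_sub_one_of_pos (by norm_num)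
  refine ⟨Real.log_nonneg h1, ?_⟩
  have h3 := Real.log_le_sub_one_of_pos (show 0 < Real.log 3 by linarith)
  linarith

lemma log_rpow {x : ℕ} (hx : 3 ≤ x) (a : ℝ) : Real.log x ^ a = Real.exp (a * LL x) := by
  have h1 : (3:ℝ) ≤ x := by exact_mod_cast hx
  have h2 : 0 < Real.log x := Real.log_pos (by linarith)
  rw [Real.rpow_def_of_pos h2]
  congr 1
  unfold LL
  ring

theorem lawB_of_lawA {e : ℝ} {𝓢 : ℕ → Set (Multiset ℤ[X])} (hA : LawA e 𝓢) : LawB e 𝓢 := by
  intro ε hε η hη
  obtain ⟨T, hT⟩ : ∃ T, T = √(2 / η) := ⟨_, rfl⟩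
  have hT0 : 0 < T := by rw [hT]; positivity
  have hT2 : T ^ 2 = 2 / η := by rw [hT, Real.sq_sqrt (by positivity)]
  obtain ⟨F, hF⟩ : ∃ F : (Fin 1 → ℝ) → ℝ, F = fun v => min 1 ((v 0) ^ 2 / T ^ 2) := ⟨_, rfl⟩
  have hFc : Continuous F := by rw [hF]; fun_prop
  have hF0 : ∀ v, 0 ≤ F v := by intro v; rw [hF]; exact le_min zero_le_one (by positivity)
  have hF1 : ∀ v, F v ≤ 1 := by intro v; rw [hF]; exact min_le_left _ _
  obtain ⟨δ, hδ, N₀, h⟩ := hA 1 F hFc ⟨1, fun v => abs_le.2 ⟨by linarith [hF0 v], hF1 v⟩⟩ (η / 2) (by positivity)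
  have hint : ∫ v, F v ∂(gau 1) ≤ η / 2 := by
    have h1 : ∫ v, F v ∂(gau 1) = ∫ x, min 1 (x ^ 2 / T ^ 2) ∂(gaussianReal 0 1) := by
      rw [hF, ← gau_coord (0 : Fin 1) (fun x => min 1 (x ^ 2 / T ^ 2)) (by
        apply Continuous.aestronglyMeasurable
        fun_prop)]
    rw [h1]
    have hi2 : Integrable (fun x : ℝ => x ^ 2) (gaussianReal 0 1) := by
      have := (memLp_id_gaussianReal (μ := 0) (v := 1) 2).integrable_sq
      simpa using this
    calc ∫ x, min 1 (x ^ 2 / T ^ 2) ∂(gaussianReal 0 1) ≤ ∫ x, x ^ 2 / T ^ 2 ∂(gaussianReal 0 1) := by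
          apply integral_mono_of_nonneg
          · exact Filter.Eventually.of_forall fun x => le_min zero_le_one (by positivity)
          · exact hi2.div_const _
          · exact Filter.Eventually.of_forall fun x => min_le_right _ _
      _ = 1 / T ^ 2 := by rw [integral_div, gauss_sq]
      _ = η / 2 := by rw [hT2]; field_simp
  obtain ⟨L₀, hL₀⟩ : ∃ L₀ : ℝ, L₀ = 1 + ((T + 4 + |e|) / ε) ^ 2 + (1 / δ + 1) := ⟨_, rfl⟩
  have hL₀1 : 1 ≤ L₀ := by rw [hL₀]; have : 0 ≤ ((T + 4 + |e|) / ε) ^ 2 := sq_nonneg _; have : 0 < 1 / δ := by positivity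
                           linarith
  refine ⟨min δ (1 / Real.exp (Real.exp L₀)), lt_min hδ (by positivity), max N₀ 1, fun N hN S hS x hx hxN => ?_⟩
  have hN1 : 1 ≤ N := (le_max_right _ _).trans hN
  have hxbig : Real.exp (Real.exp L₀) ≤ x := by
    have h1 : Real.exp (Real.exp L₀) = 1 / (1 / Real.exp (Real.exp L₀)) := by rw [one_div_one_div]
    rw [h1]
    refine le_trans ?_ hx
    apply one_div_le_one_div_of_le (lt_min hδ (by positivity)) (min_le_right _ _)
  have hx0 : (0:ℝ) < x := (Real.exp_pos _).trans_le hxbig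
  have hlx : Real.exp L₀ ≤ Real.log x := by rwa [Real.le_log_iff_exp_le hx0]
  have hLx : L₀ ≤ LL x := by
    unfold LL
    rwa [Real.le_log_iff_exp_le ((Real.exp_pos _).trans_le hlx)]
  have hx3 : 3 ≤ x := by
    by_contra hh
    have h1 : (x:ℝ) ≤ 2 := by
      have : x ≤ 2 := by omega
      exact_mod_cast this
    have h2 : Real.exp 1 ≤ Real.exp (Real.exp L₀) := by
      apply Real.exp_le_exp.2
      have := Real.add_one_le_exp L₀
      linarith
    have h3 := Real.exp_one_gt_d9
    linarith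
  have hx3' : (3:ℝ) ≤ x := by exact_mod_cast hx3
  obtain ⟨L, hLd⟩ : ∃ L, L = LL x := ⟨_, rfl⟩
  rw [← hLd] at hLx
  have hL1 : 1 ≤ L := hL₀1.trans hLx
  obtain ⟨h30, h31⟩ := LL_three
  have hd1 : 0 < 1 / δ := by positivity
  have hsqn : 0 ≤ ((T + 4 + |e|) / ε) ^ 2 := sq_nonneg _
  have hH : 1 / δ ≤ LL x - LL 3 := by rw [← hLd]; linarith
  have hy := h N ((le_max_left _ _).trans hN) S hS ![3, x] (by simp) (by
    intro i
    have : i = 0 := Subsingleton.elim _ _
    subst this
    simpa using hH) (by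
    have h1 : (![3, x] (Fin.last 1) : ℕ) = x := rfl
    rw [h1]
    exact hxN)
  have hmono : ave S ({h | ¬ ((Real.log x) ^ (e - ε) ≤ bsd h x ∧ bsd h x ≤ (Real.log x) ^ (e + ε))}.indicator 1) ≤
      ave S (fun h => F (incr e h ![3, x])) := by
    apply ave_mono
    intro q
    by_cases hq : q ∈ {h : ℤ[X] | ¬ ((Real.log x) ^ (e - ε) ≤ bsd h x ∧ bsd h x ≤ (Real.log x) ^ (e + ε))}
    · rw [Set.indicator_of_mem hq]
      have hq' : ¬ ((Real.log x) ^ (e - ε) ≤ bsd q x ∧ bsd q x ≤ (Real.log x) ^ (e + ε)) := hq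
      have h1 : ε * L < |Real.log (bsd q x) - e * L| := by
        by_contra hh
        push Not at hh
        apply hq'
        rw [abs_le] at hh
        have hP := bsd_pos q x
        rw [log_rpow hx3, log_rpow hx3, ← hLd]
        constructor
        · rw [← Real.le_log_iff_exp_le hP]; linarith [hh.1]
        · rw [← Real.log_le_iff_le_exp hP]; linarith [hh.2]
      have hinc : incr e q ![3, x] 0 = (Real.log (bsd q x) - Real.log (bsd q 3) - e * (L - LL 3)) / √(L - LL 3) := by
        unfold incr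
        rw [hLd]
        simp
      have hb3 := bsd_three q
      have hH0 : 0 < L - LL 3 := by linarith
      have h2 : T * √(L - LL 3) ≤ |Real.log (bsd q x) - Real.log (bsd q 3) - e * (L - LL 3)| := by
        have h3 : |Real.log (bsd q x) - e * L| ≤ |Real.log (bsd q x) - Real.log (bsd q 3) - e * (L - LL 3)| + (4 + |e|) := by
          have h4 : Real.log (bsd q x) - e * L = (Real.log (bsd q x) - Real.log (bsd q 3) - e * (L - LL 3)) + (Real.log (bsd q 3) - e * LL 3) := by ring
          rw [h4]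
          refine (abs_add_le _ _).trans ?_
          have h5 : |Real.log (bsd q 3) - e * LL 3| ≤ 4 + |e| := by
            refine (abs_sub _ _).trans ?_
            rw [abs_mul, abs_of_nonneg h30]
            have : |e| * LL 3 ≤ |e| * 1 := by gcongr
            linarith
          linarith
        have h6 : √(L - LL 3) ≤ √L := Real.sqrt_le_sqrt (by linarith)
        have h7 : 1 ≤ √L := Real.one_le_sqrt.2 hL1
        have h8 : √L * √L = L := Real.mul_self_sqrt (by linarith)
        have h9 : (T + 4 + |e|) / ε ≤ √L := by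
          apply Real.le_sqrt_of_sq_le
          linarith
        rw [div_le_iff₀ hε] at h9
        have h10 : (T + 4 + |e|) * √L ≤ ε * L := by
          calc (T + 4 + |e|) * √L ≤ (√L * ε) * √L := by gcongr
            _ = ε * (√L * √L) := by ring
            _ = ε * L := by rw [h8]
        have h11 : T * √(L - LL 3) ≤ T * √L := by gcongr
        have h13 : (4 + |e|) * 1 ≤ (4 + |e|) * √L := by gcongr
        have h14 : (T + 4 + |e|) * √L = T * √L + (4 + |e|) * √L := by ring
        linarith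
      have h12 : T ^ 2 ≤ (incr e q ![3, x] 0) ^ 2 := by
        rw [hinc, div_pow, Real.sq_sqrt hH0.le, le_div_iff₀ hH0]
        calc T ^ 2 * (L - LL 3) = (T * √(L - LL 3)) ^ 2 := by rw [mul_pow, Real.sq_sqrt hH0.le]
          _ ≤ |Real.log (bsd q x) - Real.log (bsd q 3) - e * (L - LL 3)| ^ 2 := by gcongr
          _ = _ := sq_abs _
      rw [hF]
      show (1:ℝ) ≤ min 1 ((incr e q ![3, x] 0) ^ 2 / T ^ 2)
      rw [le_min_iff]
      exact ⟨le_rfl, by rw [le_div_iff₀ (by positivity)]; linarith⟩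
    · rw [Set.indicator_of_notMem hq]
      exact hF0 _
  rw [abs_le] at hy
  linarith [hy.2]

/-- the diagonal is a null set -/
lemma diag_null : gau 2 {v | v 0 = v 1} = 0 := by
  have h := measurePreserving_finTwoArrow (gaussianReal 0 1)
  have hna : NullSingletonClass (gaussianReal 0 1) := nullSingletonClass_gaussianReal one_ne_zero
  have hm : MeasurableSet {q : ℝ × ℝ | q.1 = q.2} := measurableSet_eq_fun measurable_fst measurable_snd
  have h1 : ((gaussianReal 0 1).prod (gaussianReal 0 1)) {q : ℝ × ℝ | q.1 = q.2} = 0 := by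
    rw [Measure.measure_prod_null hm]
    refine Filter.Eventually.of_forall fun x => ?_
    have : Prod.mk x ⁻¹' {q : ℝ × ℝ | q.1 = q.2} = {x} := by
      ext y
      simp [eq_comm]
    show (gaussianReal 0 1) (Prod.mk x ⁻¹' {q : ℝ × ℝ | q.1 = q.2}) = 0
    rw [this]
    exact measure_singleton x
  have h2 := h.measure_preimage hm.nullMeasurableSet
  rw [h1] at h2
  unfold gau
  exact h2

theorem lawC_of_lawA {e : ℝ} {𝓢 : ℕ → Set (Multiset ℤ[X])} (hA : LawA e 𝓢) : LawC 𝓢 := by
  intro K η hη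
  obtain ⟨G, hG⟩ : ∃ G : ℝ → (Fin 2 → ℝ) → ℝ, G = fun ζ v => max 0 (min 1 (2 - |v 0 - v 1| / (ζ * (1 + |v 1|)))) := ⟨_, rfl⟩
  have hGc : ∀ ζ, 0 < ζ → Continuous (G ζ) := by
    intro ζ hζ
    rw [hG]
    apply Continuous.max continuous_const
    apply Continuous.min continuous_const
    apply Continuous.sub continuous_const
    apply Continuous.div (by fun_prop) (by fun_prop)
    intro v
    positivity
  have hG0 : ∀ ζ v, 0 ≤ G ζ v := by intro ζ v; rw [hG]; exact le_max_left _ _
  have hG1 : ∀ ζ v, G ζ v ≤ 1 := by intro ζ v; rw [hG]; exact max_le zero_le_one (min_le_left _ _)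
  have hlim : Filter.Tendsto (fun n : ℕ => ∫ v, G (1 / ((n:ℝ) + 1)) v ∂(gau 2)) Filter.atTop (nhds (∫ _v, (0:ℝ) ∂(gau 2))) := by
    apply tendsto_integral_of_dominated_convergence (fun _ => (1:ℝ))
    · intro n
      exact (hGc _ (by positivity)).aestronglyMeasurable
    · exact integrable_const _
    · intro n
      refine Filter.Eventually.of_forall fun v => ?_
      rw [Real.norm_eq_abs, abs_of_nonneg (hG0 _ _)]
      exact hG1 _ _
    · have hne : ∀ᵐ v ∂(gau 2), v 0 ≠ v 1 := by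
        rw [ae_iff]
        simpa using diag_null
      filter_upwards [hne] with v hv
      have hd : 0 < |v 0 - v 1| := abs_pos.2 (sub_ne_zero.2 hv)
      obtain ⟨n0, hn0⟩ := exists_nat_ge (2 * (1 + |v 1|) / |v 0 - v 1|)
      apply tendsto_const_nhds.congr'
      filter_upwards [Filter.eventually_ge_atTop n0] with n hn
      have hn' : 2 * (1 + |v 1|) / |v 0 - v 1| ≤ (n:ℝ) + 1 := by
        have : (n0:ℝ) ≤ n := by exact_mod_cast hn
        linarith
      rw [div_le_iff₀ hd] at hn'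
      rw [hG]
      symm
      apply max_eq_left
      refine (min_le_right _ _).trans ?_
      rw [sub_nonpos, le_div_iff₀ (by positivity)]
      rw [show 2 * (1 / ((n:ℝ) + 1) * (1 + |v 1|)) = (2 * (1 + |v 1|)) / ((n:ℝ) + 1) by ring, div_le_iff₀ (by positivity)]
      linarith
  rw [integral_zero] at hlim
  obtain ⟨n, hn⟩ := (hlim.eventually (gt_mem_nhds (show (0:ℝ) < η / 2 by positivity))).exists
  obtain ⟨ζ, hζd⟩ : ∃ ζ : ℝ, ζ = 1 / ((n:ℝ) + 1) := ⟨_, rfl⟩
  rw [← hζd] at hn
  have hζ : 0 < ζ := by rw [hζd]; positivity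
  obtain ⟨δ, hδ, N₀, h⟩ := hA 2 (G ζ) (hGc ζ hζ) ⟨1, fun v => abs_le.2 ⟨by linarith [hG0 ζ v], hG1 ζ v⟩⟩ (η / 2) (by positivity)
  obtain ⟨H₀, hH₀⟩ : ∃ H₀ : ℝ, H₀ = 2 * ((4 * |K| / ζ) ^ 2 + 2 / ζ + 1 / δ + 2) := ⟨_, rfl⟩
  have hd1 : 0 < 1 / δ := by positivity
  have hz1 : 0 < 2 / ζ := by positivity
  have hsqn : 0 ≤ (4 * |K| / ζ) ^ 2 := sq_nonneg _
  have hH₀4 : 4 ≤ H₀ := by rw [hH₀]; linarith
  refine ⟨min δ (1 / H₀), lt_min hδ (by positivity), max N₀ 1, fun N hN S hS y y' hy3 hyy hyN => ?_⟩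
  have hN1 : 1 ≤ N := (le_max_right _ _).trans hN
  have hHbig : H₀ ≤ LL y' - LL y := by
    have h1 : H₀ = 1 / (1 / H₀) := by rw [one_div_one_div]
    rw [h1]
    refine le_trans ?_ hyy
    apply one_div_le_one_div_of_le (lt_min hδ (by positivity)) (min_le_right _ _)
  -- the middle point
  obtain ⟨m, hm⟩ : ∃ m, m = (LL y + LL y') / 2 := ⟨_, rfl⟩
  obtain ⟨z, hz⟩ : ∃ z : ℕ, z = ⌊Real.exp (Real.exp m)⌋₊ := ⟨_, rfl⟩
  have hy3' : (3:ℝ) ≤ y := by exact_mod_cast hy3
  have hy'y : y < y' := by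
    by_contra hh
    push Not at hh
    rcases lt_or_ge y' 3 with h1 | h1
    · -- `LL y' ≤ 0`
      have h2 : LL y' ≤ 0 := by
        unfold LL
        interval_cases y'
        · simp
        · simp
        · apply Real.log_nonpos
          · exact Real.log_nonneg (by norm_num)
          · rw [Real.log_le_iff_le_exp (by norm_num)]
            push_cast
            linarith [Real.exp_one_gt_d9]
      have h3 : 0 ≤ LL y := by
        have := LL_mono (a := 3) le_rfl hy3
        linarith [LL_three.1]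
      linarith
    · have := LL_mono h1 hh
      linarith
  have hy'3 : 3 ≤ y' := by omega
  have hy'3' : (3:ℝ) ≤ y' := by exact_mod_cast hy'3
  have hly : 1 ≤ Real.log y := one_le_log_three.trans (Real.log_le_log (by norm_num) hy3')
  have hly' : 1 ≤ Real.log y' := one_le_log_three.trans (Real.log_le_log (by norm_num) hy'3')
  have eLy : Real.exp (LL y) = Real.log y := by unfold LL; rw [Real.exp_log (by linarith)]
  have eLy' : Real.exp (LL y') = Real.log y' := by unfold LL; rw [Real.exp_log (by linarith)]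
  have hmy : LL y + 2 ≤ m := by rw [hm]; linarith
  have hmy' : m ≤ LL y' := by rw [hm]; linarith
  have hyz : y ≤ z := by
    rw [hz]
    apply Nat.le_floor
    calc (y:ℝ) = Real.exp (Real.exp (LL y)) := by rw [eLy, Real.exp_log (by linarith)]
      _ ≤ Real.exp (Real.exp m) := by
        apply Real.exp_le_exp.2
        apply Real.exp_le_exp.2
        linarith
  have hzE : (z:ℝ) ≤ Real.exp (Real.exp m) := by rw [hz]; exact Nat.floor_le (Real.exp_pos _).le
  have hEz : Real.exp (Real.exp m) < z + 1 := by rw [hz]; exact Nat.lt_floor_add_one _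
  have hzy' : z ≤ y' := by
    have : (z:ℝ) ≤ y' := by
      calc (z:ℝ) ≤ Real.exp (Real.exp m) := hzE
        _ ≤ Real.exp (Real.exp (LL y')) := by
          apply Real.exp_le_exp.2
          apply Real.exp_le_exp.2
          linarith
        _ = y' := by rw [eLy', Real.exp_log (by linarith)]
    exact_mod_cast this
  have hz3 : 3 ≤ z := hy3.trans hyz
  have hz3' : (3:ℝ) ≤ z := by exact_mod_cast hz3
  have hlz : 1 ≤ Real.log z := one_le_log_three.trans (Real.log_le_log (by norm_num) hz3')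
  have hLzm : LL z ≤ m := by
    unfold LL
    rw [Real.log_le_iff_le_exp (by linarith), Real.log_le_iff_le_exp (by linarith)]
    exact hzE
  have hmLz : m - 1 ≤ LL z := by
    have h1 : Real.exp (Real.exp m) ≤ 2 * z := by linarith
    have h2 : Real.exp m ≤ Real.log 2 + Real.log z := by
      rw [← Real.log_mul (by norm_num) (by linarith), Real.le_log_iff_exp_le (by positivity)]
      exact h1
    have h3 : Real.log 2 ≤ Real.log z := Real.log_le_log (by norm_num) (by linarith)
    have h4 : Real.exp (m - 1) ≤ Real.log z := by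
      rw [Real.exp_sub, div_le_iff₀ (Real.exp_pos _)]
      have h5 := Real.exp_one_gt_d9
      have h6 : Real.log z * 2 ≤ Real.log z * Real.exp 1 := mul_le_mul_of_nonneg_left (by linarith) (by linarith)
      linarith
    unfold LL
    rwa [Real.le_log_iff_exp_le (by linarith)]
  obtain ⟨H1, hH1⟩ : ∃ H1, H1 = LL z - LL y := ⟨_, rfl⟩
  obtain ⟨H2, hH2⟩ : ∃ H2, H2 = LL y' - LL z := ⟨_, rfl⟩
  have hH1b : (4 * |K| / ζ) ^ 2 + 2 / ζ + 1 / δ + 1 ≤ H1 := by rw [hH1]; linarith
  have hH12 : H1 ≤ H2 := by rw [hH1, hH2]; linarith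
  have hH21 : H2 ≤ H1 + 2 := by rw [hH1, hH2]; linarith
  have hH10 : 0 < H1 := by linarith
  have hH20 : 0 < H2 := by linarith
  have hl := h N ((le_max_left _ _).trans hN) S hS ![y, z, y'] (by simpa using hy3) (by
    rw [Fin.forall_fin_two]
    constructor
    · show 1 / δ ≤ LL z - LL y
      rw [← hH1]; linarith
    · show 1 / δ ≤ LL y' - LL z
      rw [← hH2]; linarith) (by
    have h1 : (![y, z, y'] (Fin.last 2) : ℕ) = y' := rfl
    rw [h1]
    exact hyN)
  have hmono : ave S ({h | ∃ ρ α : ℝ, ∀ z : ℕ, y ≤ z → z ≤ y' → |Real.log (bsd h z) - ρ * LL z - α| ≤ K}.indicator 1) ≤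
      ave S (fun h => G ζ (incr e h ![y, z, y'])) := by
    apply ave_mono
    intro q
    by_cases hq : q ∈ {h : ℤ[X] | ∃ ρ α : ℝ, ∀ z : ℕ, y ≤ z → z ≤ y' → |Real.log (bsd h z) - ρ * LL z - α| ≤ K}
    · rw [Set.indicator_of_mem hq]
      obtain ⟨ρ, α, hρ⟩ := hq
      have k1 := hρ y le_rfl hy'y.le
      have k2 := hρ z hyz hzy'
      have k3 := hρ y' hy'y.le le_rfl
      obtain ⟨A1, hA1⟩ : ∃ A1, A1 = Real.log (bsd q z) - Real.log (bsd q y) := ⟨_, rfl⟩
      obtain ⟨A2, hA2⟩ : ∃ A2, A2 = Real.log (bsd q y') - Real.log (bsd q z) := ⟨_, rfl⟩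
      have hKa : K ≤ |K| := le_abs_self K
      have j1 : |A1 - ρ * H1| ≤ 2 * |K| := by
        have : A1 - ρ * H1 = (Real.log (bsd q z) - ρ * LL z - α) - (Real.log (bsd q y) - ρ * LL y - α) := by rw [hA1, hH1]; ring
        rw [this]
        refine (abs_sub _ _).trans ?_
        linarith
      have j2 : |A2 - ρ * H2| ≤ 2 * |K| := by
        have : A2 - ρ * H2 = (Real.log (bsd q y') - ρ * LL y' - α) - (Real.log (bsd q z) - ρ * LL z - α) := by rw [hA2, hH2]; ring
        rw [this]
        refine (abs_sub _ _).trans ?_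
        linarith
      obtain ⟨v0, hv0⟩ : ∃ v0, v0 = (A1 - e * H1) / √H1 := ⟨_, rfl⟩
      obtain ⟨v1, hv1⟩ : ∃ v1, v1 = (A2 - e * H2) / √H2 := ⟨_, rfl⟩
      have i0 : incr e q ![y, z, y'] 0 = v0 := by
        unfold incr
        rw [hv0, hA1, hH1]
        rfl
      have i1 : incr e q ![y, z, y'] 1 = v1 := by
        unfold incr
        rw [hv1, hA2, hH2]
        rfl
      obtain ⟨s1, hs1⟩ : ∃ s1, s1 = √H1 := ⟨_, rfl⟩
      obtain ⟨s2, hs2⟩ : ∃ s2, s2 = √H2 := ⟨_, rfl⟩
      have s10 : 0 < s1 := by rw [hs1]; exact Real.sqrt_pos.2 hH10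
      have s20 : 0 < s2 := by rw [hs2]; exact Real.sqrt_pos.2 hH20
      have s1s : s1 ^ 2 = H1 := by rw [hs1]; exact Real.sq_sqrt hH10.le
      have s2s : s2 ^ 2 = H2 := by rw [hs2]; exact Real.sq_sqrt hH20.le
      have s12 : s1 ≤ s2 := by rw [hs1, hs2]; exact Real.sqrt_le_sqrt hH12
      rw [← hs1] at hv0
      rw [← hs2] at hv1
      have a1 : A1 = e * H1 + s1 * v0 := by rw [hv0]; field_simp; ring
      have a2 : A2 = e * H2 + s2 * v1 := by rw [hv1]; field_simp; ring
      -- compare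
      have c1 : |s1 * (s2 * v0 - s1 * v1)| * s2 ≤ 2 * |K| * H2 + 2 * |K| * H1 := by
        have e1 : s1 * (s2 * v0 - s1 * v1) * s2 = (A1 - ρ * H1) * H2 - (A2 - ρ * H2) * H1 := by
          rw [a1, a2, ← s1s, ← s2s]; ring
        calc |s1 * (s2 * v0 - s1 * v1)| * s2 = |s1 * (s2 * v0 - s1 * v1) * s2| := by
              rw [abs_mul (s1 * (s2 * v0 - s1 * v1)), abs_of_pos s20]
          _ = |(A1 - ρ * H1) * H2 - (A2 - ρ * H2) * H1| := by rw [e1]
          _ ≤ |(A1 - ρ * H1) * H2| + |(A2 - ρ * H2) * H1| := abs_sub _ _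
          _ ≤ 2 * |K| * H2 + 2 * |K| * H1 := by
            rw [abs_mul, abs_mul, abs_of_pos hH10, abs_of_pos hH20]
            gcongr
      have c2 : |s2 * v0 - s1 * v1| * s1 ≤ 4 * |K| * s2 := by
        rw [abs_mul, abs_of_pos s10] at c1
        have : 2 * |K| * H2 + 2 * |K| * H1 ≤ 4 * |K| * s2 * s2 := by
          rw [mul_assoc (4 * |K|), ← sq, s2s]
          have := mul_le_mul_of_nonneg_left hH12 (abs_nonneg K)
          linarith
        have c3 : (|s2 * v0 - s1 * v1| * s1) * s2 ≤ (4 * |K| * s2) * s2 := by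
          calc (|s2 * v0 - s1 * v1| * s1) * s2 = s1 * |s2 * v0 - s1 * v1| * s2 := by ring
            _ ≤ _ := c1
            _ ≤ _ := this
        exact le_of_mul_le_mul_right c3 s20
      have c4 : 4 * |K| ≤ ζ * s1 := by
        have : 4 * |K| / ζ ≤ s1 := by
          rw [hs1]
          apply Real.le_sqrt_of_sq_le
          linarith
        rw [div_le_iff₀ hζ] at this
        linarith
      have c5 : |s2 * v0 - s1 * v1| ≤ ζ * s2 := by
        have : |s2 * v0 - s1 * v1| * s1 ≤ (ζ * s2) * s1 := by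
          calc |s2 * v0 - s1 * v1| * s1 ≤ 4 * |K| * s2 := c2
            _ ≤ ζ * s1 * s2 := by gcongr
            _ = _ := by ring
        exact le_of_mul_le_mul_right this s10
      have c6 : s2 - s1 ≤ ζ * s2 := by
        have h1 : (s2 - s1) * s2 ≤ 2 := by
          have h7 : (s2 - s1) * (s2 + s1) = H2 - H1 := by rw [← s1s, ← s2s]; ring
          have h8 := mul_nonneg (sub_nonneg.2 s12) s10.le
          linarith
        have h2 : 2 ≤ ζ * s2 * s2 := by
          rw [mul_assoc, ← sq, s2s]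
          have : 2 / ζ ≤ H2 := by linarith
          rw [div_le_iff₀ hζ] at this
          linarith
        exact le_of_mul_le_mul_right (h1.trans h2) s20
      have c7 : |v0 - v1| ≤ ζ * (1 + |v1|) := by
        have h1 : s2 * (v0 - v1) = (s2 * v0 - s1 * v1) - (s2 - s1) * v1 := by ring
        have h2 : s2 * |v0 - v1| ≤ s2 * (ζ * (1 + |v1|)) := by
          calc s2 * |v0 - v1| = |s2 * (v0 - v1)| := by rw [abs_mul, abs_of_pos s20]
            _ ≤ |s2 * v0 - s1 * v1| + |(s2 - s1) * v1| := by rw [h1]; exact abs_sub _ _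
            _ ≤ ζ * s2 + (ζ * s2) * |v1| := by
              rw [abs_mul, abs_of_nonneg (sub_nonneg.2 s12)]
              gcongr
            _ = _ := by ring
        exact le_of_mul_le_mul_left h2 s20
      rw [hG]
      show (1:ℝ) ≤ max 0 (min 1 (2 - |incr e q ![y, z, y'] 0 - incr e q ![y, z, y'] 1| / (ζ * (1 + |incr e q ![y, z, y'] 1|))))
      rw [i0, i1]
      apply le_max_of_le_right
      rw [le_min_iff]
      refine ⟨le_rfl, ?_⟩
      have : |v0 - v1| / (ζ * (1 + |v1|)) ≤ 1 := by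
        rw [div_le_one (by positivity)]
        exact c7
      linarith
    · rw [Set.indicator_of_notMem hq]
      exact hG0 _ _
  rw [abs_le] at hl
  linarith [hl.2]

end Pool.Agent.D0H53.EB
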