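import Mathlib
import Pool.Agent.D0H53.EB.L10

/-! The limit law for pencils and for boxes. -/

set_option autoImplicit false

open Finset Polynomial MeasureTheory ProbabilityTheory

namespace Pool.Agent.D0H53.EB

/-- `N` consecutive members of the pencil -/
def pencil (f g : ℤ[X]) (N : ℕ) : Set (Multiset ℤ[X]) :=
  {S | ∃ t₀ : ℤ, S = (Multiset.range N).map fun i : ℕ => f + C (t₀ + (i : ℤ)) * g}

lemma ave_pencil (f g : ℤ[X]) (N : ℕ) (t₀ : ℤ) (φ : ℤ[X] → ℝ) :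
    ave ((Multiset.range N).map fun i : ℕ => f + C (t₀ + (i : ℤ)) * g) φ = av N t₀ (fun t => φ (f + C t * g)) := by
  unfold ave av
  rw [Multiset.map_map, Multiset.card_map, Multiset.card_range, smul_eq_mul, inv_mul_eq_div]
  rfl

lemma incr_eq {e : ℝ} (f g : ℤ[X]) {k : ℕ} {y : Fin (k + 1) → ℕ} {A : ℝ} (hA : 0 < A) (hy : Thr k y A) (t : ℤ) :
    incr e (f + C t * g) y = vec e (XX f g) y t := by
  ext i
  have hm := (hy.monotone hA).1
  have hle : y i.castSucc ≤ y i.succ := hm (Fin.castSucc_le_succ i)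
  unfold incr vec inc
  rw [log_bsd_sub f g t hle]

theorem lawA_pencil {f g : ℤ[X]} (hf : f.Monic) (hf3 : f.natDegree = 3) (hg0 : g ≠ 0) (hg : g.natDegree ≤ 2)
    (hr : g.natDegree = 2 → ∃ ρ : ℚ, aeval ρ g = 0)
    (hj : ∃ s t : ℤ, cc4 (f + C s * g) ^ 3 * dsc (f + C t * g) ≠ cc4 (f + C t * g) ^ 3 * dsc (f + C s * g)) : LawA (rk f g + 1 / 2) (pencil f g) := by
  obtain ⟨K, hK⟩ := fam_all hf hf3 hg0 hg hr hj
  intro k F hF hB η hη
  obtain ⟨δ, hδ, N₀, h⟩ := law3 K (rk f g + 1 / 2) k F hF hB hη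
  refine ⟨δ, hδ, N₀, fun N hN S hS y hy3 hyi hyN => ?_⟩
  obtain ⟨t₀, rfl⟩ := hS
  have hThr : Thr k y (1 / δ) := ⟨hy3, hyi⟩
  rw [ave_pencil]
  have := h N hN (XX f g) hK t₀ y hThr hyN
  have e1 : ∀ t, incr (rk f g + 1 / 2) (f + C t * g) y = vec (rk f g + 1 / 2) (XX f g) y t := fun t => incr_eq f g (by positivity) hThr t
  simp_rw [e1]
  exact this

end Pool.Agent.D0H53.EB
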