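import Mathlib
import Pool.Agent.D0H53.EB.L11

/-! The limit law for boxes. -/

set_option autoImplicit false

open Finset Polynomial MeasureTheory ProbabilityTheory

namespace Pool.Agent.D0H53.EB

/-- weak form of the statistics, without the second moment -/
lemma log_weak {T : Type*} [Fintype T] [DecidableEq T] (S : T → ℝ) (bad : Finset T) {s c : ℝ} (hs : 6 ≤ s) (hT : (Fintype.card T : ℝ) = s ^ 2)
    (h1 : ∑ t, S t = s ^ 2 * c) (h3 : ∀ t, |S t| ≤ 2 * s) (h4 : bad.card ≤ 4)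
    (hc : |c| ≤ 2) {L : T → ℝ} (hL : ∀ t, L t = if t ∈ bad then 0 else Real.log (1 + (1 + S t) / s ^ 2)) :
    (∀ t, |L t| ≤ 6 / s) ∧ |∑ t, L t| ≤ 20 := by
  have hs0 : 0 < s := by linarith
  obtain ⟨u, hu⟩ : ∃ u : T → ℝ, u = fun t => (1 + S t) / s ^ 2 := ⟨_, rfl⟩
  have hub : ∀ t, |u t| ≤ 3 / s := by
    intro t
    rw [hu]
    simp only
    rw [abs_div, abs_of_pos (by positivity : 0 < s ^ 2), div_le_div_iff₀ (by positivity) hs0]
    have h5 := h3 t
    have h6 : |1 + S t| ≤ 1 + 2 * s := by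
      rw [abs_le] at h5 ⊢
      constructor <;> linarith [h5.1, h5.2]
    nlinarith [abs_nonneg (1 + S t)]
  have h3s : 3 / s ≤ 1 / 2 := by rw [div_le_div_iff₀ hs0 (by norm_num)]; linarith
  have hu2 : ∀ t, |u t| ≤ 1 / 2 := fun t => (hub t).trans h3s
  have hus : ∀ t, u t ^ 2 ≤ 9 / s ^ 2 := by
    intro t
    rw [← sq_abs]
    calc |u t| ^ 2 ≤ (3 / s) ^ 2 := pow_le_pow_left₀ (abs_nonneg _) (hub t) 2
      _ = 9 / s ^ 2 := by ring
  have hg : ∀ t, t ∉ bad → |L t - u t + u t ^ 2 / 2| ≤ 2 * |u t| ^ 3 := by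
    intro t ht
    rw [hL, if_neg ht]
    have := log_two (hu2 t)
    rw [hu] at this ⊢
    exact this
  have hg2 : ∀ t, t ∉ bad → |L t - u t| ≤ 3 / 2 * u t ^ 2 := by
    intro t ht
    have h5 := hg t ht
    have h6 : 2 * |u t| ^ 3 ≤ u t ^ 2 := by
      rw [← sq_abs (u t)]
      nlinarith [sq_nonneg |u t|, hu2 t, abs_nonneg (u t)]
    rw [abs_le] at h5 ⊢
    constructor <;> nlinarith [sq_nonneg (u t), h5.1, h5.2]
  have hg3 : ∀ t, |L t| ≤ 2 * |u t| := by
    intro t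
    by_cases ht : t ∈ bad
    · rw [hL, if_pos ht, abs_zero]; positivity
    · have h5 := hg2 t ht
      have h6 : 3 / 2 * u t ^ 2 ≤ |u t| := by
        rw [← sq_abs (u t)]
        nlinarith [hu2 t, abs_nonneg (u t)]
      calc |L t| = |(L t - u t) + u t| := by ring_nf
        _ ≤ |L t - u t| + |u t| := abs_add_le _ _
        _ ≤ _ := by linarith
  have hsu : ∑ t, u t = 1 + c := by
    rw [hu]
    simp only
    rw [← sum_div, sum_add_distrib, h1, sum_const, card_univ, nsmul_eq_mul, hT]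
    field_simp
  have hcard : (bad.card : ℝ) ≤ 4 := by exact_mod_cast h4
  refine ⟨fun t => (hg3 t).trans ?_, ?_⟩
  · have := hub t
    calc 2 * |u t| ≤ 2 * (3 / s) := by gcongr
      _ = 6 / s := by ring
  · have h5 : |∑ t, (L t - u t)| ≤ 16 := by
      refine (abs_sum_le_sum_abs _ _).trans ?_
      calc ∑ t, |L t - u t| ≤ ∑ t, ((if t ∈ bad then 3 / s else 0) + 3 / 2 * (9 / s ^ 2)) := by
            refine sum_le_sum fun t _ => ?_
            by_cases ht : t ∈ bad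
            · rw [if_pos ht, hL, if_pos ht, zero_sub, abs_neg]
              have : 0 ≤ 3 / 2 * (9 / s ^ 2) := by positivity
              linarith [hub t]
            · rw [if_neg ht, zero_add]
              refine (hg2 t ht).trans ?_
              gcongr
              exact hus t
        _ = (bad.card : ℝ) * (3 / s) + s ^ 2 * (3 / 2 * (9 / s ^ 2)) := by
            rw [sum_add_distrib, sum_const, card_univ, nsmul_eq_mul, hT, sum_ite_mem, univ_inter, sum_const, nsmul_eq_mul]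
        _ ≤ 4 * (1 / 2) + 27 / 2 := by
            have : s ^ 2 * (3 / 2 * (9 / s ^ 2)) = 27 / 2 := by field_simp; norm_num
            rw [this]
            gcongr
        _ ≤ 16 := by norm_num
    rw [sum_sub_distrib, hsu] at h5
    rw [abs_le] at h5 hc ⊢
    constructor <;> linarith [h5.1, h5.2, hc.1, hc.2]

section
variable {F : Type*} [Field F] [Fintype F] [DecidableEq F]

lemma weak0 (hF : ringChar F ≠ 2) (h3 : (3 : F) ≠ 0) (f2 f1 f0 : F) {s : ℝ} (hs : s = √(Fintype.card F)) (h6 : 6 ≤ s) :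
    (∀ t, |lx f2 f1 f0 0 0 1 t| ≤ 6 / s) ∧ |∑ t, lx f2 f1 f0 0 0 1 t| ≤ 20 := by
  have hs0 : 0 < s := by linarith
  have hT : (Fintype.card F : ℝ) = s ^ 2 := by rw [hs, Real.sq_sqrt (Nat.cast_nonneg _)]
  have h1 : ∑ t : F, Sg (cu f2 f1 f0) (qu 0 0 1) t = s ^ 2 * 0 := by
    rw [sum_Sg hF]
    have : (univ.filter fun x : F => qu 0 0 1 x = 0) = ∅ := by
      ext x; simp [qu]
    rw [this]; simp
  have h3' : ∀ t : F, |Sg (cu f2 f1 f0) (qu 0 0 1) t| ≤ 2 * s := by
    intro t; rw [hs]; exact size_all hF _ _ _ _ _ _ _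
  have hsing : (univ.filter fun t : F => dc (f2 + t * 0) (f1 + t * 0) (f0 + t * 1) = 0).card ≤ 4 := by
    obtain ⟨P, hP⟩ : ∃ P : F[X], P = C (-27 * 1 ^ 2) * X ^ 2 + C (-4 * f2 ^ 3 * 1 - 54 * f0 * 1 + 18 * f2 * f1 * 1) * X + C (dc f2 f1 f0) := ⟨_, rfl⟩
    have h27 : (-27 * 1 ^ 2 : F) ≠ 0 := by
      have : (-27 * 1 ^ 2 : F) = -(3 ^ 3) := by ring
      rw [this]
      exact neg_ne_zero.2 (pow_ne_zero _ h3)
    have hd : P.natDegree = 2 := by rw [hP]; exact natDegree_quadratic h27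
    apply card_zero_le (P := P) (by intro h; rw [h] at hd; simp at hd) (by rw [hd]; norm_num)
    intro t ht
    rw [← ht, hP]
    unfold dc
    simp
    ring
  exact log_weak (fun t => Sg (cu f2 f1 f0) (qu 0 0 1) t) (univ.filter fun t : F => dc (f2 + t * 0) (f1 + t * 0) (f0 + t * 1) = 0)
    (L := fun t => lx f2 f1 f0 0 0 1 t) h6 hT h1 h3' hsing (by rw [abs_zero]; norm_num) (by
      intro t
      unfold lx
      rw [hT]
      simp only [mem_filter, mem_univ, true_and])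

end

/-- the cubic `x³ + a x` -/
noncomputable def fa (a : ℤ) : ℤ[X] := X ^ 3 + C a * X

lemma fa_eq (a : ℤ) : fa a = C 1 * X ^ 3 + C 0 * X ^ 2 + C a * X + C 0 := by unfold fa; simp

lemma fa_deg (a : ℤ) : (fa a).natDegree = 3 := by rw [fa_eq]; exact natDegree_cubic one_ne_zero

lemma fa_monic (a : ℤ) : (fa a).Monic := by
  unfold Monic leadingCoeff
  rw [fa_deg]
  unfold fa
  simp only [coeff_add, coeff_X_pow, coeff_C_mul, coeff_X]
  norm_num

lemma fa_coeff2 (a : ℤ) : (fa a).coeff 2 = 0 := by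
  unfold fa
  simp only [coeff_add, coeff_X_pow, coeff_C_mul, coeff_X]
  norm_num

lemma fa_coeff1 (a : ℤ) : (fa a).coeff 1 = a := by
  unfold fa
  simp only [coeff_add, coeff_X_pow, coeff_C_mul, coeff_X]
  norm_num

lemma fa_coeff0 (a : ℤ) : (fa a).coeff 0 = 0 := by
  unfold fa
  simp only [coeff_add, coeff_X_pow, coeff_C_mul, coeff_X]
  norm_num


lemma one_deg : (1 : ℤ[X]).natDegree ≤ 2 := by simp

lemma loc_fa (a : ℤ) (p : ℕ) (hp : 36 < p) (hF : Fact p.Prime) (ha : ¬ (p:ℤ) ∣ a) :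
    Loc ((fa a).coeff 2 : ZMod p) ((fa a).coeff 1 : ZMod p) ((fa a).coeff 0 : ZMod p) ((1 : ℤ[X]).coeff 2 : ZMod p) ((1 : ℤ[X]).coeff 1 : ZMod p)
      ((1 : ℤ[X]).coeff 0 : ZMod p) 0 := by
  have hp2 : ringChar (ZMod p) ≠ 2 := by rw [ZMod.ringChar_zmod_n]; omega
  have h3 : (3 : ZMod p) ≠ 0 := by
    have := cast_ne (m := 3) (by norm_num) (p := p) (by
      have : (3:ℤ).natAbs = 3 := rfl
      omega)
    exact_mod_cast this
  have e2 : (1 : ℤ[X]).coeff 2 = 0 := by rw [coeff_one]; simp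
  have e1 : (1 : ℤ[X]).coeff 1 = 0 := by rw [coeff_one]; simp
  have e0 : (1 : ℤ[X]).coeff 0 = 1 := by rw [coeff_one]; simp
  rw [fa_coeff2, fa_coeff1, fa_coeff0, e2, e1, e0, Int.cast_zero, Int.cast_one]
  apply loc0 hp2 h3 one_ne_zero
  have ha' : (a : ZMod p) ≠ 0 := by
    intro h
    rw [ZMod.intCast_zmod_eq_zero_iff_dvd] at h
    exact ha h
  have : (0:ZMod p) ^ 2 - 3 * a = -(3 * a) := by ring
  rw [this]
  exact neg_ne_zero.2 (mul_ne_zero h3 ha')

lemma weak_fa (a : ℤ) (p : ℕ) (hp : 36 < p) (hF : p.Prime) :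
    (∀ z, |XX (fa a) 1 p z| ≤ 6 / √p) ∧ |av p 0 (XX (fa a) 1 p)| ≤ 20 / p := by
  have : Fact p.Prime := ⟨hF⟩
  have hp2 : p ≠ 2 := by omega
  have hp2' : ringChar (ZMod p) ≠ 2 := by rw [ZMod.ringChar_zmod_n]; omega
  have h3 : (3 : ZMod p) ≠ 0 := by
    have := cast_ne (m := 3) (by norm_num) (p := p) (by
      have : (3:ℤ).natAbs = 3 := rfl
      omega)
    exact_mod_cast this
  have e2 : (1 : ℤ[X]).coeff 2 = 0 := by rw [coeff_one]; simp
  have e1 : (1 : ℤ[X]).coeff 1 = 0 := by rw [coeff_one]; simp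
  have e0 : (1 : ℤ[X]).coeff 0 = 1 := by rw [coeff_one]; simp
  have hs : √(p:ℝ) = √(Fintype.card (ZMod p) : ℝ) := by rw [ZMod.card]
  obtain ⟨h1, h2⟩ := weak0 hp2' h3 (0 : ZMod p) (a : ZMod p) 0 hs (six_le_sqrt hp.le)
  have hp0 : (0:ℝ) < p := by exact_mod_cast hF.pos
  constructor
  · intro z
    rw [XX_eq (fa_monic a) (fa_deg a) one_deg p hp2, fa_coeff2, fa_coeff1, fa_coeff0, e2, e1, e0, Int.cast_zero, Int.cast_one]
    exact h1 _
  · have e3 := av_XX (fa_monic a) (fa_deg a) one_deg p hp2 (fun x => x)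
    have e4 : av p 0 (XX (fa a) 1 p) = _ := e3
    rw [e4, fa_coeff2, fa_coeff1, fa_coeff0, e2, e1, e0, Int.cast_zero, Int.cast_one, abs_div, abs_of_pos hp0]
    gcongr

/-- the modified family -/
noncomputable def Xm (a : ℤ) (M : ℕ) (p : ℕ) (b : ℤ) : ℝ := if (p:ℤ) ∣ a ∧ M < p then XX (fa 1) 1 p b else XX (fa a) 1 p b

lemma Xm_cases (a : ℤ) (M p : ℕ) : ((p:ℤ) ∣ a ∧ M < p ∧ Xm a M p = XX (fa 1) 1 p) ∨ (¬ ((p:ℤ) ∣ a ∧ M < p) ∧ Xm a M p = XX (fa a) 1 p) := by
  by_cases h : (p:ℤ) ∣ a ∧ M < p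
  · left
    refine ⟨h.1, h.2, ?_⟩
    ext b
    unfold Xm
    rw [if_pos h]
  · right
    refine ⟨h, ?_⟩
    ext b
    unfold Xm
    rw [if_neg h]

/-- the sum over the prime divisors -/
noncomputable def sdiv (M : ℕ) (a : ℤ) : ℝ := ∑ p ∈ (range (M + 1)).filter (fun p : ℕ => p.Prime ∧ (p:ℤ) ∣ a), (1:ℝ) / p

lemma not_dvd_one {p : ℕ} (hp : p.Prime) : ¬ (p:ℤ) ∣ 1 := by
  intro h
  have := Int.le_of_dvd one_pos h
  have := hp.two_le
  omega

theorem fam_box : ∃ K₀ K₁ : ℝ, 0 ≤ K₁ ∧ ∀ (K : ℝ) (a : ℤ) (M : ℕ), sdiv M a ≤ K → Fam (K₀ + K₁ * K) (1 / 2) (Xm a M) := by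
  obtain ⟨K₀, hK₀, hfam⟩ := fam_of
  refine ⟨K₀ + 0 + (3 + (1296:ℝ) ^ 2 + 1296) * (37 + 1), 3 + (1296:ℝ) ^ 2 + 1296, by norm_num, fun K a M hK => ?_⟩
  have h := hfam (Xm a M) (fun _ => 0) ((range 37).filter Nat.Prime ∪ (range (M + 1)).filter (fun p : ℕ => p.Prime ∧ (p:ℤ) ∣ a)) 0 1296 (37 + K) 0
    (by norm_num) le_rfl ?_ (by intro p; simp) ?_ ?_ ?_ ?_ ?_ (by intro a b _ _; simp)
  · rw [zero_add] at h
    have e : K₀ + 0 + (3 + (1296:ℝ) ^ 2 + 1296) * (37 + 1) + (3 + (1296:ℝ) ^ 2 + 1296) * K = K₀ + 0 + (3 + (1296:ℝ) ^ 2 + 1296) * (37 + K + 1) := by ring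
    rw [e]
    exact h
  · intro p hp
    rcases Xm_cases a M p with ⟨_, _, h⟩ | ⟨_, h⟩
    · rw [h]; exact XX_per (fa_monic 1) (fa_deg 1) one_deg p hp
    · rw [h]; exact XX_per (fa_monic a) (fa_deg a) one_deg p hp
  · intro p hp z
    have hp0 : (0:ℝ) < p := by exact_mod_cast hp.pos
    have hs0 : 0 < √(p:ℝ) := Real.sqrt_pos.2 hp0
    have key : ∀ a' : ℤ, |XX (fa a') 1 p z| ≤ 1296 / √p := by
      intro a'
      rcases le_or_gt p 36 with h36 | h36
      · have h1 := XX_le (f := fa a') (g := 1) p hp z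
        refine h1.trans ?_
        rw [le_div_iff₀ hs0]
        have h2 : √(p:ℝ) ≤ p := by
          rw [Real.sqrt_le_left hp0.le]
          have : (1:ℝ) ≤ p := by exact_mod_cast hp.one_le
          nlinarith
        have h3 : (p:ℝ) ≤ 36 := by exact_mod_cast h36
        calc (p:ℝ) * √p ≤ p * p := by gcongr
          _ ≤ 36 * 36 := by gcongr
          _ = 1296 := by norm_num
      · refine ((weak_fa a' p h36 hp).1 z).trans ?_
        gcongr
        norm_num
    rcases Xm_cases a M p with ⟨_, _, h⟩ | ⟨_, h⟩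
    · rw [h]; exact key 1
    · rw [h]; exact key a
  · intro p hp
    have hpp : p.Prime := by
      rw [mem_union, mem_filter, mem_filter] at hp
      rcases hp with h | h
      · exact h.2
      · exact h.2.1
    have hp0 : (0:ℝ) < p := by exact_mod_cast hpp.pos
    have key : ∀ a' : ℤ, |av p 0 (XX (fa a') 1 p)| ≤ 1296 / p := by
      intro a'
      rcases le_or_gt p 36 with h36 | h36
      · have h1 : ‖av p 0 (XX (fa a') 1 p)‖ ≤ p := by
          refine (norm_av_le p 0 _).trans ?_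
          calc av p 0 (fun z => ‖XX (fa a') 1 p z‖) ≤ av p 0 (fun _ => (p:ℝ)) := by
                apply av_mono
                intro z
                exact XX_le p hpp z
            _ = p := av_const hpp.pos 0 _
        rw [Real.norm_eq_abs] at h1
        refine h1.trans ?_
        rw [le_div_iff₀ hp0]
        have h3 : (p:ℝ) ≤ 36 := by exact_mod_cast h36
        calc (p:ℝ) * p ≤ 36 * 36 := by gcongr
          _ = 1296 := by norm_num
      · refine (weak_fa a' p h36 hpp).2.trans ?_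
        gcongr
        norm_num
    rcases Xm_cases a M p with ⟨_, _, h⟩ | ⟨_, h⟩
    · rw [h]; exact key 1
    · rw [h]; exact key a
  · have h1 : ∑ p ∈ (range 37).filter Nat.Prime, (1:ℝ) / p ≤ 37 := by
      calc ∑ p ∈ (range 37).filter Nat.Prime, (1:ℝ) / p ≤ ∑ p ∈ (range 37).filter Nat.Prime, (1:ℝ) := by
            refine sum_le_sum fun p hp => ?_
            rw [mem_filter] at hp
            have : (1:ℝ) ≤ p := by exact_mod_cast hp.2.one_le
            rw [div_le_one (by linarith)]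
            exact this
        _ = (((range 37).filter Nat.Prime).card : ℝ) := by simp
        _ ≤ 37 := by
            have := card_filter_le (range 37) Nat.Prime
            rw [card_range] at this
            exact_mod_cast this
    have h2 : ∑ p ∈ (range 37).filter Nat.Prime ∪ (range (M + 1)).filter (fun p : ℕ => p.Prime ∧ (p:ℤ) ∣ a), (1:ℝ) / p ≤
        ∑ p ∈ (range 37).filter Nat.Prime, (1:ℝ) / p + ∑ p ∈ (range (M + 1)).filter (fun p : ℕ => p.Prime ∧ (p:ℤ) ∣ a), (1:ℝ) / p := by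
      rw [← sum_union_inter]
      have : 0 ≤ ∑ p ∈ (range 37).filter Nat.Prime ∩ (range (M + 1)).filter (fun p : ℕ => p.Prime ∧ (p:ℤ) ∣ a), (1:ℝ) / p :=
        sum_nonneg fun p _ => by positivity
      linarith
    unfold sdiv at hK
    linarith
  · intro p hp hpE
    rw [mem_union, mem_filter, mem_filter, mem_range, mem_range, not_or] at hpE
    have h36 : 36 < p := by
      by_contra hh
      exact hpE.1 ⟨by omega, hp⟩
    rcases Xm_cases a M p with ⟨_, _, h⟩ | ⟨hn, h⟩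
    · rw [h]
      exact (stats (fa_monic 1) (fa_deg 1) one_deg p hp (by omega) (by simp) (fun hF => loc_fa 1 p h36 hF (not_dvd_one hp))).2.1
    · rw [h]
      have hna : ¬ (p:ℤ) ∣ a := by
        intro hd
        by_cases hM : M < p
        · exact hn ⟨hd, hM⟩
        · exact hpE.2 ⟨by omega, hp, hd⟩
      exact (stats (fa_monic a) (fa_deg a) one_deg p hp (by omega) (by simp) (fun hF => loc_fa a p h36 hF hna)).2.1
  · intro p hp hpE
    rw [mem_union, mem_filter, mem_filter, mem_range, mem_range, not_or] at hpE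
    have h36 : 36 < p := by
      by_contra hh
      exact hpE.1 ⟨by omega, hp⟩
    rcases Xm_cases a M p with ⟨_, _, h⟩ | ⟨hn, h⟩
    · rw [h]
      exact (stats (fa_monic 1) (fa_deg 1) one_deg p hp (by omega) (by simp) (fun hF => loc_fa 1 p h36 hF (not_dvd_one hp))).2.2
    · rw [h]
      have hna : ¬ (p:ℤ) ∣ a := by
        intro hd
        by_cases hM : M < p
        · exact hn ⟨hd, hM⟩
        · exact hpE.2 ⟨by omega, hp, hd⟩
      exact (stats (fa_monic a) (fa_deg a) one_deg p hp (by omega) (by simp) (fun hF => loc_fa a p h36 hF hna)).2.2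

/-- number of multiples in a window -/
lemma card_mult (A p : ℕ) (hp : 0 < p) (a₀ : ℤ) : (((range A).filter (fun i : ℕ => (p:ℤ) ∣ a₀ + i)).card : ℝ) ≤ A / p + 1 := by
  have h1 : ((range A).filter (fun i : ℕ => (p:ℤ) ∣ a₀ + i)).card ≤ (range (A / p + 1)).card := by
    apply card_le_card_of_injOn (fun i => i / p)
    · intro i hi
      rw [coe_filter, Set.mem_ofPred_eq, mem_range] at hi
      rw [coe_range, Set.mem_Iio]
      exact Nat.lt_succ_of_le (Nat.div_le_div_right hi.1.le)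
    · intro i hi j hj hij
      rw [coe_filter, Set.mem_ofPred_eq, mem_range] at hi hj
      simp only at hij
      have h2 : (p:ℤ) ∣ (i:ℤ) - j := by
        have := dvd_sub hi.2 hj.2
        have e : a₀ + (i:ℤ) - (a₀ + j) = (i:ℤ) - j := by ring
        rwa [e] at this
      have h3 : (j:ℤ) ≡ i [ZMOD p] := Int.modEq_iff_dvd.2 h2
      have h4 : j % p = i % p := by exact_mod_cast h3
      rw [← Nat.div_add_mod i p, ← Nat.div_add_mod j p, hij, h4]
  rw [card_range] at h1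
  calc (((range A).filter (fun i : ℕ => (p:ℤ) ∣ a₀ + i)).card : ℝ) ≤ ((A / p + 1 : ℕ) : ℝ) := by exact_mod_cast h1
    _ ≤ A / p + 1 := by
      push_cast
      gcongr
      exact Nat.cast_div_le

lemma sdiv_nonneg (M : ℕ) (a : ℤ) : 0 ≤ sdiv M a := sum_nonneg fun p _ => by positivity

lemma sum_sdiv : ∃ Z : ℝ, 0 ≤ Z ∧ ∀ (A N : ℕ) (a₀ : ℤ), N ≤ A → ∑ i ∈ range A, sdiv N (a₀ + i) ≤ Z * A := by
  obtain ⟨Z, hZ, hZs⟩ := sum_rpow_blk
  refine ⟨Z + 1, by positivity, fun A N a₀ hNA => ?_⟩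
  have e1 : ∀ i : ℕ, sdiv N (a₀ + i) = ∑ p ∈ (range (N + 1)).filter Nat.Prime, (if (p:ℤ) ∣ a₀ + i then (1:ℝ) / p else 0) := by
    intro i
    unfold sdiv
    rw [← filter_filter, sum_filter]
  rw [sum_congr rfl fun i _ => e1 i, sum_comm]
  have e2 : ∀ p ∈ (range (N + 1)).filter Nat.Prime, ∑ i ∈ range A, (if (p:ℤ) ∣ a₀ + i then (1:ℝ) / p else 0) ≤ A * (1 / √(p:ℝ)) ^ 3 + (1:ℝ) / p := by
    intro p hp
    rw [mem_filter] at hp
    have hp1 : (1:ℝ) ≤ p := by exact_mod_cast hp.2.one_le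
    rw [← sum_filter, sum_const, nsmul_eq_mul]
    have h1 := card_mult A p hp.2.pos a₀
    have hs1 : 1 ≤ √(p:ℝ) := Real.one_le_sqrt.2 hp1
    have hss : √(p:ℝ) ^ 2 = p := Real.sq_sqrt (by linarith)
    calc (((range A).filter (fun i : ℕ => (p:ℤ) ∣ a₀ + i)).card : ℝ) * (1 / p) ≤ (A / p + 1) * (1 / p) := by gcongr
      _ = A * (1 / (p:ℝ) ^ 2) + 1 / p := by ring
      _ ≤ A * (1 / √(p:ℝ)) ^ 3 + (1:ℝ) / p := by
        have e5 : 1 / (p:ℝ) ^ 2 ≤ (1 / √(p:ℝ)) ^ 3 := by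
          rw [div_pow, one_pow]
          have hs3 : 0 < √(p:ℝ) ^ 3 := by positivity
          apply one_div_le_one_div_of_le hs3
          calc √(p:ℝ) ^ 3 ≤ √(p:ℝ) ^ 4 := pow_le_pow_right₀ hs1 (by norm_num)
            _ = (√(p:ℝ) ^ 2) ^ 2 := by ring
            _ = (p:ℝ) ^ 2 := by rw [hss]
        have hA0 : (0:ℝ) ≤ A := Nat.cast_nonneg _
        have := mul_le_mul_of_nonneg_left e5 hA0
        linarith
  calc ∑ p ∈ (range (N + 1)).filter Nat.Prime, ∑ i ∈ range A, (if (p:ℤ) ∣ a₀ + i then (1:ℝ) / p else 0)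
      ≤ ∑ p ∈ (range (N + 1)).filter Nat.Prime, (A * (1 / √(p:ℝ)) ^ 3 + (1:ℝ) / p) := sum_le_sum e2
    _ = A * ∑ p ∈ (range (N + 1)).filter Nat.Prime, (1 / √(p:ℝ)) ^ 3 + ∑ p ∈ (range (N + 1)).filter Nat.Prime, (1:ℝ) / p := by
        rw [sum_add_distrib, mul_sum]
    _ ≤ A * Z + A := by
        gcongr
        · exact hZs _
        · -- at most `N` primes, each at least `1`
          have h0 : (range (N + 1)).filter Nat.Prime ⊆ Icc 1 N := by
            intro p hp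
            rw [mem_filter, mem_range] at hp
            rw [mem_Icc]
            exact ⟨hp.2.one_le, by omega⟩
          calc ∑ p ∈ (range (N + 1)).filter Nat.Prime, (1:ℝ) / p ≤ ∑ p ∈ (range (N + 1)).filter Nat.Prime, (1:ℝ) := by
                refine sum_le_sum fun p hp => ?_
                rw [mem_filter] at hp
                have : (1:ℝ) ≤ p := by exact_mod_cast hp.2.one_le
                rw [div_le_one (by linarith)]
                exact this
            _ = (((range (N + 1)).filter Nat.Prime).card : ℝ) := by simp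
            _ ≤ A := by
                have h1 := card_le_card h0
                rw [Nat.card_Icc] at h1
                have : ((range (N + 1)).filter Nat.Prime).card ≤ A := by omega
                exact_mod_cast this
    _ = (Z + 1) * A := by ring

/-- the boxes with both sides at least `N` -/
def boxes (N : ℕ) : Set (Multiset ℤ[X]) :=
  {S | ∃ A B : ℕ, N ≤ A ∧ N ≤ B ∧ ∃ a₀ b₀ : ℤ,
    S = (Finset.range A ×ˢ Finset.range B).val.map fun i : ℕ × ℕ => X ^ 3 + C (a₀ + (i.1 : ℤ)) * X + C (b₀ + (i.2 : ℤ))}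

lemma ave_box (A B : ℕ) (a₀ b₀ : ℤ) (φ : ℤ[X] → ℝ) :
    ave ((Finset.range A ×ˢ Finset.range B).val.map fun i : ℕ × ℕ => X ^ 3 + C (a₀ + (i.1 : ℤ)) * X + C (b₀ + (i.2 : ℤ))) φ =
      (A:ℝ)⁻¹ * ∑ i ∈ range A, av B b₀ (fun b => φ (fa (a₀ + i) + C b * 1)) := by
  unfold ave av
  rw [Multiset.map_map, Multiset.card_map, Finset.card_val, card_product, card_range, card_range]
  have : (Multiset.map (φ ∘ fun i : ℕ × ℕ => X ^ 3 + C (a₀ + (i.1 : ℤ)) * X + C (b₀ + (i.2 : ℤ))) (Finset.range A ×ˢ Finset.range B).val).sum =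
      ∑ q ∈ Finset.range A ×ˢ Finset.range B, φ (X ^ 3 + C (a₀ + (q.1 : ℤ)) * X + C (b₀ + (q.2 : ℤ))) := rfl
  rw [this, sum_product]
  simp only [smul_eq_mul, mul_one, fa]
  rw [← mul_sum]
  push_cast
  rw [div_eq_inv_mul, mul_inv, mul_assoc]

theorem lawA_boxes : LawA (1 / 2) boxes := by
  intro k F hF hB η hη
  obtain ⟨K₀, K₁, hK₁, hfam⟩ := fam_box
  obtain ⟨Z, hZ, hsd⟩ := sum_sdiv
  obtain ⟨B₀, hB₀⟩ := hB
  obtain ⟨B', hB'd⟩ : ∃ B' : ℝ, B' = |B₀| + 1 := ⟨_, rfl⟩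
  have hB'0 : 0 < B' := by rw [hB'd]; positivity
  have hB' : ∀ v, |F v| ≤ B' := fun v => (hB₀ v).trans (by rw [hB'd]; linarith [le_abs_self B₀])
  obtain ⟨I, hI⟩ : ∃ I, I = ∫ v, F v ∂(gau k) := ⟨_, rfl⟩
  have hIb : |I| ≤ B' := by
    rw [hI, ← Real.norm_eq_abs]
    have h1 := norm_integral_le_of_norm_le_const (μ := gau k) (f := F) (C := B') (Filter.Eventually.of_forall hB')
    simpa using h1
  obtain ⟨K, hK⟩ : ∃ K : ℝ, K = 4 * B' * (Z + 1) / η := ⟨_, rfl⟩
  have hK0 : 0 < K := by rw [hK]; positivity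
  obtain ⟨δ, hδ, N₀, h⟩ := law3 (K₀ + K₁ * K) (1 / 2) k F hF ⟨B', hB'⟩ (η := η / 2) (by positivity)
  refine ⟨δ, hδ, max N₀ 1, fun N hN S hS y hy3 hyi hyN => ?_⟩
  obtain ⟨A, B, hA, hBN, a₀, b₀, rfl⟩ := hS
  have hN1 : 1 ≤ N := (le_max_right _ _).trans hN
  have hN1' : (1:ℝ) ≤ N := by exact_mod_cast hN1
  have hA0 : (0:ℝ) < A := by
    have : 0 < A := by omega
    exact_mod_cast this
  have hThr : Thr k y (1 / δ) := ⟨hy3, hyi⟩
  have hmono := hThr.monotone (by positivity)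
  have hyle : y (Fin.last k) ≤ N := (Nat.le_self_pow (by norm_num) _).trans hyN
  rw [ave_box, ← hI]
  have hgood : ∀ a : ℤ, sdiv N a ≤ K → |av B b₀ (fun b => F (incr (1 / 2) (fa a + C b * 1) y)) - I| ≤ η / 2 := by
    intro a ha
    have h1 := h B (by
      have := (le_max_left N₀ 1).trans hN
      omega) (Xm a N) (hfam K a N ha) b₀ y hThr (hyN.trans hBN)
    have e1 : ∀ b, incr (1 / 2) (fa a + C b * 1) y = vec (1 / 2) (Xm a N) y b := by
      intro b
      rw [incr_eq (fa a) 1 (by positivity) hThr b]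
      ext i
      unfold vec inc
      congr 2
      refine sum_congr rfl fun p hp => ?_
      rw [mem_blk] at hp
      have hpN : p ≤ N := hp.1.2.trans ((hmono.1 (Fin.le_last _)).trans hyle)
      unfold Xm
      rw [if_neg]
      rintro ⟨_, h3⟩
      omega
    simp_rw [e1]
    rw [hI]
    exact h1
  have hbad : ∀ a : ℤ, |av B b₀ (fun b => F (incr (1 / 2) (fa a + C b * 1) y)) - I| ≤ 2 * B' := by
    intro a
    have hB1 : 0 < B := by omega
    have h1 : ‖av B b₀ (fun b => F (incr (1 / 2) (fa a + C b * 1) y))‖ ≤ B' := by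
      refine (norm_av_le B b₀ _).trans ?_
      calc av B b₀ (fun z => ‖F (incr (1 / 2) (fa a + C z * 1) y)‖) ≤ av B b₀ (fun _ => B') := by
            apply av_mono
            intro z
            exact hB' _
        _ = B' := av_const hB1 b₀ _
    rw [Real.norm_eq_abs] at h1
    refine (abs_sub _ _).trans ?_
    linarith
  have hpt : ∀ i ∈ range A, |av B b₀ (fun b => F (incr (1 / 2) (fa (a₀ + i) + C b * 1) y)) - I| ≤ η / 2 + 2 * B' / K * sdiv N (a₀ + i) := by
    intro i _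
    rcases le_or_gt (sdiv N (a₀ + i)) K with h1 | h1
    · have h2 := hgood _ h1
      have h3 := sdiv_nonneg N (a₀ + i)
      have : 0 ≤ 2 * B' / K * sdiv N (a₀ + i) := by positivity
      linarith
    · have h2 := hbad (a₀ + i)
      have h3 : 2 * B' ≤ 2 * B' / K * sdiv N (a₀ + i) := by
        rw [div_mul_eq_mul_div, le_div_iff₀ hK0]
        gcongr
      linarith
  have e2 : (A:ℝ)⁻¹ * ∑ i ∈ range A, av B b₀ (fun b => F (incr (1 / 2) (fa (a₀ + i) + C b * 1) y)) - I =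
      (A:ℝ)⁻¹ * ∑ i ∈ range A, (av B b₀ (fun b => F (incr (1 / 2) (fa (a₀ + i) + C b * 1) y)) - I) := by
    rw [sum_sub_distrib, sum_const, card_range, nsmul_eq_mul]
    field_simp
  rw [e2, abs_mul, abs_of_pos (by positivity : 0 < (A:ℝ)⁻¹)]
  calc (A:ℝ)⁻¹ * |∑ i ∈ range A, (av B b₀ (fun b => F (incr (1 / 2) (fa (a₀ + i) + C b * 1) y)) - I)|
      ≤ (A:ℝ)⁻¹ * ∑ i ∈ range A, (η / 2 + 2 * B' / K * sdiv N (a₀ + i)) := by
        gcongr
        exact (abs_sum_le_sum_abs _ _).trans (sum_le_sum hpt)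
    _ = (A:ℝ)⁻¹ * (A * (η / 2) + 2 * B' / K * ∑ i ∈ range A, sdiv N (a₀ + i)) := by
        rw [sum_add_distrib, sum_const, card_range, nsmul_eq_mul, mul_sum]
    _ ≤ (A:ℝ)⁻¹ * (A * (η / 2) + 2 * B' / K * (Z * A)) := by
        gcongr
        exact hsd A N a₀ hA
    _ = η / 2 + 2 * B' / K * Z := by field_simp
    _ ≤ η / 2 + η / 2 := by
        gcongr
        rw [hK]
        have e3 : 2 * B' / (4 * B' * (Z + 1) / η) * Z = η / 2 * (Z / (Z + 1)) := by field_simp; ring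
        rw [e3]
        have : Z / (Z + 1) ≤ 1 := by rw [div_le_one (by positivity)]; linarith
        calc η / 2 * (Z / (Z + 1)) ≤ η / 2 * 1 := by gcongr
          _ = η / 2 := mul_one _
    _ = η := by ring

end Pool.Agent.D0H53.EB
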