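import Mathlib
import Pool.Agent.D0H53.EB.L12

/-! The final form of the law. -/

set_option autoImplicit false

open Finset Polynomial MeasureTheory ProbabilityTheory

namespace Pool.Agent.D0H53.EB

/-- final form of the law -/
def LawF (e : ℝ) (𝓢 : ℕ → Set (Multiset ℤ[X])) : Prop :=
  (∀ (k : ℕ) (F : (Fin k → ℝ) → ℝ), Continuous F → (∃ B, ∀ v, |F v| ≤ B) → ∀ η : ℝ, 0 < η →
    ∃ A : ℕ, ∀ N : ℕ, A ≤ N → ∀ S ∈ 𝓢 N, ∀ y : Fin (k + 1) → ℕ, 3 ≤ y 0 →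
      (∀ i : Fin k, (A : ℝ) ≤ LL (y i.succ) - LL (y i.castSucc)) → y (Fin.last k) ^ 2 ≤ N →
        |ave S (fun h => F (incr e h y)) - ∫ v, F v ∂(Measure.pi fun _ : Fin k => gaussianReal 0 1)|
          ≤ η) ∧
  (∀ ε : ℝ, 0 < ε → ∀ η : ℝ, 0 < η →
    ∃ A : ℕ, ∀ N : ℕ, A ≤ N → ∀ S ∈ 𝓢 N, ∀ x : ℕ, A ≤ x → x ^ 2 ≤ N →
      ave S ({h | ¬ ((Real.log x) ^ (e - ε) ≤ bsd h x ∧ bsd h x ≤ (Real.log x) ^ (e + ε))}.indicator 1)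
        ≤ η) ∧
  (∀ K : ℝ, ∀ η : ℝ, 0 < η →
    ∃ A : ℕ, ∀ N : ℕ, A ≤ N → ∀ S ∈ 𝓢 N, ∀ y y' : ℕ, 3 ≤ y →
      (A : ℝ) ≤ LL y' - LL y → y' ^ 2 ≤ N →
        ave S ({h | ∃ ρ α : ℝ, ∀ z : ℕ, y ≤ z → z ≤ y' →
          |Real.log (bsd h z) - ρ * LL z - α| ≤ K}.indicator 1) ≤ η)

theorem lawF {e : ℝ} {𝓢 : ℕ → Set (Multiset ℤ[X])} (hA : LawA e 𝓢) : LawF e 𝓢 := by
  refine ⟨?_, ?_, ?_⟩
  · intro k F hF hB η hη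
    obtain ⟨δ, hδ, N₀, h⟩ := hA k F hF hB η hη
    refine ⟨max ⌈1 / δ⌉₊ N₀, fun N hN S hS y hy3 hyi hyN => ?_⟩
    have h1 : 1 / δ ≤ ((max ⌈1 / δ⌉₊ N₀ : ℕ) : ℝ) := (Nat.le_ceil _).trans (by exact_mod_cast le_max_left _ _)
    exact h N ((le_max_right _ _).trans hN) S hS y hy3 (fun i => h1.trans (hyi i)) hyN
  · intro ε hε η hη
    obtain ⟨δ, hδ, N₀, h⟩ := lawB_of_lawA hA ε hε η hη
    refine ⟨max ⌈1 / δ⌉₊ N₀, fun N hN S hS x hx hxN => ?_⟩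
    have h1 : 1 / δ ≤ ((max ⌈1 / δ⌉₊ N₀ : ℕ) : ℝ) := (Nat.le_ceil _).trans (by exact_mod_cast le_max_left _ _)
    exact h N ((le_max_right _ _).trans hN) S hS x (h1.trans (by exact_mod_cast hx)) hxN
  · intro K η hη
    obtain ⟨δ, hδ, N₀, h⟩ := lawC_of_lawA hA K η hη
    refine ⟨max ⌈1 / δ⌉₊ N₀, fun N hN S hS y y' hy3 hyy hyN => ?_⟩
    have h1 : 1 / δ ≤ ((max ⌈1 / δ⌉₊ N₀ : ℕ) : ℝ) := (Nat.le_ceil _).trans (by exact_mod_cast le_max_left _ _)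
    exact h N ((le_max_right _ _).trans hN) S hS y y' hy3 (h1.trans hyy) hyN

end Pool.Agent.D0H53.EB
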